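import Mathlib
import Pool.Agent.Lib.MP_7c08ba_nt.CN.T.Defs

set_option autoImplicit false

/-!
Project CD: central derivatives of the `L`-functions of the odd powers of canonical Hecke
characters of `ℚ(√-q)` and their quadratic twists, on average over the powers.  Definitions.
Plan: team store `cd_plan.md`.
-/

namespace Pool.Agent.Lib.MP_7c08ba_nt.CD

open NumberField IsDedekindDomain Pool.Agent.Lib.MP_7c08ba_nt.RZ
  Pool.Agent.Lib.MP_7c08ba_nt.CN Pool.Agent.Lib.MP_7c08ba_nt.CN.TW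
open scoped nonZeroDivisors ComplexConjugate

/-! ### The characters -/

/-- The quadratic character `(·/D)`, times the character modulo 4 if `o` is true. -/
def tw (o : Bool) (D : ℕ) (m : ℤ) : ℤ :=
  jacobiSym m D * (if o then ZMod.χ₄ (m : ZMod 4) else 1)

/-- The modulus of the twist, `D` or `4 D`. -/
def dl (o : Bool) (D : ℕ) : ℕ := (if o then 4 else 1) * D

/-- The square root of the conductor of the functional equation, `q D` or `4 q D`. -/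
def rr (o : Bool) (q D : ℕ) : ℕ := q * dl o D

section

variable {F : Type} [Field F] [NumberField F]

/-- The norm of a principal ideal. -/
noncomputable def nmm (x : 𝓞 F) : ℤ := ((Ideal.absNorm (Ideal.span {x}) : ℕ) : ℤ)

/-- The character modulo `s D` (or `4 s D`): `(a/q) tw(N x)` for `x ≡ a (mod s)`. -/
def IsC (o : Bool) (q D : ℕ) (s : 𝓞 F) (c : 𝓞 F → ℂ) : Prop :=
  ∀ (x : 𝓞 F) (a : ℤ), s ∣ x - a → c x = ((jacobiSym a q * tw o D (nmm x) : ℤ) : ℂ)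

/-- Hecke characters of type `(m, 0)`, `m` odd, with value `(a/q) tw(N t) σ(t)^m` at `(t)` for
`t ≡ a (mod s)`. -/
def IsTy (o : Bool) (q D : ℕ) (s : 𝓞 F) (σ : F →+* ℂ) (m : ℕ) (Φ : Ideal (𝓞 F) →*₀ ℂ) : Prop :=
  ∀ (t : 𝓞 F) (a : ℤ), t ≠ 0 → s ∣ t - a →
    Φ (Ideal.span {t}) = ((jacobiSym a q * tw o D (nmm t) : ℤ) : ℂ) * σ t ^ m

/-- The theta series of an ideal with the character `c` and the power `m`. -/
noncomputable def thc (c : 𝓞 F → ℂ) (σ : F →+* ℂ) (a : Ideal (𝓞 F)) (m : ℕ) (y : ℝ) : ℂ :=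
  ∑' x : a, c x * σ (x : 𝓞 F) ^ m * Real.exp (-(2 * Real.pi * Qa σ a x * y))

/-- The theta series of a function on the ideals. -/
noncomputable def gg (Φ : Ideal (𝓞 F) → ℂ) (y : ℝ) : ℂ :=
  ∑' b : (Ideal (𝓞 F))⁰, Φ b *
    Real.exp (-(2 * Real.pi * (Ideal.absNorm (b : Ideal (𝓞 F)) : ℝ) * y))

/-- `S` is a system of representatives of `a / m a`. -/
structure CRS (m : 𝓞 F) (a : Ideal (𝓞 F)) (S : Finset (𝓞 F)) : Prop where
  mem : ∀ x ∈ S, x ∈ a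
  uni : ∀ x ∈ a, ∃! r, r ∈ S ∧ ∃ y ∈ a, x - r = m * y

variable (F) in
theorem ids_fin (n : ℕ) : {a : Ideal (𝓞 F) | a ≠ ⊥ ∧ Ideal.absNorm a ≤ n}.Finite := by
  refine (Ideal.finite_setOf_absNorm_le (S := 𝓞 F) n).subset fun a ha => ha.2

variable (F) in
/-- The nonzero ideals of norm at most `n`. -/
noncomputable def ids (n : ℕ) : Finset (Ideal (𝓞 F)) := (ids_fin F n).toFinset

theorem mem_ids {n : ℕ} {a : Ideal (𝓞 F)} : a ∈ ids F n ↔ a ≠ ⊥ ∧ Ideal.absNorm a ≤ n := by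
  unfold ids
  rw [Set.Finite.mem_toFinset]
  rfl

/-- Primitive ideals: not divisible by a rational integer. -/
def Prm (a : Ideal (𝓞 F)) : Prop :=
  a ≠ ⊥ ∧ ∀ m : ℕ, Ideal.span {(m : 𝓞 F)} ∣ a → m = 1

open Classical in
/-- The primitive ideals prime to `s` of norm at most `n`. -/
noncomputable def prs (s : 𝓞 F) (n : ℕ) : Finset (Ideal (𝓞 F)) :=
  (ids F n).filter fun a => Prm a ∧ IsCoprime a (Ideal.span {s})

/-- The normalised values of the canonical character. -/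
noncomputable def uu (ψ : Ideal (𝓞 F) →*₀ ℂ) (a : Ideal (𝓞 F)) : ℂ :=
  ψ a / (Real.sqrt (Ideal.absNorm a) : ℂ)

/-- The terms of the Dirichlet series at the centre. -/
noncomputable def tm (o : Bool) (D : ℕ) (ψ : Ideal (𝓞 F) →*₀ ℂ) (k : ℕ) (a : Ideal (𝓞 F)) : ℂ :=
  (tw o D (Ideal.absNorm a) : ℂ) * uu ψ a ^ (2 * k - 1) / (Real.sqrt (Ideal.absNorm a) : ℂ)

/-- The sums over the ideals of norm at most `n`. -/
noncomputable def Bk (o : Bool) (D : ℕ) (ψ : Ideal (𝓞 F) →*₀ ℂ) (k n : ℕ) : ℂ :=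
  ∑ a ∈ ids F n, tm o D ψ k a

/-- The sums which give the central derivatives. -/
noncomputable def Sk (v : ℕ → ℕ → ℝ) (o : Bool) (D : ℕ) (ψ : Ideal (𝓞 F) →*₀ ℂ) (k : ℕ) : ℂ :=
  ∑' n : ℕ, (v k (n + 1) : ℂ) * Bk o D ψ k (n + 1)

end

/-! ### The weights -/

/-- The incomplete Gamma function `Γ(k, u) / Γ(k)`. -/
noncomputable def Pk (k : ℕ) (u : ℝ) : ℝ :=
  Real.exp (-u) * ∑ j ∈ Finset.range k, u ^ j / (j.factorial : ℝ)

/-- The weights. -/
noncomputable def vv (c₀ : ℝ) (k n : ℕ) : ℝ :=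
  ∫ u in (c₀ * n)..(c₀ * (n + 1)), Pk k u / u

/-- What is used about the weights. -/
structure Wt (v : ℕ → ℕ → ℝ) : Prop where
  nn : ∀ k n, 1 ≤ n → 0 ≤ v k n
  le : ∀ k n, 1 ≤ n → v k n ≤ 1 / n
  mono : ∀ k n, 1 ≤ n → v k n ≤ v (k + 1) n
  dec : ∃ (C : ℕ) (δ : ℝ), 1 ≤ C ∧ 0 < δ ∧ ∀ k n, 1 ≤ k → C * k ≤ n →
    v k n ≤ Real.exp (-(δ * n))
  sum : ∃ (δ : ℝ) (k₀ : ℕ), 0 < δ ∧ ∀ k, k₀ ≤ k →
    δ * Real.log k ≤ ∑' n : ℕ, v k (n + 1)

end Pool.Agent.Lib.MP_7c08ba_nt.CD
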