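import Mathlib
import Pool.Agent.Lib.MP_7c08ba_nt.CD.Defs
import Pool.Agent.Lib.MP_7c08ba_nt.CN.StAn

set_option autoImplicit false

/-!
Project CD, part A: the functional equation and the central derivative.  One module = one file
`CD/A<Name>.lean` proving `theorem st<Name> : St<Name>`, with earlier statements as hypotheses.
-/

namespace Pool.Agent.Lib.MP_7c08ba_nt.CD

open NumberField IsDedekindDomain MeasureTheory Set Pool.Agent.Lib.MP_7c08ba_nt.RZ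
  Pool.Agent.Lib.MP_7c08ba_nt.CN Pool.Agent.Lib.MP_7c08ba_nt.CN.TW
open scoped nonZeroDivisors ComplexConjugate

/-- (Cb) the character `c` -/
def StCb : Prop :=
  ∀ (q : ℕ) (F : Type) (_ : Field F) (_ : NumberField F) (s : 𝓞 F) (σ : F →+* ℂ)
    (χ : DirichletCharacter ℂ q) (cj : 𝓞 F ≃+* 𝓞 F) (o : Bool) (D : ℕ),
    Dat q s σ χ cj → TwA q D →
    (∃ c : 𝓞 F → ℂ, IsC o q D s c) ∧ ∀ c : 𝓞 F → ℂ, IsC o q D s c →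
      (∀ x y, c (x * y) = c x * c y) ∧ c 1 = 1 ∧ c (-1) = -1 ∧
      (∀ x y, s * (dl o D : 𝓞 F) ∣ x - y → c x = c y) ∧ (∀ x, c (cj x) = c x) ∧
      (∀ x, IsCoprime x (s * (dl o D : 𝓞 F)) → c x = 1 ∨ c x = -1) ∧
      (∀ x, ¬ IsCoprime x (s * (dl o D : 𝓞 F)) → c x = 0) ∧
      (∀ a : Ideal (𝓞 F), IsCoprime a (Ideal.span {s * (dl o D : 𝓞 F)}) →
        c (Ideal.absNorm a : 𝓞 F) = 1)

/-- (Prim) the character `c` is primitive modulo `s D` or `4 s D` -/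
def StPrim : Prop :=
  ∀ (q : ℕ) (F : Type) (_ : Field F) (_ : NumberField F) (s : 𝓞 F) (σ : F →+* ℂ)
    (χ : DirichletCharacter ℂ q) (cj : 𝓞 F ≃+* 𝓞 F) (o : Bool) (D : ℕ) (c : 𝓞 F → ℂ),
    Dat q s σ χ cj → TwA q D → IsC o q D s c → ∀ P : Ideal (𝓞 F), P.IsPrime →
    s * (dl o D : 𝓞 F) ∈ P →
    ∃ t : 𝓞 F, (∀ y ∈ P, s * (dl o D : 𝓞 F) ∣ (t - 1) * y) ∧ c t = -1

/-- (T) the finite Fourier transform of `c` -/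
def StT : Prop :=
  ∀ (q : ℕ) (F : Type) (_ : Field F) (_ : NumberField F) (s : 𝓞 F) (σ : F →+* ℂ)
    (χ : DirichletCharacter ℂ q) (cj : 𝓞 F ≃+* 𝓞 F) (o : Bool) (D : ℕ) (c : 𝓞 F → ℂ),
    Dat q s σ χ cj → TwA q D → IsC o q D s c →
    ∃ G : ℂ, ∀ (a : Ideal (𝓞 F)) (S : Finset (𝓞 F)) (z : 𝓞 F), a ≠ ⊥ →
      IsCoprime a (Ideal.span {s * (dl o D : 𝓞 F)}) → CRS (s * (dl o D : 𝓞 F)) a S → z ∈ a →
      ∑ x ∈ S, c x * ee (-(((2 * (σ x * conj (σ z)).re / ((rr o q D : ℝ) *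
        (Ideal.absNorm a : ℝ)) : ℝ)) : ℂ)) = G * c z

/-- (Crs) systems of representatives, and the sum over an ideal as a sum over the classes -/
def StCrs : Prop :=
  ∀ (q : ℕ) (F : Type) (_ : Field F) (_ : NumberField F) (s : 𝓞 F) (σ : F →+* ℂ)
    (χ : DirichletCharacter ℂ q) (cj : 𝓞 F ≃+* 𝓞 F) (m : 𝓞 F) (a : Ideal (𝓞 F)),
    Dat q s σ χ cj → m ≠ 0 → a ≠ ⊥ → (∃ S : Finset (𝓞 F), CRS m a S) ∧
    ∀ (S : Finset (𝓞 F)) (X Y : 𝓞 F) (f : 𝓞 F → ℂ), CRS m a S → OBasis σ a X Y →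
      (Summable fun x : a => ‖f x‖) →
      (∀ r ∈ S, Summable fun p : ℤ × ℤ => ‖f (r + m * (p.1 * X + p.2 * Y))‖) ∧
      ∑' x : a, f x = ∑ r ∈ S, ∑' p : ℤ × ℤ, f (r + m * (p.1 * X + p.2 * Y))

/-- (ThF) the functional equation of the theta series of an ideal -/
def StThF : Prop :=
  ∀ (q : ℕ) (F : Type) (_ : Field F) (_ : NumberField F) (s : 𝓞 F) (σ : F →+* ℂ)
    (χ : DirichletCharacter ℂ q) (cj : 𝓞 F ≃+* 𝓞 F) (o : Bool) (D : ℕ) (c : 𝓞 F → ℂ),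
    Dat q s σ χ cj → TwA q D → IsC o q D s c →
    ∃ W : ℂ, ∀ (a : Ideal (𝓞 F)) (k : ℕ) (y : ℝ), a ≠ ⊥ →
      IsCoprime a (Ideal.span {s * (dl o D : 𝓞 F)}) → 1 ≤ k → 0 < y →
      thc c σ a (2 * k - 1) (1 / (rr o q D * y)) =
        (-1) ^ k * W * (y : ℂ) ^ (2 * k) * thc c σ a (2 * k - 1) (y / rr o q D)

/-- (Phi) size of the values of `Φ` -/
def StPhi : Prop :=
  ∀ (q : ℕ) (F : Type) (_ : Field F) (_ : NumberField F) (s : 𝓞 F) (σ : F →+* ℂ)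
    (χ : DirichletCharacter ℂ q) (cj : 𝓞 F ≃+* 𝓞 F) (o : Bool) (D k : ℕ)
    (Φ : Ideal (𝓞 F) →*₀ ℂ), Dat q s σ χ cj → TwA q D → 1 ≤ k → IsTy o q D s σ (2 * k - 1) Φ →
    (∀ b : Ideal (𝓞 F), ‖Φ b‖ ≤ (Ideal.absNorm b : ℝ) ^ ((k : ℝ) - 1 / 2)) ∧
    (∀ b : Ideal (𝓞 F), b ≠ ⊥ → IsCoprime b (Ideal.span {s * (dl o D : 𝓞 F)}) → Φ b ≠ 0) ∧
    (∀ b : Ideal (𝓞 F), ¬ IsCoprime b (Ideal.span {s * (dl o D : 𝓞 F)}) → Φ b = 0)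

/-- (Cnt) the number of ideals of bounded norm -/
def StCnt : Prop :=
  ∀ (F : Type) (_ : Field F) (_ : NumberField F), ∃ C : ℝ, 0 < C ∧ ∀ n : ℕ, 1 ≤ n →
    ((ids F n).card : ℝ) ≤ C * n ∧
    ∑ a ∈ ids F n, (Ideal.absNorm a : ℝ)⁻¹ ≤ C * (1 + Real.log n) ∧
    ∑ a ∈ ids F n, (Real.sqrt (Ideal.absNorm a : ℝ))⁻¹ ≤ C * Real.sqrt n

/-- (Gb) convergence, continuity and size of the theta series of a function on the ideals -/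
def StGb : Prop :=
  ∀ (F : Type) (_ : Field F) (_ : NumberField F) (Φ : Ideal (𝓞 F) → ℂ) (k : ℕ), 1 ≤ k →
    (∀ b : Ideal (𝓞 F), ‖Φ b‖ ≤ (Ideal.absNorm b : ℝ) ^ ((k : ℝ) - 1 / 2)) →
    (∀ y : ℝ, 0 < y → Summable fun b : (Ideal (𝓞 F))⁰ => ‖Φ b *
      Real.exp (-(2 * Real.pi * (Ideal.absNorm (b : Ideal (𝓞 F)) : ℝ) * y))‖) ∧
    ContinuousOn (gg Φ) (Ioi 0) ∧
    (∀ y₀ : ℝ, 0 < y₀ → ∃ C : ℝ, ∀ y : ℝ, y₀ ≤ y → ‖gg Φ y‖ ≤ C * Real.exp (-(Real.pi * y))) ∧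
    ∀ z : ℂ, 1 / 2 < z.re →
      Summable fun b : (Ideal (𝓞 F))⁰ => ‖Φ b * (Ideal.absNorm (b : Ideal (𝓞 F)) : ℂ) ^
        (-((k : ℂ) + z))‖

/-- (Gth) the theta series of `Φ` as a sum over the classes of ideals -/
def StGth : Prop :=
  ∀ (q : ℕ) (F : Type) (_ : Field F) (_ : NumberField F) (s : 𝓞 F) (σ : F →+* ℂ)
    (χ : DirichletCharacter ℂ q) (cj : 𝓞 F ≃+* 𝓞 F) (o : Bool) (D k : ℕ) (c : 𝓞 F → ℂ)
    (Φ : Ideal (𝓞 F) →*₀ ℂ) (r : Reps σ) (y : ℝ), Dat q s σ χ cj → TwA q D → 1 ≤ k →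
    IsC o q D s c → IsTy o q D s σ (2 * k - 1) Φ →
    (∀ A, IsCoprime (r.R A : Ideal (𝓞 F)) (Ideal.span {s * (dl o D : 𝓞 F)})) → 0 < y →
    gg Φ y = 1 / 2 * ∑ A : ClassGroup (𝓞 F), (Φ (r.R A : Ideal (𝓞 F)))⁻¹ *
      thc c σ (r.R A : Ideal (𝓞 F)) (2 * k - 1) y

/-- (GF) the functional equation of the theta series of `Φ` -/
def StGF : Prop :=
  ∀ (q : ℕ) (F : Type) (_ : Field F) (_ : NumberField F) (s : 𝓞 F) (σ : F →+* ℂ)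
    (χ : DirichletCharacter ℂ q) (cj : 𝓞 F ≃+* 𝓞 F) (o : Bool) (D : ℕ),
    Dat q s σ χ cj → TwA q D →
    ∃ W : ℂ, ∀ (k : ℕ) (Φ : Ideal (𝓞 F) →*₀ ℂ) (y : ℝ), 1 ≤ k → IsTy o q D s σ (2 * k - 1) Φ →
      0 < y → gg Φ (1 / (rr o q D * y)) =
        (-1) ^ k * W * (y : ℂ) ^ (2 * k) * gg Φ (y / rr o q D)

/-- (Mel) the Mellin transform: continuation, sign and derivative -/
def StMel : Prop :=
  ∀ (F : Type) (_ : Field F) (_ : NumberField F) (Φ : Ideal (𝓞 F) → ℂ) (k : ℕ) (R : ℝ) (ε : ℂ),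
    1 ≤ k → 0 < R →
    (∀ b : Ideal (𝓞 F), ‖Φ b‖ ≤ (Ideal.absNorm b : ℝ) ^ ((k : ℝ) - 1 / 2)) →
    (∀ x : ℝ, 0 < x → gg Φ (1 / (R * x)) = ε * (x : ℂ) ^ (2 * k) * gg Φ (x / R)) →
    ∃ Λ : ℂ → ℂ, Differentiable ℂ Λ ∧
      (∀ z : ℂ, 1 < z.re →
        Λ z = ∑' b : (Ideal (𝓞 F))⁰, Φ b * (Ideal.absNorm (b : Ideal (𝓞 F)) : ℂ) ^
          (-((k : ℂ) + z))) ∧
      (Λ 0 ≠ 0 → ε = 1) ∧
      (ε = -1 → Λ 0 = 0 ∧ deriv Λ 0 * ((R / (2 * Real.pi)) ^ k * (k - 1).factorial) =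
        2 * ∫ x in Ioi (1 : ℝ), gg Φ (x / R) * (x : ℂ) ^ (k - 1) * Real.log x)

/-- (Pv) a scalar integral -/
def StPv : Prop :=
  ∀ (k : ℕ) (c : ℝ), 1 ≤ k → 0 < c →
    IntegrableOn (fun u => Pk k u / u) (Ioi c) ∧
    IntegrableOn (fun x => Real.exp (-(c * x)) * x ^ (k - 1) * Real.log x) (Ioi 1) ∧
    ∫ x in Ioi (1 : ℝ), Real.exp (-(c * x)) * x ^ (k - 1) * Real.log x =
      (k - 1).factorial / c ^ k * ∫ u in Ioi c, Pk k u / u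

/-- (Wv) the weights -/
def StWv : Prop :=
  ∀ c₀ : ℝ, 0 < c₀ → Wt (vv c₀) ∧ ∀ k N : ℕ, 1 ≤ k → 1 ≤ N →
    (Summable fun n : ℕ => vv c₀ k (N + n)) ∧
    ∫ u in Ioi (c₀ * N), Pk k u / u = ∑' n : ℕ, vv c₀ k (N + n)

/-- (Lg) the integral of (Mel) in terms of the sums over the ideals of bounded norm -/
def StLg : Prop :=
  ∀ (F : Type) (_ : Field F) (_ : NumberField F) (Φ : Ideal (𝓞 F) → ℂ) (k : ℕ) (R : ℝ),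
    1 ≤ k → 0 < R →
    (∀ b : Ideal (𝓞 F), ‖Φ b‖ ≤ (Ideal.absNorm b : ℝ) ^ ((k : ℝ) - 1 / 2)) →
    ∫ x in Ioi (1 : ℝ), gg Φ (x / R) * (x : ℂ) ^ (k - 1) * Real.log x =
      (R / (2 * Real.pi)) ^ k * (k - 1).factorial * ∑' n : ℕ,
        (vv (2 * Real.pi / R) k (n + 1) : ℂ) * ∑ b ∈ ids F (n + 1),
          Φ b * ((Ideal.absNorm b : ℂ) ^ k)⁻¹

/-- (Sg) the sign of the functional equation -/
def StSg : Prop :=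
  ∀ (q : ℕ) (F : Type) (_ : Field F) (_ : NumberField F) (s : 𝓞 F) (σ : F →+* ℂ)
    (χ : DirichletCharacter ℂ q) (cj : 𝓞 F ≃+* 𝓞 F) (o : Bool) (D : ℕ)
    (ψ : Ideal (𝓞 F) →*₀ ℂ), Dat q s σ χ cj → TwA q D → D % 8 = 1 → IsCan q s σ 1 ψ →
    ∀ (k : ℕ) (Φ : Ideal (𝓞 F) →*₀ ℂ) (x : ℝ), 1 ≤ k → IsTy o q D s σ (2 * k - 1) Φ → 0 < x →
      gg Φ (1 / (rr o q D * x)) =
        (if (Odd k ↔ o = false) then 1 else -1) * (x : ℂ) ^ (2 * k) * gg Φ (x / rr o q D)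

/-- (LA) the central derivative -/
def StLA : Prop :=
  ∀ (q : ℕ) (F : Type) (_ : Field F) (_ : NumberField F) (s : 𝓞 F) (σ : F →+* ℂ)
    (χ : DirichletCharacter ℂ q) (cj : 𝓞 F ≃+* 𝓞 F) (o : Bool) (D : ℕ)
    (ψ : Ideal (𝓞 F) →*₀ ℂ), Dat q s σ χ cj → TwA q D → D % 8 = 1 → IsCan q s σ 1 ψ →
    ∀ (k : ℕ) (Φ : Ideal (𝓞 F) →*₀ ℂ), 1 ≤ k → ¬ (Odd k ↔ o = false) →
      (∀ a : Ideal (𝓞 F), Φ a = (tw o D (Ideal.absNorm a) : ℂ) * ψ a ^ (2 * k - 1)) →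
      ∃ Λ : ℂ → ℂ, IsLF Φ k Λ ∧ Λ 0 = 0 ∧
        deriv Λ 0 = 2 * Sk (vv (2 * Real.pi / rr o q D)) o D ψ k

end Pool.Agent.Lib.MP_7c08ba_nt.CD
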