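import Mathlib
import Pool.Agent.Lib.MP_7c08ba_nt.CD.StA

set_option autoImplicit false

/-!
Project CD, module Cb: the character `c`.
-/

namespace Pool.Agent.Lib.MP_7c08ba_nt.CD

open NumberField IsDedekindDomain MeasureTheory Set Pool.Agent.Lib.MP_7c08ba_nt.RZ
  Pool.Agent.Lib.MP_7c08ba_nt.CN Pool.Agent.Lib.MP_7c08ba_nt.CN.TW
open scoped nonZeroDivisors ComplexConjugate

namespace CbAux

/-! ### The function `tw` -/

theorem tw_mul (o : Bool) (D : ℕ) (m n : ℤ) : tw o D (m * n) = tw o D m * tw o D n := by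
  unfold tw
  rw [jacobiSym.mul_left]
  cases o
  · simp
  · simp only [if_true, Int.cast_mul, map_mul]
    ring

theorem tw_one (o : Bool) (D : ℕ) : tw o D 1 = 1 := by
  unfold tw
  rw [jacobiSym.one_left]
  cases o <;> simp

theorem D_dvd_dl (o : Bool) (D : ℕ) : (D : ℤ) ∣ (dl o D : ℤ) := by
  unfold dl
  push_cast
  exact dvd_mul_left _ _

theorem four_dvd_dl (D : ℕ) : (4 : ℤ) ∣ (dl true D : ℤ) := by
  unfold dl
  simp

theorem tw_congr {o : Bool} {D : ℕ} {m n : ℤ} (h : (dl o D : ℤ) ∣ m - n) :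
    tw o D m = tw o D n := by
  unfold tw
  have h1 : jacobiSym m D = jacobiSym n D := by
    apply jacobiSym.mod_left'
    exact (Int.emod_eq_emod_iff_emod_sub_eq_zero).mpr
      (Int.emod_eq_zero_of_dvd ((D_dvd_dl o D).trans h))
  rw [h1]
  cases o
  · rfl
  · have h2 : ((m : ℤ) : ZMod 4) = (n : ZMod 4) := by
      rw [ZMod.intCast_eq_intCast_iff_dvd_sub]
      have h3 := (four_dvd_dl D).trans h
      have h4 : ((4 : ℕ) : ℤ) = 4 := rfl
      rw [h4, ← neg_sub]
      exact h3.neg_right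
    rw [h2]

theorem chi4_zero {m : ℤ} (h : ¬ IsCoprime m 4) : ZMod.χ₄ (m : ZMod 4) = 0 := by
  rw [ZMod.χ₄_int_eq_if_mod_four, if_pos]
  by_contra h1
  apply h
  have h2 : IsCoprime m 2 := by
    rw [Int.isCoprime_iff_gcd_eq_one]
    have h3 : Int.gcd m 2 ∣ 2 := by
      have := Int.gcd_dvd_right (a := m) (b := 2)
      exact_mod_cast this
    rcases (Nat.dvd_prime Nat.prime_two).1 h3 with h4 | h4
    · exact h4
    · exfalso
      apply h1
      have h5 : (2 : ℤ) ∣ m := by
        have := Int.gcd_dvd_left (a := m) (b := 2)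
        rw [h4] at this
        exact_mod_cast this
      exact Int.emod_eq_zero_of_dvd h5
  have h6 : (4 : ℤ) = 2 * 2 := by norm_num
  rw [h6]
  exact h2.mul_right h2

theorem chi4_unit {m : ℤ} (h : IsCoprime m 4) :
    ZMod.χ₄ (m : ZMod 4) = 1 ∨ ZMod.χ₄ (m : ZMod 4) = -1 := by
  rw [ZMod.χ₄_int_eq_if_mod_four]
  have h1 : ¬ m % 2 = 0 := by
    intro h2
    have h3 : (2 : ℤ) ∣ m := Int.dvd_of_emod_eq_zero h2
    have h4 := h.isUnit_of_dvd' h3 (by norm_num)
    rw [Int.isUnit_iff] at h4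
    omega
  rw [if_neg h1]
  split_ifs
  · exact Or.inl rfl
  · exact Or.inr rfl

theorem tw_unit {o : Bool} {D : ℕ} {m : ℤ} (h : IsCoprime m (dl o D : ℤ)) :
    tw o D m = 1 ∨ tw o D m = -1 := by
  have h1 : IsCoprime m (D : ℤ) := h.of_isCoprime_of_dvd_right (D_dvd_dl o D)
  have h2 : jacobiSym m D = 1 ∨ jacobiSym m D = -1 := by
    apply jacobiSym.eq_one_or_neg_one
    exact (Int.isCoprime_iff_gcd_eq_one).1 h1
  unfold tw
  cases o
  · simpa using h2
  · have h3 : IsCoprime m 4 := h.of_isCoprime_of_dvd_right (four_dvd_dl D)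
    have h4 := chi4_unit h3
    simp only [if_true]
    rcases h2 with h2 | h2 <;> rcases h4 with h4 | h4 <;> rw [h2, h4] <;> norm_num

theorem tw_zero {o : Bool} {D : ℕ} (hD : D ≠ 0) {m : ℤ} (h : ¬ IsCoprime m (dl o D : ℤ)) :
    tw o D m = 0 := by
  have : NeZero D := ⟨hD⟩
  have hj : ¬ IsCoprime m (D : ℤ) → jacobiSym m D = 0 := by
    intro h1
    rw [jacobiSym.eq_zero_iff_not_coprime]
    intro h2
    exact h1 ((Int.isCoprime_iff_gcd_eq_one).2 h2)
  unfold tw
  cases o
  · have h1 : (dl false D : ℤ) = D := by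
      unfold dl
      simp
    rw [h1] at h
    rw [hj h, zero_mul]
  · have h1 : (dl true D : ℤ) = 4 * D := by
      unfold dl
      simp
    rw [h1] at h
    by_cases h2 : IsCoprime m (D : ℤ)
    · have h3 : ¬ IsCoprime m 4 := fun h3 => h (h3.mul_right h2)
      simp only [if_true]
      rw [chi4_zero h3, mul_zero]
    · rw [hj h2, zero_mul]

/-! ### Rational integers in the ring of integers -/

section

variable {F : Type} [Field F] [NumberField F]

theorem int_dvd {m n : ℤ} (h : (n : 𝓞 F) ∣ (m : 𝓞 F)) : n ∣ m := by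
  have h1 := map_dvd (Algebra.norm ℤ) h
  have h2 : ∀ k : ℤ, Algebra.norm ℤ (k : 𝓞 F) = k ^ Module.finrank ℤ (𝓞 F) := by
    intro k
    have h3 := Algebra.norm_algebraMap (S := 𝓞 F) k
    rwa [eq_intCast] at h3
  rw [h2, h2] at h1
  exact (Int.pow_dvd_pow_iff (Module.finrank_pos (R := ℤ) (M := 𝓞 F)).ne').1 h1

theorem int_coprime {m n : ℤ} (h : IsCoprime (m : 𝓞 F) (n : 𝓞 F)) : IsCoprime m n := by
  rw [Int.isCoprime_iff_gcd_eq_one]
  have h1 : (((Int.gcd m n : ℕ) : ℤ) : 𝓞 F) ∣ (m : 𝓞 F) := by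
    obtain ⟨k, hk⟩ := Int.gcd_dvd_left (a := m) (b := n)
    exact ⟨k, by exact_mod_cast congrArg (fun z : ℤ => (z : 𝓞 F)) hk⟩
  have h2 : (((Int.gcd m n : ℕ) : ℤ) : 𝓞 F) ∣ (n : 𝓞 F) := by
    obtain ⟨k, hk⟩ := Int.gcd_dvd_right (a := m) (b := n)
    exact ⟨k, by exact_mod_cast congrArg (fun z : ℤ => (z : 𝓞 F)) hk⟩
  obtain ⟨u, v, huv⟩ := h
  have h3 : (((Int.gcd m n : ℕ) : ℤ) : 𝓞 F) ∣ ((1 : ℤ) : 𝓞 F) := by
    rw [Int.cast_one, ← huv]
    exact dvd_add (h1.mul_left u) (h2.mul_left v)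
  have h4 := int_dvd h3
  have h5 : Int.gcd m n ∣ 1 := by exact_mod_cast h4
  exact Nat.dvd_one.1 h5

theorem coprime_int {m n : ℤ} (h : IsCoprime m n) : IsCoprime (m : 𝓞 F) (n : 𝓞 F) := by
  have h1 := h.map (Int.castRingHom (𝓞 F))
  simpa using h1

theorem nmm_mul (x y : 𝓞 F) : nmm (x * y) = nmm x * nmm y := by
  unfold nmm
  rw [← Ideal.span_singleton_mul_span_singleton, map_mul]
  push_cast
  rfl

theorem nmm_one : nmm (1 : 𝓞 F) = 1 := by
  unfold nmm
  rw [Ideal.span_singleton_one, ← Ideal.one_eq_top, map_one]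
  rfl

theorem nmm_neg_one : nmm (-1 : 𝓞 F) = 1 := by
  unfold nmm
  rw [Ideal.span_singleton_neg, Ideal.span_singleton_one, ← Ideal.one_eq_top, map_one]
  rfl

end

end CbAux

open CbAux in
/-- (Cb) the character `c` -/
theorem stCb (h1 : StBas) (h3 : StReps) : StCb := by
  intro q F _ _ s σ χ cj o D hD hT
  obtain ⟨-, hcc, hcs, hsub, hmul, -, hN, -, hprime, hrep, hdvd⟩ := h1 q F _ _ s σ χ cj hD
  obtain ⟨hodd, -⟩ := h3 q F _ _ s σ χ cj hD
  have hq1 : 1 < q := hD.prime.one_lt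
  have hqmod := hD.mod
  have hD0 : D ≠ 0 := hT.sqf.ne_zero
  have hqz : Prime (q : ℤ) := Nat.prime_iff_prime_int.mp hD.prime
  have hs0 : s ≠ 0 := by
    rintro rfl
    have h2 := (hdvd q).mpr dvd_rfl
    rw [zero_dvd_iff] at h2
    have h4 : (q : 𝓞 F) = 0 := by exact_mod_cast h2
    exact (by omega : q ≠ 0) (by exact_mod_cast h4)
  have hsI : (Ideal.span {s} : Ideal (𝓞 F)) ≠ ⊥ := by
    rwa [Ne, Ideal.span_singleton_eq_bot]
  have hmax : (Ideal.span {s} : Ideal (𝓞 F)).IsMaximal := hprime.isMaximal hsI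
  have hcopI : ∀ a : Ideal (𝓞 F), ¬ IsCoprime a (Ideal.span {s}) ↔ a ≤ Ideal.span {s} := by
    intro a
    constructor
    · intro h
      by_contra hle
      apply h
      rw [Ideal.isCoprime_iff_sup_eq]
      by_contra hne
      have h5 : (Ideal.span {s} : Ideal (𝓞 F)) ≤ a ⊔ Ideal.span {s} := le_sup_right
      have h6 := hmax.eq_of_le hne h5
      exact hle (by rw [h6]; exact le_sup_left)
    · intro h h'
      rw [Ideal.isCoprime_iff_sup_eq, sup_eq_right.mpr h] at h'
      exact hprime.ne_top h'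
  have hcop : ∀ x : 𝓞 F, IsCoprime x s ↔ ¬ s ∣ x := by
    intro x
    rw [← Ideal.isCoprime_span_singleton_iff, ← not_iff_not, not_not, hcopI,
      Ideal.span_singleton_le_span_singleton]
  -- the norm
  have hnm : ∀ x : 𝓞 F, x * cj x = (nmm x : 𝓞 F) := by
    intro x
    rw [hmul x]
    unfold nmm
    push_cast
    rfl
  have hcast : ∀ m n : ℤ, (m : 𝓞 F) = (n : 𝓞 F) → m = n := fun m n h => by exact_mod_cast h
  have hnmcj : ∀ x : 𝓞 F, nmm (cj x) = nmm x := by
    intro x
    apply hcast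
    rw [← hnm, ← hnm, hcc, mul_comm]
  have hnmnat : ∀ n : ℕ, nmm (n : 𝓞 F) = (n : ℤ) * n := by
    intro n
    apply hcast
    rw [← hnm, map_natCast]
    push_cast
    rfl
  have hwd : ∀ (x : 𝓞 F) (a b : ℤ), s ∣ x - a → s ∣ x - b → jacobiSym a q = jacobiSym b q := by
    intro x a b ha hb
    apply jacobiSym.mod_left'
    have h5 : s ∣ ((a - b : ℤ) : 𝓞 F) := by
      have h6 := dvd_sub hb ha
      have h7 : x - b - (x - a) = ((a - b : ℤ) : 𝓞 F) := by
        push_cast
        ring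
      rwa [h7] at h6
    exact (Int.emod_eq_emod_iff_emod_sub_eq_zero).mpr
      (Int.emod_eq_zero_of_dvd ((hdvd _).1 h5))
  have hcopd : ∀ x : 𝓞 F, IsCoprime x ((dl o D : ℕ) : 𝓞 F) ↔ IsCoprime (nmm x) (dl o D : ℤ) := by
    intro x
    have e1 : ((dl o D : ℕ) : 𝓞 F) = (((dl o D : ℕ) : ℤ) : 𝓞 F) := by push_cast; rfl
    constructor
    · intro h
      apply int_coprime (F := F)
      rw [← hnm, ← e1]
      refine h.mul_left ?_
      have h5 := h.map (cj : 𝓞 F →+* 𝓞 F)
      have h6 : (cj : 𝓞 F →+* 𝓞 F) ((dl o D : ℕ) : 𝓞 F) = ((dl o D : ℕ) : 𝓞 F) := map_natCast _ _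
      rw [h6] at h5
      exact h5
    · intro h
      have h5 := coprime_int (F := F) h
      rw [← hnm, ← e1] at h5
      exact h5.of_mul_left_left
  refine ⟨?_, ?_⟩
  · choose a ha using hrep
    refine ⟨fun x => ((jacobiSym (a x) q * tw o D (nmm x) : ℤ) : ℂ), ?_⟩
    intro x b hb
    show ((jacobiSym (a x) q * tw o D (nmm x) : ℤ) : ℂ) = _
    rw [hwd x (a x) b (ha x) hb]
  · intro c hc
    refine ⟨?_, ?_, ?_, ?_, ?_, ?_, ?_, ?_⟩
    · intro x y
      obtain ⟨a, ha⟩ := hrep x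
      obtain ⟨b, hb⟩ := hrep y
      have hab : s ∣ x * y - ((a * b : ℤ) : 𝓞 F) := by
        have h5 : x * y - ((a * b : ℤ) : 𝓞 F) = (x - a) * y + a * (y - b) := by
          push_cast
          ring
        rw [h5]
        exact dvd_add (ha.mul_right _) (hb.mul_left _)
      rw [hc x a ha, hc y b hb, hc (x * y) (a * b) hab, jacobiSym.mul_left, nmm_mul, tw_mul]
      push_cast
      ring
    · rw [hc 1 1 (by simp), jacobiSym.one_left, nmm_one, tw_one]
      simp
    · rw [hc (-1) (-1) (by simp), nmm_neg_one, tw_one, jacobiSym.at_neg_one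
        (Nat.odd_iff.2 (by omega)), ZMod.χ₄_nat_three_mod_four (by omega)]
      simp
    · intro x y hxy
      obtain ⟨a, ha⟩ := hrep x
      have hs1 : s ∣ x - y := (dvd_mul_right _ _).trans hxy
      have hd1 : ((dl o D : ℕ) : 𝓞 F) ∣ x - y := (dvd_mul_left _ _).trans hxy
      have hay : s ∣ y - a := by
        have h5 : y - a = (x - a) - (x - y) := by ring
        rw [h5]
        exact dvd_sub ha hs1
      rw [hc x a ha, hc y a hay]
      have h6 : tw o D (nmm x) = tw o D (nmm y) := by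
        apply tw_congr
        apply int_dvd (F := F)
        have h7 : ((nmm x - nmm y : ℤ) : 𝓞 F) = (x - y) * cj x + y * cj (x - y) := by
          push_cast
          rw [← hnm, ← hnm, map_sub]
          ring
        have h8 : ((dl o D : ℕ) : 𝓞 F) ∣ cj (x - y) := by
          have h9 := map_dvd (cj : 𝓞 F →+* 𝓞 F) hd1
          have h10 : (cj : 𝓞 F →+* 𝓞 F) ((dl o D : ℕ) : 𝓞 F) = ((dl o D : ℕ) : 𝓞 F) :=
            map_natCast _ _
          rw [h10] at h9
          exact h9
        rw [h7, Int.cast_natCast]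
        exact dvd_add (hd1.mul_right _) (h8.mul_left _)
      rw [h6]
    · intro x
      obtain ⟨a, ha⟩ := hrep x
      have hay : s ∣ cj x - a := by
        have h5 : cj x - a = (x - a) - (x - cj x) := by ring
        rw [h5]
        exact dvd_sub ha (hsub x)
      rw [hc x a ha, hc (cj x) a hay, hnmcj]
    · intro x hx
      obtain ⟨hx1, hx2⟩ := IsCoprime.mul_right_iff.1 hx
      obtain ⟨a, ha⟩ := hrep x
      have hqa : IsCoprime (q : ℤ) a := by
        rw [Prime.coprime_iff_not_dvd hqz]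
        intro hd
        have h5 := (hdvd a).mpr hd
        exact (hcop x).1 hx1 ((dvd_sub_left h5).mp ha)
      have h6 : jacobiSym a q = 1 ∨ jacobiSym a q = -1 := by
        apply jacobiSym.eq_one_or_neg_one
        exact (Int.isCoprime_iff_gcd_eq_one).1 hqa.symm
      have h7 := tw_unit ((hcopd x).1 hx2)
      rw [hc x a ha]
      rcases h6 with h6 | h6 <;> rcases h7 with h7 | h7 <;> rw [h6, h7] <;> norm_num
    · intro x hx
      rw [IsCoprime.mul_right_iff, not_and_or] at hx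
      rcases hx with hx | hx
      · rw [hcop, not_not] at hx
        rw [hc x 0 (by simpa using hx), jacobiSym.zero_left hq1]
        simp
      · obtain ⟨a, ha⟩ := hrep x
        have h5 := tw_zero hD0 (fun h => hx ((hcopd x).2 h))
        rw [hc x a ha, h5]
        simp
    · intro a ha
      have ha1 : IsCoprime a (Ideal.span {s}) := by
        have h5 : Ideal.span {s * ((dl o D : ℕ) : 𝓞 F)} ≤ Ideal.span {s} :=
          (Ideal.span_singleton_le_span_singleton).2 (dvd_mul_right _ _)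
        rw [Ideal.isCoprime_iff_sup_eq] at ha ⊢
        exact top_le_iff.1 (ha ▸ sup_le_sup_left h5 a)
      have ha2 : IsCoprime a (Ideal.span {((dl o D : ℕ) : 𝓞 F)}) := by
        have h5 : Ideal.span {s * ((dl o D : ℕ) : 𝓞 F)} ≤ Ideal.span {((dl o D : ℕ) : 𝓞 F)} :=
          (Ideal.span_singleton_le_span_singleton).2 (dvd_mul_left _ _)
        rw [Ideal.isCoprime_iff_sup_eq] at ha ⊢
        exact top_le_iff.1 (ha ▸ sup_le_sup_left h5 a)
      -- `N a` is prime to `dl o D`
      have hcopN : IsCoprime ((Ideal.absNorm a : ℕ) : ℤ) (dl o D : ℤ) := by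
        apply int_coprime (F := F)
        have e1 : ((((Ideal.absNorm a : ℕ) : ℤ) : ℤ) : 𝓞 F) = (Ideal.absNorm a : 𝓞 F) := by
          push_cast
          rfl
        have e2 : (((dl o D : ℕ) : ℤ) : 𝓞 F) = ((dl o D : ℕ) : 𝓞 F) := by push_cast; rfl
        rw [e1, e2, ← Ideal.isCoprime_span_singleton_iff, ← hN]
        refine ha2.mul_left ?_
        rw [Ideal.isCoprime_iff_sup_eq] at ha2 ⊢
        have h5 := congrArg (Ideal.map (cj : 𝓞 F →+* 𝓞 F)) ha2
        rw [Ideal.map_sup, Ideal.map_span, Set.image_singleton, Ideal.map_top] at h5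
        have h6 : (cj : 𝓞 F →+* 𝓞 F) ((dl o D : ℕ) : 𝓞 F) = ((dl o D : ℕ) : 𝓞 F) :=
          map_natCast _ _
        rw [h6] at h5
        exact h5
      -- `(N a / q) = 1`
      set h := Nat.card (ClassGroup (𝓞 F)) with hh
      have hh0 : h ≠ 0 := by
        rintro h0
        rw [h0] at hodd
        exact absurd hodd (by decide)
      have ha0 : a ≠ ⊥ := by
        rintro rfl
        exact ((hcopI ⊥).mpr bot_le) ha1
      have hamem : a ∈ (Ideal (𝓞 F))⁰ := mem_nonZeroDivisors_of_ne_zero ha0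
      have hprin : (a ^ h).IsPrincipal := by
        have h7 : ClassGroup.mk0 (⟨a, hamem⟩ : (Ideal (𝓞 F))⁰) ^ h = 1 := pow_card_eq_one'
        rw [← map_pow] at h7
        have h8 := (ClassGroup.mk0_eq_one_iff
          (I := ((⟨a, hamem⟩ : (Ideal (𝓞 F))⁰) ^ h : (Ideal (𝓞 F))⁰).1)
          ((⟨a, hamem⟩ : (Ideal (𝓞 F))⁰) ^ h : (Ideal (𝓞 F))⁰).2).mp h7
        simpa using h8
      obtain ⟨t, ht⟩ := hprin.principal
      have ht : a ^ h = Ideal.span {t} := ht
      have hcopt : IsCoprime (Ideal.span {t}) (Ideal.span {s}) := by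
        rw [← ht]
        exact ha1.pow_left
      have hst : ¬ s ∣ t := by
        intro hst
        exact (hcopI _).mpr ((Ideal.span_singleton_le_span_singleton).mpr hst) hcopt
      obtain ⟨t0, ht0'⟩ := hrep t
      have hqt0 : ¬ (q : ℤ) ∣ t0 := by
        intro hd
        have := (hdvd t0).mpr hd
        exact hst ((dvd_sub_left this).mp ht0')
      have hNt : Ideal.absNorm (Ideal.span {t}) = Ideal.absNorm a ^ h := by
        rw [← ht, map_pow]
      have hcong : (q : ℤ) ∣ ((Ideal.absNorm a : ℤ)) ^ h - t0 ^ 2 := by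
        rw [← hdvd]
        push_cast
        have h9 : ((Ideal.absNorm a : 𝓞 F)) ^ h = t * cj t := by
          rw [hmul t, hNt]
          push_cast
          rfl
        rw [h9]
        have h10 : t * cj t - (t0 : 𝓞 F) ^ 2 = (t - t0) * (t + t0) - t * (t - cj t) := by ring
        rw [h10]
        exact dvd_sub (ht0'.mul_right _) ((hsub t).mul_left _)
      have hj : jacobiSym ((Ideal.absNorm a : ℤ) ^ h) q = 1 := by
        have h11 : jacobiSym ((Ideal.absNorm a : ℤ) ^ h) q = jacobiSym (t0 ^ 2) q := by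
          apply jacobiSym.mod_left'
          exact (Int.emod_eq_emod_iff_emod_sub_eq_zero).mpr (Int.emod_eq_zero_of_dvd hcong)
        rw [h11, pow_two, jacobiSym.mul_left, ← pow_two]
        apply jacobiSym.sq_one
        rw [Int.gcd_comm]
        exact (Int.isCoprime_iff_gcd_eq_one (m := (q : ℤ)) (n := t0)).mp
          ((Prime.coprime_iff_not_dvd hqz).mpr hqt0)
      have hj1 : jacobiSym (Ideal.absNorm a) q ^ h = 1 := by
        rw [← jacobiSym.pow_left]
        exact hj
      have hjac : jacobiSym (Ideal.absNorm a) q = 1 := by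
        rcases jacobiSym.trichotomy (Ideal.absNorm a : ℤ) q with h12 | h12 | h12
        · rw [h12, zero_pow hh0] at hj1
          exact absurd hj1 (by norm_num)
        · exact h12
        · rw [h12, hodd.neg_one_pow] at hj1
          exact absurd hj1 (by norm_num)
      rw [hc (Ideal.absNorm a : 𝓞 F) (Ideal.absNorm a : ℤ) (by simp), hjac, hnmnat, tw_mul]
      rcases tw_unit hcopN with h13 | h13 <;> rw [h13] <;> norm_num

end Pool.Agent.Lib.MP_7c08ba_nt.CD
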