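import Pool.Agent.Lib.MP_7c08ba_nt.CD.StA

set_option autoImplicit false

/-!
Project CD, module Cnt: the number of ideals of bounded norm, sums of `1 / N` and `1 / √N`.
-/

namespace Pool.Agent.Lib.MP_7c08ba_nt.CD

open NumberField Filter
open scoped nonZeroDivisors

namespace CntAux

variable (F : Type) [Field F] [NumberField F]

/-- The number of ideals of norm at most `n` is `O(n)`. -/
theorem card_le : ∃ C : ℝ, 0 < C ∧ ∀ n : ℕ, ((ids F n).card : ℝ) ≤ C * n := by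
  have h1 := (NumberField.Ideal.tendsto_norm_le_div_atTop F).comp tendsto_natCast_atTop_atTop
  obtain ⟨B, hB⟩ := h1.bddAbove_range
  refine ⟨max B 1, lt_of_lt_of_le one_pos (le_max_right _ _), fun n => ?_⟩
  rcases Nat.eq_zero_or_pos n with hn | hn
  · subst hn
    have h2 : ids F 0 = ∅ := by
      rw [Finset.eq_empty_iff_forall_notMem]
      intro a ha
      rw [mem_ids] at ha
      exact ha.1 (Ideal.absNorm_eq_zero_iff.mp (Nat.le_zero.mp ha.2))
    rw [h2]
    simp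
  · have h2 : (ids F n).card ≤ Nat.card {I : Ideal (𝓞 F) // (Ideal.absNorm I : ℝ) ≤ (n : ℝ)} := by
      have h3 : {I : Ideal (𝓞 F) | (Ideal.absNorm I : ℝ) ≤ (n : ℝ)}.Finite := by
        refine (Ideal.finite_setOf_absNorm_le (S := 𝓞 F) n).subset fun I hI => ?_
        simp only [Set.mem_setOf_eq, Nat.cast_le] at hI ⊢
        exact hI
      have h4 : Nat.card {I : Ideal (𝓞 F) // (Ideal.absNorm I : ℝ) ≤ (n : ℝ)} =
          h3.toFinset.card := by
        have h5 := Set.ncard_eq_toFinset_card _ h3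
        rw [← h5]
        rfl
      rw [h4]
      refine Finset.card_le_card fun a ha => ?_
      rw [mem_ids] at ha
      rw [Set.Finite.mem_toFinset, Set.mem_setOf_eq]
      exact_mod_cast ha.2
    have h3 : (Nat.card {I : Ideal (𝓞 F) // (Ideal.absNorm I : ℝ) ≤ (n : ℝ)} : ℝ) / n ≤ B :=
      hB ⟨n, rfl⟩
    have hn' : (0 : ℝ) < n := by exact_mod_cast hn
    rw [div_le_iff₀ hn'] at h3
    calc ((ids F n).card : ℝ)
        ≤ (Nat.card {I : Ideal (𝓞 F) // (Ideal.absNorm I : ℝ) ≤ (n : ℝ)} : ℝ) := by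
          exact_mod_cast h2
      _ ≤ B * n := h3
      _ ≤ max B 1 * n := mul_le_mul_of_nonneg_right (le_max_left _ _) hn'.le

theorem ids_succ (n : ℕ) : ids F n ⊆ ids F (n + 1) := by
  intro a ha
  rw [mem_ids] at ha ⊢
  exact ⟨ha.1, ha.2.trans (Nat.le_succ n)⟩

/-- Summation by parts. -/
theorem sum_step {f : ℕ → ℝ} (n : ℕ) :
    ∑ a ∈ ids F (n + 1), f (Ideal.absNorm a) = ∑ a ∈ ids F n, f (Ideal.absNorm a) +
      (((ids F (n + 1)).card : ℝ) - (ids F n).card) * f (n + 1) := by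
  classical
  rw [← Finset.sum_sdiff (ids_succ F n), add_comm]
  congr 1
  have h1 : ∀ a ∈ ids F (n + 1) \ ids F n, f (Ideal.absNorm a) = f (n + 1) := by
    intro a ha
    rw [Finset.mem_sdiff, mem_ids, mem_ids] at ha
    have h2 : Ideal.absNorm a = n + 1 := by
      refine le_antisymm ha.1.2 ?_
      by_contra h3
      exact ha.2 ⟨ha.1.1, by omega⟩
    rw [h2]
  rw [Finset.sum_congr rfl h1, Finset.sum_const, nsmul_eq_mul,
    Finset.cast_card_sdiff (ids_succ F n)]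

/-- A decreasing function of the norm is summed like the integers. -/
theorem sum_le {C : ℝ} (hC : ∀ n : ℕ, ((ids F n).card : ℝ) ≤ C * n) {f : ℕ → ℝ}
    (hf : ∀ n : ℕ, 1 ≤ n → f (n + 1) ≤ f n) (n : ℕ) (hn : 1 ≤ n) :
    ∑ a ∈ ids F n, f (Ideal.absNorm a) - (ids F n).card * f n ≤
      C * (∑ k ∈ Finset.range n, f (k + 1) - n * f n) := by
  induction n, hn using Nat.le_induction with
  | base =>
    have h1 : ∀ a ∈ ids F 1, f (Ideal.absNorm a) = f 1 := by
      intro a ha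
      rw [mem_ids] at ha
      have h2 : Ideal.absNorm a ≠ 0 := by
        rw [Ne, Ideal.absNorm_eq_zero_iff]
        exact ha.1
      have h3 : Ideal.absNorm a = 1 := by omega
      rw [h3]
    rw [Finset.sum_congr rfl h1, Finset.sum_const, nsmul_eq_mul]
    simp
  | succ n hn ih =>
    rw [sum_step F n, Finset.sum_range_succ]
    have h1 := hC n
    have h2 := hf n hn
    have h3 : ((ids F n).card : ℝ) * (f n - f (n + 1)) ≤ C * n * (f n - f (n + 1)) :=
      mul_le_mul_of_nonneg_right h1 (by linarith)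
    push_cast
    nlinarith

theorem sum_le' {C : ℝ} (hC : ∀ n : ℕ, ((ids F n).card : ℝ) ≤ C * n) {f : ℕ → ℝ}
    (hf : ∀ n : ℕ, 1 ≤ n → f (n + 1) ≤ f n) (hf0 : ∀ n : ℕ, 1 ≤ n → 0 ≤ f n) (n : ℕ)
    (hn : 1 ≤ n) :
    ∑ a ∈ ids F n, f (Ideal.absNorm a) ≤ C * ∑ k ∈ Finset.range n, f (k + 1) := by
  have h1 := sum_le F hC hf n hn
  have h2 := mul_le_mul_of_nonneg_right (hC n) (hf0 n hn)
  linarith

theorem sum_inv (n : ℕ) : ∑ k ∈ Finset.range n, ((k + 1 : ℕ) : ℝ)⁻¹ ≤ 1 + Real.log n := by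
  have h := harmonic_le_one_add_log n
  unfold harmonic at h
  push_cast at h ⊢
  exact h

theorem sum_sqrt (n : ℕ) :
    ∑ k ∈ Finset.range n, (Real.sqrt ((k + 1 : ℕ) : ℝ))⁻¹ ≤ 2 * Real.sqrt n := by
  induction n with
  | zero => simp
  | succ n ih =>
    rw [Finset.sum_range_succ]
    have h1 : (0 : ℝ) < Real.sqrt ((n + 1 : ℕ) : ℝ) := Real.sqrt_pos.mpr (by positivity)
    have h2 : (0 : ℝ) ≤ Real.sqrt (n : ℝ) := Real.sqrt_nonneg _
    have h3 : Real.sqrt ((n + 1 : ℕ) : ℝ) ^ 2 = n + 1 := by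
      rw [Real.sq_sqrt (by positivity)]
      push_cast
      ring
    have h4 : Real.sqrt (n : ℝ) ^ 2 = n := Real.sq_sqrt (by positivity)
    have h5 : (Real.sqrt ((n + 1 : ℕ) : ℝ))⁻¹ ≤
        2 * Real.sqrt ((n + 1 : ℕ) : ℝ) - 2 * Real.sqrt (n : ℝ) := by
      rw [inv_le_iff_one_le_mul₀ h1]
      nlinarith [sq_nonneg (Real.sqrt ((n + 1 : ℕ) : ℝ) - Real.sqrt (n : ℝ))]
    linarith

end CntAux

theorem stCnt : StCnt := by
  intro F _ _
  obtain ⟨C, hC0, hC⟩ := CntAux.card_le F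
  refine ⟨2 * C, by positivity, fun n hn => ⟨?_, ?_, ?_⟩⟩
  · have h1 := hC n
    have h2 : (0 : ℝ) ≤ C * n := by positivity
    linarith
  · have h1 := CntAux.sum_le' F hC (f := fun k => ((k : ℕ) : ℝ)⁻¹) (fun k hk => by
      have : (0 : ℝ) < k := by exact_mod_cast hk
      refine inv_anti₀ this ?_
      push_cast
      linarith) (fun k _ => by positivity) n hn
    have h2 := CntAux.sum_inv n
    have h3 : C * ∑ k ∈ Finset.range n, ((k + 1 : ℕ) : ℝ)⁻¹ ≤ C * (1 + Real.log n) :=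
      mul_le_mul_of_nonneg_left h2 hC0.le
    have h4 : 0 ≤ Real.log n := Real.log_nonneg (by exact_mod_cast hn)
    have h5 : 0 ≤ C * (1 + Real.log n) := by positivity
    linarith
  · have h1 := CntAux.sum_le' F hC (f := fun k => (Real.sqrt ((k : ℕ) : ℝ))⁻¹) (fun k hk => by
      have : (0 : ℝ) < k := by exact_mod_cast hk
      refine inv_anti₀ (Real.sqrt_pos.mpr this) (Real.sqrt_le_sqrt ?_)
      push_cast
      linarith) (fun k _ => by positivity) n hn
    have h2 := CntAux.sum_sqrt n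
    have h3 : C * ∑ k ∈ Finset.range n, (Real.sqrt ((k + 1 : ℕ) : ℝ))⁻¹ ≤
        C * (2 * Real.sqrt n) := mul_le_mul_of_nonneg_left h2 hC0.le
    calc ∑ a ∈ ids F n, (Real.sqrt (Ideal.absNorm a : ℝ))⁻¹ ≤ C * (2 * Real.sqrt n) :=
          h1.trans h3
      _ = 2 * C * Real.sqrt n := by ring

end Pool.Agent.Lib.MP_7c08ba_nt.CD
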