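import Mathlib
import Pool.Agent.Lib.MP_7c08ba_nt.CD.StA

set_option autoImplicit false

/-!
Project CD, module Crs: systems of representatives of `a / m a`, and the sum over an ideal as a
sum over the classes.
-/

namespace Pool.Agent.Lib.MP_7c08ba_nt.CD

open NumberField IsDedekindDomain MeasureTheory Set Pool.Agent.Lib.MP_7c08ba_nt.RZ
  Pool.Agent.Lib.MP_7c08ba_nt.CN Pool.Agent.Lib.MP_7c08ba_nt.CN.TW
open scoped nonZeroDivisors ComplexConjugate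

namespace CrsAux

section

variable {F : Type} [Field F] [NumberField F]

theorem exists_crs {m : 𝓞 F} {a : Ideal (𝓞 F)} (hm : m ≠ 0) (ha : a ≠ ⊥) :
    ∃ S : Finset (𝓞 F), CRS m a S := by
  classical
  have hJ : Ideal.span {m} * a ≠ ⊥ := by
    intro h
    rw [Ideal.mul_eq_bot] at h
    rcases h with h | h
    · exact hm (Ideal.span_singleton_eq_bot.1 h)
    · exact ha h
  obtain ⟨J, hJ, hJm⟩ : ∃ J : Ideal (𝓞 F), J ≠ ⊥ ∧ ∀ x, x ∈ J ↔ ∃ z ∈ a, m * z = x :=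
    ⟨Ideal.span {m} * a, hJ, fun x => Ideal.mem_span_singleton_mul⟩
  haveI hfin : Finite (𝓞 F ⧸ J) := Ideal.finiteQuotientOfFreeOfNeBot _ hJ
  have hT : ({c : 𝓞 F ⧸ J | ∃ x ∈ a, Ideal.Quotient.mk J x = c} : Set (𝓞 F ⧸ J)).Finite :=
    Set.toFinite _
  have hch : ∀ c : 𝓞 F ⧸ J, ∃ x : 𝓞 F, (∃ x ∈ a, Ideal.Quotient.mk J x = c) →
      x ∈ a ∧ Ideal.Quotient.mk J x = c := by
    intro c
    by_cases h : ∃ x ∈ a, Ideal.Quotient.mk J x = c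
    · obtain ⟨x, hx, hc⟩ := h
      exact ⟨x, fun _ => ⟨hx, hc⟩⟩
    · exact ⟨0, fun h' => absurd h' h⟩
  choose g hg using hch
  refine ⟨hT.toFinset.image g, ?_, ?_⟩
  · intro x hx
    rw [Finset.mem_image] at hx
    obtain ⟨c, hc, rfl⟩ := hx
    rw [Set.Finite.mem_toFinset] at hc
    exact (hg c hc).1
  · intro x hx
    have h0 : ∃ x' ∈ a, Ideal.Quotient.mk J x' = Ideal.Quotient.mk J x := ⟨x, hx, rfl⟩
    refine ⟨g (Ideal.Quotient.mk J x), ⟨?_, ?_⟩, ?_⟩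
    · rw [Finset.mem_image]
      refine ⟨_, ?_, rfl⟩
      rw [Set.Finite.mem_toFinset]
      exact h0
    · have h1 := (hg _ h0).2
      have h2 : x - g (Ideal.Quotient.mk J x) ∈ J := Ideal.Quotient.eq.1 h1.symm
      obtain ⟨z, hz, hz'⟩ := (hJm _).1 h2
      exact ⟨z, hz, hz'.symm⟩
    · rintro r ⟨hr, y, hy, hxy⟩
      rw [Finset.mem_image] at hr
      obtain ⟨c, hc, rfl⟩ := hr
      rw [Set.Finite.mem_toFinset] at hc
      have h1 : Ideal.Quotient.mk J x = Ideal.Quotient.mk J (g c) := by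
        rw [Ideal.Quotient.eq, hJm]
        exact ⟨y, hy, hxy.symm⟩
      rw [(hg c hc).2] at h1
      rw [h1]

omit [NumberField F] in
theorem sum_crs {m : 𝓞 F} {a : Ideal (𝓞 F)} (hm : m ≠ 0) {S : Finset (𝓞 F)} {X Y : 𝓞 F}
    (f : 𝓞 F → ℂ) (hS : CRS m a S)
    (hXY : ∀ z : 𝓞 F, z ∈ a ↔ ∃ m n : ℤ, z = (m : 𝓞 F) * X + (n : 𝓞 F) * Y)
    (hind : ∀ m n : ℤ, (m : 𝓞 F) * X + (n : 𝓞 F) * Y = 0 → m = 0 ∧ n = 0)
    (hf : Summable fun x : a => ‖f x‖) :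
    (∀ r ∈ S, Summable fun p : ℤ × ℤ => ‖f (r + m * (p.1 * X + p.2 * Y))‖) ∧
      ∑' x : a, f x = ∑ r ∈ S, ∑' p : ℤ × ℤ, f (r + m * (p.1 * X + p.2 * Y)) := by
  classical
  have hmem : ∀ p : ℤ × ℤ, (p.1 * X + p.2 * Y : 𝓞 F) ∈ a := fun p =>
    (hXY _).2 ⟨p.1, p.2, rfl⟩
  have hmem2 : ∀ z : S × (ℤ × ℤ), ((z.1 : 𝓞 F) + m * (z.2.1 * X + z.2.2 * Y) : 𝓞 F) ∈ a :=
    fun z => a.add_mem (hS.mem _ z.1.2) (a.mul_mem_left _ (hmem z.2))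
  have hinj : Function.Injective
      (fun z : S × (ℤ × ℤ) => (⟨_, hmem2 z⟩ : a)) := by
    rintro ⟨⟨r, hr⟩, p⟩ ⟨⟨r', hr'⟩, p'⟩ h
    have h1 : r + m * (p.1 * X + p.2 * Y) = r' + m * (p'.1 * X + p'.2 * Y) :=
      congrArg Subtype.val h
    have hx : r + m * (p.1 * X + p.2 * Y) ∈ a := hmem2 (⟨r, hr⟩, p)
    obtain ⟨r₀, -, hu⟩ := hS.uni _ hx
    have e1 : r = r₀ := hu r ⟨hr, _, hmem p, by ring⟩
    have e2 : r' = r₀ := hu r' ⟨hr', _, hmem p', by rw [h1]; ring⟩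
    have e3 : r = r' := e1.trans e2.symm
    subst e3
    have e4 : (m : 𝓞 F) * (p.1 * X + p.2 * Y) = m * (p'.1 * X + p'.2 * Y) := by
      linear_combination h1
    have e5 : (p.1 * X + p.2 * Y : 𝓞 F) = p'.1 * X + p'.2 * Y := mul_left_cancel₀ hm e4
    have e6 : ((p.1 - p'.1 : ℤ) : 𝓞 F) * X + ((p.2 - p'.2 : ℤ) : 𝓞 F) * Y = 0 := by
      push_cast
      linear_combination e5
    obtain ⟨e7, e8⟩ := hind _ _ e6
    have e9 : p = p' := Prod.ext (by omega) (by omega)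
    rw [e9]
  have hsur : Function.Surjective
      (fun z : S × (ℤ × ℤ) => (⟨_, hmem2 z⟩ : a)) := by
    rintro ⟨x, hx⟩
    obtain ⟨r, ⟨hr, y, hy, hxy⟩, -⟩ := hS.uni x hx
    obtain ⟨k, l, hkl⟩ := (hXY y).1 hy
    refine ⟨(⟨r, hr⟩, (k, l)), Subtype.ext ?_⟩
    show r + m * ((k : 𝓞 F) * X + (l : 𝓞 F) * Y) = x
    rw [← hkl, ← hxy]
    ring
  let e : S × (ℤ × ℤ) ≃ a := Equiv.ofBijective _ ⟨hinj, hsur⟩
  have he : ∀ z : S × (ℤ × ℤ), ((e z : a) : 𝓞 F) = (z.1 : 𝓞 F) + m * (z.2.1 * X + z.2.2 * Y) :=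
    fun z => rfl
  have hs1 : Summable fun z : S × (ℤ × ℤ) => ‖f (e z : a)‖ := e.summable_iff.2 hf
  have hs2 : Summable fun z : S × (ℤ × ℤ) => f (e z : a) := hs1.of_norm
  refine ⟨?_, ?_⟩
  · intro r hr
    have := hs1.prod_factor ⟨r, hr⟩
    exact this
  · rw [← e.tsum_eq, hs2.tsum_prod, tsum_fintype]
    exact Finset.sum_coe_sort S (fun r => ∑' p : ℤ × ℤ, f (r + m * (p.1 * X + p.2 * Y)))

end

end CrsAux

theorem stCrs (_ : RZ.StBas) (h2 : RZ.StBase) : StCrs := by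
  intro q F _ _ s σ χ cj m a hD hm ha
  refine ⟨CrsAux.exists_crs hm ha, ?_⟩
  intro S X Y f hS hO hf
  exact CrsAux.sum_crs hm f hS hO.mem ((h2 q F _ _ s σ χ cj hD).2.2.2.1 a X Y hO) hf

end Pool.Agent.Lib.MP_7c08ba_nt.CD
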