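import Pool.Agent.Lib.MP_7c08ba_nt.CD.StA
import Pool.Agent.Lib.MP_7c08ba_nt.CN.StP

set_option autoImplicit false

/-!
Project CD, module GF: the functional equation of the theta series of `Φ`.
-/

namespace Pool.Agent.Lib.MP_7c08ba_nt.CD

open NumberField IsDedekindDomain MeasureTheory Set Pool.Agent.Lib.MP_7c08ba_nt.RZ
  Pool.Agent.Lib.MP_7c08ba_nt.CN Pool.Agent.Lib.MP_7c08ba_nt.CN.TW
open scoped nonZeroDivisors ComplexConjugate

namespace GFAux

variable {F : Type} [Field F] [NumberField F]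

/-- representatives with oriented bases, prime to an ideal -/
theorem exists_reps (hRep : StRepM) (hBase : StBase) {q : ℕ} {s : 𝓞 F} {σ : F →+* ℂ}
    {χ : DirichletCharacter ℂ q} {cj : 𝓞 F ≃+* 𝓞 F} (hD : Dat q s σ χ cj) (M : Ideal (𝓞 F))
    (hM : M ≠ ⊥) : ∃ r : Reps σ, ∀ A, IsCoprime (r.R A : Ideal (𝓞 F)) M := by
  choose R hR1 hR2 using fun A : ClassGroup (𝓞 F) => hRep F inferInstance inferInstance A M hM
  have hb := (hBase q F _ _ s σ χ cj hD).1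
  choose X Y hXY using fun A : ClassGroup (𝓞 F) =>
    hb (R A : Ideal (𝓞 F)) (nonZeroDivisors.coe_ne_zero (R A))
  exact ⟨⟨R, X, Y, hR1, hXY⟩, hR2⟩

theorem rr_pos {o : Bool} {q D : ℕ} (hq : 0 < q) (hD : 0 < D) : 0 < rr o q D := by
  unfold rr dl
  cases o <;> simp <;> omega

end GFAux

open GFAux in
theorem stGF (hThF : StThF) (hGth : StGth) (hCb : StCb) (hRep : StRepM) (hBase : StBase) :
    StGF := by
  intro q F _ _ s σ χ cj o D hdat htw
  obtain ⟨⟨c, hc⟩, -⟩ := hCb q F _ _ s σ χ cj o D hdat htw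
  obtain ⟨W, hW⟩ := hThF q F _ _ s σ χ cj o D c hdat htw hc
  have hq : 0 < q := hdat.prime.pos
  have hD : 0 < D := Nat.pos_of_ne_zero htw.sqf.ne_zero
  have hR : 0 < rr o q D := rr_pos hq hD
  have hRR : (0 : ℝ) < (rr o q D : ℝ) := by exact_mod_cast hR
  have hs : s ≠ 0 := by
    rintro rfl
    have h := hdat.sq
    rw [zero_pow two_ne_zero, eq_comm, neg_eq_zero, Nat.cast_eq_zero] at h
    omega
  have hdl : (dl o D : 𝓞 F) ≠ 0 := by
    rw [Nat.cast_ne_zero]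
    intro h
    rw [rr, h, mul_zero] at hR
    exact lt_irrefl _ hR
  have hM : Ideal.span {s * (dl o D : 𝓞 F)} ≠ ⊥ := by
    rw [Ne, Ideal.span_singleton_eq_bot]
    exact mul_ne_zero hs hdl
  obtain ⟨r, hr⟩ := exists_reps hRep hBase hdat _ hM
  refine ⟨W, ?_⟩
  intro k Φ y hk hΦ hy
  have h1 : (0 : ℝ) < 1 / (rr o q D * y) := by positivity
  have h2 : (0 : ℝ) < y / rr o q D := by positivity
  rw [hGth q F _ _ s σ χ cj o D k c Φ r _ hdat htw hk hc hΦ hr h1,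
    hGth q F _ _ s σ χ cj o D k c Φ r _ hdat htw hk hc hΦ hr h2]
  have h3 : ∑ A : ClassGroup (𝓞 F), (Φ (r.R A : Ideal (𝓞 F)))⁻¹ *
      thc c σ (r.R A : Ideal (𝓞 F)) (2 * k - 1) (1 / (rr o q D * y)) =
      (-1) ^ k * W * (y : ℂ) ^ (2 * k) * ∑ A : ClassGroup (𝓞 F),
        (Φ (r.R A : Ideal (𝓞 F)))⁻¹ * thc c σ (r.R A : Ideal (𝓞 F)) (2 * k - 1)
          (y / rr o q D) := by
    rw [Finset.mul_sum]
    refine Finset.sum_congr rfl fun A _ => ?_
    rw [hW _ k y (nonZeroDivisors.coe_ne_zero (r.R A)) (hr A) hk hy]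
    ring
  rw [h3]
  ring

end Pool.Agent.Lib.MP_7c08ba_nt.CD
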