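import Mathlib
import Pool.Agent.Lib.MP_7c08ba_nt.CD.StA

set_option autoImplicit false

/-!
Project CD, module Gb: convergence, continuity and size of the theta series of a function on the
ideals.
-/

namespace Pool.Agent.Lib.MP_7c08ba_nt.CD

open NumberField IsDedekindDomain MeasureTheory Set Pool.Agent.Lib.MP_7c08ba_nt.RZ
  Pool.Agent.Lib.MP_7c08ba_nt.CN Pool.Agent.Lib.MP_7c08ba_nt.CN.TW
open scoped nonZeroDivisors ComplexConjugate

namespace GbAux

/-- comparison with the sum over the integers -/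
theorem sum_le {ι : Type*} (N : ι → ℕ) (C : ℝ) (hC : 0 < C) (s : ℝ) (hs : 0 ≤ s) (T : Finset ι)
    (hN : ∀ b ∈ T, 1 ≤ N b) (hc : ∀ b ∈ T, ((T.filter fun a => N a ≤ N b).card : ℝ) ≤ C * N b) :
    ∑ b ∈ T, (N b : ℝ) ^ (-s) ≤ C ^ s * ∑ i ∈ Finset.range T.card, ((i + 1 : ℕ) : ℝ) ^ (-s) := by
  classical
  induction h : T.card generalizing T with
  | zero =>
    rw [Finset.card_eq_zero] at h
    simp [h]
  | succ n ih =>
    have hne : T.Nonempty := by
      rw [← Finset.card_pos]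
      omega
    obtain ⟨m, hm, hmax⟩ := T.exists_max_image N hne
    have hcard : (T.erase m).card = n := by
      rw [Finset.card_erase_of_mem hm, h]
      rfl
    have h1 := ih (T.erase m) (fun b hb => hN b (Finset.mem_of_mem_erase hb)) (fun b hb => by
      refine le_trans ?_ (hc b (Finset.mem_of_mem_erase hb))
      exact_mod_cast Finset.card_le_card (Finset.filter_subset_filter _ (Finset.erase_subset _ _)))
      hcard
    have h2 : ((n + 1 : ℕ) : ℝ) ≤ C * N m := by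
      have h3 := hc m hm
      rwa [Finset.filter_true_of_mem (fun a ha => hmax a ha), h] at h3
    have hNm : (0 : ℝ) < N m := by exact_mod_cast hN m hm
    have h4 : (N m : ℝ) ^ (-s) ≤ C ^ s * ((n + 1 : ℕ) : ℝ) ^ (-s) := by
      have hn : (0 : ℝ) < ((n + 1 : ℕ) : ℝ) := by positivity
      have h5 : ((n + 1 : ℕ) : ℝ) ^ s ≤ (C * N m) ^ s := Real.rpow_le_rpow hn.le h2 hs
      rw [Real.mul_rpow hC.le hNm.le] at h5
      rw [Real.rpow_neg hNm.le, Real.rpow_neg hn.le, ← div_eq_mul_inv, inv_eq_one_div,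
        div_le_div_iff₀ (Real.rpow_pos_of_pos hNm s) (Real.rpow_pos_of_pos hn s), one_mul]
      exact h5
    rw [← Finset.add_sum_erase T _ hm, Finset.sum_range_succ, mul_add]
    linarith

variable {F : Type} [Field F] [NumberField F]

theorem nm_pos (b : (Ideal (𝓞 F))⁰) : 1 ≤ Ideal.absNorm (b : Ideal (𝓞 F)) :=
  Ideal.absNorm_pos_iff_mem_nonZeroDivisors.2 b.2

/-- the zeta series converges -/
theorem summable_nm (h : StCnt) {s : ℝ} (hs : 1 < s) :
    Summable fun b : (Ideal (𝓞 F))⁰ => (Ideal.absNorm (b : Ideal (𝓞 F)) : ℝ) ^ (-s) := by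
  classical
  obtain ⟨C, hC, hn⟩ := h F inferInstance inferInstance
  have hz : Summable fun i : ℕ => ((i + 1 : ℕ) : ℝ) ^ (-s) := by
    have h1 : Summable fun i : ℕ => (i : ℝ) ^ (-s) := Real.summable_nat_rpow.2 (by linarith)
    exact (summable_nat_add_iff 1).2 h1
  refine summable_of_sum_le (c := C ^ s * ∑' i : ℕ, ((i + 1 : ℕ) : ℝ) ^ (-s))
    (fun b => Real.rpow_nonneg (Nat.cast_nonneg _) _) fun T => ?_
  refine (sum_le (fun b : (Ideal (𝓞 F))⁰ => Ideal.absNorm (b : Ideal (𝓞 F))) C hC s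
    (by linarith) T (fun b _ => nm_pos b) fun b _ => ?_).trans ?_
  · refine le_trans ?_ (hn _ (nm_pos b)).1
    have h1 : ((Finset.filter (fun a : (Ideal (𝓞 F))⁰ => Ideal.absNorm (a : Ideal (𝓞 F)) ≤
        Ideal.absNorm (b : Ideal (𝓞 F))) T).map (Function.Embedding.subtype _)).card ≤
        (ids F (Ideal.absNorm (b : Ideal (𝓞 F)))).card := by
      refine Finset.card_le_card fun a ha => ?_
      rw [Finset.mem_map] at ha
      obtain ⟨a', ha', rfl⟩ := ha
      rw [Finset.mem_filter] at ha'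
      exact mem_ids.2 ⟨nonZeroDivisors.coe_ne_zero a', ha'.2⟩
    rw [Finset.card_map] at h1
    exact_mod_cast h1
  · refine mul_le_mul_of_nonneg_left ?_ (Real.rpow_nonneg hC.le _)
    exact hz.sum_le_tsum _ fun i _ => Real.rpow_nonneg (Nat.cast_nonneg _) _

/-- the terms -/
theorem term_le (k : ℕ) {y₀ : ℝ} (hy₀ : 0 < y₀) : ∃ K : ℝ, 0 ≤ K ∧ ∀ (n : ℕ), 1 ≤ n →
    ∀ y : ℝ, y₀ ≤ y → (n : ℝ) ^ ((k : ℝ) - 1 / 2) * Real.exp (-(2 * Real.pi * (n : ℝ) * y)) ≤
      K * Real.exp (-(Real.pi * y)) * (n : ℝ) ^ (-(2 : ℝ)) := by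
  have hc : 0 < Real.pi * y₀ := mul_pos Real.pi_pos hy₀
  refine ⟨((k + 2).factorial : ℝ) / (Real.pi * y₀) ^ (k + 2), by positivity, fun n hn y hy => ?_⟩
  have hn' : (1 : ℝ) ≤ n := by exact_mod_cast hn
  have hn0 : (0 : ℝ) < n := by linarith
  have h1 := Real.pow_div_factorial_le_exp (x := Real.pi * y₀ * n) (by positivity) (k + 2)
  have h2 : (n : ℝ) ^ (k + 2) ≤ ((k + 2).factorial : ℝ) / (Real.pi * y₀) ^ (k + 2) *
      Real.exp (Real.pi * y₀ * n) := by
    rw [mul_pow, div_le_iff₀ (by positivity)] at h1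
    rw [div_mul_eq_mul_div, le_div_iff₀ (by positivity)]
    linarith
  have h3 : (n : ℝ) ^ ((k : ℝ) - 1 / 2) ≤ (n : ℝ) ^ (k + 2) * (n : ℝ) ^ (-(2 : ℝ)) := by
    rw [← Real.rpow_natCast, ← Real.rpow_add hn0]
    refine Real.rpow_le_rpow_of_exponent_le hn' ?_
    push_cast
    linarith
  have h4 : Real.exp (-(2 * Real.pi * (n : ℝ) * y)) ≤
      Real.exp (-(Real.pi * y)) * Real.exp (-(Real.pi * y₀ * n)) := by
    rw [← Real.exp_add]
    refine Real.exp_le_exp.2 ?_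
    have h5 : Real.pi * y ≤ Real.pi * y * n :=
      le_mul_of_one_le_right (mul_nonneg Real.pi_pos.le (hy₀.le.trans hy)) hn'
    have h6 : Real.pi * y₀ * n ≤ Real.pi * y * n :=
      mul_le_mul_of_nonneg_right (mul_le_mul_of_nonneg_left hy Real.pi_pos.le) hn0.le
    linarith
  have h7 : (n : ℝ) ^ ((k : ℝ) - 1 / 2) ≤ ((k + 2).factorial : ℝ) / (Real.pi * y₀) ^ (k + 2) *
      Real.exp (Real.pi * y₀ * n) * (n : ℝ) ^ (-(2 : ℝ)) :=
    h3.trans (mul_le_mul_of_nonneg_right h2 (Real.rpow_nonneg hn0.le _))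
  calc (n : ℝ) ^ ((k : ℝ) - 1 / 2) * Real.exp (-(2 * Real.pi * (n : ℝ) * y))
      ≤ (((k + 2).factorial : ℝ) / (Real.pi * y₀) ^ (k + 2) *
        Real.exp (Real.pi * y₀ * n) * (n : ℝ) ^ (-(2 : ℝ))) *
        (Real.exp (-(Real.pi * y)) * Real.exp (-(Real.pi * y₀ * n))) :=
        mul_le_mul h7 h4 (Real.exp_pos _).le (by positivity)
    _ = ((k + 2).factorial : ℝ) / (Real.pi * y₀) ^ (k + 2) * Real.exp (-(Real.pi * y)) *
        (n : ℝ) ^ (-(2 : ℝ)) * (Real.exp (Real.pi * y₀ * n) * Real.exp (-(Real.pi * y₀ * n))) := by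
        ring
    _ = _ := by rw [← Real.exp_add, add_neg_cancel, Real.exp_zero, mul_one]

end GbAux

/-- **Module Gb**: convergence, continuity and size of the theta series of a function on the
ideals. -/
theorem stGb (h : StCnt) : StGb := by
  intro F _ _ Φ k hk hΦ
  have hsum := GbAux.summable_nm (F := F) h (s := 2) (by norm_num)
  have hterm : ∀ y₀ : ℝ, 0 < y₀ → ∃ K : ℝ, 0 ≤ K ∧ ∀ (b : (Ideal (𝓞 F))⁰) (y : ℝ), y₀ ≤ y →
      ‖Φ b * Real.exp (-(2 * Real.pi * (Ideal.absNorm (b : Ideal (𝓞 F)) : ℝ) * y))‖ ≤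
        K * Real.exp (-(Real.pi * y)) * (Ideal.absNorm (b : Ideal (𝓞 F)) : ℝ) ^ (-(2 : ℝ)) := by
    intro y₀ hy₀
    obtain ⟨K, hK, h1⟩ := GbAux.term_le k hy₀
    refine ⟨K, hK, fun b y hy => ?_⟩
    refine le_trans ?_ (h1 _ (GbAux.nm_pos b) y hy)
    rw [norm_mul, Complex.norm_real, Real.norm_of_nonneg (Real.exp_pos _).le]
    exact mul_le_mul_of_nonneg_right (hΦ b) (Real.exp_pos _).le
  have hs1 : ∀ y : ℝ, 0 < y → Summable fun b : (Ideal (𝓞 F))⁰ => ‖Φ b *
      Real.exp (-(2 * Real.pi * (Ideal.absNorm (b : Ideal (𝓞 F)) : ℝ) * y))‖ := by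
    intro y hy
    obtain ⟨K, hK, h1⟩ := hterm y hy
    exact Summable.of_nonneg_of_le (fun b => norm_nonneg _) (fun b => h1 b y le_rfl)
      (hsum.mul_left _)
  refine ⟨hs1, ?_, ?_, ?_⟩
  · -- continuity
    intro y hy
    rw [Set.mem_Ioi] at hy
    have hy2 : 0 < y / 2 := by linarith
    obtain ⟨K, hK, h1⟩ := hterm (y / 2) hy2
    have h2 : ContinuousOn (gg Φ) (Set.Ioi (y / 2)) := by
      unfold gg
      refine continuousOn_tsum (fun b => ?_) (hsum.mul_left K) fun b x hx => ?_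
      · exact Continuous.continuousOn (by fun_prop)
      · rw [Set.mem_Ioi] at hx
        refine (h1 b x hx.le).trans ?_
        refine mul_le_mul_of_nonneg_right ?_ (Real.rpow_nonneg (Nat.cast_nonneg _) _)
        refine mul_le_of_le_one_right hK (Real.exp_le_one_iff.2 ?_)
        have := mul_pos Real.pi_pos (hy2.trans hx)
        linarith
    exact (h2.continuousAt (Ioi_mem_nhds (by linarith))).continuousWithinAt
  · -- size
    intro y₀ hy₀
    obtain ⟨K, hK, h1⟩ := hterm y₀ hy₀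
    refine ⟨K * ∑' b : (Ideal (𝓞 F))⁰, (Ideal.absNorm (b : Ideal (𝓞 F)) : ℝ) ^ (-(2 : ℝ)),
      fun y hy => ?_⟩
    have h2 : HasSum (fun b : (Ideal (𝓞 F))⁰ => K * Real.exp (-(Real.pi * y)) *
        (Ideal.absNorm (b : Ideal (𝓞 F)) : ℝ) ^ (-(2 : ℝ))) (K * Real.exp (-(Real.pi * y)) *
        ∑' b : (Ideal (𝓞 F))⁰, (Ideal.absNorm (b : Ideal (𝓞 F)) : ℝ) ^ (-(2 : ℝ))) :=
      hsum.hasSum.mul_left _
    have h3 := tsum_of_norm_bounded h2 fun b => h1 b y hy
    unfold gg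
    refine h3.trans (le_of_eq ?_)
    ring
  · intro z hz
    refine Summable.of_nonneg_of_le (fun b => norm_nonneg _) (fun b => ?_)
      (GbAux.summable_nm (F := F) h (s := 1 / 2 + z.re) (by linarith))
    have hb : (0 : ℝ) < (Ideal.absNorm (b : Ideal (𝓞 F)) : ℝ) := by
      exact_mod_cast GbAux.nm_pos b
    have h1 : ‖((Ideal.absNorm (b : Ideal (𝓞 F)) : ℕ) : ℂ) ^ (-((k : ℂ) + z))‖ =
        (Ideal.absNorm (b : Ideal (𝓞 F)) : ℝ) ^ (-((k : ℝ) + z.re)) := by
      rw [Complex.norm_natCast_cpow_of_pos (GbAux.nm_pos b)]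
      simp
    rw [norm_mul, h1]
    refine (mul_le_mul_of_nonneg_right (hΦ b) (Real.rpow_nonneg hb.le _)).trans (le_of_eq ?_)
    rw [← Real.rpow_add hb]
    congr 1
    ring

end Pool.Agent.Lib.MP_7c08ba_nt.CD
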