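import Mathlib
import Pool.Agent.Lib.MP_7c08ba_nt.CD.StA
import Pool.Agent.Lib.MP_7c08ba_nt.RZ.StB

set_option autoImplicit false

/-!
Project CD, module Gth: the theta series of a Hecke character as a sum over the classes of ideals.
-/

namespace Pool.Agent.Lib.MP_7c08ba_nt.CD

open NumberField IsDedekindDomain MeasureTheory Set Pool.Agent.Lib.MP_7c08ba_nt.RZ
  Pool.Agent.Lib.MP_7c08ba_nt.CN Pool.Agent.Lib.MP_7c08ba_nt.CN.TW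
open scoped nonZeroDivisors ComplexConjugate

namespace GthAux

variable {F : Type} [Field F] [NumberField F]

/-- The terms of the sum over the elements of a representative. -/
noncomputable def TT (c : 𝓞 F → ℂ) (Φ : Ideal (𝓞 F) →*₀ ℂ) (σ : F →+* ℂ) (a : Ideal (𝓞 F))
    (m : ℕ) (y : ℝ) (x : 𝓞 F) : ℂ :=
  (Φ a)⁻¹ * (c x * σ x ^ m * Real.exp (-(2 * Real.pi * Qa σ a x * y)))

theorem TT_zero (c : 𝓞 F → ℂ) (Φ : Ideal (𝓞 F) →*₀ ℂ) (σ : F →+* ℂ) (a : Ideal (𝓞 F))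
    {m : ℕ} (hm : m ≠ 0) (y : ℝ) : TT c Φ σ a m y 0 = 0 := by
  have h : σ ((0 : 𝓞 F) : F) = 0 := by simp
  unfold TT
  rw [h, zero_pow hm, mul_zero, zero_mul, mul_zero]

theorem tsum_TT (c : 𝓞 F → ℂ) (Φ : Ideal (𝓞 F) →*₀ ℂ) (σ : F →+* ℂ) (a : Ideal (𝓞 F))
    (m : ℕ) (y : ℝ) : ∑' x : a, TT c Φ σ a m y x = (Φ a)⁻¹ * thc c σ a m y := by
  unfold TT thc
  rw [tsum_mul_left]

theorem Qa_eq {σ : F →+* ℂ} {a b : Ideal (𝓞 F)} {x : 𝓞 F} (ha : a ≠ ⊥)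
    (hx : Complex.normSq (σ x) = (Ideal.absNorm (Ideal.span {x}) : ℝ))
    (h : b * a = Ideal.span {x}) : Qa σ a x = (Ideal.absNorm b : ℝ) := by
  have h1 : (Ideal.absNorm a : ℝ) ≠ 0 := by
    rw [Nat.cast_ne_zero]
    exact fun h => ha (Ideal.absNorm_eq_zero_iff.mp h)
  unfold Qa
  rw [hx, ← h, map_mul, Nat.cast_mul, mul_div_assoc, div_self h1, mul_one]

theorem TT_eq {c : 𝓞 F → ℂ} {Φ : Ideal (𝓞 F) →*₀ ℂ} {σ : F →+* ℂ} {a b : Ideal (𝓞 F)}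
    {m : ℕ} {y : ℝ} {x : 𝓞 F} (ha : a ≠ ⊥) (hΦ : Φ a ≠ 0)
    (hx : Complex.normSq (σ x) = (Ideal.absNorm (Ideal.span {x}) : ℝ))
    (hc : Φ (Ideal.span {x}) = c x * σ x ^ m) (h : b * a = Ideal.span {x}) :
    TT c Φ σ a m y x = Φ b * Real.exp (-(2 * Real.pi * (Ideal.absNorm b : ℝ) * y)) := by
  unfold TT
  rw [Qa_eq ha hx h, ← hc, ← h, map_mul]
  field_simp

theorem norm_TT_le {c : 𝓞 F → ℂ} {Φ : Ideal (𝓞 F) →*₀ ℂ} {σ : F →+* ℂ} {a : Ideal (𝓞 F)}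
    {m : ℕ} {y : ℝ} (x : 𝓞 F) (hc : ‖c x‖ ≤ 1) :
    ‖TT c Φ σ a m y x‖ ≤
      ‖(Φ a)⁻¹‖ * ((1 + ‖σ x‖) ^ m * Real.exp (-(2 * Real.pi * y * Qa σ a x))) := by
  unfold TT
  rw [norm_mul, norm_mul, norm_mul, norm_pow, Complex.norm_real, Real.norm_eq_abs, Real.abs_exp,
    show 2 * Real.pi * Qa σ a x * y = 2 * Real.pi * y * Qa σ a x by ring]
  refine mul_le_mul_of_nonneg_left ?_ (norm_nonneg _)
  refine mul_le_mul_of_nonneg_right ?_ (Real.exp_pos _).le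
  calc ‖c x‖ * ‖σ x‖ ^ m ≤ 1 * ‖σ x‖ ^ m :=
        mul_le_mul_of_nonneg_right hc (pow_nonneg (norm_nonneg _) _)
    _ = ‖σ x‖ ^ m := one_mul _
    _ ≤ (1 + ‖σ x‖) ^ m := pow_le_pow_left₀ (norm_nonneg _) (by linarith) _

end GthAux

open GthAux

/-- (Gth) the theta series of `Φ` as a sum over the classes of ideals -/
theorem stGth (hIdSum : RZ.StIdSum) (hPhi : StPhi) (hCb : StCb) (hThB : RZ.StThB)
    (hBas : RZ.StBas) : StGth := by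
  intro q F _ _ s σ χ cj o D k c Φ r y hD hT hk hc hΦ hcop hy
  obtain ⟨-, -, -, -, -, hnorm, -, -, -, hcong, -⟩ := hBas q F _ _ s σ χ cj hD
  obtain ⟨-, hΦ0, -⟩ := hPhi q F _ _ s σ χ cj o D k Φ hD hT hk hΦ
  obtain ⟨-, -, -, -, -, hc1, hc0, -⟩ := (hCb q F _ _ s σ χ cj o D hD hT).2 c hc
  have hcle : ∀ x, ‖c x‖ ≤ 1 := by
    intro x
    by_cases hx : IsCoprime x (s * (dl o D : 𝓞 F))
    · rcases hc1 x hx with h | h
      · rw [h, norm_one]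
      · rw [h, norm_neg, norm_one]
    · rw [hc0 x hx, norm_zero]
      exact zero_le_one
  have hR : ∀ A, (r.R A : Ideal (𝓞 F)) ≠ ⊥ := fun A => nonZeroDivisors.coe_ne_zero (r.R A)
  have hm : 2 * k - 1 ≠ 0 := by omega
  obtain ⟨-, hsum⟩ := hIdSum q F _ _ s σ χ cj r
    (fun b => Φ b * Real.exp (-(2 * Real.pi * (Ideal.absNorm b : ℝ) * y)))
    (fun A x => TT c Φ σ (r.R A : Ideal (𝓞 F)) (2 * k - 1) y x) hD
    (fun A => TT_zero c Φ σ _ hm y)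
    (fun A x b hx hb => by
      obtain ⟨a, ha⟩ := hcong x
      refine TT_eq (hR A) (hΦ0 _ (hR A) (hcop A)) (hnorm x) ?_ hb
      rw [hΦ x a hx ha, hc x a ha])
    (fun A => by
      obtain ⟨-, h2, -⟩ := hThB q F _ _ s σ χ cj (r.R A : Ideal (𝓞 F)) (2 * k - 1) 0 hD (hR A)
      have h3 := (h2 (2 * Real.pi * y) (by positivity)).mul_left ‖(Φ (r.R A : Ideal (𝓞 F)))⁻¹‖
      exact Summable.of_nonneg_of_le (fun x => norm_nonneg _)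
        (fun x => norm_TT_le (x : 𝓞 F) (hcle x)) h3)
  have e1 : ∑ A : ClassGroup (𝓞 F), (Φ (r.R A : Ideal (𝓞 F)))⁻¹ *
      thc c σ (r.R A : Ideal (𝓞 F)) (2 * k - 1) y = 2 * gg Φ y := by
    unfold gg
    rw [← hsum]
    refine Finset.sum_congr rfl fun A _ => ?_
    exact (tsum_TT c Φ σ _ _ y).symm
  rw [e1]
  ring

end Pool.Agent.Lib.MP_7c08ba_nt.CD
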