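import Mathlib
import Pool.Agent.Lib.MP_7c08ba_nt.CD.StA

set_option autoImplicit false

/-!
Module (LA) of the project CD: the central derivative as the sum `Sk`.
-/

namespace Pool.Agent.Lib.MP_7c08ba_nt.CD

open NumberField IsDedekindDomain MeasureTheory Set Pool.Agent.Lib.MP_7c08ba_nt.RZ
  Pool.Agent.Lib.MP_7c08ba_nt.CN Pool.Agent.Lib.MP_7c08ba_nt.CN.TW
open scoped nonZeroDivisors ComplexConjugate

namespace LAAux

variable {F : Type} [Field F] [NumberField F]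

/-- The character times a power of the norm. -/
noncomputable def gz (φ : Ideal (𝓞 F) →*₀ ℂ) (w : ℂ) : Ideal (𝓞 F) →*₀ ℂ where
  toFun b := φ b * (Ideal.absNorm b : ℂ) ^ w
  map_zero' := by rw [map_zero, zero_mul]
  map_one' := by rw [map_one, map_one, Nat.cast_one, Complex.one_cpow, mul_one]
  map_mul' a b := by
    rw [map_mul, map_mul, Nat.cast_mul, Complex.natCast_mul_natCast_cpow]
    ring

lemma gz_apply (φ : Ideal (𝓞 F) →*₀ ℂ) (w : ℂ) (b : Ideal (𝓞 F)) :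
    gz φ w b = φ b * (Ideal.absNorm b : ℂ) ^ w := rfl

lemma jac_pow (a : ℤ) (q k : ℕ) (hk : 1 ≤ k) :
    (jacobiSym a q : ℂ) ^ (2 * k - 1) = (jacobiSym a q : ℂ) := by
  obtain ⟨j, rfl⟩ : ∃ j, k = j + 1 := ⟨k - 1, by omega⟩
  have e : 2 * (j + 1) - 1 = 2 * j + 1 := by omega
  rw [e, pow_succ, pow_mul]
  rcases jacobiSym.trichotomy a q with h | h | h
  · rw [h]; simp
  · rw [h]; simp
  · rw [h]; simp

lemma isTy {o : Bool} {q D : ℕ} {s : 𝓞 F} {σ : F →+* ℂ} {ψ : Ideal (𝓞 F) →*₀ ℂ}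
    (hψ : IsCan q s σ 1 ψ) {k : ℕ} {Φ : Ideal (𝓞 F) →*₀ ℂ} (hk : 1 ≤ k)
    (hΦ : ∀ a : Ideal (𝓞 F), Φ a = (tw o D (Ideal.absNorm a) : ℂ) * ψ a ^ (2 * k - 1)) :
    IsTy o q D s σ (2 * k - 1) Φ := by
  intro t a ht hta
  rw [hΦ, hψ t a ht hta, pow_one, mul_pow, jac_pow a q k hk]
  unfold nmm
  push_cast
  ring

lemma rr_pos {o : Bool} {q D : ℕ} (hq : q.Prime) (hD : TwA q D) : 0 < rr o q D := by
  have h1 : D ≠ 0 := hD.sqf.ne_zero
  unfold rr dl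
  cases o
  · simpa using ⟨hq.pos, Nat.pos_of_ne_zero h1⟩
  · simpa using ⟨hq.pos, Nat.pos_of_ne_zero h1⟩

lemma tm_eq {o : Bool} {D : ℕ} {ψ : Ideal (𝓞 F) →*₀ ℂ} {k : ℕ} {Φ : Ideal (𝓞 F) →*₀ ℂ}
    (hk : 1 ≤ k)
    (hΦ : ∀ a : Ideal (𝓞 F), Φ a = (tw o D (Ideal.absNorm a) : ℂ) * ψ a ^ (2 * k - 1))
    (b : Ideal (𝓞 F)) : Φ b * ((Ideal.absNorm b : ℂ) ^ k)⁻¹ = tm o D ψ k b := by
  have h1 : (Real.sqrt (Ideal.absNorm b) : ℂ) ^ (2 * k - 1) * (Real.sqrt (Ideal.absNorm b) : ℂ) =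
      (Ideal.absNorm b : ℂ) ^ k := by
    rw [← pow_succ]
    have e : 2 * k - 1 + 1 = 2 * k := by omega
    rw [e, pow_mul, ← Complex.ofReal_pow, Real.sq_sqrt (Nat.cast_nonneg _)]
    norm_cast
  unfold tm uu
  rw [hΦ, div_pow, mul_div_assoc, div_div, h1, div_eq_mul_inv, mul_assoc]

end LAAux

/-- (LA) the central derivative -/
theorem stLA (h1 : StSg) (h2 : StMel) (h3 : StLg) (h4 : StPhi) (h5 : StGb)
    (h6 : StEulId) : StLA := by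
  intro q F i1 i2 s σ χ cj o D ψ hdat hD h8 hψ k Φ hk ho hΦ
  have hty : IsTy o q D s σ (2 * k - 1) Φ := LAAux.isTy hψ hk hΦ
  obtain ⟨hb, -, -⟩ := h4 q F i1 i2 s σ χ cj o D k Φ hdat hD hk hty
  have hR : (0 : ℝ) < (rr o q D : ℝ) := by
    exact_mod_cast LAAux.rr_pos hdat.prime hD
  obtain ⟨Λ, hd, hΛ, -, hz⟩ := h2 F i1 i2 Φ k (rr o q D : ℝ) (-1) hk hR hb (fun x hx => by
    have h := h1 q F i1 i2 s σ χ cj o D ψ hdat hD h8 hψ k Φ x hk hty hx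
    rw [if_neg ho] at h
    exact h)
  obtain ⟨hz0, hder⟩ := hz rfl
  refine ⟨Λ, ⟨hd.differentiableOn, fun z hz1 => ?_⟩, hz0, ?_⟩
  · have hs := (h5 F i1 i2 Φ k hk hb).2.2.2 z (by linarith)
    have hp := h6 F i1 i2 (LAAux.gz Φ (-((k : ℂ) + z))) (by simpa only [LAAux.gz_apply] using hs)
    simp only [LAAux.gz_apply] at hp
    rw [hΛ z hz1]
    exact hp
  · rw [h3 F i1 i2 Φ k (rr o q D : ℝ) hk hR hb] at hder
    have hc : ((((rr o q D : ℝ) : ℂ) / (2 * (Real.pi : ℂ))) ^ k * ((k - 1).factorial : ℂ)) ≠ 0 := by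
      refine mul_ne_zero (pow_ne_zero _ (div_ne_zero ?_ ?_)) ?_
      · exact_mod_cast hR.ne'
      · refine mul_ne_zero two_ne_zero ?_
        exact_mod_cast Real.pi_ne_zero
      · exact_mod_cast Nat.factorial_ne_zero _
    have h7 : deriv Λ 0 = 2 * ∑' n : ℕ,
        (vv (2 * Real.pi / (rr o q D : ℝ)) k (n + 1) : ℂ) * ∑ b ∈ ids F (n + 1),
          Φ b * ((Ideal.absNorm b : ℂ) ^ k)⁻¹ := by
      apply mul_right_cancel₀ hc
      rw [hder]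
      ring
    rw [h7]
    unfold Sk Bk
    congr 1
    refine tsum_congr fun n => ?_
    congr 1
    exact Finset.sum_congr rfl fun b _ => LAAux.tm_eq hk hΦ b

end Pool.Agent.Lib.MP_7c08ba_nt.CD
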