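import Pool.Agent.Lib.MP_7c08ba_nt.CD.StA

set_option autoImplicit false

/-!
Project CD, module Lg: the integral of (Mel) in terms of the sums over the ideals of bounded norm.
-/

namespace Pool.Agent.Lib.MP_7c08ba_nt.CD

open NumberField IsDedekindDomain MeasureTheory Set Filter
open scoped nonZeroDivisors ComplexConjugate Topology

namespace LgAux

theorem countable_ideals (F : Type) [Field F] [NumberField F] : Countable (Ideal (𝓞 F)) := by
  rw [← Set.countable_univ_iff]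
  have h : (Set.univ : Set (Ideal (𝓞 F))) = ⋃ n : ℕ, {I | Ideal.absNorm I ≤ n} := by
    ext I
    simp only [mem_univ, mem_iUnion, mem_ofPred_eq, true_iff]
    exact ⟨_, le_rfl⟩
  rw [h]
  exact Set.countable_iUnion fun n => (Ideal.finite_setOfPred_absNorm_le n).countable

open Classical in
theorem hasSum_ids {F : Type} [Field F] [NumberField F] {E : Type} [AddCommMonoid E]
    [TopologicalSpace E] (h : Ideal (𝓞 F) → E) (n : ℕ) :
    HasSum (fun b : (Ideal (𝓞 F))⁰ => if Ideal.absNorm (b : Ideal (𝓞 F)) ≤ n then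
      h (b : Ideal (𝓞 F)) else 0) (∑ b ∈ ids F n, h b) := by
  have hmem : ∀ b ∈ ids F n, b ∈ (Ideal (𝓞 F))⁰ := fun b hb =>
    mem_nonZeroDivisors_iff_ne_zero.2 (mem_ids.1 hb).1
  have h1 := hasSum_sum_of_ne_finset_zero (L := SummationFilter.unconditional _) (f := fun b : (Ideal (𝓞 F))⁰ =>
    if Ideal.absNorm (b : Ideal (𝓞 F)) ≤ n then h (b : Ideal (𝓞 F)) else 0)
    (s := (ids F n).subtype (fun b => b ∈ (Ideal (𝓞 F))⁰)) (by
      intro b hb
      rw [if_neg]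
      intro hn
      apply hb
      rw [Finset.mem_subtype]
      exact mem_ids.2 ⟨mem_nonZeroDivisors_iff_ne_zero.1 b.2, hn⟩)
  have h2 : ∑ b ∈ (ids F n).subtype (fun b => b ∈ (Ideal (𝓞 F))⁰),
      (if Ideal.absNorm (b : Ideal (𝓞 F)) ≤ n then h (b : Ideal (𝓞 F)) else 0) =
      ∑ b ∈ ids F n, h b := by
    rw [Finset.sum_subtype_of_mem (fun b : Ideal (𝓞 F) =>
      if Ideal.absNorm b ≤ n then h b else 0) hmem]
    exact Finset.sum_congr rfl fun b hb => if_pos (mem_ids.1 hb).2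
  rw [h2] at h1
  exact h1

theorem norm_pos {F : Type} [Field F] [NumberField F] (b : (Ideal (𝓞 F))⁰) :
    1 ≤ Ideal.absNorm (b : Ideal (𝓞 F)) := by
  rw [Nat.one_le_iff_ne_zero]
  intro h
  exact mem_nonZeroDivisors_iff_ne_zero.1 b.2 (Ideal.absNorm_eq_zero_iff.1 h)

theorem w_le {F : Type} [Field F] [NumberField F] {Φ : Ideal (𝓞 F) → ℂ} {k : ℕ}
    (hΦ : ∀ b : Ideal (𝓞 F), ‖Φ b‖ ≤ (Ideal.absNorm b : ℝ) ^ ((k : ℝ) - 1 / 2))
    {b : Ideal (𝓞 F)} (hb : b ≠ ⊥) :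
    ‖Φ b * ((Ideal.absNorm b : ℂ) ^ k)⁻¹‖ ≤ (Real.sqrt (Ideal.absNorm b : ℝ))⁻¹ := by
  have hN : (0 : ℝ) < (Ideal.absNorm b : ℝ) := by
    have : Ideal.absNorm b ≠ 0 := fun h => hb (Ideal.absNorm_eq_zero_iff.1 h)
    exact_mod_cast Nat.pos_of_ne_zero this
  rw [norm_mul, norm_inv, norm_pow, Complex.norm_natCast]
  have h1 := hΦ b
  rw [Real.rpow_sub hN, Real.rpow_natCast, ← Real.sqrt_eq_rpow] at h1
  have hk : (0 : ℝ) < (Ideal.absNorm b : ℝ) ^ k := pow_pos hN k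
  calc ‖Φ b‖ * ((Ideal.absNorm b : ℝ) ^ k)⁻¹
      ≤ ((Ideal.absNorm b : ℝ) ^ k / Real.sqrt (Ideal.absNorm b : ℝ)) *
        ((Ideal.absNorm b : ℝ) ^ k)⁻¹ := mul_le_mul_of_nonneg_right h1 (inv_nonneg.2 hk.le)
    _ = (Real.sqrt (Ideal.absNorm b : ℝ))⁻¹ := by
        field_simp

theorem shift_tsum (v : ℕ → ℝ) {N : ℕ} (hN : 1 ≤ N) :
    ∑' n : ℕ, (if N ≤ n + 1 then v (n + 1) else 0) = ∑' n : ℕ, v (N + n) := by
  have hinj : Function.Injective (fun n : ℕ => N - 1 + n) := fun a b h => by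
    simpa using h
  have h := hinj.tsum_eq (f := fun n : ℕ => if N ≤ n + 1 then v (n + 1) else 0) (by
    intro n hn
    rw [Function.mem_support] at hn
    have hn' : N ≤ n + 1 := by
      by_contra h
      exact hn (if_neg h)
    exact ⟨n - (N - 1), by dsimp only; omega⟩)
  rw [← h]
  refine tsum_congr fun n => ?_
  rw [if_pos (by omega)]
  congr 1
  omega

theorem summ_v {v : ℕ → ℕ → ℝ} (hv : Wt v) {k : ℕ} (hk : 1 ≤ k) {C : ℝ} (hC : 0 < C)
    (S : ℕ → ℝ) (hS0 : ∀ n, 0 ≤ S n) (hS : ∀ n, S n ≤ C * Real.sqrt ((n + 1 : ℕ) : ℝ)) :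
    Summable fun n : ℕ => v k (n + 1) * S n := by
  obtain ⟨C1, δ, hC1, hδ, hdec⟩ := hv.dec
  have hs : Summable fun n : ℕ => C * (((n + 1 : ℕ) : ℝ) ^ 1 * Real.exp (-δ * ((n + 1 : ℕ) : ℝ))) :=
    ((summable_nat_add_iff 1).2 (Real.summable_pow_mul_exp_neg_nat_mul 1 hδ)).mul_left C
  refine Summable.of_norm_bounded_eventually_nat hs ?_
  filter_upwards [eventually_ge_atTop (C1 * k)] with n hn
  have h1 := hdec k (n + 1) hk (by omega)
  have h0 := hv.nn k (n + 1) (by omega)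
  rw [Real.norm_of_nonneg (mul_nonneg h0 (hS0 n))]
  have h2 : S n ≤ C * ((n + 1 : ℕ) : ℝ) := by
    refine (hS n).trans (mul_le_mul_of_nonneg_left ?_ hC.le)
    rw [Real.sqrt_le_left (by positivity)]
    have : (1 : ℝ) ≤ ((n + 1 : ℕ) : ℝ) := by exact_mod_cast Nat.succ_le_succ (Nat.zero_le n)
    nlinarith
  calc v k (n + 1) * S n ≤ Real.exp (-(δ * ((n + 1 : ℕ) : ℝ))) * (C * ((n + 1 : ℕ) : ℝ)) :=
        mul_le_mul h1 h2 (hS0 n) (Real.exp_pos _).le
    _ = C * (((n + 1 : ℕ) : ℝ) ^ 1 * Real.exp (-δ * ((n + 1 : ℕ) : ℝ))) := by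
        rw [pow_one, neg_mul]
        ring

end LgAux

open LgAux in
open Classical in
/-- (Lg) the integral of (Mel) in terms of the sums over the ideals of bounded norm -/
theorem stLg (hPv : StPv) (hWv : StWv) (hCnt : StCnt) : StLg := by
  intro F _ _ Φ k R hk hR hΦ
  have _i1 : Countable (Ideal (𝓞 F)) := countable_ideals F
  have _i2 : Countable (Ideal (𝓞 F))⁰ := inferInstance
  set c₀ : ℝ := 2 * Real.pi / R with hc₀
  have hc₀pos : 0 < c₀ := by positivity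
  obtain ⟨hWt, hW2⟩ := hWv c₀ hc₀pos
  obtain ⟨C, hC, hCn⟩ := hCnt F _ _
  set v : ℕ → ℝ := vv c₀ k with hv
  have hv0 : ∀ n, 0 ≤ v (n + 1) := fun n => hWt.nn k (n + 1) (by omega)
  set w : Ideal (𝓞 F) → ℂ := fun b => Φ b * ((Ideal.absNorm b : ℂ) ^ k)⁻¹ with hw
  set In : ℕ → ℝ := fun N => ∫ u in Ioi (c₀ * N), Pk k u / u with hIn
  set g : ℕ → (Ideal (𝓞 F))⁰ → ℂ := fun n b =>
    if Ideal.absNorm (b : Ideal (𝓞 F)) ≤ n + 1 then (v (n + 1) : ℂ) * w b else 0 with hg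
  have hgn : ∀ n b, ‖g n b‖ =
      if Ideal.absNorm (b : Ideal (𝓞 F)) ≤ n + 1 then v (n + 1) * ‖w b‖ else 0 := by
    intro n b
    rw [hg]
    dsimp only
    split_ifs
    · rw [norm_mul, Complex.norm_real, Real.norm_of_nonneg (hv0 n)]
    · exact norm_zero
  have hnorm : ∀ n, HasSum (fun b => ‖g n b‖) (v (n + 1) * ∑ b ∈ ids F (n + 1), ‖w b‖) := by
    intro n
    have h := hasSum_ids (F := F) (fun b => v (n + 1) * ‖w b‖) (n + 1)
    rw [← Finset.mul_sum] at h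
    simp only [hgn]
    exact h
  have hsum : Summable (fun p : ℕ × (Ideal (𝓞 F))⁰ => ‖g p.1 p.2‖) := by
    rw [summable_prod_of_nonneg (fun p => norm_nonneg _)]
    refine ⟨fun n => (hnorm n).summable, ?_⟩
    have h : (fun n => ∑' b, ‖g n b‖) = fun n => v (n + 1) * ∑ b ∈ ids F (n + 1), ‖w b‖ :=
      funext fun n => (hnorm n).tsum_eq
    rw [h]
    refine summ_v hWt hk hC _ (fun n => Finset.sum_nonneg fun b _ => norm_nonneg _) fun n => ?_
    refine le_trans (Finset.sum_le_sum fun b hb => w_le hΦ (mem_ids.1 hb).1) ?_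
    exact (hCn (n + 1) (by omega)).2.2
  have hsumg : Summable (Function.uncurry g) := hsum.of_norm
  have hsum' : Summable (fun b : (Ideal (𝓞 F))⁰ => ∑' n, ‖g n b‖) := by
    have h := (Equiv.prodComm (Ideal (𝓞 F))⁰ ℕ).summable_iff.2 hsum
    exact h.prod
  have hIN : ∀ b : (Ideal (𝓞 F))⁰,
      ∑' n, (if Ideal.absNorm (b : Ideal (𝓞 F)) ≤ n + 1 then v (n + 1) else 0) =
      In (Ideal.absNorm (b : Ideal (𝓞 F))) := by
    intro b
    rw [shift_tsum v (norm_pos b)]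
    exact ((hW2 k _ hk (norm_pos b)).2).symm
  have hb1 : ∀ b : (Ideal (𝓞 F))⁰, ∑' n, ‖g n b‖ =
      In (Ideal.absNorm (b : Ideal (𝓞 F))) * ‖w b‖ := by
    intro b
    rw [← hIN b, ← tsum_mul_right]
    refine tsum_congr fun n => ?_
    rw [hgn]
    split_ifs <;> simp
  have hb2 : ∀ b : (Ideal (𝓞 F))⁰, ∑' n, g n b =
      (In (Ideal.absNorm (b : Ideal (𝓞 F))) : ℂ) * w b := by
    intro b
    rw [← hIN b, Complex.ofReal_tsum, ← tsum_mul_right]
    refine tsum_congr fun n => ?_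
    rw [hg]
    dsimp only
    split_ifs <;> simp
  -- the integrals
  have hcb : ∀ b : (Ideal (𝓞 F))⁰, 0 < c₀ * (Ideal.absNorm (b : Ideal (𝓞 F)) : ℝ) := fun b =>
    mul_pos hc₀pos (by exact_mod_cast norm_pos b)
  set r : (Ideal (𝓞 F))⁰ → ℝ → ℝ := fun b x =>
    Real.exp (-(c₀ * (Ideal.absNorm (b : Ideal (𝓞 F)) : ℝ) * x)) * x ^ (k - 1) * Real.log x
    with hr
  have hri : ∀ b, IntegrableOn (r b) (Ioi 1) := fun b => (hPv k _ hk (hcb b)).2.1
  have hrv : ∀ b, ∫ x in Ioi (1 : ℝ), r b x = (k - 1).factorial /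
      (c₀ * (Ideal.absNorm (b : Ideal (𝓞 F)) : ℝ)) ^ k *
      In (Ideal.absNorm (b : Ideal (𝓞 F))) := fun b => (hPv k _ hk (hcb b)).2.2
  have hNc : ∀ b : (Ideal (𝓞 F))⁰, ((Ideal.absNorm (b : Ideal (𝓞 F)) : ℂ)) ≠ 0 := fun b => by
    have := norm_pos b
    exact_mod_cast (by omega : Ideal.absNorm (b : Ideal (𝓞 F)) ≠ 0)
  set f : (Ideal (𝓞 F))⁰ → ℝ → ℂ := fun b x => Φ b * (r b x : ℂ) with hf
  have hfi : ∀ b, Integrable (f b) (volume.restrict (Ioi (1 : ℝ))) := fun b =>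
    (Integrable.ofReal (hri b)).const_mul _
  have hfn : ∀ b, ∫ x in Ioi (1 : ℝ), ‖f b x‖ =
      ((k - 1).factorial / c₀ ^ k) * (In (Ideal.absNorm (b : Ideal (𝓞 F))) * ‖w b‖) := by
    intro b
    have h1 : ∫ x in Ioi (1 : ℝ), ‖f b x‖ = ∫ x in Ioi (1 : ℝ), ‖Φ b‖ * r b x := by
      refine setIntegral_congr_fun measurableSet_Ioi fun x hx => ?_
      have hx1 : (1 : ℝ) < x := hx
      have hr0 : 0 ≤ r b x := by
        rw [hr]
        exact mul_nonneg (mul_nonneg (Real.exp_pos _).le (by positivity))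
          (Real.log_nonneg hx1.le)
      rw [hf]
      dsimp only
      rw [norm_mul, Complex.norm_real, Real.norm_of_nonneg hr0]
    rw [h1, integral_const_mul, hrv, hw]
    dsimp only
    rw [norm_mul, norm_inv, norm_pow, Complex.norm_natCast, mul_pow]
    have : (0 : ℝ) < (Ideal.absNorm (b : Ideal (𝓞 F)) : ℝ) := by exact_mod_cast norm_pos b
    field_simp
  have hfv : ∀ b, ∫ x in Ioi (1 : ℝ), f b x =
      (((k - 1).factorial : ℂ) / (c₀ : ℂ) ^ k) *
        ((In (Ideal.absNorm (b : Ideal (𝓞 F))) : ℂ) * w b) := by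
    intro b
    rw [hf]
    dsimp only
    rw [integral_const_mul, integral_complex_ofReal, hrv, hw]
    dsimp only
    push_cast
    rw [mul_pow]
    have hc : (c₀ : ℂ) ≠ 0 := by exact_mod_cast hc₀pos.ne'
    have := hNc b
    field_simp
  have hfs : Summable fun b => ∫ x in Ioi (1 : ℝ), ‖f b x‖ := by
    simp only [hfn, ← hb1]
    exact hsum'.mul_left _
  have hmain := (hasSum_integral_of_summable_integral_norm hfi hfs).tsum_eq
  have hleft : ∫ x in Ioi (1 : ℝ), gg Φ (x / R) * (x : ℂ) ^ (k - 1) * Real.log x =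
      ∫ x in Ioi (1 : ℝ), ∑' b, f b x := by
    refine integral_congr_ae (Eventually.of_forall fun x => ?_)
    dsimp only
    unfold gg
    rw [← tsum_mul_right, ← tsum_mul_right]
    refine tsum_congr fun b => ?_
    rw [hf, hr]
    dsimp only
    have e : 2 * Real.pi * (Ideal.absNorm (b : Ideal (𝓞 F)) : ℝ) * (x / R) =
        c₀ * (Ideal.absNorm (b : Ideal (𝓞 F)) : ℝ) * x := by
      rw [hc₀]
      ring
    rw [e]
    push_cast
    ring
  rw [hleft, ← hmain]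
  simp only [hfv, ← hb2]
  rw [tsum_mul_left, hsumg.tsum_comm]
  have hin : ∀ n, ∑' b, g n b = (v (n + 1) : ℂ) * ∑ b ∈ ids F (n + 1), w b := by
    intro n
    have h := hasSum_ids (F := F) (fun b => (v (n + 1) : ℂ) * w b) (n + 1)
    rw [← Finset.mul_sum] at h
    exact h.tsum_eq
  simp only [hin]
  congr 1
  rw [hc₀]
  push_cast
  have hpi : (Real.pi : ℂ) ≠ 0 := by exact_mod_cast Real.pi_ne_zero
  have hR' : (R : ℂ) ≠ 0 := by exact_mod_cast hR.ne'
  rw [div_pow, div_pow]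
  field_simp

end Pool.Agent.Lib.MP_7c08ba_nt.CD
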