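import Pool.Agent.Lib.MP_7c08ba_nt.CD.StA

set_option autoImplicit false

/-!
# Project CD, module Mel: the Mellin transform
-/

namespace Pool.Agent.Lib.MP_7c08ba_nt.CD

open NumberField IsDedekindDomain MeasureTheory Set Filter Asymptotics Topology
open scoped nonZeroDivisors ComplexConjugate

namespace MelAux

theorem countable_ideals (F : Type) [Field F] [NumberField F] : Countable (Ideal (𝓞 F)) := by
  have h : (univ : Set (Ideal (𝓞 F))) = ⋃ n : ℕ, {I | Ideal.absNorm I ≤ n} := by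
    ext I
    simp only [mem_univ, mem_iUnion, mem_ofPred_eq, true_iff]
    exact ⟨_, le_rfl⟩
  have h2 : (univ : Set (Ideal (𝓞 F))).Countable := by
    rw [h]
    exact countable_iUnion fun n => (Ideal.finite_setOfPred_absNorm_le (S := 𝓞 F) n).countable
  exact countable_univ_iff.mp h2

section
variable {f : ℝ → ℂ} {k : ℕ} {ε : ℂ}

/-- the half of the integral over `(0, 1)` -/
theorem half (g : ℝ → ℂ) (hg : IntegrableOn g (Ioi 0))
    (h : ∀ x : ℝ, 1 ≤ x → ((x : ℂ) ^ 2)⁻¹ * g x⁻¹ = g x) :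
    ∫ x in Ioi (0 : ℝ), g x = 2 * ∫ x in Ioi (1 : ℝ), g x := by
  have hu : Ioi (0 : ℝ) = Ioc 0 1 ∪ Ioi 1 := (Ioc_union_Ioi_eq_Ioi (by norm_num)).symm
  have h1 : ∫ x in Ioi (0 : ℝ), g x = (∫ x in Ioc (0 : ℝ) 1, g x) + ∫ x in Ioi (1 : ℝ), g x := by
    conv_lhs => rw [hu]
    rw [setIntegral_union (Ioc_disjoint_Ioi le_rfl) measurableSet_Ioi
      (hg.mono_set Ioc_subset_Ioi_self) (hg.mono_set (Ioi_subset_Ioi (by norm_num)))]
  have h2 : ∫ x in Ioc (0 : ℝ) 1, g x = ∫ x in Ioi (0 : ℝ), (Iic (1 : ℝ)).indicator g x := by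
    rw [setIntegral_indicator measurableSet_Iic]
    rfl
  have h3 := integral_comp_rpow_Ioi ((Iic (1 : ℝ)).indicator g) (p := -1) (by norm_num)
  have h4 : ∀ x ∈ Ioi (0 : ℝ), (|(-1 : ℝ)| * x ^ ((-1 : ℝ) - 1)) •
      (Iic (1 : ℝ)).indicator g (x ^ (-1 : ℝ)) = (Ici (1 : ℝ)).indicator g x := by
    intro x hx
    have hx0 : (0 : ℝ) < x := hx
    have e1 : x ^ (-1 : ℝ) = x⁻¹ := Real.rpow_neg_one x
    have e2 : x ^ ((-1 : ℝ) - 1) = (x ^ 2)⁻¹ := by
      rw [show ((-1 : ℝ) - 1) = -(2 : ℕ) by norm_num, Real.rpow_neg hx0.le, Real.rpow_natCast]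
    rw [e1, e2]
    by_cases hx1 : 1 ≤ x
    · have : x⁻¹ ∈ Iic (1 : ℝ) := inv_le_one_of_one_le₀ hx1
      rw [indicator_of_mem this, indicator_of_mem (show x ∈ Ici (1 : ℝ) from hx1), ← h x hx1]
      simp
    · have : x⁻¹ ∉ Iic (1 : ℝ) := by
        rw [mem_Iic, not_le]
        exact (one_lt_inv₀ hx0).mpr (not_le.mp hx1)
      rw [indicator_of_notMem this, indicator_of_notMem (show x ∉ Ici (1 : ℝ) from hx1), smul_zero]
  have h5 : ∫ x in Ioi (0 : ℝ), (Iic (1 : ℝ)).indicator g x = ∫ x in Ioi (1 : ℝ), g x := by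
    rw [← h3, setIntegral_congr_fun measurableSet_Ioi h4, setIntegral_indicator measurableSet_Ici,
      show Ioi (0 : ℝ) ∩ Ici 1 = Ici 1 from inter_eq_right.mpr fun x (hx : (1 : ℝ) ≤ x) =>
        lt_of_lt_of_le one_pos hx, integral_Ici_eq_integral_Ioi]
  rw [h1, h2, h5]; ring

theorem top_O {c C : ℝ} (hc : 0 < c) (hf : ∀ x : ℝ, 1 ≤ x → ‖f x‖ ≤ C * Real.exp (-(c * x)))
    (a : ℝ) : f =O[atTop] (fun x : ℝ => x ^ (-a)) := by
  have h1 : f =O[atTop] fun x : ℝ => Real.exp (-c * x) := by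
    refine IsBigO.of_bound |C| ?_
    filter_upwards [eventually_ge_atTop (1 : ℝ)] with x hx
    rw [Real.norm_of_nonneg (Real.exp_pos _).le]
    refine (hf x hx).trans ?_
    rw [neg_mul]
    exact mul_le_mul_of_nonneg_right (le_abs_self _) (Real.exp_pos _).le
  exact h1.trans (isLittleO_exp_neg_mul_rpow_atTop hc (-a)).isBigO

theorem bot_O {c C : ℝ} (hc : 0 < c) (hf : ∀ x : ℝ, 1 ≤ x → ‖f x‖ ≤ C * Real.exp (-(c * x)))
    (hFE : ∀ x : ℝ, 0 < x → f x⁻¹ = ε * (x : ℂ) ^ (2 * k) * f x)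
    (b : ℝ) : f =O[𝓝[>] 0] (fun x : ℝ => x ^ (-b)) := by
  have h1 : (fun x : ℝ => f x⁻¹) =O[atTop] fun x : ℝ => x ^ b := by
    have h2 : (fun x : ℝ => f x⁻¹) =ᶠ[atTop] fun x : ℝ => (ε * (x : ℂ) ^ (2 * k)) * f x := by
      filter_upwards [eventually_gt_atTop (0 : ℝ)] with x hx
      exact hFE x hx
    refine h2.trans_isBigO ?_
    have h3 : (fun x : ℝ => ε * (x : ℂ) ^ (2 * k)) =O[atTop] fun x : ℝ => x ^ ((2 * k : ℕ) : ℝ) := by
      refine IsBigO.of_bound ‖ε‖ ?_
      filter_upwards [eventually_gt_atTop (0 : ℝ)] with x hx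
      rw [Real.rpow_natCast, norm_mul, norm_pow, Complex.norm_real, norm_pow]
    have h4 := h3.mul (top_O hc hf (((2 * k : ℕ) : ℝ) - b))
    refine h4.trans ?_
    refine IsBigO.of_bound 1 ?_
    filter_upwards [eventually_gt_atTop (0 : ℝ)] with x hx
    rw [← Real.rpow_add hx, one_mul]
    apply le_of_eq
    congr 2
    ring
  have h5 := h1.comp_tendsto tendsto_inv_nhdsGT_zero
  refine (h5.congr' ?_ ?_)
  · filter_upwards [self_mem_nhdsWithin] with x hx
    simp
  · filter_upwards [self_mem_nhdsWithin] with x hx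
    have hx0 : (0 : ℝ) < x := hx
    simp only [Function.comp]
    rw [Real.inv_rpow hx0.le, Real.rpow_neg hx0.le]

end

end MelAux

open MelAux

theorem stMel (hGb : StGb) : StMel := by
  intro F _ _ Φ k R ε hk hR hΦ hFE
  obtain ⟨hsum, hcont, hdec, hsum2⟩ := hGb F _ _ Φ k hk hΦ
  have hcnt : Countable (Ideal (𝓞 F)) := countable_ideals F
  set f : ℝ → ℂ := fun x => gg Φ (x / R) with hf
  have hf1 : ContinuousOn f (Ioi 0) := by
    refine hcont.comp (continuous_id.div_const R).continuousOn ?_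
    intro x hx
    exact div_pos hx hR
  have hfl : LocallyIntegrableOn f (Ioi 0) := hf1.locallyIntegrableOn measurableSet_Ioi
  obtain ⟨C, hC⟩ := hdec (1 / R) (by positivity)
  have hc : 0 < Real.pi / R := by positivity
  have hfb : ∀ x : ℝ, 1 ≤ x → ‖f x‖ ≤ C * Real.exp (-(Real.pi / R * x)) := by
    intro x hx
    have := hC (x / R) (by gcongr)
    rwa [show Real.pi * (x / R) = Real.pi / R * x by ring] at this
  have hFE' : ∀ x : ℝ, 0 < x → f x⁻¹ = ε * (x : ℂ) ^ (2 * k) * f x := by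
    intro x hx
    have := hFE x hx
    rw [hf]
    simp only
    rw [← this]
    congr 1
    field_simp
  have hD : ∀ s : ℂ, MellinConvergent (fun t => Real.log t • f t) s ∧
      HasDerivAt (mellin f) (mellin (fun t => Real.log t • f t) s) s := fun s =>
    mellin_hasDerivAt_of_isBigO_rpow (a := s.re + 1) (b := s.re - 1) hfl (top_O hc hfb _)
      (by linarith) (bot_O hc hfb hFE' _) (by linarith)
  have hGd : Differentiable ℂ (mellin f) := fun s => (hD s).2.differentiableAt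
  -- functional equation
  have hGfe : mellin f k = ε * mellin f k := by
    have h1 : mellin (fun t => f t⁻¹) (-(k : ℂ)) = mellin f (- -(k : ℂ)) := mellin_comp_inv f _
    have h2 : mellin (fun t => f t⁻¹) (-(k : ℂ)) =
        mellin (fun t : ℝ => ε • ((t : ℂ) ^ ((2 * k : ℕ) : ℂ) • f t)) (-(k : ℂ)) := by
      refine setIntegral_congr_fun measurableSet_Ioi fun x hx => ?_
      simp only
      rw [hFE' x hx, Complex.cpow_natCast, smul_eq_mul, smul_eq_mul, smul_eq_mul, smul_eq_mul]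
      ring
    have h3 : mellin (fun t : ℝ => ε • ((t : ℂ) ^ ((2 * k : ℕ) : ℂ) • f t)) (-(k : ℂ)) =
        ε • mellin (fun t : ℝ => ((t : ℂ) ^ ((2 * k : ℕ) : ℂ) • f t)) (-(k : ℂ)) :=
      mellin_const_smul _ _ _
    rw [mellin_cpow_smul] at h3
    rw [neg_neg] at h1
    have h4 : -(k : ℂ) + ((2 * k : ℕ) : ℂ) = k := by push_cast; ring
    rw [h4, smul_eq_mul] at h3
    exact h1.symm.trans (h2.trans h3)
  have hRp : (0 : ℝ) < R / (2 * Real.pi) := by positivity
  set ρ : ℂ := ((R / (2 * Real.pi) : ℝ) : ℂ) with hρ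
  have hρ0 : ρ ≠ 0 := by rw [hρ]; exact_mod_cast hRp.ne'
  refine ⟨fun z => mellin f (k + z) * (ρ ^ (-((k : ℂ) + z)) * (Complex.Gamma (k + z))⁻¹),
    ?_, ?_, ?_, ?_⟩
  · have h1 : Differentiable ℂ fun z : ℂ => (k : ℂ) + z := by fun_prop
    refine (hGd.comp h1).mul (Differentiable.mul ?_ ?_)
    · intro z
      exact ((h1 z).neg).const_cpow (Or.inl hρ0)
    · exact Complex.differentiable_one_div_Gamma.comp h1
  · intro z hz
    have hkz : 0 < ((k : ℂ) + z).re := by
      rw [Complex.add_re, Complex.natCast_re]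
      have : (0 : ℝ) ≤ k := Nat.cast_nonneg k
      linarith
    have hNpos : ∀ b : (Ideal (𝓞 F))⁰, (0 : ℝ) < (Ideal.absNorm (b : Ideal (𝓞 F)) : ℝ) := by
      intro b
      have : Ideal.absNorm (b : Ideal (𝓞 F)) ≠ 0 := by
        rw [Ne, Ideal.absNorm_eq_zero_iff]
        exact nonZeroDivisors.coe_ne_zero b
      exact_mod_cast Nat.pos_of_ne_zero this
    have hM := hasSum_mellin (ι := (Ideal (𝓞 F))⁰) (a := fun b => Φ b)
      (p := fun b => 2 * Real.pi * (Ideal.absNorm (b : Ideal (𝓞 F)) : ℝ) / R) (F := f)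
      (s := (k : ℂ) + z) (fun b => Or.inr (by have := hNpos b; positivity)) hkz
      (fun t ht => by
        have ht0 : (0 : ℝ) < t := ht
        have h := (hsum (t / R) (by positivity)).of_norm.hasSum
        have e : f t = ∑' b : (Ideal (𝓞 F))⁰, Φ b * Real.exp (-(2 * Real.pi *
            (Ideal.absNorm (b : Ideal (𝓞 F)) : ℝ) * (t / R))) := rfl
        rw [e]
        have e2 : (fun b : (Ideal (𝓞 F))⁰ => Φ b *
            (Real.exp (-(2 * Real.pi * (Ideal.absNorm (b : Ideal (𝓞 F)) : ℝ) / R) * t) : ℂ)) =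
            fun b : (Ideal (𝓞 F))⁰ => Φ b * (Real.exp (-(2 * Real.pi *
            (Ideal.absNorm (b : Ideal (𝓞 F)) : ℝ) * (t / R))) : ℂ) := by
          funext b
          rw [show -(2 * Real.pi * (Ideal.absNorm (b : Ideal (𝓞 F)) : ℝ) / R) * t =
            -(2 * Real.pi * (Ideal.absNorm (b : Ideal (𝓞 F)) : ℝ) * (t / R)) by ring]
        rw [e2]
        exact h) (by
        have h := hsum2 z (by linarith)
        refine (h.mul_left ((2 * Real.pi / R) ^ (-((k : ℂ) + z).re))).congr fun b => ?_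
        have hb := hNpos b
        rw [norm_mul]
        rw [show ‖((Ideal.absNorm (b : Ideal (𝓞 F)) : ℕ) : ℂ) ^ (-((k : ℂ) + z))‖ =
          (Ideal.absNorm (b : Ideal (𝓞 F)) : ℝ) ^ (-((k : ℂ) + z).re) by
            rw [← Complex.ofReal_natCast, Complex.norm_cpow_eq_rpow_re_of_pos hb, Complex.neg_re]]
        rw [show 2 * Real.pi * (Ideal.absNorm (b : Ideal (𝓞 F)) : ℝ) / R =
          (2 * Real.pi / R) * (Ideal.absNorm (b : Ideal (𝓞 F)) : ℝ) by ring,
          Real.mul_rpow (by positivity) hb.le, Real.rpow_neg (by positivity),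
          Real.rpow_neg hb.le]
        field_simp)
    have hG0 : Complex.Gamma (k + z) ≠ 0 := Complex.Gamma_ne_zero_of_re_pos hkz
    simp only
    rw [← hM.tsum_eq, ← tsum_mul_right]
    refine tsum_congr fun b => ?_
    have hb := hNpos b
    have e1 : ((2 * Real.pi * (Ideal.absNorm (b : Ideal (𝓞 F)) : ℝ) / R : ℝ) : ℂ) ^ ((k : ℂ) + z)
        = ρ ^ (-((k : ℂ) + z)) * ((Ideal.absNorm (b : Ideal (𝓞 F)) : ℕ) : ℂ) ^ ((k : ℂ) + z) := by
      rw [show 2 * Real.pi * (Ideal.absNorm (b : Ideal (𝓞 F)) : ℝ) / R =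
          (R / (2 * Real.pi))⁻¹ * (Ideal.absNorm (b : Ideal (𝓞 F)) : ℝ) by field_simp]
      rw [Complex.ofReal_mul, Complex.mul_cpow_ofReal_nonneg (by positivity) hb.le,
        Complex.ofReal_natCast, Complex.cpow_neg, Complex.ofReal_inv, Complex.inv_cpow]
      rw [← hρ, hρ, Complex.arg_ofReal_of_nonneg hRp.le]
      exact Real.pi_pos.ne
    have hN0 : ((Ideal.absNorm (b : Ideal (𝓞 F)) : ℕ) : ℂ) ≠ 0 := by
      exact_mod_cast hb.ne'
    have hρs : ρ ^ (-((k : ℂ) + z)) ≠ 0 := by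
      rw [Ne, Complex.cpow_eq_zero_iff]; exact fun h => hρ0 h.1
    have hNs : ((Ideal.absNorm (b : Ideal (𝓞 F)) : ℕ) : ℂ) ^ ((k : ℂ) + z) ≠ 0 := by
      rw [Ne, Complex.cpow_eq_zero_iff]; exact fun h => hN0 h.1
    have e3 : ((Ideal.absNorm (b : Ideal (𝓞 F)) : ℕ) : ℂ) ^ (-((k : ℂ) + z)) =
        (((Ideal.absNorm (b : Ideal (𝓞 F)) : ℕ) : ℂ) ^ ((k : ℂ) + z))⁻¹ := Complex.cpow_neg _ _
    rw [e1, e3]
    generalize ρ ^ (-((k : ℂ) + z)) = A at hρs ⊢
    generalize ((Ideal.absNorm (b : Ideal (𝓞 F)) : ℕ) : ℂ) ^ ((k : ℂ) + z) = B at hNs ⊢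
    field_simp
  · intro h
    by_contra hε
    apply h
    have h0 : mellin f k = 0 := by
      have : (1 - ε) * mellin f k = 0 := by rw [sub_mul, one_mul, ← hGfe, sub_self]
      rcases mul_eq_zero.mp this with h1 | h1
      · exact absurd (sub_eq_zero.mp h1).symm hε
      · exact h1
    simp only [add_zero, h0, zero_mul]
  · intro hε
    have h0 : mellin f k = 0 := by
      have : (1 - ε) * mellin f k = 0 := by rw [sub_mul, one_mul, ← hGfe, sub_self]
      rcases mul_eq_zero.mp this with h1 | h1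
      · exfalso; rw [hε] at h1; norm_num at h1
      · exact h1
    refine ⟨by simp only [add_zero, h0, zero_mul], ?_⟩
    obtain ⟨hconv, hder⟩ := hD (k : ℂ)
    have hder' : HasDerivAt (fun z : ℂ => mellin f (k + z))
        (mellin (fun t => Real.log t • f t) k) 0 := by
      have h1 : HasDerivAt (fun z : ℂ => (k : ℂ) + z) 1 0 := (hasDerivAt_id (0 : ℂ)).const_add _
      have h2 : HasDerivAt (mellin f) (mellin (fun t => Real.log t • f t) k) ((k : ℂ) + 0) := by
        rw [add_zero]; exact hder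
      have := h2.comp (0 : ℂ) h1
      rw [mul_one] at this
      exact this
    have hHd : DifferentiableAt ℂ (fun z : ℂ => ρ ^ (-((k : ℂ) + z)) * (Complex.Gamma (k + z))⁻¹) 0 := by
      have h1 : Differentiable ℂ fun z : ℂ => (k : ℂ) + z := by fun_prop
      refine DifferentiableAt.mul ?_ ?_
      · exact ((h1 0).neg).const_cpow (Or.inl hρ0)
      · exact (Complex.differentiable_one_div_Gamma.comp h1) 0
    have hΛ := hder'.mul hHd.hasDerivAt
    have hΛ' : deriv (fun z : ℂ => mellin f (k + z) *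
        (ρ ^ (-((k : ℂ) + z)) * (Complex.Gamma (k + z))⁻¹)) 0 =
        mellin (fun t => Real.log t • f t) k * (ρ ^ (-(k : ℂ)) * (Complex.Gamma k)⁻¹) := by
      have := hΛ.deriv
      simp only [add_zero, h0, zero_mul] at this
      exact this
    rw [hΛ']
    have hGk : Complex.Gamma k = ((k - 1).factorial : ℂ) := by
      obtain ⟨j, rfl⟩ : ∃ j, k = j + 1 := ⟨k - 1, by omega⟩
      rw [Nat.add_sub_cancel]
      push_cast
      exact Complex.Gamma_nat_eq_factorial j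
    have hfac : ((k - 1).factorial : ℂ) ≠ 0 := by exact_mod_cast (Nat.factorial_pos _).ne'
    have hρk : ((R : ℂ) / (2 * Real.pi)) ^ k = ρ ^ k := by rw [hρ]; push_cast; rfl
    rw [hGk, hρk, Complex.cpow_neg, Complex.cpow_natCast]
    have hρk0 : ρ ^ k ≠ 0 := pow_ne_zero _ hρ0
    rw [show mellin (fun t => Real.log t • f t) k * ((ρ ^ k)⁻¹ * ((k - 1).factorial : ℂ)⁻¹) *
      (ρ ^ k * ((k - 1).factorial : ℂ)) = mellin (fun t => Real.log t • f t) k by field_simp]
    -- the integral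
    have hk1 : ∀ x : ℝ, (x : ℂ) ^ ((k : ℂ) - 1) = (x : ℂ) ^ (k - 1) := by
      intro x
      rw [← Complex.cpow_natCast]
      congr 1
      push_cast [Nat.cast_sub hk]
      rfl
    have h1 : mellin (fun t => Real.log t • f t) k =
        2 * ∫ x in Ioi (1 : ℝ), (x : ℂ) ^ ((k : ℂ) - 1) • (Real.log x • f x) := by
      refine half _ hconv ?_
      intro x hx
      have hx0 : (0 : ℝ) < x := by linarith
      have hxc : (x : ℂ) ≠ 0 := by exact_mod_cast hx0.ne'
      have e1 : ((x⁻¹ : ℝ) : ℂ) = (x : ℂ)⁻¹ := Complex.ofReal_inv x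
      simp only [smul_eq_mul, Complex.real_smul]
      rw [hk1, hk1, hFE' x hx0, Real.log_inv, hε, e1]
      obtain ⟨j, rfl⟩ : ∃ j, k = j + 1 := ⟨k - 1, by omega⟩
      rw [Nat.add_sub_cancel]
      have e2 : (x : ℂ) ^ (2 * (j + 1)) = (x : ℂ) ^ 2 * (x : ℂ) ^ j * (x : ℂ) ^ j := by ring
      have hxj : (x : ℂ) ^ j ≠ 0 := pow_ne_zero _ hxc
      rw [e2, inv_pow, Complex.ofReal_neg]
      generalize (x : ℂ) ^ j = A at hxj ⊢
      field_simp
    rw [h1]
    congr 1
    refine setIntegral_congr_fun measurableSet_Ioi fun x hx => ?_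
    simp only [smul_eq_mul, Complex.real_smul]
    rw [hk1]
    ring

end Pool.Agent.Lib.MP_7c08ba_nt.CD
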