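import Pool.Agent.Lib.MP_7c08ba_nt.CD.StA

set_option autoImplicit false

/-!
Project CD, module Phi: size of the values of the characters on the ideals.
-/

namespace Pool.Agent.Lib.MP_7c08ba_nt.CD

open NumberField IsDedekindDomain MeasureTheory Set Pool.Agent.Lib.MP_7c08ba_nt.RZ
  Pool.Agent.Lib.MP_7c08ba_nt.CN Pool.Agent.Lib.MP_7c08ba_nt.CN.TW
open scoped nonZeroDivisors ComplexConjugate

namespace PhiAux

variable {F : Type} [Field F] [NumberField F]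

/-- some power of a nonzero ideal is principal -/
lemma pow_prin (b : Ideal (𝓞 F)) (hb : b ≠ ⊥) :
    ∃ h : ℕ, h ≠ 0 ∧ ∃ t : 𝓞 F, t ≠ 0 ∧ b ^ h = Ideal.span {t} := by
  have hb0 : b ∈ (Ideal (𝓞 F))⁰ := mem_nonZeroDivisors_iff_ne_zero.2 hb
  refine ⟨Fintype.card (ClassGroup (𝓞 F)), Fintype.card_ne_zero, ?_⟩
  have h1 : ClassGroup.mk0 (⟨b, hb0⟩ ^ Fintype.card (ClassGroup (𝓞 F)) : (Ideal (𝓞 F))⁰) = 1 := by
    rw [map_pow, pow_card_eq_one]
  have h2 : (⟨b, hb0⟩ ^ Fintype.card (ClassGroup (𝓞 F)) : (Ideal (𝓞 F))⁰) =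
      ⟨b ^ Fintype.card (ClassGroup (𝓞 F)), pow_mem hb0 _⟩ := by
    ext1
    rfl
  rw [h2] at h1
  obtain ⟨t, ht⟩ := ((ClassGroup.mk0_eq_one_iff (pow_mem hb0 _)).1 h1).principal
  refine ⟨t, ?_, ht⟩
  rintro rfl
  have h3 : b ^ Fintype.card (ClassGroup (𝓞 F)) = ⊥ := by
    rw [ht]
    exact Submodule.span_zero_singleton _
  exact pow_ne_zero _ hb h3

end PhiAux

open PhiAux

/-- Module `Phi`. -/
theorem stPhi (hBas : StBas) (hCb : StCb) : StPhi := by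
  intro q F _ _ s σ χ cj o D k Φ hD hTw hk hTy
  obtain ⟨-, -, -, -, -, hnsq, -, -, -, hcong, -⟩ := hBas q F _ _ s σ χ cj hD
  obtain ⟨⟨c, hc⟩, hcp⟩ := hCb q F _ _ s σ χ cj o D hD hTw
  obtain ⟨-, -, -, -, -, hc1, hc0, -⟩ := hcp c hc
  -- the value of a power
  have key : ∀ b : Ideal (𝓞 F), b ≠ ⊥ → ∃ h : ℕ, h ≠ 0 ∧ ∃ t : 𝓞 F, t ≠ 0 ∧
      b ^ h = Ideal.span {t} ∧ Φ b ^ h = c t * σ t ^ (2 * k - 1) := by
    intro b hb
    obtain ⟨h, hh, t, ht, hbt⟩ := pow_prin b hb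
    refine ⟨h, hh, t, ht, hbt, ?_⟩
    obtain ⟨a, ha⟩ := hcong t
    rw [← map_pow, hbt, hTy t a ht ha, hc t a ha]
  have cop : ∀ (b : Ideal (𝓞 F)) (h : ℕ) (t : 𝓞 F), h ≠ 0 → b ^ h = Ideal.span {t} →
      (IsCoprime b (Ideal.span {s * (dl o D : 𝓞 F)}) ↔ IsCoprime t (s * (dl o D : 𝓞 F))) := by
    intro b h t hh hbt
    rw [← Ideal.isCoprime_span_singleton_iff t, ← hbt,
      IsCoprime.pow_left_iff (Nat.pos_of_ne_zero hh)]
  have hcn : ∀ t, ‖c t‖ ≤ 1 := by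
    intro t
    by_cases ht : IsCoprime t (s * (dl o D : 𝓞 F))
    · rcases hc1 t ht with h | h <;> rw [h] <;> simp
    · rw [hc0 t ht]
      simp
  refine ⟨fun b => ?_, fun b hb hcb => ?_, fun b hcb => ?_⟩
  · rcases eq_or_ne b ⊥ with rfl | hb
    · have h0 : Φ ⊥ = 0 := map_zero Φ
      rw [h0, norm_zero]
      exact Real.rpow_nonneg (Nat.cast_nonneg _) _
    · obtain ⟨h, hh, t, ht, hbt, hv⟩ := key b hb
      have hN : (0 : ℝ) ≤ (Ideal.absNorm b : ℝ) := Nat.cast_nonneg _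
      have h1 : ‖σ t‖ ^ 2 = (Ideal.absNorm b : ℝ) ^ h := by
        rw [← Complex.normSq_eq_norm_sq, hnsq t, ← hbt, map_pow, Nat.cast_pow]
      have h2 : ‖Φ b‖ ^ h ≤ ‖σ t‖ ^ (2 * k - 1) := by
        rw [← norm_pow, hv, norm_mul, norm_pow]
        exact mul_le_of_le_one_left (pow_nonneg (norm_nonneg _) _) (hcn t)
      have h3 : ‖Φ b‖ ^ (h * 2) ≤ (Ideal.absNorm b : ℝ) ^ (h * (2 * k - 1)) := by
        rw [pow_mul, pow_mul (Ideal.absNorm b : ℝ), ← h1]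
        refine (pow_le_pow_left₀ (pow_nonneg (norm_nonneg _) _) h2 2).trans (le_of_eq ?_)
        rw [← pow_mul, ← pow_mul]
        congr 1
        exact mul_comm _ _
      have h4 : ((Ideal.absNorm b : ℝ) ^ ((k : ℝ) - 1 / 2)) ^ (h * 2) =
          (Ideal.absNorm b : ℝ) ^ (h * (2 * k - 1)) := by
        rw [← Real.rpow_natCast, ← Real.rpow_mul hN, ← Real.rpow_natCast]
        congr 1
        rw [Nat.cast_mul, Nat.cast_mul, Nat.cast_sub (by omega)]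
        push_cast
        ring
      rw [← h4] at h3
      exact le_of_pow_le_pow_left₀ (by omega) (Real.rpow_nonneg hN _) h3
  · obtain ⟨h, hh, t, ht, hbt, hv⟩ := key b hb
    have h1 := (cop b h t hh hbt).1 hcb
    have h2 : c t ≠ 0 := by
      rcases hc1 t h1 with h | h <;> rw [h] <;> norm_num
    have h3 : σ t ≠ 0 := by
      rw [map_ne_zero_iff σ σ.injective]
      exact_mod_cast ht
    intro h4
    rw [h4, zero_pow hh] at hv
    exact mul_ne_zero h2 (pow_ne_zero _ h3) hv.symm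
  · rcases eq_or_ne b ⊥ with rfl | hb
    · exact map_zero Φ
    · obtain ⟨h, hh, t, ht, hbt, hv⟩ := key b hb
      have h1 : ¬ IsCoprime t (s * (dl o D : 𝓞 F)) := fun h' => hcb ((cop b h t hh hbt).2 h')
      rw [hc0 t h1, zero_mul] at hv
      exact pow_eq_zero_iff hh |>.1 hv

end Pool.Agent.Lib.MP_7c08ba_nt.CD
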