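import Pool.Agent.Lib.MP_7c08ba_nt.CD.StA

set_option autoImplicit false

/-!
Project CD, module Prim: the character `c` is primitive.
-/

namespace Pool.Agent.Lib.MP_7c08ba_nt.CD

open NumberField IsDedekindDomain Pool.Agent.Lib.MP_7c08ba_nt.RZ
  Pool.Agent.Lib.MP_7c08ba_nt.CN Pool.Agent.Lib.MP_7c08ba_nt.CN.TW
open scoped nonZeroDivisors ComplexConjugate

namespace PrimAux

theorem dl_cast (o : Bool) (D : ℕ) {R : Type} [CommRing R] :
    (dl o D : R) = (if o then 4 else 1) * (D : R) := by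
  rw [dl]
  cases o <;> simp

theorem jac_one {D : ℕ} {N : ℤ} (h : (D : ℤ) ∣ N - 1) : jacobiSym N D = 1 := by
  rw [jacobiSym.mod_left' (a₂ := 1)
    (Int.emod_eq_emod_iff_emod_sub_eq_zero.2 (Int.emod_eq_zero_of_dvd h)), jacobiSym.one_left]

theorem tw_one (o : Bool) {D : ℕ} {N : ℤ} (h : (dl o D : ℤ) ∣ N - 1) : tw o D N = 1 := by
  have hc : (dl o D : ℤ) = (if o then 4 else 1) * (D : ℤ) := dl_cast o D
  have h1 : jacobiSym N D = 1 := jac_one ((Dvd.intro_left _ hc.symm).trans h)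
  rw [tw, h1, one_mul]
  cases o
  · rfl
  · have h2 : (4 : ℤ) ∣ N - 1 := by
      have : (4 : ℤ) ∣ (dl true D : ℤ) := by
        rw [hc]
        exact Dvd.intro _ rfl
      exact this.trans h
    have h3 : N % 4 = 1 := by omega
    simp only [if_true]
    exact ZMod.χ₄_int_one_mod_four h3

/-- CRT in the integers. -/
theorem crt {x y : ℤ} (h : IsCoprime x y) : ∃ n, x ∣ n ∧ y ∣ n - 1 := by
  obtain ⟨u, v, huv⟩ := h
  exact ⟨u * x, Dvd.intro_left _ rfl, ⟨-v, by linear_combination huv⟩⟩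

/-- A prime ideal which contains a nonzero natural number contains one of its prime factors. -/
theorem prime_mem {R : Type} [CommRing R] {P : Ideal R} (hP : P.IsPrime) (n : ℕ) (hn : n ≠ 0)
    (h : (n : R) ∈ P) : ∃ r : ℕ, r.Prime ∧ r ∣ n ∧ (r : R) ∈ P := by
  induction n using Nat.strong_induction_on with
  | _ n ih =>
    have h1 : n ≠ 1 := by
      rintro rfl
      rw [Nat.cast_one] at h
      exact hP.ne_top ((Ideal.eq_top_iff_one P).2 h)
    have h2 := Nat.minFac_prime h1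
    obtain ⟨m, hm⟩ := Nat.minFac_dvd n
    have hm0 : m ≠ 0 := by
      rintro rfl
      rw [mul_zero] at hm
      exact hn hm
    have h3 : ((n.minFac : ℕ) : R) * (m : R) ∈ P := by
      rw [← Nat.cast_mul, ← hm]
      exact h
    rcases hP.mem_or_mem h3 with h4 | h4
    · exact ⟨n.minFac, h2, Nat.minFac_dvd n, h4⟩
    · have hlt : m < n := by
        have h5 : 2 ≤ n.minFac := h2.two_le
        calc m < 2 * m := by omega
          _ ≤ n.minFac * m := Nat.mul_le_mul_right m h5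
          _ = n := hm.symm
      obtain ⟨r, hr, hr', hr''⟩ := ih m hlt hm0 h4
      exact ⟨r, hr, hr'.trans (hm ▸ Dvd.intro_left _ rfl), hr''⟩

section

variable {F : Type} [Field F] [NumberField F] {q : ℕ} {s : 𝓞 F} {σ : F →+* ℂ}
  {χ : DirichletCharacter ℂ q} {cj : 𝓞 F ≃+* 𝓞 F}

theorem nmm_lin (hbas : StBas) (hd : Dat q s σ χ cj) (a b : ℤ) :
    nmm ((a : 𝓞 F) + (b : 𝓞 F) * s) = a ^ 2 + q * b ^ 2 := by
  obtain ⟨_, _, h3, _, h5, _⟩ := hbas q F _ _ s σ χ cj hd
  have h := h5 ((a : 𝓞 F) + (b : 𝓞 F) * s)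
  have h1 : (nmm ((a : 𝓞 F) + (b : 𝓞 F) * s) : 𝓞 F) = ((a ^ 2 + q * b ^ 2 : ℤ) : 𝓞 F) := by
    have h2 : (nmm ((a : 𝓞 F) + (b : 𝓞 F) * s) : 𝓞 F) =
        (Ideal.absNorm (Ideal.span {(a : 𝓞 F) + (b : 𝓞 F) * s}) : 𝓞 F) := by
      rw [nmm, Int.cast_natCast]
    rw [h2, ← h, map_add, map_mul, map_intCast, map_intCast, h3]
    push_cast
    linear_combination (-(b : 𝓞 F) ^ 2) * hd.sq
  exact_mod_cast h1

theorem s_dvd_q (hd : Dat q s σ χ cj) : (q : 𝓞 F) = s * -s := by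
  linear_combination hd.sq

theorem c_val {o : Bool} {D : ℕ} {c : 𝓞 F → ℂ} (hc : IsC o q D s c) {t : 𝓞 F} {a : ℤ}
    (hs : s ∣ t - a) (h1 : jacobiSym a q * tw o D (nmm t) = -1) : c t = -1 := by
  rw [hc t a hs, h1, Int.cast_neg, Int.cast_one]

theorem half (hd : Dat q s σ χ cj) : ∃ w : 𝓞 F, 2 * w = 1 + s := by
  have hq := hd.mod
  obtain ⟨m, hm⟩ : ∃ m : ℤ, 4 * m = 1 + q := ⟨(1 + q) / 4, by omega⟩
  have hs : (s : F) ^ 2 = -(q : F) := by
    have := congrArg (algebraMap (𝓞 F) F) hd.sq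
    simpa using this
  have h1 : IsIntegral ℤ ((1 + (s : F)) / 2) := by
    refine ⟨Polynomial.X ^ 2 - Polynomial.X + Polynomial.C m, ?_, ?_⟩
    · monicity!
    · have hm' : (4 : F) * (m : F) = 1 + (q : F) := by exact_mod_cast congrArg (Int.cast : ℤ → F) hm
      rw [Polynomial.eval₂_add, Polynomial.eval₂_sub, Polynomial.eval₂_pow,
        Polynomial.eval₂_X, Polynomial.eval₂_C, algebraMap_int_eq, eq_intCast]
      linear_combination (1 / 4 : F) * hs + (1 / 4 : F) * hm'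
  obtain ⟨w, hw⟩ := (IsIntegralClosure.isIntegral_iff (R := ℤ) (A := 𝓞 F) (B := F)).1 h1
  refine ⟨w, ?_⟩
  apply FaithfulSMul.algebraMap_injective (𝓞 F) F
  rw [map_mul, hw, map_add, map_one, map_ofNat]
  ring

theorem caseA {o : Bool} {D : ℕ} {c : 𝓞 F → ℂ} (hbas : StBas) (hd : Dat q s σ χ cj)
    (hD : TwA q D) (hc : IsC o q D s c) {P : Ideal (𝓞 F)} (hP : P.IsPrime) (hs : s ∈ P)
    (hcop : IsCoprime (dl o D : ℤ) (q : ℤ)) :
    ∃ t : 𝓞 F, (∀ y ∈ P, s * (dl o D : 𝓞 F) ∣ (t - 1) * y) ∧ c t = -1 := by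
  have hbas' := hbas q F _ _ s σ χ cj hd
  have hsp : (Ideal.span {s}).IsPrime := hbas'.2.2.2.2.2.2.2.2.1
  have hs0 : s ≠ 0 := by
    intro h
    have := hd.sq
    rw [h] at this
    have h2 : (q : 𝓞 F) = 0 := by linear_combination this
    have h3 : q = 0 := by exact_mod_cast h2
    exact hd.prime.ne_zero h3
  have hmax : (Ideal.span {s}).IsMaximal := hsp.isMaximal (by
    rw [Ne, Ideal.span_singleton_eq_bot]
    exact hs0)
  have hPs : Ideal.span {s} = P := hmax.eq_of_le hP.ne_top (by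
    rw [Ideal.span_singleton_le_iff_mem]
    exact hs)
  obtain ⟨n, hn1, hn2⟩ := crt hcop
  have hq := hd.mod
  have hnm := nmm_lin hbas hd (1 - 2 * n) 0
  rw [Int.cast_zero, zero_mul, add_zero] at hnm
  refine ⟨((1 - 2 * n : ℤ) : 𝓞 F), ?_, ?_⟩
  · intro y hy
    rw [← hPs, Ideal.mem_span_singleton] at hy
    obtain ⟨y', rfl⟩ := hy
    obtain ⟨k, hk⟩ := hn1
    refine ⟨-2 * k * y', ?_⟩
    rw [hk]
    push_cast
    ring
  · refine c_val hc (a := 1 - 2 * n) (by rw [sub_self]; exact dvd_zero s) ?_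
    have h1 : jacobiSym (1 - 2 * n) q = -1 := by
      have h2 : jacobiSym (1 - 2 * n) q = jacobiSym (-1) q := by
        apply jacobiSym.mod_left'
        obtain ⟨k, hk⟩ := hn2
        have h3 : 1 - 2 * n = -1 + q * (-2 * k) := by linear_combination (-2) * hk
        rw [h3, Int.add_mul_emod_self_left]
      rw [h2, jacobiSym.at_neg_one (by rw [Nat.odd_iff]; omega), ZMod.χ₄_nat_three_mod_four]
      omega
    have h4 : tw o D (nmm ((1 - 2 * n : ℤ) : 𝓞 F)) = 1 := by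
      apply tw_one
      rw [hnm]
      obtain ⟨k, hk⟩ := hn1
      refine ⟨-4 * k + 4 * k * n, ?_⟩
      linear_combination (-4 + 4 * n) * hk
    rw [h1, h4]
    norm_num

theorem caseB {o : Bool} {D : ℕ} {c : 𝓞 F → ℂ} (hbas : StBas) (hsplit : StSplit)
    (hd : Dat q s σ χ cj) (hD : TwA q D) (hc : IsC o q D s c) {P : Ideal (𝓞 F)} (hP : P.IsPrime)
    {r : ℕ} (hr : r.Prime) (hrD : r ∣ D) (hrP : (r : 𝓞 F) ∈ P) :
    ∃ t : 𝓞 F, (∀ y ∈ P, s * (dl o D : 𝓞 F) ∣ (t - 1) * y) ∧ c t = -1 := by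
  have hin := hD.inert r hr hrD
  have hr4 := hD.mod4 r hr hrD
  have hq := hd.mod
  have hrp : (Ideal.span {(r : 𝓞 F)}).IsPrime :=
    ((hsplit q F _ _ s σ χ cj hd r hr).2.1 hin).1
  have hmax : (Ideal.span {(r : 𝓞 F)}).IsMaximal := hrp.isMaximal (by
    rw [Ne, Ideal.span_singleton_eq_bot]
    exact_mod_cast hr.ne_zero)
  have hPr : Ideal.span {(r : 𝓞 F)} = P := hmax.eq_of_le hP.ne_top (by
    rw [Ideal.span_singleton_le_iff_mem]
    exact hrP)
  obtain ⟨D1, rfl⟩ := hrD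
  have hcop1 : r.Coprime D1 := (Nat.squarefree_mul_iff.1 hD.sqf).1
  have hD0 : D1 ≠ 0 := by
    rintro rfl
    exact hD.sqf.ne_zero (mul_zero r)
  have hrq : r.Coprime q := by
    rw [hr.coprime_iff_not_dvd]
    intro h
    have h2 : r = q := (Nat.prime_dvd_prime_iff_eq hr hd.prime).1 h
    rw [h2] at hr4
    omega
  have hr2 : r.Coprime 4 := by
    have : r.Coprime (2 ^ 2) := Nat.Coprime.pow_right 2 (by
      rw [Nat.coprime_comm, Nat.coprime_two_left, Nat.odd_iff]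
      omega)
    exact this
  have hcop : IsCoprime ((q * dl o D1 : ℕ) : ℤ) (r : ℤ) := by
    rw [Nat.isCoprime_iff_coprime, Nat.coprime_comm]
    refine Nat.Coprime.mul_right hrq ?_
    rw [dl]
    refine Nat.Coprime.mul_right ?_ hcop1
    cases o
    · exact Nat.coprime_one_right r
    · exact hr2
  obtain ⟨n, hn1, hn2⟩ := crt hcop
  have hdl : (dl o (r * D1) : 𝓞 F) = (r : 𝓞 F) * (dl o D1 : 𝓞 F) := by
    rw [dl_cast, dl_cast, Nat.cast_mul]
    ring
  have hsq := s_dvd_q hd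
  have ht : ((1 - n : ℤ) : 𝓞 F) + (n : 𝓞 F) * s = 1 + n * (s - 1) := by
    push_cast
    ring
  have hnm := nmm_lin hbas hd (1 - n) n
  rw [ht] at hnm
  obtain ⟨k, hk⟩ := hn1
  have hk' : (n : 𝓞 F) = (s * -s) * (dl o D1 : 𝓞 F) * (k : 𝓞 F) := by
    rw [hk, ← hsq]
    push_cast
    ring
  refine ⟨1 + n * (s - 1), ?_, ?_⟩
  · intro y hy
    rw [← hPr, Ideal.mem_span_singleton] at hy
    obtain ⟨y', rfl⟩ := hy
    refine ⟨-s * k * (s - 1) * y', ?_⟩
    rw [hdl, hk']
    ring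
  · refine c_val hc (a := 1) ?_ ?_
    · rw [Int.cast_one, add_sub_cancel_left, hk']
      exact ⟨-s * (dl o D1 : 𝓞 F) * k * (s - 1), by ring⟩
    · rw [jacobiSym.one_left, one_mul, hnm]
      have h1 : tw o (r * D1) ((1 - n) ^ 2 + q * n ^ 2) =
          jacobiSym ((1 - n) ^ 2 + q * n ^ 2) r * tw o D1 ((1 - n) ^ 2 + q * n ^ 2) := by
        rw [tw, tw, jacobiSym.mul_right' _ hr.ne_zero hD0, mul_assoc]
      have h2 : tw o D1 ((1 - n) ^ 2 + q * n ^ 2) = 1 := by
        apply tw_one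
        refine ⟨q * k * (-2 + n + q * n), ?_⟩
        rw [hk]
        push_cast
        ring
      have h3 : jacobiSym ((1 - n) ^ 2 + q * n ^ 2) r = -1 := by
        have h4 : jacobiSym ((1 - n) ^ 2 + q * n ^ 2) r = jacobiSym q r := by
          apply jacobiSym.mod_left'
          obtain ⟨j, hj⟩ := hn2
          have h5 : (1 - n) ^ 2 + q * n ^ 2 = q + r * (j * (n - 1) + q * j * (n + 1)) := by
            linear_combination ((n - 1) + q * (n + 1)) * hj
          rw [h5, Int.add_mul_emod_self_left]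
        rw [h4, ← jacobiSym.quadratic_reciprocity_one_mod_four hr4
          (by rw [Nat.odd_iff]; omega), hin]
      rw [h1, h2, h3, mul_one]

theorem caseC1 {D : ℕ} {c : 𝓞 F → ℂ} (hbas : StBas) (hd : Dat q s σ χ cj)
    (hD : TwA q D) (hc : IsC true q D s c) {P : Ideal (𝓞 F)} (hP : P.IsPrime)
    (h2P : (2 : 𝓞 F) ∈ P) (hodd : Odd D) (e : ℤ) (he : e ^ 2 = 1) (w : 𝓞 F)
    (hw : 2 * w = 1 + e * s) (hwP : w ∈ P) :
    ∃ t : 𝓞 F, (∀ y ∈ P, s * (dl true D : 𝓞 F) ∣ (t - 1) * y) ∧ c t = -1 := by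
  have hq := hd.mod
  have hsq := s_dvd_q hd
  obtain ⟨m, hm⟩ : ∃ m : ℤ, 8 * m = 1 + q := ⟨(1 + q) / 8, by omega⟩
  have hm' : (8 : 𝓞 F) * (m : 𝓞 F) = 1 + (q : 𝓞 F) := by
    exact_mod_cast congrArg (Int.cast : ℤ → 𝓞 F) hm
  have he' : (e : 𝓞 F) ^ 2 = 1 := by exact_mod_cast congrArg (Int.cast : ℤ → 𝓞 F) he
  have hww : w * (1 - w) = 2 * m := by
    have h4 : (4 : 𝓞 F) * (w * (1 - w)) = 4 * (2 * m) := by
      linear_combination (1 - 2 * w - e * s) * hw - s ^ 2 * he' - hd.sq - hm'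
    exact mul_left_cancel₀ (by norm_num) h4
  have hdl : (dl true D : 𝓞 F) = 4 * (D : 𝓞 F) := by
    rw [dl_cast]
    simp
  have ht : ((1 + q * D : ℤ) : 𝓞 F) + ((-(q * D * e) : ℤ) : 𝓞 F) * s =
      1 + q * D * (1 - e * s) := by
    push_cast
    ring
  have hnm := nmm_lin hbas hd (1 + q * D) (-(q * D * e))
  rw [ht] at hnm
  refine ⟨1 + q * D * (1 - e * s), ?_, ?_⟩
  · intro y hy
    obtain ⟨a, b, hab, hab'⟩ := (hbas q F _ _ s σ χ cj hd).1 y
    have hpar : (2 : ℤ) ∣ a - b * e := by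
      have h5 : e = 1 ∨ e = -1 := by
        have : (e - 1) * (e + 1) = 0 := by linear_combination he
        rcases mul_eq_zero.1 this with h | h
        · left; omega
        · right; omega
      rcases h5 with rfl | rfl
      · simpa using hab'
      · obtain ⟨j, hj⟩ := hab'
        exact ⟨j + b, by linear_combination hj⟩
    obtain ⟨c0, hc0⟩ := hpar
    have hc0' : (a : 𝓞 F) - b * e = 2 * c0 := by
      exact_mod_cast congrArg (Int.cast : ℤ → 𝓞 F) hc0
    have hy1 : y = c0 + b * e * w := by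
      have h6 : (2 : 𝓞 F) * y = 2 * (c0 + b * e * w) := by
        linear_combination hab + hc0' - b * e * hw - b * s * he'
      exact mul_left_cancel₀ (by norm_num) h6
    have hc1 : (c0 : 𝓞 F) ∈ P := by
      have h7 : (c0 : 𝓞 F) = y - b * e * w := by rw [hy1]; ring
      rw [h7]
      exact P.sub_mem hy (P.mul_mem_left _ hwP)
    have hev : (2 : ℤ) ∣ c0 := by
      by_contra hno
      obtain ⟨j, hj⟩ : ∃ j : ℤ, c0 = 2 * j + 1 := ⟨c0 / 2, by omega⟩
      have h8 : (1 : 𝓞 F) = c0 - 2 * j := by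
        rw [hj]
        push_cast
        ring
      have h9 : (1 : 𝓞 F) ∈ P := by
        rw [h8]
        exact P.sub_mem hc1 (P.mul_mem_right _ h2P)
      exact hP.ne_top ((Ideal.eq_top_iff_one P).2 h9)
    obtain ⟨c2, hc2⟩ := hev
    have hc2' : (c0 : 𝓞 F) = 2 * c2 := by
      exact_mod_cast congrArg (Int.cast : ℤ → 𝓞 F) hc2
    refine ⟨-s * (c2 * (1 - w) + b * e * m), ?_⟩
    have h10 : (1 : 𝓞 F) - e * s = 2 * (1 - w) := by linear_combination hw
    have h11 : (1 - w) * y = 2 * (c2 * (1 - w) + b * e * m) := by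
      rw [hy1, hc2']
      linear_combination b * e * hww
    rw [hdl, h10]
    calc (1 + (q : 𝓞 F) * D * (2 * (1 - w)) - 1) * y = 2 * q * D * ((1 - w) * y) := by ring
      _ = _ := by
        rw [h11, hsq]
        ring
  · refine c_val hc (a := 1) ?_ ?_
    · rw [Int.cast_one, add_sub_cancel_left, hsq]
      exact ⟨-s * (D : 𝓞 F) * (1 - e * s), by ring⟩
    · rw [jacobiSym.one_left, one_mul, hnm]
      have hN : ((1 + q * D) ^ 2 + q * (-(q * D * e)) ^ 2 : ℤ) =
          1 + D * (2 * q + q ^ 2 * D * (1 + q)) := by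
        linear_combination (q : ℤ) ^ 3 * (D : ℤ) ^ 2 * he
      rw [hN, tw]
      have h1 : jacobiSym (1 + D * (2 * q + q ^ 2 * D * (1 + q)) : ℤ) D = 1 :=
        jac_one ⟨2 * q + q ^ 2 * D * (1 + q), by ring⟩
      rw [h1, one_mul]
      simp only [if_true]
      apply ZMod.χ₄_int_three_mod_four
      obtain ⟨j, hj⟩ := hodd
      obtain ⟨i, hi⟩ : ∃ i : ℤ, (q : ℤ) = 4 * i + 3 := ⟨(q : ℤ) / 4, by omega⟩
      have hj' : (D : ℤ) = 2 * j + 1 := by exact_mod_cast hj
      have h12 : ∃ z : ℤ, (1 + D * (2 * q + q ^ 2 * D * (1 + q)) : ℤ) = 4 * z + 3 := by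
        rw [hj', hi]
        refine ⟨1 + 2 * i + 3 * j + 4 * i * j + (4 * i + 3) ^ 2 * (2 * j + 1) ^ 2 * (i + 1), ?_⟩
        ring
      obtain ⟨z, hz⟩ := h12
      rw [hz]
      omega

end

end PrimAux

open PrimAux in
theorem stPrim (hbas : StBas) (hsplit : StSplit) : StPrim := by
  intro q F _ _ s σ χ cj o D c hd hD hc P hP hmem
  have hq := hd.mod
  have hD0 : D ≠ 0 := hD.sqf.ne_zero
  have hDodd : Odd D := by
    rw [← Nat.not_even_iff_odd, even_iff_two_dvd]
    intro h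
    have := hD.mod4 2 Nat.prime_two h
    omega
  have hcop : IsCoprime (dl o D : ℤ) (q : ℤ) := by
    rw [Nat.isCoprime_iff_coprime, Nat.coprime_comm, hd.prime.coprime_iff_not_dvd]
    intro h
    rw [dl, hd.prime.dvd_mul] at h
    rcases h with h | h
    · cases o
      · have := Nat.dvd_one.1 h
        omega
      · have := Nat.le_of_dvd (by norm_num) h
        have h3 : q ∣ 2 ^ 2 := h
        have h4 := Nat.le_of_dvd (by norm_num) (hd.prime.dvd_of_dvd_pow h3)
        omega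
    · have := hD.mod4 q hd.prime h
      omega
  rcases hP.mem_or_mem hmem with h | h
  · exact caseA hbas hd hD hc hP h hcop
  · rw [dl_cast] at h
    rcases hP.mem_or_mem h with h | h
    · cases o
      · exact absurd ((Ideal.eq_top_iff_one P).2 (by simpa using h)) hP.ne_top
      · have h2 : (2 : 𝓞 F) ∈ P := by
          have h3 : (2 : 𝓞 F) * 2 ∈ P := by
            have : (2 : 𝓞 F) * 2 = 4 := by norm_num
            rw [this]
            simpa using h
          rcases hP.mem_or_mem h3 with h4 | h4 <;> exact h4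
        obtain ⟨w, hw⟩ := half hd
        obtain ⟨m, hm⟩ : ∃ m : ℤ, 8 * m = 1 + q := ⟨(1 + q) / 8, by omega⟩
        have hm' : (8 : 𝓞 F) * (m : 𝓞 F) = 1 + (q : 𝓞 F) := by
          exact_mod_cast congrArg (Int.cast : ℤ → 𝓞 F) hm
        have hww : w * (1 - w) = 2 * m := by
          have h4 : (4 : 𝓞 F) * (w * (1 - w)) = 4 * (2 * m) := by
            linear_combination (1 - 2 * w - s) * hw - hd.sq - hm'
          exact mul_left_cancel₀ (by norm_num) h4
        have h5 : w * (1 - w) ∈ P := by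
          rw [hww]
          exact P.mul_mem_right _ h2
        rcases hP.mem_or_mem h5 with h6 | h6
        · exact caseC1 hbas hd hD hc hP h2 hDodd 1 (by norm_num) w (by rw [hw]; push_cast; ring) h6
        · exact caseC1 hbas hd hD hc hP h2 hDodd (-1) (by norm_num) (1 - w)
            (by push_cast; linear_combination -hw) h6
    · obtain ⟨r, hr, hrD, hrP⟩ := prime_mem hP D hD0 h
      exact caseB hbas hsplit hd hD hc hP hr hrD hrP

end Pool.Agent.Lib.MP_7c08ba_nt.CD
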