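import Mathlib
import Pool.Agent.Lib.MP_7c08ba_nt.CD.StA

set_option autoImplicit false

/-!
Project CD, module Pv: a scalar integral.
-/

namespace Pool.Agent.Lib.MP_7c08ba_nt.CD

open MeasureTheory Set Filter Topology Asymptotics

namespace PvAux

theorem hasDerivAt_exp_neg (u : ℝ) :
    HasDerivAt (fun u : ℝ => Real.exp (-u)) (-Real.exp (-u)) u := by
  have h := (hasDerivAt_neg u).exp
  rwa [mul_neg_one] at h

theorem hasDerivAt_Pk (n : ℕ) (u : ℝ) :
    HasDerivAt (Pk (n + 1)) (-(Real.exp (-u) * (u ^ n / (n.factorial : ℝ)))) u := by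
  induction n with
  | zero =>
    have h : Pk (0 + 1) = fun u => Real.exp (-u) := by
      funext u
      simp [Pk]
    rw [h]
    have h1 := hasDerivAt_exp_neg u
    simpa using h1
  | succ n ih =>
    have h : Pk (n + 1 + 1) = fun u => Pk (n + 1) u +
        Real.exp (-u) * (u ^ (n + 1) / ((n + 1).factorial : ℝ)) := by
      funext u
      unfold Pk
      rw [Finset.sum_range_succ _ (n + 1), mul_add]
    rw [h]
    have hp : HasDerivAt (fun u : ℝ => u ^ (n + 1) / ((n + 1).factorial : ℝ))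
        (u ^ n / (n.factorial : ℝ)) u := by
      have h1 := (hasDerivAt_pow (n + 1) u).div_const ((n + 1).factorial : ℝ)
      have h2 : ((n + 1 : ℕ) : ℝ) * u ^ (n + 1 - 1) / ((n + 1).factorial : ℝ) =
          u ^ n / (n.factorial : ℝ) := by
        rw [Nat.factorial_succ, Nat.add_sub_cancel]
        have h3 : ((n.factorial : ℕ) : ℝ) ≠ 0 := by exact_mod_cast n.factorial_ne_zero
        push_cast
        field_simp
      rwa [h2] at h1
    have h4 := ih.add ((hasDerivAt_exp_neg u).mul hp)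
    have h5 : -(Real.exp (-u) * (u ^ n / (n.factorial : ℝ))) +
        (-Real.exp (-u) * (u ^ (n + 1) / ((n + 1).factorial : ℝ)) +
          Real.exp (-u) * (u ^ n / (n.factorial : ℝ))) =
        -(Real.exp (-u) * (u ^ (n + 1) / ((n + 1).factorial : ℝ))) := by ring
    rw [h5] at h4
    exact h4

theorem continuous_Pk (k : ℕ) : Continuous (Pk k) := by
  unfold Pk
  fun_prop

theorem Pk_bigO (k : ℕ) : Pk k =O[atTop] fun u : ℝ => Real.exp (-(1 / 2) * u) := by
  have h1 : (fun u : ℝ => ∑ j ∈ Finset.range k, u ^ j / (j.factorial : ℝ)) =O[atTop]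
      fun u : ℝ => Real.exp (1 / 2 * u) := by
    refine IsBigO.fun_sum (A := fun (j : ℕ) (u : ℝ) => u ^ j / (j.factorial : ℝ)) fun j _ => ?_
    have h := (isLittleO_pow_exp_pos_mul_atTop j (b := 1 / 2) (by norm_num)).isBigO
    have h2 := h.const_mul_left ((j.factorial : ℝ))⁻¹
    refine h2.congr_left fun u => ?_
    rw [div_eq_mul_inv, mul_comm]
  have h2 := (isBigO_refl (fun u : ℝ => Real.exp (-u)) atTop).mul h1
  refine h2.congr_right fun u => ?_
  rw [← Real.exp_add]
  congr 1
  ring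

theorem int_Pk (k : ℕ) {c : ℝ} (hc : 0 < c) : IntegrableOn (fun u => Pk k u / u) (Ioi c) := by
  refine integrable_of_isBigO_exp_neg (b := 1 / 2) (by norm_num) ?_ ?_
  · exact (continuous_Pk k).continuousOn.div continuousOn_id fun u hu =>
      (hc.trans_le hu).ne'
  · have h1 : (fun u : ℝ => u⁻¹) =O[atTop] fun _ : ℝ => (1 : ℝ) :=
      tendsto_inv_atTop_zero.isBigO_one ℝ
    have h2 := (Pk_bigO k).mul h1
    refine (h2.congr_left fun u => (div_eq_mul_inv _ _).symm).congr_right fun u => ?_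
    rw [mul_one]

theorem int_log (n : ℕ) {c : ℝ} (hc : 0 < c) :
    IntegrableOn (fun x => Real.exp (-(c * x)) * x ^ n * Real.log x) (Ioi 1) := by
  refine integrable_of_isBigO_exp_neg (b := c / 2) (by positivity) ?_ ?_
  · refine ContinuousOn.mul (by fun_prop) ?_
    exact Real.continuousOn_log.mono fun x hx => by
      have h : (1 : ℝ) ≤ x := hx
      exact (by linarith : (0 : ℝ) < x).ne'
  · have h1 : (fun x : ℝ => x ^ n * Real.log x) =O[atTop] fun x : ℝ => Real.exp (c / 2 * x) := by
      have h2 := (isBigO_refl (fun x : ℝ => x ^ n) atTop).mul Real.isLittleO_log_id_atTop.isBigO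
      refine h2.trans ?_
      have h3 := (isLittleO_pow_exp_pos_mul_atTop (n + 1) (b := c / 2) (by positivity)).isBigO
      refine h3.congr_left fun x => ?_
      rw [pow_succ]
      rfl
    have h2 := (isBigO_refl (fun x : ℝ => Real.exp (-(c * x))) atTop).mul h1
    refine (h2.congr_left fun x => (mul_assoc _ _ _).symm).congr_right fun x => ?_
    rw [← Real.exp_add]
    congr 1
    ring

theorem Pk_comp_bigO (k : ℕ) {c : ℝ} (hc : 0 < c) :
    (fun x : ℝ => Pk k (c * x)) =O[atTop] fun x : ℝ => Real.exp (-(c / 2) * x) := by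
  have ht : Tendsto (fun x : ℝ => c * x) atTop atTop := tendsto_id.const_mul_atTop hc
  have h := (Pk_bigO k).comp_tendsto ht
  refine h.congr_right fun x => ?_
  change Real.exp (-(1 / 2) * (c * x)) = _
  congr 1
  ring

theorem int_inv (k : ℕ) {c : ℝ} (hc : 0 < c) :
    IntegrableOn (fun x => x⁻¹ * Pk k (c * x)) (Ioi 1) := by
  refine integrable_of_isBigO_exp_neg (b := c / 2) (by positivity) ?_ ?_
  · refine ContinuousOn.mul ?_ ((continuous_Pk k).comp (by fun_prop)).continuousOn
    exact continuousOn_inv₀.mono fun x hx => by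
      have h : (1 : ℝ) ≤ x := hx
      exact (by linarith : (0 : ℝ) < x).ne'
  · have h1 : (fun u : ℝ => u⁻¹) =O[atTop] fun _ : ℝ => (1 : ℝ) :=
      tendsto_inv_atTop_zero.isBigO_one ℝ
    have h2 := h1.mul (Pk_comp_bigO k hc)
    refine h2.congr_right fun u => ?_
    rw [one_mul]

theorem lim_infty (k : ℕ) {c : ℝ} (hc : 0 < c) :
    Tendsto (fun x => Real.log x * Pk k (c * x)) atTop (𝓝 0) := by
  have h1 : (fun x : ℝ => Real.log x * Pk k (c * x)) =O[atTop]
      fun x : ℝ => x ^ 1 * Real.exp (-(c / 2) * x) := by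
    refine (Real.isLittleO_log_id_atTop.isBigO.mul (Pk_comp_bigO k hc)).congr_right fun x => ?_
    rw [pow_one]
    rfl
  refine h1.trans_tendsto ?_
  have h2 := (isLittleO_pow_exp_pos_mul_atTop 1 (b := c / 2) (by positivity)).tendsto_div_nhds_zero
  refine h2.congr fun x => ?_
  rw [neg_mul, Real.exp_neg, div_eq_mul_inv]

end PvAux

open PvAux in
theorem stPv : StPv := by
  intro k c hk hc
  obtain ⟨n, rfl⟩ : ∃ n, k = n + 1 := ⟨k - 1, by omega⟩
  rw [Nat.add_sub_cancel]
  refine ⟨int_Pk (n + 1) hc, int_log n hc, ?_⟩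
  have hf : ((n.factorial : ℕ) : ℝ) ≠ 0 := by exact_mod_cast n.factorial_ne_zero
  have hcn : c ^ (n + 1) ≠ 0 := pow_ne_zero _ hc.ne'
  set A : ℝ := -(c ^ (n + 1) / (n.factorial : ℝ)) with hA
  have hv : ∀ x : ℝ, HasDerivAt (fun x => Pk (n + 1) (c * x))
      (A * (Real.exp (-(c * x)) * x ^ n)) x := by
    intro x
    have h1 : HasDerivAt (fun x : ℝ => c * x) c x := by
      have h := (hasDerivAt_id x).const_mul c
      rwa [mul_one] at h
    have h2 := (hasDerivAt_Pk n (c * x)).comp x h1
    have h3 : -(Real.exp (-(c * x)) * ((c * x) ^ n / (n.factorial : ℝ))) * c =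
        A * (Real.exp (-(c * x)) * x ^ n) := by
      rw [hA, mul_pow, pow_succ]
      ring
    rw [h3] at h2
    exact h2
  have hparts := integral_Ioi_mul_deriv_eq_deriv_mul (a := (1 : ℝ)) (a' := (0 : ℝ)) (b' := (0 : ℝ))
    (u := Real.log) (u' := fun x => x⁻¹) (v := fun x => Pk (n + 1) (c * x))
    (v' := fun x => A * (Real.exp (-(c * x)) * x ^ n))
    (fun x hx => Real.hasDerivAt_log (by
      have h : (1 : ℝ) < x := hx
      linarith))
    (fun x _ => hv x) ?_ (int_inv (n + 1) hc) ?_ (lim_infty (n + 1) hc)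
  · have e1 : (∫ x in Ioi (1 : ℝ), Real.log x * (A * (Real.exp (-(c * x)) * x ^ n))) =
        A * ∫ x in Ioi (1 : ℝ), Real.exp (-(c * x)) * x ^ n * Real.log x := by
      rw [← integral_const_mul]
      refine integral_congr_ae (Filter.Eventually.of_forall fun x => ?_)
      change _ = A * (Real.exp (-(c * x)) * x ^ n * Real.log x)
      ring
    have e2 : (∫ x in Ioi (1 : ℝ), x⁻¹ * Pk (n + 1) (c * x)) =
        ∫ u in Ioi c, Pk (n + 1) u / u := by
      have h := integral_comp_mul_left_Ioi (fun u => Pk (n + 1) u / u) 1 hc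
      rw [mul_one] at h
      have h1 : (∫ x in Ioi (1 : ℝ), x⁻¹ * Pk (n + 1) (c * x)) =
          c * ∫ x in Ioi (1 : ℝ), Pk (n + 1) (c * x) / (c * x) := by
        rw [← integral_const_mul]
        refine integral_congr_ae (Filter.Eventually.of_forall fun x => ?_)
        change x⁻¹ * Pk (n + 1) (c * x) = c * (Pk (n + 1) (c * x) / (c * x))
        rw [div_eq_mul_inv, mul_inv]
        have : c * (Pk (n + 1) (c * x) * (c⁻¹ * x⁻¹)) = (c * c⁻¹) * (x⁻¹ * Pk (n + 1) (c * x)) := by
          ring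
        rw [this, mul_inv_cancel₀ hc.ne', one_mul]
      rw [h1, h, smul_eq_mul, ← mul_assoc, mul_inv_cancel₀ hc.ne', one_mul]
    rw [e1, e2] at hparts
    have hAne : A ≠ 0 := by
      rw [hA]
      exact neg_ne_zero.2 (div_ne_zero hcn hf)
    have h3 : (n.factorial : ℝ) / c ^ (n + 1) = -A⁻¹ := by
      rw [hA, inv_neg, neg_neg, inv_div]
    rw [h3]
    have h4 : (∫ x in Ioi (1 : ℝ), Real.exp (-(c * x)) * x ^ n * Real.log x) =
        A⁻¹ * (A * ∫ x in Ioi (1 : ℝ), Real.exp (-(c * x)) * x ^ n * Real.log x) := by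
      rw [← mul_assoc, inv_mul_cancel₀ hAne, one_mul]
    rw [h4, hparts]
    ring
  · have h := (int_log n hc).const_mul A
    refine h.congr (Filter.Eventually.of_forall fun x => ?_)
    change A * (Real.exp (-(c * x)) * x ^ n * Real.log x) =
      Real.log x * (A * (Real.exp (-(c * x)) * x ^ n))
    ring
  · have h1 : ContinuousAt (fun x : ℝ => Real.log x * Pk (n + 1) (c * x)) 1 :=
      (Real.continuousAt_log one_ne_zero).mul
        ((continuous_Pk (n + 1)).comp (by fun_prop : Continuous fun x : ℝ => c * x)).continuousAt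
    have h2 := h1.tendsto
    rw [Real.log_one, zero_mul] at h2
    exact h2.mono_left nhdsWithin_le_nhds

end Pool.Agent.Lib.MP_7c08ba_nt.CD
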