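import Mathlib
import Pool.Agent.Lib.MP_7c08ba_nt.CD.StA
import Pool.Agent.Lib.MP_7c08ba_nt.CN.StP
import Pool.Agent.Lib.MP_7c08ba_nt.RZ.Basic

set_option autoImplicit false

/-!
Project CD, module Sg: the sign of the functional equation, from the non-vanishing theorem.
-/

namespace Pool.Agent.Lib.MP_7c08ba_nt.CD

open NumberField IsDedekindDomain MeasureTheory Set Pool.Agent.Lib.MP_7c08ba_nt.RZ
  Pool.Agent.Lib.MP_7c08ba_nt.CN Pool.Agent.Lib.MP_7c08ba_nt.CN.TW
open scoped nonZeroDivisors ComplexConjugate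

namespace SgAux

section

variable {F : Type} [Field F] [NumberField F]

/-- The terms of the Dirichlet series as a homomorphism. -/
noncomputable def term (Φ : Ideal (𝓞 F) →*₀ ℂ) (w : ℂ) : Ideal (𝓞 F) →*₀ ℂ where
  toFun b := Φ b * (Ideal.absNorm b : ℂ) ^ w
  map_zero' := by rw [map_zero, zero_mul]
  map_one' := by rw [map_one, map_one, Nat.cast_one, Complex.one_cpow, mul_one]
  map_mul' a b := by
    rw [map_mul, map_mul, Nat.cast_mul, Complex.natCast_mul_natCast_cpow]
    ring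

/-- Uniqueness of the `L`-function. -/
theorem isLF_unique {Φ : Ideal (𝓞 F) →*₀ ℂ} {k : ℕ} {Λ Λ' : ℂ → ℂ} (h : IsLF Φ k Λ)
    (h' : IsLF Φ k Λ') : Λ 0 = Λ' 0 := by
  have hop : IsOpen {z : ℂ | -1 / 2 < z.re} := isOpen_lt continuous_const Complex.continuous_re
  have hc : IsPreconnected {z : ℂ | -1 / 2 < z.re} :=
    (convex_halfSpace_re_gt _).isPreconnected
  have h2 : Λ =ᶠ[nhds (2 : ℂ)] Λ' := by
    have h3 : {z : ℂ | 1 < z.re} ∈ nhds (2 : ℂ) :=
      (isOpen_lt continuous_const Complex.continuous_re).mem_nhds (by simp)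
    filter_upwards [h3] with z hz
    exact (h.euler z hz).unique (h'.euler z hz)
  have h4 := (h.differentiable.analyticOnNhd hop).eqOn_of_preconnected_of_eventuallyEq
    (h'.differentiable.analyticOnNhd hop) hc (z₀ := 2) (by simp; norm_num) h2
  exact h4 (by simp; norm_num)

/-- the character modulo 4 as a homomorphism of monoids with zero -/
noncomputable def c4h : ℤ →*₀ ℂ where
  toFun := CN.c4
  map_zero' := by
    unfold CN.c4
    simp
  map_one' := by
    unfold CN.c4
    simp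
  map_mul' a b := by
    unfold CN.c4
    push_cast
    rw [map_mul]
    push_cast
    ring

/-- the cube with the character modulo 4 -/
noncomputable def ch3 (ψ : Ideal (𝓞 F) →*₀ ℂ) : Ideal (𝓞 F) →*₀ ℂ :=
  (c4h.comp ((Nat.castRingHom ℤ).toMonoidWithZeroHom.comp
    (Ideal.absNorm : Ideal (𝓞 F) →*₀ ℕ))) *
    (powMonoidWithZeroHom (by norm_num : (3 : ℕ) ≠ 0)).comp ψ

theorem ch3_apply (ψ : Ideal (𝓞 F) →*₀ ℂ) (a : Ideal (𝓞 F)) :
    ch3 ψ a = CN.c4 (Ideal.absNorm a : ℤ) * ψ a ^ 3 := rfl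

theorem twist_apply (D : ℕ) (φ : Ideal (𝓞 F) →*₀ ℂ) (a : Ideal (𝓞 F)) :
    twist D φ a = φ a * (jacobiSym (Ideal.absNorm a) D : ℂ) := rfl

end

theorem c4_cases {n : ℤ} (h : n % 2 = 1) : CN.c4 n = 1 ∨ CN.c4 n = -1 := by
  unfold CN.c4
  have h2 : n % 4 = 1 ∨ n % 4 = 3 := by omega
  rcases h2 with h2 | h2
  · left
    have : ((n : ℤ) : ZMod 4) = ((1 : ℤ) : ZMod 4) := by
      rw [ZMod.intCast_eq_intCast_iff']
      exact h2
    rw [this]
    simp
  · right
    have : ((n : ℤ) : ZMod 4) = ((3 : ℤ) : ZMod 4) := by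
      rw [ZMod.intCast_eq_intCast_iff']
      exact h2
    rw [this]
    have h3 : ZMod.χ₄ ((3 : ℤ) : ZMod 4) = -1 := by decide
    rw [h3]
    simp

/-- The sign, from a nonzero central value. -/
theorem sign (hMel : StMel) (hPhi : StPhi) (hGb : StGb) (hE : CN.StEulId)
    {q : ℕ} {F : Type} [iF : Field F] [iN : NumberField F] {s : 𝓞 F} {σ : F →+* ℂ}
    {χ : DirichletCharacter ℂ q} {cj : 𝓞 F ≃+* 𝓞 F} {o : Bool} {D : ℕ}
    (hD : Dat q s σ χ cj) (hT : TwA q D) (hD0 : 0 < D) {W : ℂ} {k : ℕ} (hk : 1 ≤ k)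
    {Φ : Ideal (𝓞 F) →*₀ ℂ} (hΦ : IsTy o q D s σ (2 * k - 1) Φ)
    (hW : ∀ y : ℝ, 0 < y → gg Φ (1 / (rr o q D * y)) =
        (-1) ^ k * W * (y : ℂ) ^ (2 * k) * gg Φ (y / rr o q D))
    {Λ' : ℂ → ℂ} (hΛ' : IsLF Φ k Λ') (h0 : Λ' 0 ≠ 0) : (-1) ^ k * W = 1 := by
  have hR : (0 : ℝ) < (rr o q D : ℝ) := by
    have h1 : 0 < q := hD.prime.pos
    have h2 : 0 < dl o D := by
      unfold dl
      split_ifs <;> positivity
    have h3 : 0 < rr o q D := Nat.mul_pos h1 h2
    exact_mod_cast h3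
  have hsz := (hPhi q F iF iN s σ χ cj o D k Φ hD hT hk hΦ).1
  obtain ⟨Λ, hd, hL, hne, -⟩ := hMel F iF iN Φ k (rr o q D) ((-1) ^ k * W) hk hR hsz hW
  have hsum := (hGb F iF iN Φ k hk hsz).2.2.2
  have hLF : IsLF Φ k Λ := by
    refine ⟨hd.differentiableOn, fun z hz => ?_⟩
    rw [hL z hz]
    exact hE F iF iN (term Φ (-((k : ℂ) + z))) (hsum z (by linarith))
  exact hne (by rw [isLF_unique hLF hΛ']; exact h0)

end SgAux

open SgAux

theorem stSg (hGF : StGF) (hMel : StMel) (hPhi : StPhi) (hGb : StGb) (hE : CN.StEulId)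
    (hNVT : CN.TW.StNVT) (hEx : CN.StEx) : StSg := by
  intro q F iF iN s σ χ cj o D ψ hD hT h8 hcan k Φ x hk hΦ hx
  have hD0 : 0 < D := by omega
  obtain ⟨W, hW⟩ := hGF q F iF iN s σ χ cj o D hD hT
  have hC : RZC.FieldC q F (s : F) := by
    refine ⟨hD.prime, hD.mod, hD.fin, ?_⟩
    have h := congrArg (fun y : 𝓞 F => (y : F)) hD.sq
    simpa using h
  obtain ⟨A, hA, hres⟩ := hEx q F iF iN s σ ψ hC hcan
  have hjac : ∀ a : ℤ, ((jacobiSym a q : ℤ) : ℂ) ^ 3 = (jacobiSym a q : ℂ) := by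
    intro a
    rcases jacobiSym.trichotomy a q with h | h | h <;> rw [h] <;> norm_num
  have key : W = if o = false then -1 else 1 := by
    cases o with
    | false =>
      obtain ⟨Λ', hΛ', h0⟩ := hNVT q F iF iN s σ A 0 D ψ hC hT h8 hA
        (Or.inl ⟨Even.zero, by simpa using hcan⟩) hres
      have hty : IsTy false q D s σ (2 * 1 - 1) (twist D ψ) := by
        intro t a ht hta
        rw [twist_apply, hcan t a ht hta]
        unfold tw nmm
        push_cast
        simp
        ring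
      have h := sign hMel hPhi hGb hE hD hT hD0 le_rfl hty
        (fun y hy => hW 1 (twist D ψ) y le_rfl hty hy) hΛ' h0
      simp only [if_true]
      linear_combination -h
    | true =>
      obtain ⟨Λ', hΛ', h0⟩ := hNVT q F iF iN s σ A 1 D (ch3 ψ) hC hT h8 hA
        (Or.inr ⟨odd_one, by
          intro t a ht hta
          rw [ch3_apply, hcan t a ht hta, pow_one, mul_pow, hjac]
          ring⟩)
        (by
          intro a ha hac
          rw [ch3_apply]
          have h1 := RZC.nonunits_pow_sub_one (hres a ha hac) 3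
          have h2 : ((Ideal.absNorm a : ℕ) : ℤ) % 2 = 1 := by
            have h3 : Ideal.absNorm a % 2 = 1 := Nat.odd_iff.1 ha
            omega
          rcases c4_cases h2 with h | h
          · rw [h, one_mul]
            exact h1
          · rw [h]
            have h4 : (-1 : ℂ) * ψ a ^ 3 - 1 = -(ψ a ^ 3 - 1) - 2 := by ring
            rw [h4]
            exact RZC.nonunits_sub (RZC.nonunits_neg h1) hA)
      have hty : IsTy true q D s σ (2 * 2 - 1) (twist D (ch3 ψ)) := by
        intro t a ht hta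
        rw [twist_apply, ch3_apply, hcan t a ht hta, pow_one, mul_pow, hjac]
        unfold tw nmm CN.c4
        push_cast
        simp
        ring
      have h := sign hMel hPhi hGb hE hD hT hD0 (by norm_num) hty
        (fun y hy => hW 2 (twist D (ch3 ψ)) y (by norm_num) hty hy) hΛ' h0
      simp
      linear_combination h
  rw [hW k Φ x hk hΦ hx, key]
  congr 2
  cases o with
  | false =>
    rcases Nat.even_or_odd k with he | ho
    · have : ¬ Odd k := Nat.not_odd_iff_even.2 he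
      simp [he.neg_one_pow, this]
    · simp [ho.neg_one_pow, ho]
  | true =>
    rcases Nat.even_or_odd k with he | ho
    · have : ¬ Odd k := Nat.not_odd_iff_even.2 he
      simp [he.neg_one_pow, this]
    · simp [ho.neg_one_pow, ho]

end Pool.Agent.Lib.MP_7c08ba_nt.CD
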