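import Pool.Agent.Lib.MP_7c08ba_nt.CD.StA
import Pool.Agent.Lib.MP_7c08ba_nt.RZ.StB

set_option autoImplicit false

/-!
Project CD, module T: the finite Fourier transform of the character `c`.
-/

namespace Pool.Agent.Lib.MP_7c08ba_nt.CD

open NumberField IsDedekindDomain Pool.Agent.Lib.MP_7c08ba_nt.RZ
  Pool.Agent.Lib.MP_7c08ba_nt.CN Pool.Agent.Lib.MP_7c08ba_nt.CN.TW
open scoped nonZeroDivisors ComplexConjugate

namespace TAux

/-- The additive character. -/
noncomputable def E {F : Type} [Field F] [NumberField F] (σ : F →+* ℂ) (R : ℝ) (w : 𝓞 F) : ℂ :=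
  ee (-(((2 * (σ w).re / R : ℝ)) : ℂ))

theorem E_add {F : Type} [Field F] [NumberField F] (σ : F →+* ℂ) (R : ℝ) (x y : 𝓞 F) :
    E σ R (x + y) = E σ R x * E σ R y := by
  unfold E ee
  rw [← Complex.exp_add]
  congr 1
  have h : (σ ((x + y : 𝓞 F) : F)).re = (σ (x : F)).re + (σ (y : F)).re := by
    rw [show ((x + y : 𝓞 F) : F) = (x : F) + (y : F) from rfl, map_add, Complex.add_re]
  rw [h]
  push_cast
  ring

/-- A function which is periodic modulo `m` is a function on the quotient. -/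
theorem exists_bar {A : Type} [CommRing A] (m : A) (f : A → ℂ)
    (hf : ∀ x y, m ∣ x - y → f x = f y) :
    ∃ g : A ⧸ Ideal.span {m} → ℂ, ∀ x, g (Ideal.Quotient.mk _ x) = f x := by
  refine ⟨fun ω => f (Function.surjInv Ideal.Quotient.mk_surjective ω), fun x => ?_⟩
  apply hf
  have h := Function.surjInv_eq (Ideal.Quotient.mk_surjective (I := Ideal.span {m}))
    (Ideal.Quotient.mk _ x)
  rw [Ideal.Quotient.eq] at h
  exact Ideal.mem_span_singleton.mp h

/-- `d ∈ a`, `m ∣ d`, `a` prime to `m`: `d ∈ m a`. -/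
theorem mem_mul {A : Type} [CommRing A] (m : A) (a : Ideal A)
    (ha : IsCoprime a (Ideal.span {m})) (d : A) (hd : d ∈ a) (h : m ∣ d) :
    ∃ y ∈ a, d = m * y := by
  obtain ⟨d', rfl⟩ := h
  refine ⟨d', ?_, rfl⟩
  obtain ⟨α, hα, β, hβ, h1⟩ := Ideal.isCoprime_iff_exists.mp ha
  obtain ⟨γ, rfl⟩ := Ideal.mem_span_singleton'.mp hβ
  have : d' = d' * α + γ * (m * d') := by
    calc d' = d' * 1 := (mul_one _).symm
      _ = d' * (α + γ * m) := by rw [h1]
      _ = _ := by ring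
  rw [this]
  exact a.add_mem (a.mul_mem_left _ hα) (a.mul_mem_left _ hd)

/-- The sum over a system of representatives as a sum over the quotient ring. -/
theorem sum_crs {F : Type} [Field F] [NumberField F] (m : 𝓞 F) (a : Ideal (𝓞 F))
    (S : Finset (𝓞 F)) [Fintype (𝓞 F ⧸ Ideal.span {m})]
    (ha : IsCoprime a (Ideal.span {m})) (hS : CRS m a S)
    (g : 𝓞 F ⧸ Ideal.span {m} → ℂ) :
    ∑ x ∈ S, g (Ideal.Quotient.mk _ x) = ∑ ω, g ω := by
  refine Finset.sum_bij (fun x _ => Ideal.Quotient.mk _ x) (fun x _ => Finset.mem_univ _)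
    ?_ ?_ (fun x _ => rfl)
  · intro x hx x' hx' h
    rw [Ideal.Quotient.eq, Ideal.mem_span_singleton] at h
    obtain ⟨y, hy, hxy⟩ := mem_mul m a ha (x - x') (a.sub_mem (hS.mem x hx) (hS.mem x' hx')) h
    obtain ⟨r, _, hr⟩ := hS.uni x (hS.mem x hx)
    have h1 := hr x ⟨hx, 0, a.zero_mem, by simp⟩
    have h2 := hr x' ⟨hx', y, hy, hxy⟩
    rw [h1, h2]
  · intro ω _
    obtain ⟨w, rfl⟩ := Ideal.Quotient.mk_surjective ω
    obtain ⟨α, hα, β, hβ, h1⟩ := Ideal.isCoprime_iff_exists.mp ha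
    obtain ⟨γ, rfl⟩ := Ideal.mem_span_singleton'.mp hβ
    obtain ⟨r, ⟨hr, y, _, hy⟩, _⟩ := hS.uni (w * α) (a.mul_mem_left _ hα)
    refine ⟨r, hr, ?_⟩
    rw [Ideal.Quotient.eq, Ideal.mem_span_singleton]
    refine ⟨-(w * γ + y), ?_⟩
    have h2 : r = w * α - m * y := by rw [← hy]; ring
    have h3 : w = w * α + w * γ * m := by
      calc w = w * 1 := (mul_one _).symm
        _ = w * (α + γ * m) := by rw [h1]
        _ = _ := by ring
    calc r - w = (w * α - m * y) - (w * α + w * γ * m) := by rw [← h2, ← h3]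
      _ = _ := by ring

/-- Values at the multiples of `m`. -/
theorem E_m {q : ℕ} {F : Type} [Field F] [NumberField F] {s : 𝓞 F} {σ : F →+* ℂ}
    {χ : DirichletCharacter ℂ q} {cj : 𝓞 F ≃+* 𝓞 F} (hD : Dat q s σ χ cj)
    (hB : ∀ x : 𝓞 F, ∃ a b : ℤ, 2 * x = a + b * s ∧ (2 : ℤ) ∣ a - b) (Δ : ℕ) (hΔ : Δ ≠ 0)
    (v : 𝓞 F) : E σ (q * Δ : ℕ) (s * (Δ : 𝓞 F) * v) = 1 := by
  obtain ⟨a, b, hab, _⟩ := hB v
  have hq : (q : ℝ) ≠ 0 := by exact_mod_cast hD.prime.ne_zero
  have hΔ' : (Δ : ℝ) ≠ 0 := by exact_mod_cast hΔ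
  have h1 : (2 : ℂ) * σ (v : F) = a + b * σ (s : F) := by
    have := congrArg (fun t : 𝓞 F => σ (algebraMap (𝓞 F) F t)) hab
    simp only [map_mul, map_add, map_intCast, map_ofNat] at this
    exact this
  have h2 : σ ((s * (Δ : 𝓞 F) * v : 𝓞 F) : F) = σ (s : F) * Δ * σ (v : F) := by
    simp
  have h3 : (2 : ℂ) * σ ((s * (Δ : 𝓞 F) * v : 𝓞 F) : F) =
      Δ * (a * (Complex.I * Real.sqrt q) - b * q) := by
    rw [h2]
    have h4 : (Complex.I * (Real.sqrt q : ℂ)) * (Complex.I * (Real.sqrt q : ℂ)) = -(q : ℂ) := by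
      have h5 : ((Real.sqrt q : ℝ) : ℂ) * ((Real.sqrt q : ℝ) : ℂ) = (q : ℂ) := by
        rw [← Complex.ofReal_mul, Real.mul_self_sqrt (Nat.cast_nonneg q)]
        simp
      calc (Complex.I * (Real.sqrt q : ℂ)) * (Complex.I * (Real.sqrt q : ℂ)) =
            Complex.I * Complex.I * ((Real.sqrt q : ℂ) * (Real.sqrt q : ℂ)) := by ring
        _ = _ := by rw [Complex.I_mul_I, h5]; ring
    calc (2 : ℂ) * (σ (s : F) * Δ * σ (v : F)) = Δ * (σ (s : F) * (2 * σ (v : F))) := by ring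
      _ = Δ * (a * (Complex.I * Real.sqrt q) +
          b * ((Complex.I * (Real.sqrt q : ℂ)) * (Complex.I * (Real.sqrt q : ℂ)))) := by
            rw [h1, hD.im]; ring
      _ = _ := by rw [h4]; ring
  have h6 : 2 * (σ ((s * (Δ : 𝓞 F) * v : 𝓞 F) : F)).re = -(Δ * (b * q)) := by
    have h7 := congrArg Complex.re h3
    have h8 : ((2 : ℂ) * σ ((s * (Δ : 𝓞 F) * v : 𝓞 F) : F)).re =
        2 * (σ ((s * (Δ : 𝓞 F) * v : 𝓞 F) : F)).re := by
      simp
    rw [h8] at h7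
    rw [h7]
    simp
  unfold E ee
  rw [h6]
  have h9 : (-(((-(Δ * (b * q)) : ℝ) / ((q * Δ : ℕ) : ℝ) : ℝ) : ℂ)) = (b : ℂ) := by
    have : (-((-(Δ * (b * q)) : ℝ) / ((q * Δ : ℕ) : ℝ)) : ℝ) = (b : ℝ) := by
      push_cast
      field_simp
    rw [← Complex.ofReal_neg, this]
    simp
  rw [h9]
  have h10 := Complex.exp_int_mul_two_pi_mul_I b
  rw [← h10]
  congr 1
  ring

end TAux

open TAux in
/-- (T) the finite Fourier transform of `c`. -/
theorem stT (hBas : StBas) (hCb : StCb) (hPrim : StPrim) : StT := by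
  intro q F _ _ s σ χ cj o D c hD hT hc
  obtain ⟨_, hCb2⟩ := hCb q F _ _ s σ χ cj o D hD hT
  obtain ⟨cmul, cone, _, cper, ccj, cpm, czero, cN⟩ := hCb2 c hc
  obtain ⟨hb1, hb2, hb3, _, _, _, hb7, _, _, _, _⟩ := hBas q F _ _ s σ χ cj hD
  have hDl : dl o D ≠ 0 := by
    have hD0 : D ≠ 0 := hT.sqf.ne_zero
    unfold dl
    cases o <;> simp [hD0]
  have hq0 : (q : 𝓞 F) ≠ 0 := by exact_mod_cast hD.prime.ne_zero
  have hs0 : s ≠ 0 := by
    intro h
    have := hD.sq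
    rw [h] at this
    apply hq0
    have h2 : (0 : 𝓞 F) ^ 2 = 0 := by ring
    rw [h2] at this
    exact neg_eq_zero.mp this.symm
  set m : 𝓞 F := s * (dl o D : 𝓞 F) with hm
  have hm0 : m ≠ 0 := mul_ne_zero hs0 (by exact_mod_cast hDl)
  have hmI : Ideal.span {m} ≠ (⊥ : Ideal (𝓞 F)) := by
    intro h
    exact hm0 (Ideal.span_singleton_eq_bot.mp h)
  have hcjm : cj m = -m := by
    rw [hm, map_mul, hb3, map_natCast]
    ring
  have : Finite (𝓞 F ⧸ Ideal.span {m}) := Ideal.finiteQuotientOfFreeOfNeBot _ hmI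
  letI : Fintype (𝓞 F ⧸ Ideal.span {m}) := Fintype.ofFinite _
  let R : ℝ := ((q * dl o D : ℕ) : ℝ)
  have hEm : ∀ v : 𝓞 F, E σ R (m * v) = 1 := fun v => E_m hD hb1 (dl o D) hDl v
  have hEper : ∀ x y : 𝓞 F, m ∣ x - y → E σ R x = E σ R y := by
    rintro x y ⟨v, hv⟩
    have : x = y + m * v := by rw [← hv]; ring
    rw [this, E_add, hEm, mul_one]
  obtain ⟨cb, hcb⟩ := exists_bar m c cper
  obtain ⟨Eb, hEb⟩ := exists_bar m (E σ R) hEper
  have cbmul : ∀ ω η, cb (ω * η) = cb ω * cb η := by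
    intro ω η
    obtain ⟨x, rfl⟩ := Ideal.Quotient.mk_surjective ω
    obtain ⟨y, rfl⟩ := Ideal.Quotient.mk_surjective η
    rw [← map_mul, hcb, hcb, hcb, cmul]
  have cbone : cb 1 = 1 := by
    rw [← map_one (Ideal.Quotient.mk (Ideal.span {m})), hcb, cone]
  refine ⟨∑ ω, cb ω * Eb ω, ?_⟩
  intro a S z ha0 hacop hS hza
  set n : ℕ := Ideal.absNorm a with hn
  have hn0 : n ≠ 0 := by
    rw [hn]
    intro h
    exact ha0 (Ideal.absNorm_eq_zero_iff.mp h)
  -- the norm is prime to `m`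
  have hcop : IsCoprime (n : 𝓞 F) m := by
    rw [← Ideal.isCoprime_span_singleton_iff, hn, ← hb7 a]
    refine IsCoprime.mul_left hacop ?_
    have h1 := hacop.map (Ideal.mapHom (cj : 𝓞 F →+* 𝓞 F))
    have h2 : Ideal.mapHom (cj : 𝓞 F →+* 𝓞 F) (Ideal.span {m}) = Ideal.span {m} := by
      rw [Ideal.mapHom_apply, Ideal.map_span, Set.image_singleton]
      have : (cj : 𝓞 F →+* 𝓞 F) m = -m := hcjm
      rw [this, Ideal.span_singleton_neg]
    rw [h2, Ideal.mapHom_apply] at h1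
    exact h1
  obtain ⟨n', v', hn'⟩ := hcop
  have hcn' : c n' = 1 := by
    have h1 : c (n : 𝓞 F) = 1 := cN a hacop
    have h2 : c (n' * (n : 𝓞 F)) = 1 := by
      rw [← cone]
      apply cper
      refine ⟨-v', ?_⟩
      rw [← hn']
      ring
    rw [cmul, h1, mul_one] at h2
    exact h2
  -- the terms
  let b : 𝓞 F ⧸ Ideal.span {m} := Ideal.Quotient.mk _ (n' * cj z)
  have hterm : ∀ x ∈ S, c x * ee (-(((2 * (σ x * conj (σ z)).re / ((rr o q D : ℝ) *
      (Ideal.absNorm a : ℝ)) : ℝ)) : ℂ)) =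
      (fun ω => cb ω * Eb (b * ω)) (Ideal.Quotient.mk _ x) := by
    intro x hx
    show _ = cb _ * Eb _
    have hmem : x * cj z ∈ a * a.map (cj : 𝓞 F →+* 𝓞 F) :=
      Ideal.mul_mem_mul (hS.mem x hx) (Ideal.mem_map_of_mem _ hza)
    rw [hb7 a] at hmem
    obtain ⟨w, hw⟩ := Ideal.mem_span_singleton'.mp hmem
    have hEw : Eb (b * Ideal.Quotient.mk _ x) = E σ R w := by
      show Eb (Ideal.Quotient.mk _ (n' * cj z) * Ideal.Quotient.mk _ x) = _
      rw [← map_mul, hEb]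
      apply hEper
      refine ⟨-(v' * w), ?_⟩
      have h1 : n' * cj z * x = n' * (w * (n : 𝓞 F)) := by
        rw [hw]
        ring
      have h2 : n' * (n : 𝓞 F) = 1 - v' * m := by
        rw [← hn']
        ring
      calc n' * cj z * x - w = w * (n' * (n : 𝓞 F)) - w := by rw [h1]; ring
        _ = w * (1 - v' * m) - w := by rw [h2]
        _ = _ := by ring
    rw [hcb, hEw]
    congr 1
    unfold E
    congr 3
    have hnR : (n : ℝ) ≠ 0 := by exact_mod_cast hn0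
    have h3 : σ (x : F) * conj (σ (z : F)) = (n : ℂ) * σ (w : F) := by
      rw [← hD.conjσ z]
      have h4 := congrArg (fun t : 𝓞 F => σ (t : F)) hw
      have h5 : σ ((w * ((Ideal.absNorm a : ℕ) : 𝓞 F) : 𝓞 F) : F) = σ (w : F) * (n : ℂ) := by
        simp [hn]
      have h6 : σ ((x * cj z : 𝓞 F) : F) = σ (x : F) * σ ((cj z : 𝓞 F) : F) := by
        simp
      rw [← h6, ← h4]
      show σ ((w * ((Ideal.absNorm a : ℕ) : 𝓞 F) : 𝓞 F) : F) = _
      rw [h5]
      ring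
    have h7 : (σ (x : F) * conj (σ (z : F))).re = n * (σ (w : F)).re := by
      rw [h3, Complex.mul_re]
      simp
    rw [h7]
    show 2 * ((n : ℝ) * (σ (w : F)).re) / (((rr o q D : ℕ) : ℝ) * (n : ℝ)) =
      2 * (σ (w : F)).re / ((q * dl o D : ℕ) : ℝ)
    have h8 : ((rr o q D : ℕ) : ℝ) = ((q * dl o D : ℕ) : ℝ) := rfl
    rw [h8]
    have h9 : ((q * dl o D : ℕ) : ℝ) ≠ 0 := by
      exact_mod_cast mul_ne_zero hD.prime.ne_zero hDl
    field_simp
  rw [Finset.sum_congr rfl hterm]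
  refine (sum_crs m a S hacop hS (fun ω => cb ω * Eb (b * ω))).trans ?_
  show ∑ ω, cb ω * Eb (b * ω) = (∑ ω, cb ω * Eb ω) * c z
  by_cases hz : IsCoprime z m
  · -- `z` is prime to `m`
    have hzc : IsCoprime (cj z) m := by
      have h1 := hz.map (cj : 𝓞 F →+* 𝓞 F)
      have h2 : (cj : 𝓞 F →+* 𝓞 F) m = -m := hcjm
      rw [h2] at h1
      exact (IsCoprime.neg_right_iff _ _).mp h1
    obtain ⟨z', v'', hz'⟩ := hzc
    have hbu : b * Ideal.Quotient.mk _ (z' * (n : 𝓞 F)) = 1 := by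
      show Ideal.Quotient.mk _ (n' * cj z) * Ideal.Quotient.mk _ (z' * (n : 𝓞 F)) = 1
      rw [← map_mul, ← map_one (Ideal.Quotient.mk (Ideal.span {m})), Ideal.Quotient.eq,
        Ideal.mem_span_singleton]
      have h1 : n' * (n : 𝓞 F) = 1 - v' * m := by
        rw [← hn']
        ring
      have h2 : z' * cj z = 1 - v'' * m := by
        rw [← hz']
        ring
      refine ⟨v' * v'' * m - v' - v'', ?_⟩
      calc n' * cj z * (z' * (n : 𝓞 F)) - 1 = (n' * (n : 𝓞 F)) * (z' * cj z) - 1 := by ring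
        _ = (1 - v' * m) * (1 - v'' * m) - 1 := by rw [h1, h2]
        _ = _ := by ring
    let u : (𝓞 F ⧸ Ideal.span {m})ˣ :=
      ⟨b, Ideal.Quotient.mk _ (z' * (n : 𝓞 F)), hbu, by rw [mul_comm]; exact hbu⟩
    have hcbb : cb b = c z := by
      show cb (Ideal.Quotient.mk _ (n' * cj z)) = c z
      rw [hcb, cmul, hcn', one_mul, ccj]
    have hcz2 : c z * c z = 1 := by
      rcases cpm z hz with h | h <;> rw [h] <;> norm_num
    have hre : ∑ ω, cb (b * ω) * Eb (b * ω) = ∑ ω, cb ω * Eb ω :=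
      Fintype.sum_equiv (Units.mulLeft u) _ _ (fun ω => rfl)
    rw [← hre, Finset.sum_mul]
    refine Finset.sum_congr rfl fun ω _ => ?_
    rw [cbmul, hcbb]
    calc cb ω * Eb (b * ω) = (c z * c z) * (cb ω * Eb (b * ω)) := by rw [hcz2, one_mul]
      _ = _ := by ring
  · -- `z` is not prime to `m`
    rw [czero z hz, mul_zero]
    have hne : Ideal.span {z} ⊔ Ideal.span {m} ≠ (⊤ : Ideal (𝓞 F)) := by
      intro h
      apply hz
      rw [← Ideal.isCoprime_span_singleton_iff, Ideal.isCoprime_iff_sup_eq]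
      exact h
    obtain ⟨P, hPmax, hP⟩ := Ideal.exists_le_maximal _ hne
    have hzP : z ∈ P := hP (Ideal.mem_sup_left (Ideal.mem_span_singleton_self z))
    have hmP : m ∈ P := hP (Ideal.mem_sup_right (Ideal.mem_span_singleton_self m))
    haveI : P.IsPrime := hPmax.isPrime
    have hP' : (P.comap (cj : 𝓞 F →+* 𝓞 F)).IsPrime := Ideal.comap_isPrime _ P
    have hmP' : m ∈ P.comap (cj : 𝓞 F →+* 𝓞 F) := by
      rw [Ideal.mem_comap]
      show cj m ∈ P
      rw [hcjm]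
      exact P.neg_mem hmP
    have hzP' : cj z ∈ P.comap (cj : 𝓞 F →+* 𝓞 F) := by
      rw [Ideal.mem_comap]
      show cj (cj z) ∈ P
      rw [hb2]
      exact hzP
    obtain ⟨t, ht1, ht2⟩ := hPrim q F _ _ s σ χ cj o D c hD hT hc _ hP' hmP'
    have htcop : IsCoprime t m := by
      by_contra hcon
      rw [czero t hcon] at ht2
      norm_num at ht2
    obtain ⟨t', v'', ht'⟩ := htcop
    have htu : Ideal.Quotient.mk (Ideal.span {m}) t * Ideal.Quotient.mk _ t' = 1 := by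
      rw [← map_mul, ← map_one (Ideal.Quotient.mk (Ideal.span {m})), Ideal.Quotient.eq,
        Ideal.mem_span_singleton]
      refine ⟨-v'', ?_⟩
      rw [← ht']
      ring
    let u : (𝓞 F ⧸ Ideal.span {m})ˣ :=
      ⟨Ideal.Quotient.mk _ t, Ideal.Quotient.mk _ t', htu, by rw [mul_comm]; exact htu⟩
    have hbt : b * Ideal.Quotient.mk _ t = b := by
      show Ideal.Quotient.mk _ (n' * cj z) * Ideal.Quotient.mk _ t =
        Ideal.Quotient.mk _ (n' * cj z)
      rw [← map_mul, Ideal.Quotient.eq, Ideal.mem_span_singleton]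
      obtain ⟨y, hy⟩ := ht1 (cj z) hzP'
      refine ⟨n' * y, ?_⟩
      calc n' * cj z * t - n' * cj z = n' * ((t - 1) * cj z) := by ring
        _ = n' * (m * y) := by rw [hy]
        _ = _ := by ring
    have hre : ∑ ω, cb (Ideal.Quotient.mk _ t * ω) * Eb (b * (Ideal.Quotient.mk _ t * ω)) =
        ∑ ω, cb ω * Eb (b * ω) :=
      Fintype.sum_equiv (Units.mulLeft u) _ _ (fun ω => rfl)
    have hneg : ∑ ω, cb (Ideal.Quotient.mk _ t * ω) * Eb (b * (Ideal.Quotient.mk _ t * ω)) =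
        -∑ ω, cb ω * Eb (b * ω) := by
      rw [← Finset.sum_neg_distrib]
      refine Finset.sum_congr rfl fun ω _ => ?_
      rw [cbmul, hcb, ht2, ← mul_assoc b, hbt]
      ring
    rw [hneg] at hre
    have : (2 : ℂ) * ∑ ω, cb ω * Eb (b * ω) = 0 := by
      linear_combination -hre
    exact (mul_eq_zero.mp this).resolve_left (by norm_num)

end Pool.Agent.Lib.MP_7c08ba_nt.CD
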