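import Mathlib
import Pool.Agent.Lib.MP_7c08ba_nt.CD.StA
import Pool.Agent.Lib.MP_7c08ba_nt.RZ.StA
import Pool.Agent.Lib.MP_7c08ba_nt.RZ.StB

set_option autoImplicit false

/-!
Project CD, module ThF: the functional equation of the theta series of an ideal.
-/

namespace Pool.Agent.Lib.MP_7c08ba_nt.CD

open NumberField IsDedekindDomain MeasureTheory Set Pool.Agent.Lib.MP_7c08ba_nt.RZ
  Pool.Agent.Lib.MP_7c08ba_nt.CN Pool.Agent.Lib.MP_7c08ba_nt.CN.TW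
open scoped nonZeroDivisors ComplexConjugate

namespace ThFAux

theorem ee_I (t : ℝ) : ee ((t : ℂ) * Complex.I) = (Real.exp (-(2 * Real.pi * t)) : ℂ) := by
  unfold ee
  push_cast
  congr 1
  linear_combination (2 * (Real.pi : ℂ) * t) * Complex.I_sq

theorem norm_ee (t : ℝ) : ‖ee (t : ℂ)‖ = 1 := by
  unfold ee
  rw [Complex.norm_exp]
  simp

theorem dl_pos {o : Bool} {q D : ℕ} (h : TwA q D) : 0 < dl o D := by
  unfold dl
  have : D ≠ 0 := h.sqf.ne_zero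
  cases o <;> simp <;> omega

section

variable {F : Type} [Field F] [NumberField F]

omit [NumberField F] in
/-- `{0}` represents `a / a`. -/
theorem crs_one (a : Ideal (𝓞 F)) : CRS 1 a {0} := by
  refine ⟨fun x hx => ?_, fun x hx => ⟨0, ⟨Finset.mem_singleton_self 0, x, hx, by ring⟩, ?_⟩⟩
  · rw [Finset.mem_singleton] at hx
    rw [hx]
    exact a.zero_mem
  · rintro r ⟨hr, -⟩
    exact Finset.mem_singleton.1 hr

omit [NumberField F] in
/-- The constant. -/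
theorem const_mul {q Δ : ℕ} {s : 𝓞 F} {σ : F →+* ℂ} (hq : 0 < q) (hΔ : 0 < Δ)
    (hs : σ s = Complex.I * Real.sqrt q) :
    Complex.I / ((q : ℂ) * Δ ^ 2 * Real.sqrt q) * σ ((s * (Δ : 𝓞 F) : 𝓞 F) : F) =
      -1 / ((q : ℂ) * Δ) := by
  have h1 : σ ((s * (Δ : 𝓞 F) : 𝓞 F) : F) = Complex.I * Real.sqrt q * Δ := by
    push_cast
    rw [map_mul, map_natCast, hs]
  have h2 : (Real.sqrt q : ℂ) ≠ 0 := by
    have : Real.sqrt q ≠ 0 := by positivity
    exact_mod_cast this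
  have h3 : (q : ℂ) ≠ 0 := by exact_mod_cast hq.ne'
  have h4 : (Δ : ℂ) ≠ 0 := by exact_mod_cast hΔ.ne'
  rw [h1]
  field_simp
  linear_combination Complex.I_sq

end

end ThFAux

open ThFAux

/-- (ThF) the functional equation of the theta series of an ideal -/
theorem stThF (hT : StT) (hCrs : StCrs) (hCb : StCb) (hBase : RZ.StBase) (hThB : RZ.StThB)
    (hPK : RZ.StPoisK) : StThF := by
  intro q F _ _ s σ χ cj o D c hd ht hc
  obtain ⟨G, hG⟩ := hT q F _ _ s σ χ cj o D c hd ht hc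
  obtain ⟨-, -, -, hper, -, hpm, hz0, -⟩ := (hCb q F _ _ s σ χ cj o D hd ht).2 c hc
  have hq : 0 < q := hd.prime.pos
  obtain ⟨Δ, hΔ⟩ : ∃ Δ : ℕ, Δ = dl o D := ⟨_, rfl⟩
  have hΔ0 : 0 < Δ := hΔ ▸ dl_pos ht
  obtain ⟨R, hR⟩ : ∃ R : ℝ, R = (q : ℝ) * Δ := ⟨_, rfl⟩
  have hRr : (rr o q D : ℝ) = R := by
    rw [hR, hΔ]
    unfold rr
    push_cast
    rfl
  have hR0 : 0 < R := by
    rw [hR]
    positivity
  have hsq : 0 < Real.sqrt q := Real.sqrt_pos.2 (by exact_mod_cast hq)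
  have hc1 : ∀ x, ‖c x‖ ≤ 1 := by
    intro x
    by_cases hx : IsCoprime x (s * (dl o D : 𝓞 F))
    · rcases hpm x hx with h | h <;> rw [h] <;> simp
    · rw [hz0 x hx]
      simp
  obtain ⟨E, hE⟩ : ∃ E : ℂ, E = Complex.I / ((q : ℂ) * Δ ^ 2 * Real.sqrt q) := ⟨_, rfl⟩
  obtain ⟨m, hm⟩ : ∃ m : 𝓞 F, m = s * (dl o D : 𝓞 F) := ⟨_, rfl⟩
  have hEm : E * σ (m : F) = -1 / (R : ℂ) := by
    rw [hE, hm, hR, ← hΔ]
    push_cast
    exact const_mul hq hΔ0 hd.im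
  have hR0' : (R : ℂ) ≠ 0 := by exact_mod_cast hR0.ne'
  have hσm : σ (m : F) ≠ 0 := by
    intro h
    rw [h, mul_zero] at hEm
    exact (div_ne_zero (by norm_num) hR0') hEm.symm
  have hm0 : m ≠ 0 := by
    intro h
    apply hσm
    rw [h]
    simp
  have hnm : Complex.normSq (σ (m : F)) = q * Δ ^ 2 := by
    have h1 : σ (m : F) = Complex.I * Real.sqrt q * Δ := by
      rw [hm, ← hΔ]
      push_cast
      rw [map_mul, map_natCast, hd.im]
    rw [h1, map_mul, map_mul, Complex.normSq_I, Complex.normSq_ofReal, Complex.normSq_natCast,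
      Real.mul_self_sqrt (by positivity)]
    ring
  refine ⟨-E * R * G, fun a k y ha hco hk hy => ?_⟩
  rw [hRr]
  rw [← hm] at hco hG
  have hNa : 0 < (Ideal.absNorm a : ℝ) := by
    have : Ideal.absNorm a ≠ 0 := by
      rw [Ne, Ideal.absNorm_eq_zero_iff]
      exact ha
    positivity
  obtain ⟨N, hN⟩ : ∃ N : ℝ, N = (Ideal.absNorm a : ℝ) := ⟨_, rfl⟩
  obtain ⟨j, hj⟩ : ∃ j : ℕ, j = 2 * k - 1 := ⟨_, rfl⟩
  rw [← hj]
  rw [← hN] at hNa
  -- summability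
  have hsum : ∀ (b : 𝓞 F → ℂ) (t : ℝ), 0 < t → (∀ x, ‖b x‖ ≤ 1) →
      Summable fun x : a => ‖b x * σ ((x : 𝓞 F) : F) ^ j *
        (Real.exp (-(2 * Real.pi * Qa σ a x * t)) : ℂ)‖ := by
    intro b t ht hb
    refine Summable.of_nonneg_of_le (fun _ => norm_nonneg _) (fun x => ?_)
      ((hThB q F _ _ s σ χ cj a j 0 hd ha).2.1 (2 * Real.pi * t) (by positivity))
    rw [norm_mul, norm_mul, norm_pow, Complex.norm_real, Real.norm_eq_abs, Real.abs_exp]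
    have e1 : Real.exp (-(2 * Real.pi * Qa σ a x * t)) =
        Real.exp (-(2 * Real.pi * t * Qa σ a x)) := by
      congr 1
      ring
    rw [e1]
    refine mul_le_mul_of_nonneg_right ?_ (Real.exp_pos _).le
    calc ‖b x‖ * ‖σ ((x : 𝓞 F) : F)‖ ^ j ≤ 1 * (1 + ‖σ ((x : 𝓞 F) : F)‖) ^ j :=
          mul_le_mul (hb x) (pow_le_pow_left₀ (norm_nonneg _) (by linarith) j)
            (by positivity) (by norm_num)
      _ = _ := one_mul _
  obtain ⟨X, Y, hXY⟩ := (hBase q F _ _ s σ χ cj hd).1 a ha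
  have him := (hBase q F _ _ s σ χ cj hd).2.2.1 a X Y hXY
  obtain ⟨⟨S, hS⟩, hcrs⟩ := hCrs q F _ _ s σ χ cj m a hd hm0 ha
  have hcrs1 := (hCrs q F _ _ s σ χ cj 1 a hd one_ne_zero ha).2 {0} X Y
  -- the left side
  have hL : thc c σ a j (1 / (R * y)) = ∑ r ∈ S, ∑' p : ℤ × ℤ,
      (c (r + m * (p.1 * X + p.2 * Y)) * σ ((r + m * (p.1 * X + p.2 * Y) : 𝓞 F) : F) ^ j *
        (Real.exp (-(2 * Real.pi * Qa σ a (r + m * (p.1 * X + p.2 * Y)) * (1 / (R * y)))) : ℂ)) :=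
    (hcrs S X Y (fun x => c x * σ (x : F) ^ j *
      (Real.exp (-(2 * Real.pi * Qa σ a x * (1 / (R * y)))) : ℂ)) hS hXY
      (hsum c _ (by positivity) hc1)).2
  rw [hL]
  -- the right side
  have hRt : thc c σ a j (y / R) = ∑' p : ℤ × ℤ,
      (c (p.1 * X + p.2 * Y) * σ ((p.1 * X + p.2 * Y : 𝓞 F) : F) ^ j *
        (Real.exp (-(2 * Real.pi * Qa σ a (p.1 * X + p.2 * Y) * (y / R))) : ℂ)) := by
    have h1 := (hcrs1 (fun x => c x * σ (x : F) ^ j *
      (Real.exp (-(2 * Real.pi * Qa σ a x * (y / R))) : ℂ)) (crs_one a) hXY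
      (hsum c _ (by positivity) hc1)).2
    simp only [Finset.sum_singleton, zero_add, one_mul] at h1
    exact h1
  rw [hRt]
  -- the exponentials
  obtain ⟨e, he⟩ : ∃ e : 𝓞 F → 𝓞 F → ℂ, e = fun (r z : 𝓞 F) =>
      ee (-(((2 * (σ (r : F) * conj (σ (z : F))).re / (R * N) : ℝ)) : ℂ)) := ⟨_, rfl⟩
  have he1 : ∀ r z, ‖e r z‖ ≤ 1 := by
    intro r z
    rw [he]
    simp only
    rw [← Complex.ofReal_neg, norm_ee]
  have hsum2 : ∀ r, Summable fun p : ℤ × ℤ =>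
      ‖e r (p.1 * X + p.2 * Y) * σ ((p.1 * X + p.2 * Y : 𝓞 F) : F) ^ j *
        (Real.exp (-(2 * Real.pi * Qa σ a (p.1 * X + p.2 * Y) * (y / R))) : ℂ)‖ := by
    intro r
    have h1 := (hcrs1 (fun x => e r x * σ (x : F) ^ j *
      (Real.exp (-(2 * Real.pi * Qa σ a x * (y / R))) : ℂ)) (crs_one a) hXY
      (hsum (e r) _ (by positivity) (he1 r))).1 0 (Finset.mem_singleton_self 0)
    simp only [zero_add, one_mul] at h1
    exact h1
  have hin : ∀ r, ∑' p : ℤ × ℤ,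
      (c (r + m * (p.1 * X + p.2 * Y)) * σ ((r + m * (p.1 * X + p.2 * Y) : 𝓞 F) : F) ^ j *
        (Real.exp (-(2 * Real.pi * Qa σ a (r + m * (p.1 * X + p.2 * Y)) * (1 / (R * y)))) : ℂ)) =
      c r * (E * (-(Complex.I * (R * y))) ^ (j + 1) * ((-1 / R) ^ j * ∑' p : ℤ × ℤ,
        e r (p.1 * X + p.2 * Y) * σ ((p.1 * X + p.2 * Y : 𝓞 F) : F) ^ j *
        (Real.exp (-(2 * Real.pi * Qa σ a (p.1 * X + p.2 * Y) * (y / R))) : ℂ))) := by
    intro r
    have hpos : (σ ((m * X : 𝓞 F) : F) * conj (σ ((m * Y : 𝓞 F) : F))).im =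
        q * Δ ^ 2 * (Real.sqrt q / 2 * N) := by
      have h1 : σ ((m * X : 𝓞 F) : F) * conj (σ ((m * Y : 𝓞 F) : F)) =
          (Complex.normSq (σ (m : F)) : ℂ) * (σ (X : F) * conj (σ (Y : F))) := by
        rw [Complex.normSq_eq_conj_mul_self]
        push_cast
        rw [map_mul, map_mul, map_mul]
        ring
      rw [h1, Complex.im_ofReal_mul, hnm, him, hN]
    have hpos0 : 0 < (σ ((m * X : 𝓞 F) : F) * conj (σ ((m * Y : 𝓞 F) : F))).im := by
      rw [hpos]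
      positivity
    have hu : 0 < (Complex.I * ((R : ℂ) * y)).im := by
      rw [Complex.I_mul_im, ← Complex.ofReal_mul, Complex.ofReal_re]
      positivity
    have hDE : Complex.I * N / (2 * (((σ ((m * X : 𝓞 F) : F) *
        conj (σ ((m * Y : 𝓞 F) : F))).im : ℝ) : ℂ)) = E := by
      rw [hpos, hE]
      push_cast
      have h1 : (Real.sqrt q : ℂ) ≠ 0 := by exact_mod_cast hsq.ne'
      have h2 : (N : ℂ) ≠ 0 := by exact_mod_cast hNa.ne'
      have h3 : (q : ℂ) ≠ 0 := by exact_mod_cast hq.ne'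
      have h4 : (Δ : ℂ) ≠ 0 := by exact_mod_cast hΔ0.ne'
      field_simp
    have hpk := hPK j (σ ((m * X : 𝓞 F) : F)) (σ ((m * Y : 𝓞 F) : F)) (σ (r : F))
      (Complex.I * (R * y)) N hpos0 hNa hu
    simp only [hDE] at hpk
    have hl : ∀ p : ℤ × ℤ,
      (c (r + m * (p.1 * X + p.2 * Y)) * σ ((r + m * (p.1 * X + p.2 * Y) : 𝓞 F) : F) ^ j *
        (Real.exp (-(2 * Real.pi * Qa σ a (r + m * (p.1 * X + p.2 * Y)) * (1 / (R * y)))) : ℂ)) =
      c r * ((σ (r : F) + p.1 * σ ((m * X : 𝓞 F) : F) + p.2 * σ ((m * Y : 𝓞 F) : F)) ^ j *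
        ee ((Complex.normSq (σ (r : F) + p.1 * σ ((m * X : 𝓞 F) : F) +
          p.2 * σ ((m * Y : 𝓞 F) : F)) : ℂ) / N * (-1 / (Complex.I * (R * y))))) := by
      intro p
      have h1 : c (r + m * (p.1 * X + p.2 * Y)) = c r := by
        apply hper
        rw [← hm]
        exact ⟨p.1 * X + p.2 * Y, by ring⟩
      have h2 : σ ((r + m * (p.1 * X + p.2 * Y) : 𝓞 F) : F) =
          σ (r : F) + p.1 * σ ((m * X : 𝓞 F) : F) + p.2 * σ ((m * Y : 𝓞 F) : F) := by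
        push_cast
        simp only [map_add, map_mul, map_intCast]
        ring
      have h3 : (Complex.normSq (σ (r : F) + p.1 * σ ((m * X : 𝓞 F) : F) +
          p.2 * σ ((m * Y : 𝓞 F) : F)) : ℂ) / N * (-1 / (Complex.I * (R * y))) =
          ((Qa σ a (r + m * (p.1 * X + p.2 * Y)) * (1 / (R * y)) : ℝ) : ℂ) * Complex.I := by
        unfold Qa
        rw [h2, ← hN]
        generalize Complex.normSq (σ (r : F) + p.1 * σ ((m * X : 𝓞 F) : F) +
          p.2 * σ ((m * Y : 𝓞 F) : F)) = Z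
        push_cast
        have h4 : (y : ℂ) ≠ 0 := by exact_mod_cast hy.ne'
        have h5 : (N : ℂ) ≠ 0 := by exact_mod_cast hNa.ne'
        field_simp
        linear_combination -(Z : ℂ) * Complex.I_sq
      rw [h1, h3, ee_I, h2, ← mul_assoc (2 * Real.pi), mul_assoc]
    rw [tsum_congr hl, tsum_mul_left, hpk]
    congr 2
    rw [← tsum_mul_left]
    refine tsum_congr fun p => ?_
    have h0 : E * (p.1 * σ ((m * X : 𝓞 F) : F) + p.2 * σ ((m * Y : 𝓞 F) : F)) =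
        ((-1 / R : ℝ) : ℂ) * σ ((p.1 * X + p.2 * Y : 𝓞 F) : F) := by
      push_cast
      rw [← hEm]
      simp only [map_add, map_mul, map_intCast]
      ring
    rw [h0, Complex.normSq_mul, Complex.normSq_ofReal, mul_pow]
    have h1 : (2 * (σ (r : F) * conj (((-1 / R : ℝ) : ℂ) *
        σ ((p.1 * X + p.2 * Y : 𝓞 F) : F))).re / N : ℂ) =
        -(((2 * (σ (r : F) * conj (σ ((p.1 * X + p.2 * Y : 𝓞 F) : F))).re / (R * N) : ℝ)) : ℂ) := by
      have h2 : σ (r : F) * conj (((-1 / R : ℝ) : ℂ) * σ ((p.1 * X + p.2 * Y : 𝓞 F) : F)) =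
          ((-1 / R : ℝ) : ℂ) * (σ (r : F) * conj (σ ((p.1 * X + p.2 * Y : 𝓞 F) : F))) := by
        rw [map_mul, Complex.conj_ofReal]
        ring
      rw [h2, Complex.re_ofReal_mul]
      push_cast
      have h5 : (N : ℂ) ≠ 0 := by exact_mod_cast hNa.ne'
      field_simp
    have h3 : (((-1 / R) * (-1 / R) * Complex.normSq (σ ((p.1 * X + p.2 * Y : 𝓞 F) : F)) : ℝ) : ℂ) /
        N * (Complex.I * (R * y)) =
        ((Qa σ a (p.1 * X + p.2 * Y) * (y / R) : ℝ) : ℂ) * Complex.I := by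
      unfold Qa
      rw [← hN]
      push_cast
      have h5 : (N : ℂ) ≠ 0 := by exact_mod_cast hNa.ne'
      field_simp
    rw [h1, h3, ee_I, ← mul_assoc (2 * Real.pi), he]
    push_cast
    ring
  rw [Finset.sum_congr rfl fun r _ => hin r]
  -- the sum over the representatives
  have hfin : ∑ r ∈ S, c r * (E * (-(Complex.I * (R * y))) ^ (j + 1) * ((-1 / R) ^ j *
        ∑' p : ℤ × ℤ, e r (p.1 * X + p.2 * Y) * σ ((p.1 * X + p.2 * Y : 𝓞 F) : F) ^ j *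
        (Real.exp (-(2 * Real.pi * Qa σ a (p.1 * X + p.2 * Y) * (y / R))) : ℂ))) =
      E * (-(Complex.I * (R * y))) ^ (j + 1) * (-1 / R) ^ j * (G * ∑' p : ℤ × ℤ,
      (c (p.1 * X + p.2 * Y) * σ ((p.1 * X + p.2 * Y : 𝓞 F) : F) ^ j *
        (Real.exp (-(2 * Real.pi * Qa σ a (p.1 * X + p.2 * Y) * (y / R))) : ℂ))) := by
    have h1 : ∀ r ∈ S, c r * (E * (-(Complex.I * (R * y))) ^ (j + 1) * ((-1 / R) ^ j *
        ∑' p : ℤ × ℤ, e r (p.1 * X + p.2 * Y) * σ ((p.1 * X + p.2 * Y : 𝓞 F) : F) ^ j *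
        (Real.exp (-(2 * Real.pi * Qa σ a (p.1 * X + p.2 * Y) * (y / R))) : ℂ))) =
        E * (-(Complex.I * (R * y))) ^ (j + 1) * (-1 / R) ^ j *
        ∑' p : ℤ × ℤ, c r * (e r (p.1 * X + p.2 * Y) * σ ((p.1 * X + p.2 * Y : 𝓞 F) : F) ^ j *
        (Real.exp (-(2 * Real.pi * Qa σ a (p.1 * X + p.2 * Y) * (y / R))) : ℂ)) := by
      intro r _
      rw [tsum_mul_left]
      ring
    rw [Finset.sum_congr rfl h1, ← Finset.mul_sum, ← Summable.tsum_finsetSum]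
    · congr 1
      rw [← tsum_mul_left]
      refine tsum_congr fun p => ?_
      have hz : (p.1 * X + p.2 * Y : 𝓞 F) ∈ a := (hXY.mem _).2 ⟨p.1, p.2, rfl⟩
      have h2 := hG a S (p.1 * X + p.2 * Y) ha hco hS hz
      rw [hRr, ← hN] at h2
      rw [← mul_assoc, ← mul_assoc, ← h2, Finset.sum_mul, Finset.sum_mul]
      refine Finset.sum_congr rfl fun r _ => ?_
      rw [he]
      ring
    · intro r _
      exact (hsum2 r).of_norm.mul_left _
  rw [hfin]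
  -- the constants
  have hj1 : j + 1 = 2 * k := by omega
  have h1 : (-(Complex.I * ((R : ℂ) * y))) ^ (j + 1) = (-1) ^ k * (R : ℂ) ^ (2 * k) * y ^ (2 * k) := by
    rw [hj1, pow_mul, pow_mul, pow_mul, ← mul_pow, ← mul_pow]
    congr 1
    linear_combination ((R : ℂ) * y) ^ 2 * Complex.I_sq
  have h2 : (-1 / (R : ℂ)) ^ j * (R : ℂ) ^ (2 * k) = -R := by
    rw [← hj1, pow_succ, ← mul_assoc, ← mul_pow, div_mul_cancel₀ _ hR0']
    have : Odd j := ⟨k - 1, by omega⟩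
    rw [this.neg_one_pow]
    ring
  rw [h1]
  linear_combination (E * (-1) ^ k * (y : ℂ) ^ (2 * k) * (G * ∑' p : ℤ × ℤ,
      (c (p.1 * X + p.2 * Y) * σ ((p.1 * X + p.2 * Y : 𝓞 F) : F) ^ j *
        (Real.exp (-(2 * Real.pi * Qa σ a (p.1 * X + p.2 * Y) * (y / R))) : ℂ)))) * h2

end Pool.Agent.Lib.MP_7c08ba_nt.CD
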