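import Mathlib
import Pool.Agent.Lib.MP_7c08ba_nt.CD.StA

set_option autoImplicit false

/-!
Project CD, module Wv: the weights.
-/

namespace Pool.Agent.Lib.MP_7c08ba_nt.CD

open MeasureTheory Set Filter

namespace WvAux

theorem Pk_nonneg (k : ℕ) {u : ℝ} (hu : 0 ≤ u) : 0 ≤ Pk k u :=
  mul_nonneg (Real.exp_pos _).le (Finset.sum_nonneg fun j _ => by positivity)

theorem Pk_le_one (k : ℕ) {u : ℝ} (hu : 0 ≤ u) : Pk k u ≤ 1 := by
  unfold Pk
  have h := Real.sum_le_exp_of_nonneg hu k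
  calc _ ≤ Real.exp (-u) * Real.exp u := mul_le_mul_of_nonneg_left h (Real.exp_pos _).le
    _ = 1 := by rw [← Real.exp_add]; simp

theorem Pk_mono (k : ℕ) {u : ℝ} (hu : 0 ≤ u) : Pk k u ≤ Pk (k + 1) u := by
  unfold Pk
  rw [Finset.sum_range_succ]
  have : 0 ≤ u ^ k / (k.factorial : ℝ) := by positivity
  exact mul_le_mul_of_nonneg_left (by linarith) (Real.exp_pos _).le

theorem continuous_Pk (k : ℕ) : Continuous (Pk k) := by
  show Continuous fun u => Real.exp (-u) * ∑ j ∈ Finset.range k, u ^ j / (j.factorial : ℝ)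
  fun_prop

theorem Pk_decay (k : ℕ) {u : ℝ} (hu : 4 * (k : ℝ) ≤ u) : Pk k u ≤ Real.exp (-(u / 4)) := by
  have hu0 : 0 ≤ u := le_trans (by positivity) hu
  unfold Pk
  have h1 : ∑ j ∈ Finset.range k, u ^ j / (j.factorial : ℝ) ≤
      4 ^ k * ∑ j ∈ Finset.range k, (u / 4) ^ j / (j.factorial : ℝ) := by
    rw [Finset.mul_sum]
    refine Finset.sum_le_sum fun j hj => ?_
    have hj' : j ≤ k := (Finset.mem_range.mp hj).le
    have h2 : u ^ j = 4 ^ j * (u / 4) ^ j := by
      rw [← mul_pow]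
      congr 1
      ring
    have h3 : (4 : ℝ) ^ j ≤ 4 ^ k := pow_le_pow_right₀ (by norm_num) hj'
    rw [h2, mul_div_assoc]
    exact mul_le_mul_of_nonneg_right h3 (by positivity)
  have h2 : ∑ j ∈ Finset.range k, (u / 4) ^ j / (j.factorial : ℝ) ≤ Real.exp (u / 4) :=
    Real.sum_le_exp_of_nonneg (by linarith) k
  have h3 : (4 : ℝ) ^ k ≤ Real.exp (u / 2) := by
    have h4 : (4 : ℝ) ≤ Real.exp 2 := by
      have := Real.quadratic_le_exp_of_nonneg (x := 2) (by norm_num)
      linarith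
    calc (4 : ℝ) ^ k ≤ Real.exp 2 ^ k := pow_le_pow_left₀ (by norm_num) h4 k
      _ = Real.exp (k * 2) := by rw [Real.exp_nat_mul]
      _ ≤ Real.exp (u / 2) := Real.exp_le_exp.mpr (by linarith)
  calc Real.exp (-u) * ∑ j ∈ Finset.range k, u ^ j / (j.factorial : ℝ)
      ≤ Real.exp (-u) * (Real.exp (u / 2) * Real.exp (u / 4)) := by
        refine mul_le_mul_of_nonneg_left ?_ (Real.exp_pos _).le
        refine h1.trans ?_
        exact mul_le_mul h3 h2 (Finset.sum_nonneg fun j _ => by positivity) (Real.exp_pos _).le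
    _ = Real.exp (-(u / 4)) := by
        rw [← Real.exp_add, ← Real.exp_add]
        congr 1
        ring

theorem Pk_lower (k : ℕ) (hk : 1 ≤ k) {u : ℝ} (hu : 0 ≤ u) : 1 - u / k ≤ Pk k u := by
  have hs : Summable fun n : ℕ => u ^ n / (n.factorial : ℝ) := Real.summable_pow_div_factorial u
  have he : Real.exp u = ∑' n : ℕ, u ^ n / (n.factorial : ℝ) := by
    rw [Real.exp_eq_exp_ℝ, NormedSpace.exp_eq_tsum_div]
  have h1 := hs.sum_add_tsum_nat_add k
  have h2 := hs.sum_add_tsum_nat_add (k - 1)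
  have hsk : Summable fun n : ℕ => u ^ (n + k) / ((n + k).factorial : ℝ) :=
    (summable_nat_add_iff k).mpr hs
  have hsk1 : Summable fun n : ℕ => u ^ (n + (k - 1)) / ((n + (k - 1)).factorial : ℝ) :=
    (summable_nat_add_iff (k - 1)).mpr hs
  have hkpos : (0 : ℝ) < k := by exact_mod_cast hk
  have h3 : ∑' n : ℕ, u ^ (n + k) / ((n + k).factorial : ℝ) ≤
      (u / k) * ∑' n : ℕ, u ^ (n + (k - 1)) / ((n + (k - 1)).factorial : ℝ) := by
    rw [← tsum_mul_left]
    refine hsk.tsum_le_tsum (fun n => ?_) (hsk1.mul_left _)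
    have hnk : n + k = (n + (k - 1)) + 1 := by omega
    have hfac : ((n + k).factorial : ℝ) = (n + k : ℕ) * ((n + (k - 1)).factorial : ℝ) := by
      rw [hnk, Nat.factorial_succ]
      push_cast
      ring
    have hpow : u ^ (n + k) = u * u ^ (n + (k - 1)) := by
      rw [hnk, pow_succ]
      ring
    rw [hfac, hpow, mul_div_mul_comm]
    refine mul_le_mul_of_nonneg_right ?_ (by positivity)
    refine div_le_div_of_nonneg_left hu hkpos ?_
    push_cast
    have : (0 : ℝ) ≤ n := Nat.cast_nonneg n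
    linarith
  have h4 : (0 : ℝ) ≤ ∑ j ∈ Finset.range (k - 1), u ^ j / (j.factorial : ℝ) :=
    Finset.sum_nonneg fun j _ => by positivity
  have h5 : Real.exp u - (u / k) * Real.exp u ≤
      ∑ j ∈ Finset.range k, u ^ j / (j.factorial : ℝ) := by
    have h6 : ∑' n : ℕ, u ^ (n + (k - 1)) / ((n + (k - 1)).factorial : ℝ) ≤ Real.exp u := by
      rw [he]
      linarith
    have h7 : (u / k) * ∑' n : ℕ, u ^ (n + (k - 1)) / ((n + (k - 1)).factorial : ℝ) ≤
        (u / k) * Real.exp u := mul_le_mul_of_nonneg_left h6 (by positivity)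
    have h8 : Real.exp u = ∑ j ∈ Finset.range k, u ^ j / (j.factorial : ℝ) +
        ∑' n : ℕ, u ^ (n + k) / ((n + k).factorial : ℝ) := by
      rw [he, h1]
    linarith
  unfold Pk
  calc 1 - u / k = Real.exp (-u) * (Real.exp u - (u / k) * Real.exp u) := by
        have : Real.exp (-u) * Real.exp u = 1 := by rw [← Real.exp_add]; simp
        linear_combination (-(1 - u / k)) * this
    _ ≤ _ := mul_le_mul_of_nonneg_left h5 (Real.exp_pos _).le

theorem ii (k : ℕ) {a b : ℝ} (ha : 0 < a) (hb : 0 < b) :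
    IntervalIntegrable (fun u => Pk k u / u) volume a b := by
  apply ContinuousOn.intervalIntegrable
  refine (continuous_Pk k).continuousOn.div continuousOn_id fun x hx => ?_
  have h1 : min a b ≤ x := hx.1
  have h2 : 0 < min a b := lt_min ha hb
  exact (lt_of_lt_of_le h2 h1).ne'

theorem vv_nonneg {c₀ : ℝ} (hc : 0 < c₀) (k n : ℕ) : 0 ≤ vv c₀ k n := by
  unfold vv
  have hn : (0 : ℝ) ≤ n := Nat.cast_nonneg n
  refine intervalIntegral.integral_nonneg (by nlinarith) fun u hu => ?_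
  have : 0 ≤ u := le_trans (by positivity) hu.1
  exact div_nonneg (Pk_nonneg k this) this

theorem vv_le {c₀ : ℝ} (hc : 0 < c₀) (k n : ℕ) (hn : 1 ≤ n) (B : ℝ) (hB0 : 0 ≤ B)
    (hB : ∀ u, c₀ * n ≤ u → Pk k u ≤ B) : vv c₀ k n ≤ B * (1 / n) := by
  have hn' : (0 : ℝ) < n := by exact_mod_cast hn
  have ha : 0 < c₀ * n := mul_pos hc hn'
  have hab : c₀ * n ≤ c₀ * (n + 1) := by nlinarith
  have h1 : vv c₀ k n ≤ ∫ _ in (c₀ * n)..(c₀ * (n + 1)), B / (c₀ * n) := by
    unfold vv
    refine intervalIntegral.integral_mono_on hab (ii k ha (by nlinarith)) (by simp) fun u hu => ?_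
    exact div_le_div₀ hB0 (hB u hu.1) ha hu.1
  refine h1.trans (le_of_eq ?_)
  rw [intervalIntegral.integral_const, smul_eq_mul]
  field_simp
  ring

theorem vv_mono {c₀ : ℝ} (hc : 0 < c₀) (k n : ℕ) (hn : 1 ≤ n) : vv c₀ k n ≤ vv c₀ (k + 1) n := by
  have hn' : (0 : ℝ) < n := by exact_mod_cast hn
  have ha : 0 < c₀ * n := mul_pos hc hn'
  unfold vv
  refine intervalIntegral.integral_mono_on (by nlinarith) (ii k ha (by nlinarith))
    (ii (k + 1) ha (by nlinarith)) fun u hu => ?_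
  have hu0 : 0 < u := lt_of_lt_of_le ha hu.1
  exact div_le_div_of_nonneg_right (Pk_mono k hu0.le) hu0.le

theorem integrable_Pk (k : ℕ) : IntegrableOn (Pk k) (Ioi 0) := by
  have h : ∀ j ∈ Finset.range k, IntegrableOn
      (fun u : ℝ => Real.exp (-u) * (u ^ j / (j.factorial : ℝ))) (Ioi 0) := by
    intro j _
    have h1 := (Real.GammaIntegral_convergent (s := (j : ℝ) + 1) (by positivity)).const_mul
      (1 / (j.factorial : ℝ))
    refine IntegrableOn.congr_fun h1 (fun u hu => ?_) measurableSet_Ioi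
    show 1 / (j.factorial : ℝ) * (Real.exp (-u) * u ^ ((j : ℝ) + 1 - 1)) = _
    rw [add_sub_cancel_right, Real.rpow_natCast]
    ring
  have h2 := integrable_finsetSum (Finset.range k) h
  refine h2.congr (Eventually.of_forall fun u => ?_)
  show ∑ j ∈ Finset.range k, Real.exp (-u) * (u ^ j / (j.factorial : ℝ)) = Pk k u
  rw [Pk, Finset.mul_sum]

theorem integrable (k : ℕ) {a : ℝ} (ha : 0 < a) :
    IntegrableOn (fun u => Pk k u / u) (Ioi a) := by
  have h1 : IntegrableOn (fun u => (1 / a) * Pk k u) (Ioi a) :=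
    ((integrable_Pk k).mono_set (Ioi_subset_Ioi ha.le)).const_mul _
  refine Integrable.mono' h1 ?_ ?_
  · refine ContinuousOn.aestronglyMeasurable ?_ measurableSet_Ioi
    refine (continuous_Pk k).continuousOn.div continuousOn_id fun x hx => ?_
    exact (lt_trans ha hx).ne'
  · refine (ae_restrict_iff' measurableSet_Ioi).mpr (Eventually.of_forall fun u hu => ?_)
    have hu0 : 0 < u := lt_trans ha hu
    have h2 := Pk_nonneg k hu0.le
    rw [Real.norm_of_nonneg (div_nonneg h2 hu0.le), div_eq_mul_one_div, mul_comm]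
    refine mul_le_mul_of_nonneg_right ?_ h2
    exact one_div_le_one_div_of_le ha (le_of_lt hu)

theorem hasSum {c₀ : ℝ} (hc : 0 < c₀) (k N : ℕ) (hN : 1 ≤ N) :
    HasSum (fun n : ℕ => vv c₀ k (N + n)) (∫ u in Ioi (c₀ * N), Pk k u / u) := by
  have hN' : (0 : ℝ) < N := by exact_mod_cast hN
  rw [hasSum_iff_tendsto_nat_of_nonneg fun n => vv_nonneg hc k (N + n)]
  have h1 : ∀ n : ℕ, ∑ i ∈ Finset.range n, vv c₀ k (N + i) =
      ∫ u in (c₀ * N)..(c₀ * (N + n)), Pk k u / u := by
    intro n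
    have h2 := intervalIntegral.sum_integral_adjacent_intervals (μ := volume)
      (f := fun u => Pk k u / u) (a := fun i : ℕ => c₀ * ((N : ℝ) + i)) (n := n)
      (fun i _ => ii k (mul_pos hc (by positivity)) (mul_pos hc (by positivity)))
    simp only [Nat.cast_zero, add_zero] at h2
    rw [← h2]
    refine Finset.sum_congr rfl fun i _ => ?_
    unfold vv
    push_cast
    rw [add_assoc]
  simp only [h1]
  refine intervalIntegral_tendsto_integral_Ioi _ (integrable k (mul_pos hc hN')) ?_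
  refine Tendsto.const_mul_atTop hc ?_
  exact tendsto_atTop_add_const_left _ _ tendsto_natCast_atTop_atTop

theorem sum_lower {c₀ : ℝ} (hc : 0 < c₀) (k : ℕ) (hk : 1 ≤ k) (h2 : 2 * c₀ ≤ k)
    (h4 : (2 * c₀) ^ 2 ≤ k) : 1 / 4 * Real.log k ≤ ∑' n : ℕ, vv c₀ k (n + 1) := by
  have hk' : (0 : ℝ) < k := by exact_mod_cast hk
  have hs := (hasSum hc k 1 le_rfl).tsum_eq
  have e1 : ∑' n : ℕ, vv c₀ k (n + 1) = ∫ u in Ioi c₀, Pk k u / u := by
    rw [Nat.cast_one, mul_one] at hs
    rw [← hs]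
    exact tsum_congr fun n => by rw [add_comm]
  rw [e1]
  have hle : c₀ ≤ k / 2 := by linarith
  have h5 : ∫ u in c₀..((k : ℝ) / 2), (1 / 2) * u⁻¹ ≤ ∫ u in c₀..((k : ℝ) / 2), Pk k u / u := by
    refine intervalIntegral.integral_mono_on hle ?_ (ii k hc (by positivity)) fun u hu => ?_
    · refine IntervalIntegrable.const_mul ?_ _
      apply ContinuousOn.intervalIntegrable
      refine continuousOn_inv₀.mono fun x hx => ?_
      rw [uIcc_of_le hle] at hx
      exact (lt_of_lt_of_le hc hx.1).ne'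
    · have hu0 : 0 < u := lt_of_lt_of_le hc hu.1
      rw [div_eq_mul_inv]
      refine mul_le_mul_of_nonneg_right ?_ (inv_nonneg.mpr hu0.le)
      have h6 := Pk_lower k hk hu0.le
      have h7 : u / k ≤ 1 / 2 := by
        rw [div_le_iff₀ hk']
        linarith [hu.2]
      linarith
  have h6 : ∫ u in c₀..((k : ℝ) / 2), (1 / 2) * u⁻¹ = 1 / 2 * Real.log ((k : ℝ) / 2 / c₀) := by
    rw [intervalIntegral.integral_const_mul, integral_inv_of_pos hc (by positivity)]
  have h7 : ∫ u in c₀..((k : ℝ) / 2), Pk k u / u ≤ ∫ u in Ioi c₀, Pk k u / u := by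
    rw [intervalIntegral.integral_of_le hle]
    refine setIntegral_mono_set (integrable k hc) ?_ ?_
    · refine (ae_restrict_iff' measurableSet_Ioi).mpr (Eventually.of_forall fun u hu => ?_)
      have hu0 : 0 < u := lt_trans hc hu
      exact div_nonneg (Pk_nonneg k hu0.le) hu0.le
    · exact (Ioc_subset_Ioi_self).eventuallyLE
  have h8 : 1 / 4 * Real.log k ≤ 1 / 2 * Real.log ((k : ℝ) / 2 / c₀) := by
    have h9 : (k : ℝ) / 2 / c₀ = k / (2 * c₀) := by rw [div_div]
    rw [h9, Real.log_div hk'.ne' (by positivity)]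
    have h10 : Real.log ((2 * c₀) ^ 2) ≤ Real.log k := Real.log_le_log (by positivity) h4
    rw [Real.log_pow] at h10
    push_cast at h10
    linarith
  linarith

end WvAux

open WvAux

/-- (Wv) the weights -/
theorem stWv : StWv := by
  intro c₀ hc
  refine ⟨⟨?_, ?_, ?_, ?_, ?_⟩, ?_⟩
  · intro k n _
    exact vv_nonneg hc k n
  · intro k n hn
    have hn' : (0 : ℝ) < n := by exact_mod_cast hn
    have h := vv_le hc k n hn 1 zero_le_one fun u hu =>
      Pk_le_one k (le_trans (mul_pos hc hn').le hu)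
    rwa [one_mul] at h
  · intro k n hn
    exact vv_mono hc k n hn
  · refine ⟨⌈4 / c₀⌉₊ + 1, c₀ / 4, by omega, by positivity, ?_⟩
    intro k n hk hn
    have hn1 : 1 ≤ n := le_trans (Nat.one_le_iff_ne_zero.mpr (by positivity)) hn
    have hn' : (1 : ℝ) ≤ n := by exact_mod_cast hn1
    have h1 : 4 * (k : ℝ) ≤ c₀ * n := by
      have h2 : ((⌈4 / c₀⌉₊ + 1 : ℕ) : ℝ) * k ≤ n := by exact_mod_cast hn
      have h3 : 4 / c₀ ≤ ((⌈4 / c₀⌉₊ + 1 : ℕ) : ℝ) := by
        push_cast
        linarith [Nat.le_ceil (4 / c₀)]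
      have h4 : 4 / c₀ * k ≤ n :=
        le_trans (mul_le_mul_of_nonneg_right h3 (Nat.cast_nonneg k)) h2
      have h5 : c₀ * (4 / c₀ * k) ≤ c₀ * n := mul_le_mul_of_nonneg_left h4 hc.le
      have h6 : c₀ * (4 / c₀ * k) = 4 * k := by field_simp
      linarith
    have h := vv_le hc k n hn1 (Real.exp (-(c₀ / 4 * n))) (Real.exp_pos _).le fun u hu => by
      refine (Pk_decay k (h1.trans hu)).trans (Real.exp_le_exp.mpr ?_)
      linarith
    refine h.trans ?_
    have h7 : 1 / (n : ℝ) ≤ 1 := by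
      rw [div_le_one (by linarith)]
      exact hn'
    have := mul_le_mul_of_nonneg_left h7 (Real.exp_pos (-(c₀ / 4 * n))).le
    rwa [mul_one] at this
  · obtain ⟨m, hm⟩ := exists_nat_ge (max (2 * c₀) ((2 * c₀) ^ 2))
    refine ⟨1 / 4, max 1 m, by norm_num, ?_⟩
    intro k hk
    have h1 : (m : ℝ) ≤ k := by exact_mod_cast (le_max_right 1 m).trans hk
    refine sum_lower hc k ((le_max_left 1 m).trans hk) ?_ ?_
    · linarith [le_max_left (2 * c₀) ((2 * c₀) ^ 2)]
    · linarith [le_max_right (2 * c₀) ((2 * c₀) ^ 2)]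
  · intro k N _ hN
    have h := hasSum hc k N hN
    exact ⟨h.summable, h.tsum_eq.symm⟩

end Pool.Agent.Lib.MP_7c08ba_nt.CD
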