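import Pool.Agent.Lib.MP_7c08ba_nt.CD.StB

set_option autoImplicit false

/-!
Project CD, module Ab: Abel summation.
-/

namespace Pool.Agent.Lib.MP_7c08ba_nt.CD

namespace AbAux

theorem key (v : ℕ → ℝ) (z : ℂ) (hz : ‖z‖ = 1) (hv : ∀ m, 0 ≤ v m) (hm : Monotone v) (N : ℕ) :
    ‖(1 - z) * ∑ m ∈ Finset.range N, (v m : ℂ) * z ^ m + (v N : ℂ) * z ^ N‖ ≤ v N := by
  induction N with
  | zero =>
    simp only [Finset.range_zero, Finset.sum_empty, mul_zero, pow_zero, mul_one, zero_add]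
    rw [Complex.norm_real, Real.norm_of_nonneg (hv 0)]
  | succ N ih =>
    have h1 : (1 - z) * ∑ m ∈ Finset.range (N + 1), (v m : ℂ) * z ^ m +
        (v (N + 1) : ℂ) * z ^ (N + 1) =
        ((1 - z) * ∑ m ∈ Finset.range N, (v m : ℂ) * z ^ m + (v N : ℂ) * z ^ N) +
          ((v (N + 1) - v N : ℝ) : ℂ) * z ^ (N + 1) := by
      rw [Finset.sum_range_succ]
      push_cast
      ring
    rw [h1]
    have h2 := hm (Nat.le_succ N)
    have h3 : ‖((v (N + 1) - v N : ℝ) : ℂ) * z ^ (N + 1)‖ = v (N + 1) - v N := by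
      rw [norm_mul, norm_pow, hz, one_pow, mul_one, Complex.norm_real, Real.norm_of_nonneg]
      exact sub_nonneg.mpr h2
    have h4 := norm_add_le ((1 - z) * ∑ m ∈ Finset.range N, (v m : ℂ) * z ^ m +
      (v N : ℂ) * z ^ N) (((v (N + 1) - v N : ℝ) : ℂ) * z ^ (N + 1))
    linarith

end AbAux

theorem stAb : StAb := by
  intro v z N hz hz1 hv hm
  have hN := hv N
  rw [mul_min_of_nonneg _ _ hN, le_min_iff]
  constructor
  · calc ‖∑ m ∈ Finset.range N, (v m : ℂ) * z ^ m‖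
        ≤ ∑ m ∈ Finset.range N, ‖(v m : ℂ) * z ^ m‖ := norm_sum_le _ _
      _ ≤ ∑ _m ∈ Finset.range N, v N := by
          refine Finset.sum_le_sum fun m hmN => ?_
          rw [norm_mul, norm_pow, hz, one_pow, mul_one, Complex.norm_real,
            Real.norm_of_nonneg (hv m)]
          exact hm (Finset.mem_range.mp hmN).le
      _ = v N * N := by
          rw [Finset.sum_const, Finset.card_range, nsmul_eq_mul, mul_comm]
  · have h0 : 0 < ‖1 - z‖ := norm_pos_iff.mpr (sub_ne_zero.mpr (Ne.symm hz1))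
    have h1 := AbAux.key v z hz hv hm N
    have h2 : ‖(v N : ℂ) * z ^ N‖ = v N := by
      rw [norm_mul, norm_pow, hz, one_pow, mul_one, Complex.norm_real, Real.norm_of_nonneg hN]
    have h3 : ‖(1 - z) * ∑ m ∈ Finset.range N, (v m : ℂ) * z ^ m‖ ≤ 2 * v N := by
      have h4 := norm_sub_le ((1 - z) * ∑ m ∈ Finset.range N, (v m : ℂ) * z ^ m +
        (v N : ℂ) * z ^ N) ((v N : ℂ) * z ^ N)
      rw [add_sub_cancel_right] at h4
      linarith
    rw [norm_mul] at h3
    rw [← mul_div_assoc, le_div_iff₀ h0]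
    linarith

end Pool.Agent.Lib.MP_7c08ba_nt.CD
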