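import Mathlib
import Pool.Agent.Lib.MP_7c08ba_nt.CD.Defs
import Pool.Agent.Lib.MP_7c08ba_nt.CN.StAn
import Pool.Agent.Lib.MP_7c08ba_nt.CD.StA

set_option autoImplicit false

/-!
Project CD, part B: the moments of the central derivatives.  One module = one file
`CD/B<Name>.lean` proving `theorem st<Name> : St<Name>`, with earlier statements as hypotheses.
-/

namespace Pool.Agent.Lib.MP_7c08ba_nt.CD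

open NumberField IsDedekindDomain MeasureTheory Set Pool.Agent.Lib.MP_7c08ba_nt.RZ
  Pool.Agent.Lib.MP_7c08ba_nt.CN Pool.Agent.Lib.MP_7c08ba_nt.CN.TW
open scoped nonZeroDivisors ComplexConjugate

/-! ### Arithmetic of the values -/

/-- (U) the normalised values of a canonical character -/
def StU : Prop :=
  ∀ (q : ℕ) (F : Type) (_ : Field F) (_ : NumberField F) (s : 𝓞 F) (σ : F →+* ℂ)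
    (χ : DirichletCharacter ℂ q) (cj : 𝓞 F ≃+* 𝓞 F) (ψ : Ideal (𝓞 F) →*₀ ℂ),
    Dat q s σ χ cj → IsCan q s σ 1 ψ →
    (∀ a : Ideal (𝓞 F), a ≠ ⊥ → IsCoprime a (Ideal.span {s}) → ‖uu ψ a‖ = 1) ∧
    (∀ a : Ideal (𝓞 F), ¬ IsCoprime a (Ideal.span {s}) → uu ψ a = 0) ∧
    (∀ a b : Ideal (𝓞 F), uu ψ (a * b) = uu ψ a * uu ψ b) ∧
    (∀ a : Ideal (𝓞 F), uu ψ (a.map (cj : 𝓞 F →+* 𝓞 F)) = conj (uu ψ a)) ∧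
    (∀ m : ℕ, 1 ≤ m → uu ψ (Ideal.span {(m : 𝓞 F)}) = (jacobiSym m q : ℂ)) ∧
    (∀ (t : 𝓞 F) (a : ℤ), t ≠ 0 → s ∣ t - a →
      uu ψ (Ideal.span {t}) = (jacobiSym a q : ℂ) * (σ t / (‖σ t‖ : ℂ)))

/-- (Sp) spacing of the values at primitive ideals of the same class -/
def StSp : Prop :=
  ∀ (q : ℕ) (F : Type) (_ : Field F) (_ : NumberField F) (s : 𝓞 F) (σ : F →+* ℂ)
    (χ : DirichletCharacter ℂ q) (cj : 𝓞 F ≃+* 𝓞 F) (ψ : Ideal (𝓞 F) →*₀ ℂ),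
    Dat q s σ χ cj → IsCan q s σ 1 ψ → ∀ a b : (Ideal (𝓞 F))⁰,
    Prm (a : Ideal (𝓞 F)) → Prm (b : Ideal (𝓞 F)) →
    IsCoprime (a : Ideal (𝓞 F)) (Ideal.span {s}) → IsCoprime (b : Ideal (𝓞 F)) (Ideal.span {s}) →
    ClassGroup.mk0 a = ClassGroup.mk0 b → a ≠ b →
    1 / Real.sqrt ((Ideal.absNorm (a : Ideal (𝓞 F)) : ℝ) * Ideal.absNorm (b : Ideal (𝓞 F))) ≤
      ‖uu ψ a ^ 4 - uu ψ b ^ 4‖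

/-- (Lb) the values at primitive ideals are not close to 1 -/
def StLb : Prop :=
  ∀ (q : ℕ) (F : Type) (_ : Field F) (_ : NumberField F) (s : 𝓞 F) (σ : F →+* ℂ)
    (χ : DirichletCharacter ℂ q) (cj : 𝓞 F ≃+* 𝓞 F) (ψ : Ideal (𝓞 F) →*₀ ℂ),
    Dat q s σ χ cj → IsCan q s σ 1 ψ → ∃ (δ : ℝ) (h : ℕ), 0 < δ ∧ ∀ a : Ideal (𝓞 F), Prm a →
    IsCoprime a (Ideal.span {s}) → a ≠ 1 →
    δ / (Ideal.absNorm a : ℝ) ^ h ≤ ‖1 - uu ψ a ^ 4‖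

/-- (Dc) sums over the ideals and sums over the primitive ideals -/
def StDc : Prop :=
  ∀ (q : ℕ) (F : Type) (_ : Field F) (_ : NumberField F) (s : 𝓞 F) (σ : F →+* ℂ)
    (χ : DirichletCharacter ℂ q) (cj : 𝓞 F ≃+* 𝓞 F) (f : Ideal (𝓞 F) → ℂ) (n : ℕ),
    Dat q s σ χ cj → (∀ a : Ideal (𝓞 F), ¬ IsCoprime a (Ideal.span {s}) → f a = 0) →
    ∑ a ∈ ids F n, f a =
      ∑ m ∈ Finset.Icc 1 n, ∑ a ∈ prs s (n / m ^ 2), f (Ideal.span {(m : 𝓞 F)} * a)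

/-! ### Points on the circle -/

/-- (Sps) sums over spaced points -/
def StSps : Prop :=
  ∃ C : ℝ, 0 < C ∧ ∀ (ι : Type) (S : Finset ι) (z : ι → ℂ) (δ M : ℝ), 0 < δ → 1 ≤ M →
    (∀ i ∈ S, ‖z i‖ = 1) → (∀ i ∈ S, ∀ j ∈ S, i ≠ j → δ ≤ ‖z i - z j‖) →
    ∑ i ∈ S, min M (1 / ‖1 - z i‖) ≤ C * (M + (1 + Real.log M) / δ)

/-- (Ls) the large sieve -/
def StLsv : Prop :=
  ∃ C : ℝ, 0 < C ∧ ∀ (ι : Type) (S : Finset ι) (z b : ι → ℂ) (δ : ℝ) (N : ℕ), 0 < δ → 1 ≤ N →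
    (∀ i ∈ S, ‖z i‖ = 1) → (∀ i ∈ S, ∀ j ∈ S, i ≠ j → δ ≤ ‖z i - z j‖) →
    ∑ m ∈ Finset.range N, ‖∑ i ∈ S, b i * z i ^ m‖ ^ 2 ≤
      C * (N + 1 / δ) * ∑ i ∈ S, ‖b i‖ ^ 2

/-- (Ab) partial summation -/
def StAb : Prop :=
  ∀ (v : ℕ → ℝ) (z : ℂ) (N : ℕ), ‖z‖ = 1 → z ≠ 1 → (∀ m, 0 ≤ v m) → Monotone v →
    ‖∑ m ∈ Finset.range N, (v m : ℂ) * z ^ m‖ ≤ v N * min (N : ℝ) (4 / ‖1 - z‖)

/-! ### The first moment -/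

/-- The exponents `k` in `(K, 2 K]` of given parity. -/
def kk (κ K : ℕ) : Finset ℕ := (Finset.Ioc K (2 * K)).filter fun k => k % 2 = κ

/-- (Kk) these exponents are an arithmetic progression of difference 2 -/
def StKk : Prop :=
  ∀ κ K : ℕ, κ < 2 → 1 ≤ K → ∃ k₀ N : ℕ, K < k₀ ∧ k₀ ≤ K + 2 ∧ N ≤ K ∧ K ≤ 2 * N + 1 ∧
    k₀ + 2 * N ≤ 2 * K + 2 ∧ (∀ f : ℕ → ℂ, ∑ k ∈ kk κ K, f k = ∑ j ∈ Finset.range N,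
      f (k₀ + 2 * j)) ∧ ∀ f : ℕ → ℝ, ∑ k ∈ kk κ K, f k = ∑ j ∈ Finset.range N, f (k₀ + 2 * j)

/-- (E0) the sum over the primitive ideals -/
def StE0 : Prop :=
  ∀ (q : ℕ) (F : Type) (_ : Field F) (_ : NumberField F) (s : 𝓞 F) (σ : F →+* ℂ)
    (χ : DirichletCharacter ℂ q) (cj : 𝓞 F ≃+* 𝓞 F) (ψ : Ideal (𝓞 F) →*₀ ℂ) (C : ℕ),
    Dat q s σ χ cj → IsCan q s σ 1 ψ → ∃ (B : ℝ) (K₀ : ℕ), 0 < B ∧ 2 ≤ K₀ ∧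
    ∀ K n : ℕ, K₀ ≤ K → n ≤ C * K →
      ∑ a ∈ (prs s n).erase 1, (Real.sqrt (Ideal.absNorm a : ℝ))⁻¹ *
        min (K : ℝ) (4 / ‖1 - uu ψ a ^ 4‖) ≤ B * K / Real.log K ^ 2

/-- (Ld) the series `∑ χ(m) / m` over the numbers prime to `D` (and 2) -/
def StLd : Prop :=
  ∀ (q D : ℕ) (o : Bool), q.Prime → q % 16 = 7 → TwA q D →
    ∃ (ℓ C : ℝ), ℓ ≠ 0 ∧ ∀ N : ℕ, 1 ≤ N →
      |∑ m ∈ Finset.Icc 1 N, ((jacobiSym m q * tw o D (m ^ 2) : ℤ) : ℝ) / m - ℓ| ≤ C / N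

/-- The sum over the ideals `(m)`. -/
noncomputable def Hm (o : Bool) (q D n : ℕ) : ℝ :=
  ∑ m ∈ Finset.Icc 1 (Nat.sqrt n), ((jacobiSym m q * tw o D (m ^ 2) : ℤ) : ℝ) / m

/-- (Of) the average over `k` of the sums over the ideals of norm at most `n` -/
def StOf : Prop :=
  ∀ (q : ℕ) (F : Type) (_ : Field F) (_ : NumberField F) (s : 𝓞 F) (σ : F →+* ℂ)
    (χ : DirichletCharacter ℂ q) (cj : 𝓞 F ≃+* 𝓞 F) (o : Bool) (D : ℕ)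
    (ψ : Ideal (𝓞 F) →*₀ ℂ) (v : ℕ → ℕ → ℝ) (C κ : ℕ), Dat q s σ χ cj → TwA q D →
    IsCan q s σ 1 ψ → Wt v → κ < 2 → ∃ (B : ℝ) (K₀ : ℕ), 0 < B ∧ 2 ≤ K₀ ∧
    ∀ K n : ℕ, K₀ ≤ K → 1 ≤ n → n ≤ C * K →
      ‖∑ k ∈ kk κ K, (v k n : ℂ) * (Bk o D ψ k n - Hm o q D n)‖ ≤
        B * K / Real.log K * (n : ℝ)⁻¹

/-- (M1) the first moment -/
def StM1 : Prop :=
  ∀ (q : ℕ) (F : Type) (_ : Field F) (_ : NumberField F) (s : 𝓞 F) (σ : F →+* ℂ)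
    (χ : DirichletCharacter ℂ q) (cj : 𝓞 F ≃+* 𝓞 F) (o : Bool) (D : ℕ)
    (ψ : Ideal (𝓞 F) →*₀ ℂ) (v : ℕ → ℕ → ℝ) (κ : ℕ), Dat q s σ χ cj → TwA q D →
    IsCan q s σ 1 ψ → Wt v → κ < 2 →
    (∀ k, 1 ≤ k → Summable fun n : ℕ => ‖(v k (n + 1) : ℂ) * Bk o D ψ k (n + 1)‖) ∧
    ∃ (δ : ℝ) (K₀ : ℕ), 0 < δ ∧ 2 ≤ K₀ ∧ ∀ K, K₀ ≤ K →
      δ * K * Real.log K ≤ ‖∑ k ∈ kk κ K, Sk v o D ψ k‖

/-! ### The second moment -/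

/-- (Q) mean squares of the sums over the ideals of bounded norm -/
def StQ : Prop :=
  ∀ (q : ℕ) (F : Type) (_ : Field F) (_ : NumberField F) (s : 𝓞 F) (σ : F →+* ℂ)
    (χ : DirichletCharacter ℂ q) (cj : 𝓞 F ≃+* 𝓞 F) (o : Bool) (D : ℕ)
    (ψ : Ideal (𝓞 F) →*₀ ℂ) (C κ : ℕ), Dat q s σ χ cj → TwA q D → IsCan q s σ 1 ψ → κ < 2 →
    ∃ (B : ℝ) (K₀ : ℕ), 0 < B ∧ 2 ≤ K₀ ∧ ∀ K n : ℕ, K₀ ≤ K → n ≤ C * K →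
      ∑ k ∈ kk κ K, ‖Bk o D ψ k n‖ ^ 2 ≤ B * K * Real.log K ^ 3

/-- (M2) the second moment -/
def StM2 : Prop :=
  ∀ (q : ℕ) (F : Type) (_ : Field F) (_ : NumberField F) (s : 𝓞 F) (σ : F →+* ℂ)
    (χ : DirichletCharacter ℂ q) (cj : 𝓞 F ≃+* 𝓞 F) (o : Bool) (D : ℕ)
    (ψ : Ideal (𝓞 F) →*₀ ℂ) (v : ℕ → ℕ → ℝ) (κ : ℕ), Dat q s σ χ cj → TwA q D →
    IsCan q s σ 1 ψ → Wt v → κ < 2 → ∃ (B : ℝ) (K₀ : ℕ), 0 < B ∧ 2 ≤ K₀ ∧ ∀ K, K₀ ≤ K →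
      ∑ k ∈ kk κ K, ‖Sk v o D ψ k‖ ^ 2 ≤ B * K * Real.log K ^ 5

/-- (MB) many of the sums are not zero -/
def StMB : Prop :=
  ∀ (q : ℕ) (F : Type) (_ : Field F) (_ : NumberField F) (s : 𝓞 F) (σ : F →+* ℂ)
    (χ : DirichletCharacter ℂ q) (cj : 𝓞 F ≃+* 𝓞 F) (o : Bool) (D : ℕ)
    (ψ : Ideal (𝓞 F) →*₀ ℂ) (v : ℕ → ℕ → ℝ) (κ : ℕ), Dat q s σ χ cj → TwA q D →
    IsCan q s σ 1 ψ → Wt v → κ < 2 → ∃ (δ : ℝ) (K₀ : ℕ), 0 < δ ∧ 2 ≤ K₀ ∧ ∀ K, K₀ ≤ K →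
      δ * K / Real.log K ^ 3 ≤
        ({k : ℕ | 1 ≤ k ∧ k ≤ K ∧ k % 2 = κ ∧ Sk v o D ψ k ≠ 0}.ncard : ℝ)

end Pool.Agent.Lib.MP_7c08ba_nt.CD
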