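import Mathlib
import Pool.Agent.Lib.MP_7c08ba_nt.CD.StB

set_option autoImplicit false

/-!
Project CD, module E0: the sum over the primitive ideals.
-/

namespace Pool.Agent.Lib.MP_7c08ba_nt.CD

open NumberField IsDedekindDomain MeasureTheory Set Pool.Agent.Lib.MP_7c08ba_nt.RZ
  Pool.Agent.Lib.MP_7c08ba_nt.CN Pool.Agent.Lib.MP_7c08ba_nt.CN.TW
open scoped nonZeroDivisors ComplexConjugate

namespace E0Aux

theorem min4 (K x : ℝ) (hK : 0 ≤ K) : min K (4 / x) ≤ 4 * min K (1 / x) := by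
  rw [mul_min_of_nonneg _ _ (by norm_num : (0 : ℝ) ≤ 4)]
  exact min_le_min (by linarith) (le_of_eq (by ring))

theorem ev_K0 (m : ℕ) : ∃ K₀ : ℕ, 2 ≤ K₀ ∧ ∀ K : ℕ, K₀ ≤ K →
    1 ≤ Real.log K ∧ Real.log K ^ m ≤ K := by
  have h1 : ∀ᶠ x : ℝ in Filter.atTop, ‖Real.log x ^ m‖ ≤ 1 * ‖id x‖ :=
    (Real.isLittleO_pow_log_id_atTop (n := m)).def one_pos
  have h2 : ∀ᶠ x : ℝ in Filter.atTop, 1 ≤ Real.log x :=
    Real.tendsto_log_atTop.eventually_ge_atTop 1
  have h3 := (tendsto_natCast_atTop_atTop (R := ℝ)).eventually (h1.and h2)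
  obtain ⟨K₀, hK₀⟩ := Filter.eventually_atTop.1 h3
  refine ⟨max 2 K₀, le_max_left _ _, fun K hK => ?_⟩
  obtain ⟨h4, h5⟩ := hK₀ K ((le_max_right _ _).trans hK)
  refine ⟨h5, ?_⟩
  rw [one_mul, id, Real.norm_eq_abs, Real.norm_eq_abs, abs_of_nonneg (by positivity),
    abs_of_nonneg (Nat.cast_nonneg K)] at h4
  exact h4

section

variable {F : Type} [Field F] [NumberField F]

open Classical in
/-- the class -/
noncomputable def cl (a : Ideal (𝓞 F)) : ClassGroup (𝓞 F) :=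
  if h : a ∈ (Ideal (𝓞 F))⁰ then ClassGroup.mk0 ⟨a, h⟩ else 1

theorem norm_pos {a : Ideal (𝓞 F)} (ha : a ≠ ⊥) : 1 ≤ Ideal.absNorm a := by
  rcases Nat.eq_zero_or_pos (Ideal.absNorm a) with h | h
  · exact absurd (Ideal.absNorm_eq_zero_iff.1 h) ha
  · exact h

open Classical in
theorem block {q : ℕ} {s : 𝓞 F} {σ : F →+* ℂ} {χ : DirichletCharacter ℂ q}
    {cj : 𝓞 F ≃+* 𝓞 F} {ψ : Ideal (𝓞 F) →*₀ ℂ} (hSp : StSp) (hU : StU) (hD : Dat q s σ χ cj)
    (hψ : IsCan q s σ 1 ψ) (Cs : ℝ)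
    (hSps : ∀ (ι : Type) (S : Finset ι) (z : ι → ℂ) (δ M : ℝ), 0 < δ → 1 ≤ M →
      (∀ i ∈ S, ‖z i‖ = 1) → (∀ i ∈ S, ∀ j ∈ S, i ≠ j → δ ≤ ‖z i - z j‖) →
      ∑ i ∈ S, min M (1 / ‖1 - z i‖) ≤ Cs * (M + (1 + Real.log M) / δ))
    (T : Finset (Ideal (𝓞 F))) (K : ℕ) (hK : 1 ≤ K) (j : ℕ) (w : ℝ)
    (hT : ∀ a ∈ T, Prm a ∧ IsCoprime a (Ideal.span {s}) ∧ Ideal.absNorm a < 2 ^ (j + 1) ∧
      (Real.sqrt (Ideal.absNorm a : ℝ))⁻¹ ≤ w) (hw : 0 ≤ w) :
    ∑ a ∈ T, (Real.sqrt (Ideal.absNorm a : ℝ))⁻¹ * min (K : ℝ) (4 / ‖1 - uu ψ a ^ 4‖) ≤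
      4 * w * (Fintype.card (ClassGroup (𝓞 F)) : ℝ) *
        (Cs * (K + (1 + Real.log K) * 2 ^ (j + 1))) := by
  have hK0 : (0 : ℝ) ≤ K := Nat.cast_nonneg K
  have h1 : ∑ a ∈ T, (Real.sqrt (Ideal.absNorm a : ℝ))⁻¹ * min (K : ℝ) (4 / ‖1 - uu ψ a ^ 4‖) ≤
      4 * w * ∑ a ∈ T, min (K : ℝ) (1 / ‖1 - uu ψ a ^ 4‖) := by
    rw [Finset.mul_sum]
    refine Finset.sum_le_sum fun a ha => ?_
    have h2 : 0 ≤ min (K : ℝ) (1 / ‖1 - uu ψ a ^ 4‖) := le_min hK0 (by positivity)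
    calc (Real.sqrt (Ideal.absNorm a : ℝ))⁻¹ * min (K : ℝ) (4 / ‖1 - uu ψ a ^ 4‖)
        ≤ w * (4 * min (K : ℝ) (1 / ‖1 - uu ψ a ^ 4‖)) :=
          mul_le_mul (hT a ha).2.2.2 (min4 _ _ hK0) (le_min hK0 (by positivity)) hw
      _ = _ := by ring
  refine h1.trans ?_
  rw [mul_assoc (4 * w)]
  refine mul_le_mul_of_nonneg_left ?_ (by positivity)
  rw [← Finset.sum_fiberwise T cl]
  have h3 : ∀ c : ClassGroup (𝓞 F), ∑ a ∈ T.filter (fun a => cl a = c),
      min (K : ℝ) (1 / ‖1 - uu ψ a ^ 4‖) ≤ Cs * (K + (1 + Real.log K) * 2 ^ (j + 1)) := by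
    intro c
    have h4 := hSps (Ideal (𝓞 F)) (T.filter (fun a => cl a = c)) (fun a => uu ψ a ^ 4)
      (1 / 2 ^ (j + 1)) K (by positivity) (by exact_mod_cast hK) (by
        intro a ha
        have ha' := hT a (Finset.mem_filter.1 ha).1
        rw [norm_pow, (hU q F _ _ s σ χ cj ψ hD hψ).1 a ha'.1.1 ha'.2.1, one_pow]) (by
        intro a ha b hb hab
        obtain ⟨ha1, ha2⟩ := Finset.mem_filter.1 ha
        obtain ⟨hb1, hb2⟩ := Finset.mem_filter.1 hb
        obtain ⟨a1, a2, a3, a4⟩ := hT a ha1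
        obtain ⟨b1, b2, b3, b4⟩ := hT b hb1
        have ha0 : a ∈ (Ideal (𝓞 F))⁰ := mem_nonZeroDivisors_of_ne_zero a1.1
        have hb0 : b ∈ (Ideal (𝓞 F))⁰ := mem_nonZeroDivisors_of_ne_zero b1.1
        have hcl : ClassGroup.mk0 (⟨a, ha0⟩ : (Ideal (𝓞 F))⁰) =
            ClassGroup.mk0 (⟨b, hb0⟩ : (Ideal (𝓞 F))⁰) := by
          rw [← hb2] at ha2
          unfold cl at ha2
          rw [dif_pos ha0, dif_pos hb0] at ha2
          exact ha2
        have h5 := hSp q F _ _ s σ χ cj ψ hD hψ ⟨a, ha0⟩ ⟨b, hb0⟩ a1 b1 a2 b2 hcl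
          (fun h => hab (congrArg Subtype.val h))
        refine le_trans ?_ h5
        have na := norm_pos a1.1
        have nb := norm_pos b1.1
        have na' : (1 : ℝ) ≤ Ideal.absNorm a := by exact_mod_cast na
        have nb' : (1 : ℝ) ≤ Ideal.absNorm b := by exact_mod_cast nb
        have h6 : Real.sqrt ((Ideal.absNorm a : ℝ) * Ideal.absNorm b) ≤ 2 ^ (j + 1) := by
          rw [Real.sqrt_le_left (by positivity)]
          have e1 : (Ideal.absNorm a : ℝ) ≤ 2 ^ (j + 1) := by exact_mod_cast a3.le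
          have e2 : (Ideal.absNorm b : ℝ) ≤ 2 ^ (j + 1) := by exact_mod_cast b3.le
          calc (Ideal.absNorm a : ℝ) * Ideal.absNorm b ≤ 2 ^ (j + 1) * 2 ^ (j + 1) :=
                mul_le_mul e1 e2 (by linarith) (by positivity)
            _ = _ := by ring
        have h7 : 0 < Real.sqrt ((Ideal.absNorm a : ℝ) * Ideal.absNorm b) :=
          Real.sqrt_pos.2 (by nlinarith)
        exact one_div_le_one_div_of_le h7 h6)
    refine h4.trans (le_of_eq ?_)
    field_simp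
  calc ∑ c : ClassGroup (𝓞 F), ∑ a ∈ T.filter (fun a => cl a = c),
      min (K : ℝ) (1 / ‖1 - uu ψ a ^ 4‖)
      ≤ ∑ _c : ClassGroup (𝓞 F), Cs * (K + (1 + Real.log K) * 2 ^ (j + 1)) :=
        Finset.sum_le_sum fun c _ => h3 c
    _ = _ := by rw [Finset.sum_const, Finset.card_univ, nsmul_eq_mul]

end

theorem natlog_le (n : ℕ) (hn : 1 ≤ n) : (Nat.log 2 n : ℝ) ≤ 2 * Real.log n := by
  have h1 : 2 ^ Nat.log 2 n ≤ n := Nat.pow_log_le_self 2 (by omega)
  have h2 : ((2 : ℝ) ^ Nat.log 2 n) ≤ n := by exact_mod_cast h1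
  have h3 := Real.log_le_log (by positivity) h2
  rw [Real.log_pow] at h3
  have h4 : (1 : ℝ) / 2 ≤ Real.log 2 := by
    have := Real.log_two_gt_d9
    linarith
  have h5 : (0 : ℝ) ≤ Nat.log 2 n := Nat.cast_nonneg _
  nlinarith

/-- the size of a block -/
theorem block_num (K A L M w : ℝ) (hK : 0 < K) (hA : 0 ≤ A) (hL : 1 ≤ L) (hL8 : L ^ 8 ≤ K)
    (hM1 : 1 ≤ M) (hM2 : M ≤ A * K) (hw0 : 0 ≤ w) (hw1 : w ≤ (L ^ 3)⁻¹)
    (hw2 : w ≤ (Real.sqrt M)⁻¹) :
    w * (K + (1 + L) * (2 * M)) ≤ (1 + 4 * Real.sqrt A) * (K / L ^ 3) := by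
  have hL0 : 0 < L := by linarith
  have hM0 : 0 < M := by linarith
  have hsM : 0 < Real.sqrt M := Real.sqrt_pos.2 hM0
  have t1 : w * K ≤ K / L ^ 3 := by
    rw [div_eq_mul_inv, mul_comm K]
    exact mul_le_mul_of_nonneg_right hw1 hK.le
  have hMM : Real.sqrt M * Real.sqrt M = M := Real.mul_self_sqrt hM0.le
  have t2 : w * M ≤ Real.sqrt M := by
    calc w * M ≤ (Real.sqrt M)⁻¹ * M := mul_le_mul_of_nonneg_right hw2 hM0.le
      _ = (Real.sqrt M)⁻¹ * (Real.sqrt M * Real.sqrt M) := by rw [hMM]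
      _ = Real.sqrt M := by field_simp
  have t3 : Real.sqrt M ≤ Real.sqrt A * Real.sqrt K := by
    rw [← Real.sqrt_mul hA]
    exact Real.sqrt_le_sqrt hM2
  have hKK : Real.sqrt K * Real.sqrt K = K := Real.mul_self_sqrt hK.le
  have t4 : L ^ 4 ≤ Real.sqrt K := by
    refine Real.le_sqrt_of_sq_le ?_
    calc (L ^ 4) ^ 2 = L ^ 8 := by ring
      _ ≤ K := hL8
  have t5 : L * Real.sqrt K ≤ K / L ^ 3 := by
    rw [le_div_iff₀ (by positivity)]
    calc L * Real.sqrt K * L ^ 3 = L ^ 4 * Real.sqrt K := by ring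
      _ ≤ Real.sqrt K * Real.sqrt K := mul_le_mul_of_nonneg_right t4 (Real.sqrt_nonneg _)
      _ = K := hKK
  have hsA := Real.sqrt_nonneg A
  have hsK := Real.sqrt_nonneg K
  have t6 : w * ((1 + L) * (2 * M)) ≤ 4 * Real.sqrt A * (K / L ^ 3) := by
    calc w * ((1 + L) * (2 * M)) = (w * M) * (2 * (1 + L)) := by ring
      _ ≤ (Real.sqrt A * Real.sqrt K) * (2 * (1 + L)) :=
          mul_le_mul_of_nonneg_right (t2.trans t3) (by linarith)
      _ ≤ (Real.sqrt A * Real.sqrt K) * (4 * L) :=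
          mul_le_mul_of_nonneg_left (by linarith) (by positivity)
      _ = 4 * Real.sqrt A * (L * Real.sqrt K) := by ring
      _ ≤ _ := mul_le_mul_of_nonneg_left t5 (by positivity)
  calc w * (K + (1 + L) * (2 * M)) = w * K + w * ((1 + L) * (2 * M)) := by ring
    _ ≤ K / L ^ 3 + 4 * Real.sqrt A * (K / L ^ 3) := add_le_add t1 t6
    _ = _ := by ring

end E0Aux

open E0Aux in
/-- (E0) the sum over the primitive ideals -/
theorem stE0 (hSp : StSp) (hLb : StLb) (hCnt : StCnt) (hSps : StSps) (hU : StU) : StE0 := by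
  classical
  intro q F _ _ s σ χ cj ψ C hD hψ
  obtain ⟨δ, h, hδ, hLb'⟩ := hLb q F _ _ s σ χ cj ψ hD hψ
  obtain ⟨Cc, hCc, hCnt'⟩ := hCnt F _ _
  obtain ⟨Cs, hCs, hSps'⟩ := hSps
  obtain ⟨A, hA⟩ : ∃ A : ℝ, A = C + 1 := ⟨_, rfl⟩
  obtain ⟨lam, hlam⟩ : ∃ lam : ℝ, lam = 2 * Real.log A + 3 := ⟨_, rfl⟩
  obtain ⟨hF, hhF⟩ : ∃ hF : ℝ, hF = (Fintype.card (ClassGroup (𝓞 F)) : ℝ) := ⟨_, rfl⟩
  have hA1 : 1 ≤ A := by
    rw [hA]
    have : (0 : ℝ) ≤ C := Nat.cast_nonneg C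
    linarith
  have hlogA : 0 ≤ Real.log A := Real.log_nonneg hA1
  have hlam0 : 0 < lam := by rw [hlam]; linarith
  have hhF0 : 0 ≤ hF := by rw [hhF]; exact Nat.cast_nonneg _
  have hsA := Real.sqrt_nonneg A
  obtain ⟨K₀, hK₀2, hK₀⟩ := ev_K0 (6 * h + 8)
  refine ⟨lam * (4 * hF * (Cs * (1 + 4 * Real.sqrt A))) + 4 * Cc / δ, K₀, by positivity, hK₀2, ?_⟩
  intro K n hK hn
  obtain ⟨hL1, hLK⟩ := hK₀ K hK
  obtain ⟨L, hL⟩ : ∃ L, L = Real.log K := ⟨_, rfl⟩
  rw [← hL] at hL1 hLK ⊢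
  have hL0 : 0 < L := by linarith
  have hKpos : (0 : ℝ) < K := by
    have : 0 < K := by omega
    exact_mod_cast this
  have hK1 : 1 ≤ K := by omega
  obtain ⟨f, hf⟩ : ∃ f : Ideal (𝓞 F) → ℝ, f = fun a => (Real.sqrt (Ideal.absNorm a : ℝ))⁻¹ *
    min (K : ℝ) (4 / ‖1 - uu ψ a ^ 4‖) := ⟨_, rfl⟩
  obtain ⟨S, hS⟩ : ∃ S, S = (prs s n).erase 1 := ⟨_, rfl⟩
  have hgoal : ∑ a ∈ (prs s n).erase 1, (Real.sqrt (Ideal.absNorm a : ℝ))⁻¹ *
        min (K : ℝ) (4 / ‖1 - uu ψ a ^ 4‖) = ∑ a ∈ S, f a := by rw [hS, hf]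
  rw [hgoal]
  have hSmem : ∀ a ∈ S, a ≠ 1 ∧ a ≠ ⊥ ∧ Ideal.absNorm a ≤ n ∧ Prm a ∧
      IsCoprime a (Ideal.span {s}) := by
    intro a ha
    rw [hS, Finset.mem_erase] at ha
    unfold prs at ha
    rw [Finset.mem_filter, mem_ids] at ha
    exact ⟨ha.1, ha.2.1.1, ha.2.1.2, ha.2.2.1, ha.2.2.2⟩
  obtain ⟨X0, hX0⟩ : ∃ X0, X0 = L ^ 6 := ⟨_, rfl⟩
  have hX01 : 1 ≤ X0 := by rw [hX0]; exact one_le_pow₀ hL1
  rw [← Finset.sum_filter_add_sum_filter_not S (fun a => (Ideal.absNorm a : ℝ) ≤ X0) f]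
  -- small norms
  have hpart1 : ∑ a ∈ S.filter (fun a => (Ideal.absNorm a : ℝ) ≤ X0), f a ≤
      4 * Cc / δ * (K / L ^ 2) := by
    have h1 : ∀ a ∈ S.filter (fun a => (Ideal.absNorm a : ℝ) ≤ X0), f a ≤ 4 * X0 ^ h / δ := by
      intro a ha
      obtain ⟨haS, haX⟩ := Finset.mem_filter.1 ha
      obtain ⟨a1, a2, a3, a4, a5⟩ := hSmem a haS
      have na := norm_pos a2
      have na' : (1 : ℝ) ≤ Ideal.absNorm a := by exact_mod_cast na
      have h2 := hLb' a a4 a5 a1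
      have h3 : 0 < δ / (Ideal.absNorm a : ℝ) ^ h := by positivity
      have h4 : 4 / ‖1 - uu ψ a ^ 4‖ ≤ 4 * X0 ^ h / δ := by
        calc 4 / ‖1 - uu ψ a ^ 4‖ ≤ 4 / (δ / (Ideal.absNorm a : ℝ) ^ h) :=
              div_le_div_of_nonneg_left (by norm_num) h3 h2
          _ = 4 * (Ideal.absNorm a : ℝ) ^ h / δ := by field_simp
          _ ≤ _ := by
              refine div_le_div_of_nonneg_right ?_ hδ.le
              refine mul_le_mul_of_nonneg_left ?_ (by norm_num)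
              exact pow_le_pow_left₀ (by linarith) haX h
      have h5 : (Real.sqrt (Ideal.absNorm a : ℝ))⁻¹ ≤ 1 := by
        refine inv_le_one_of_one_le₀ ?_
        rw [Real.one_le_sqrt]
        exact na'
      have h6 : 0 ≤ min (K : ℝ) (4 / ‖1 - uu ψ a ^ 4‖) := le_min hKpos.le (by positivity)
      rw [hf]
      calc (Real.sqrt (Ideal.absNorm a : ℝ))⁻¹ * min (K : ℝ) (4 / ‖1 - uu ψ a ^ 4‖)
          ≤ 1 * min (K : ℝ) (4 / ‖1 - uu ψ a ^ 4‖) := mul_le_mul_of_nonneg_right h5 h6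
        _ ≤ 4 / ‖1 - uu ψ a ^ 4‖ := by rw [one_mul]; exact min_le_right _ _
        _ ≤ _ := h4
    have h2 : ((S.filter (fun a => (Ideal.absNorm a : ℝ) ≤ X0)).card : ℝ) ≤ Cc * X0 := by
      have h3 : S.filter (fun a => (Ideal.absNorm a : ℝ) ≤ X0) ⊆ ids F ⌊X0⌋₊ := by
        intro a ha
        obtain ⟨haS, haX⟩ := Finset.mem_filter.1 ha
        rw [mem_ids]
        exact ⟨(hSmem a haS).2.1, Nat.le_floor haX⟩
      have h4 : ((S.filter (fun a => (Ideal.absNorm a : ℝ) ≤ X0)).card : ℝ) ≤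
          (ids F ⌊X0⌋₊).card := by exact_mod_cast Finset.card_le_card h3
      refine h4.trans (((hCnt' ⌊X0⌋₊ (Nat.le_floor (by exact_mod_cast hX01))).1).trans ?_)
      exact mul_le_mul_of_nonneg_left (Nat.floor_le (by linarith)) hCc.le
    have h3 : 0 ≤ 4 * X0 ^ h / δ := by positivity
    calc ∑ a ∈ S.filter (fun a => (Ideal.absNorm a : ℝ) ≤ X0), f a
        ≤ (S.filter (fun a => (Ideal.absNorm a : ℝ) ≤ X0)).card • (4 * X0 ^ h / δ) :=
          Finset.sum_le_card_nsmul _ _ _ h1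
      _ = ((S.filter (fun a => (Ideal.absNorm a : ℝ) ≤ X0)).card : ℝ) * (4 * X0 ^ h / δ) := by
          rw [nsmul_eq_mul]
      _ ≤ Cc * X0 * (4 * X0 ^ h / δ) := mul_le_mul_of_nonneg_right h2 h3
      _ = 4 * Cc / δ * (L ^ (6 * h + 8) / L ^ 2) := by
          rw [hX0]
          field_simp
          ring
      _ ≤ _ := by
          refine mul_le_mul_of_nonneg_left ?_ (by positivity)
          exact div_le_div_of_nonneg_right hLK (by positivity)
  -- large norms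
  have hpart2 : ∑ a ∈ S.filter (fun a => ¬ (Ideal.absNorm a : ℝ) ≤ X0), f a ≤
      lam * (4 * hF * (Cs * (1 + 4 * Real.sqrt A))) * (K / L ^ 2) := by
    rcases Nat.eq_zero_or_pos n with hn0 | hn0
    · have hSe : S.filter (fun a => ¬ (Ideal.absNorm a : ℝ) ≤ X0) = ∅ := by
        refine Finset.eq_empty_of_forall_notMem fun a ha => ?_
        obtain ⟨a1, a2, a3, a4, a5⟩ := hSmem a (Finset.mem_filter.1 ha).1
        have := norm_pos a2
        omega
      rw [hSe, Finset.sum_empty]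
      positivity
    · have hmaps : ∀ a ∈ S.filter (fun a => ¬ (Ideal.absNorm a : ℝ) ≤ X0),
          Nat.log 2 (Ideal.absNorm a) ∈ Finset.range (Nat.log 2 n + 1) := by
        intro a ha
        obtain ⟨a1, a2, a3, a4, a5⟩ := hSmem a (Finset.mem_filter.1 ha).1
        rw [Finset.mem_range]
        have := Nat.log_mono_right (b := 2) a3
        omega
      rw [← Finset.sum_fiberwise_of_maps_to hmaps f]
      have hL8 : L ^ 8 ≤ K := by
        refine le_trans ?_ hLK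
        exact pow_le_pow_right₀ hL1 (by omega)
      have hnA : (n : ℝ) ≤ A * K := by
        have h1 : (n : ℝ) ≤ (C : ℝ) * K := by exact_mod_cast hn
        rw [hA]
        nlinarith
      have hblock : ∀ j ∈ Finset.range (Nat.log 2 n + 1),
          ∑ a ∈ (S.filter (fun a => ¬ (Ideal.absNorm a : ℝ) ≤ X0)).filter
            (fun a => Nat.log 2 (Ideal.absNorm a) = j), f a ≤
          4 * hF * (Cs * (1 + 4 * Real.sqrt A)) * (K / L ^ 3) := by
        intro j hj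
        have hj' : 2 ^ j ≤ n := by
          have h1 : j ≤ Nat.log 2 n := by
            have := Finset.mem_range.1 hj
            omega
          exact (Nat.pow_le_pow_right (by norm_num) h1).trans
            (Nat.pow_log_le_self 2 (by omega))
        obtain ⟨w, hw⟩ : ∃ w : ℝ, w = (Real.sqrt (max X0 (2 ^ j)))⁻¹ := ⟨_, rfl⟩
        have hmx : 0 < max X0 ((2 : ℝ) ^ j) := lt_of_lt_of_le (by linarith) (le_max_left _ _)
        have hw0 : 0 ≤ w := by rw [hw]; positivity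
        have hb := block (F := F) hSp hU hD hψ Cs hSps'
          ((S.filter (fun a => ¬ (Ideal.absNorm a : ℝ) ≤ X0)).filter
            (fun a => Nat.log 2 (Ideal.absNorm a) = j)) K hK1 j w (by
            intro a ha
            obtain ⟨ha1, ha2⟩ := Finset.mem_filter.1 ha
            obtain ⟨ha3, ha4⟩ := Finset.mem_filter.1 ha1
            obtain ⟨a1, a2, a3, a4, a5⟩ := hSmem a ha3
            have na := norm_pos a2
            refine ⟨a4, a5, ?_, ?_⟩
            · rw [← ha2]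
              exact Nat.lt_pow_succ_log_self (by norm_num) _
            · rw [hw]
              have h1 : max X0 ((2 : ℝ) ^ j) ≤ (Ideal.absNorm a : ℝ) := by
                refine max_le (not_le.1 ha4).le ?_
                have : 2 ^ j ≤ Ideal.absNorm a := by
                  rw [← ha2]
                  exact Nat.pow_log_le_self 2 (by omega)
                exact_mod_cast this
              exact inv_anti₀ (Real.sqrt_pos.2 hmx) (Real.sqrt_le_sqrt h1)) hw0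
        rw [← hhF, ← hL] at hb
        have h2 : ∑ a ∈ (S.filter (fun a => ¬ (Ideal.absNorm a : ℝ) ≤ X0)).filter
            (fun a => Nat.log 2 (Ideal.absNorm a) = j), f a ≤
            4 * w * hF * (Cs * (K + (1 + L) * 2 ^ (j + 1))) := by
          rw [hf]
          exact hb
        refine h2.trans ?_
        have h3 := block_num K A L (2 ^ j) w hKpos (by linarith) hL1 hL8
          (one_le_pow₀ (by norm_num)) (by
            refine le_trans ?_ hnA
            exact_mod_cast hj') hw0 (by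
            rw [hw]
            refine inv_anti₀ (by positivity) ?_
            refine Real.le_sqrt_of_sq_le ?_
            refine le_trans (le_of_eq ?_) (le_max_left _ _)
            rw [hX0]
            ring) (by
            rw [hw]
            exact inv_anti₀ (Real.sqrt_pos.2 (by positivity))
              (Real.sqrt_le_sqrt (le_max_right _ _)))
        calc 4 * w * hF * (Cs * (K + (1 + L) * 2 ^ (j + 1)))
            = 4 * hF * Cs * (w * (K + (1 + L) * (2 * 2 ^ j))) := by ring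
          _ ≤ 4 * hF * Cs * ((1 + 4 * Real.sqrt A) * (K / L ^ 3)) :=
              mul_le_mul_of_nonneg_left h3 (by positivity)
          _ = _ := by ring
      have hcard : ((Nat.log 2 n + 1 : ℕ) : ℝ) ≤ lam * L := by
        have h1 := natlog_le n hn0
        have hn0' : (0 : ℝ) < n := by exact_mod_cast hn0
        have h2 : Real.log n ≤ Real.log A + L := by
          rw [hL, ← Real.log_mul (by linarith) hKpos.ne']
          exact Real.log_le_log hn0' hnA
        rw [hlam]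
        push_cast
        nlinarith
      have h4 : 0 ≤ 4 * hF * (Cs * (1 + 4 * Real.sqrt A)) * (K / L ^ 3) := by positivity
      calc ∑ j ∈ Finset.range (Nat.log 2 n + 1),
          ∑ a ∈ (S.filter (fun a => ¬ (Ideal.absNorm a : ℝ) ≤ X0)).filter
            (fun a => Nat.log 2 (Ideal.absNorm a) = j), f a
          ≤ (Finset.range (Nat.log 2 n + 1)).card •
            (4 * hF * (Cs * (1 + 4 * Real.sqrt A)) * (K / L ^ 3)) :=
            Finset.sum_le_card_nsmul _ _ _ hblock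
        _ = ((Nat.log 2 n + 1 : ℕ) : ℝ) *
            (4 * hF * (Cs * (1 + 4 * Real.sqrt A)) * (K / L ^ 3)) := by
            rw [Finset.card_range, nsmul_eq_mul]
        _ ≤ lam * L * (4 * hF * (Cs * (1 + 4 * Real.sqrt A)) * (K / L ^ 3)) :=
            mul_le_mul_of_nonneg_right hcard h4
        _ = _ := by
            field_simp
  calc _ ≤ 4 * Cc / δ * (K / L ^ 2) +
        lam * (4 * hF * (Cs * (1 + 4 * Real.sqrt A))) * (K / L ^ 2) := add_le_add hpart1 hpart2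
    _ = _ := by ring

end Pool.Agent.Lib.MP_7c08ba_nt.CD
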