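import Mathlib
import Pool.Agent.Lib.MP_7c08ba_nt.CD.StB

set_option autoImplicit false

/-!
Project CD, module Kk: the `k` in `(K, 2K]` of given parity are an arithmetic progression.
-/

namespace Pool.Agent.Lib.MP_7c08ba_nt.CD

namespace KkAux

theorem kk_eq (κ K : ℕ) (hκ : κ < 2) (hK : 1 ≤ K) :
    kk κ K = (Finset.range ((2 * K + 2 - (K + 1 + (K + 1 + κ) % 2)) / 2)).image
      fun j => (K + 1 + (K + 1 + κ) % 2) + 2 * j := by
  ext k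
  simp only [kk, Finset.mem_filter, Finset.mem_Ioc, Finset.mem_image, Finset.mem_range]
  constructor
  · rintro ⟨⟨h1, h2⟩, h3⟩
    refine ⟨(k - (K + 1 + (K + 1 + κ) % 2)) / 2, ?_, ?_⟩ <;> omega
  · rintro ⟨j, hj, rfl⟩
    refine ⟨⟨?_, ?_⟩, ?_⟩ <;> omega

theorem sum_eq {M : Type*} [AddCommMonoid M] (κ K : ℕ) (hκ : κ < 2) (hK : 1 ≤ K) (f : ℕ → M) :
    ∑ k ∈ kk κ K, f k = ∑ j ∈ Finset.range ((2 * K + 2 - (K + 1 + (K + 1 + κ) % 2)) / 2),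
      f ((K + 1 + (K + 1 + κ) % 2) + 2 * j) := by
  rw [kk_eq κ K hκ hK, Finset.sum_image]
  intro a _ b _ h
  simp only at h
  omega

end KkAux

theorem stKk : StKk := by
  intro κ K hκ hK
  refine ⟨K + 1 + (K + 1 + κ) % 2, (2 * K + 2 - (K + 1 + (K + 1 + κ) % 2)) / 2,
    ?_, ?_, ?_, ?_, ?_, fun f => KkAux.sum_eq κ K hκ hK f, fun f => KkAux.sum_eq κ K hκ hK f⟩ <;>
  omega

end Pool.Agent.Lib.MP_7c08ba_nt.CD
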