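import Pool.Agent.Lib.MP_7c08ba_nt.CD.StB

set_option autoImplicit false

/-!
Project CD, module Lb: the values at primitive ideals are not close to 1.
-/

namespace Pool.Agent.Lib.MP_7c08ba_nt.CD

open NumberField IsDedekindDomain MeasureTheory Set Pool.Agent.Lib.MP_7c08ba_nt.RZ
  Pool.Agent.Lib.MP_7c08ba_nt.CN Pool.Agent.Lib.MP_7c08ba_nt.CN.TW
open scoped nonZeroDivisors ComplexConjugate

namespace LbAux

variable {F : Type} [Field F] [NumberField F] {q : ℕ} {s : 𝓞 F} {σ : F →+* ℂ}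
  {χ : DirichletCharacter ℂ q} {cj : 𝓞 F ≃+* 𝓞 F}

/-- The second basis element of the ring of integers. -/
theorem exists_om (D : Dat q s σ χ cj) : ∃ ω : 𝓞 F, 2 * ω = 1 + s := by
  obtain ⟨k, hk⟩ : ∃ k : ℕ, q = 4 * k + 3 := ⟨q / 4, by have := D.mod; omega⟩
  have hs : (s : F) ^ 2 = -(4 * k + 3) := by
    have h1 := congrArg (fun x : 𝓞 F => (x : F)) D.sq
    have h2 : (((-(q : 𝓞 F) : 𝓞 F)) : F) = -(q : F) := by simp
    have h3 : (((s ^ 2 : 𝓞 F)) : F) = (s : F) ^ 2 := by simp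
    rw [← h3, D.sq, h2, hk]
    push_cast
    ring
  have hint : IsIntegral ℤ ((1 + (s : F)) / 2) := by
    refine ⟨Polynomial.X ^ 2 - Polynomial.X + Polynomial.C ((k : ℤ) + 1), by monicity!, ?_⟩
    simp only [Polynomial.eval₂_add, Polynomial.eval₂_sub, Polynomial.eval₂_pow,
      Polynomial.eval₂_X, Polynomial.eval₂_C]
    have : (algebraMap ℤ F) ((k : ℤ) + 1) = (k : F) + 1 := by simp
    rw [this]
    linear_combination (1 / 4 : F) * hs
  obtain ⟨w, hw⟩ : ∃ w : 𝓞 F, (w : F) = (1 + (s : F)) / 2 := ⟨⟨_, hint⟩, rfl⟩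
  refine ⟨w, ?_⟩
  apply RingOfIntegers.ext
  have h5 : (((2 * w : 𝓞 F)) : F) = 2 * (w : F) := by
    rw [two_mul, two_mul]
    exact map_add (algebraMap (𝓞 F) F) w w
  have h4 : (((1 + s : 𝓞 F)) : F) = 1 + (s : F) := by simp
  rw [h5, hw, h4]
  ring

/-- A primitive ideal prime to `s` which is stable under conjugation is the unit ideal. -/
theorem eq_one_of_stable (hbas : StBas) (D : Dat q s σ χ cj) {a : Ideal (𝓞 F)} (ha : Prm a)
    (hco : IsCoprime a (Ideal.span {s})) (hst : a.map (cj : 𝓞 F →+* 𝓞 F) = a) : a = 1 := by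
  obtain ⟨hb1, hb2, hb3, -, -, -, -, -, -, -, -⟩ := hbas q F _ _ s σ χ cj D
  obtain ⟨ω, hω⟩ := exists_om D
  have h20 : (2 : 𝓞 F) ≠ 0 := two_ne_zero
  have hcjm : ∀ x ∈ a, cj x ∈ a := by
    intro x hx
    have h1 : cj x ∈ a.map (cj : 𝓞 F →+* 𝓞 F) := Ideal.mem_map_of_mem (cj : 𝓞 F →+* 𝓞 F) hx
    rwa [hst] at h1
  have hcs : ∀ x : 𝓞 F, ∀ a' b : ℤ, 2 * x = a' + b * s → x + cj x = a' ∧ x - cj x = b * s := by
    intro x a' b hx
    have h1 : 2 * cj x = a' - b * s := by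
      have h2 := congrArg cj hx
      rw [map_mul, map_add, map_mul, hb3, map_intCast, map_intCast, map_ofNat] at h2
      rw [h2]
      ring
    constructor
    · apply mul_left_cancel₀ h20
      linear_combination hx + h1
    · apply mul_left_cancel₀ h20
      linear_combination hx - h1
  -- the least positive integer in `a`
  have hex : ∃ m : ℕ, 0 < m ∧ (m : 𝓞 F) ∈ a :=
    ⟨Ideal.absNorm a, Nat.pos_of_ne_zero (by
      rw [Ne, Ideal.absNorm_eq_zero_iff]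
      exact ha.1), Ideal.absNorm_mem a⟩
  classical
  obtain ⟨m, ⟨hm0, hma⟩, hmin⟩ : ∃ m : ℕ, (0 < m ∧ (m : 𝓞 F) ∈ a) ∧
      ∀ k : ℕ, k < m → ¬ (0 < k ∧ (k : 𝓞 F) ∈ a) :=
    ⟨Nat.find hex, Nat.find_spec hex, fun k hk => Nat.find_min hex hk⟩
  have hdiv : ∀ z : ℤ, (z : 𝓞 F) ∈ a → (m : ℤ) ∣ z := by
    intro z hz
    have hm0' : (m : ℤ) ≠ 0 := by exact_mod_cast hm0.ne'
    have h1 : ((z % m : ℤ) : 𝓞 F) ∈ a := by
      have h2 : ((z % m : ℤ) : 𝓞 F) = z - (z / m : ℤ) * (m : 𝓞 F) := by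
        have h3 : z % m = z - (z / m) * m := by
          have := Int.emod_add_mul_ediv z m
          linarith
        rw [h3]
        push_cast
        ring
      rw [h2]
      exact a.sub_mem hz (a.mul_mem_left _ hma)
    have h4 : 0 ≤ z % m := Int.emod_nonneg _ hm0'
    have h5 : z % m < m := Int.emod_lt_of_pos _ (by exact_mod_cast hm0)
    obtain ⟨k, hk⟩ := Int.eq_ofNat_of_zero_le h4
    rw [hk] at h1 h5
    rcases Nat.eq_zero_or_pos k with h6 | h6
    · rw [h6] at hk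
      exact Int.dvd_of_emod_eq_zero hk
    · exact absurd ⟨h6, by rwa [Int.cast_natCast] at h1⟩ (hmin k (by exact_mod_cast h5))
  -- the coordinates of the elements of `a` are divisible by `m`
  have hco' : ∀ x ∈ a, ∃ a₁ b₁ : ℤ, 2 * x = (m : 𝓞 F) * (a₁ + b₁ * s) ∧
      (2 : ℤ) ∣ m * (a₁ - b₁) := by
    intro x hx
    obtain ⟨a', b, h1, h2⟩ := hb1 x
    obtain ⟨h3, h4⟩ := hcs x a' b h1
    have h5 : (a' : 𝓞 F) ∈ a := by
      rw [← h3]
      exact a.add_mem hx (hcjm x hx)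
    have h6 : (b : 𝓞 F) * s ∈ a := by
      rw [← h4]
      exact a.sub_mem hx (hcjm x hx)
    obtain ⟨i, hi, j, hj, hij⟩ := Ideal.isCoprime_iff_exists.1 hco
    obtain ⟨c, rfl⟩ := Ideal.mem_span_singleton'.1 hj
    have h7 : (b : 𝓞 F) ∈ a := by
      have h8 : (b : 𝓞 F) = b * i + c * (b * s) := by
        linear_combination -(b : 𝓞 F) * hij
      rw [h8]
      exact a.add_mem (a.mul_mem_left _ hi) (a.mul_mem_left _ h6)
    obtain ⟨a₁, ha₁⟩ := hdiv _ h5
    obtain ⟨b₁, hb₁⟩ := hdiv _ h7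
    refine ⟨a₁, b₁, ?_, ?_⟩
    · rw [h1, ha₁, hb₁]
      push_cast
      ring
    · rw [mul_sub, ← ha₁, ← hb₁]
      exact h2
  -- elements with coordinates of the same parity
  have hpar : ∀ a₁ b₁ : ℤ, (2 : ℤ) ∣ a₁ - b₁ → ∃ w : 𝓞 F, (a₁ : 𝓞 F) + b₁ * s = 2 * w := by
    rintro a₁ b₁ ⟨k, hk⟩
    refine ⟨k + b₁ * ω, ?_⟩
    have h1 : a₁ = b₁ + 2 * k := by linarith
    rw [h1]
    push_cast
    linear_combination -(b₁ : 𝓞 F) * hω
  have hle : ∀ k : ℕ, (∀ x ∈ a, ∃ w : 𝓞 F, x = k * w) → k = 1 := by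
    intro k hk
    refine ha.2 k (Ideal.dvd_iff_le.2 fun x hx => ?_)
    obtain ⟨w, hw⟩ := hk x hx
    exact Ideal.mem_span_singleton.2 ⟨w, hw⟩
  rcases Nat.even_or_odd' m with ⟨m', h | h⟩
  · -- `m` is even
    exfalso
    have hm' : m' = 1 := by
      refine hle m' fun x hx => ?_
      obtain ⟨a₁, b₁, h1, -⟩ := hco' x hx
      refine ⟨a₁ + b₁ * s, mul_left_cancel₀ h20 ?_⟩
      rw [h1, h]
      push_cast
      ring
    have hm2 : m = 2 := by omega
    have h3 : (2 : ℕ) = 1 := by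
      refine hle 2 fun x hx => ?_
      obtain ⟨a₁, b₁, h1, -⟩ := hco' x hx
      have h2 : x = a₁ + b₁ * s := by
        apply mul_left_cancel₀ h20
        rw [h1, hm2]
        norm_num
      have h4 : x * cj x = ((a₁ ^ 2 + q * b₁ ^ 2 : ℤ) : 𝓞 F) := by
        have h5 : cj x = a₁ - b₁ * s := by
          rw [h2, map_add, map_mul, hb3, map_intCast, map_intCast]
          ring
        rw [h5, h2]
        push_cast
        linear_combination -(b₁ : 𝓞 F) ^ 2 * D.sq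
      have h6 := hdiv _ (h4 ▸ a.mul_mem_right (cj x) hx)
      rw [hm2] at h6
      have hq : (q : ℤ) % 2 = 1 := by
        have := D.mod
        omega
      have h7 : (2 : ℤ) ∣ a₁ - b₁ := by
        obtain ⟨k, hk⟩ : ∃ k : ℤ, (q : ℤ) = 2 * k + 1 := ⟨(q : ℤ) / 2, by omega⟩
        rw [hk] at h6
        have h8 : (2 : ℤ) ∣ (a₁ - b₁) * (a₁ + b₁) + 2 * (b₁ ^ 2 + k * b₁ ^ 2) := by
          have h9 : (a₁ - b₁) * (a₁ + b₁) + 2 * (b₁ ^ 2 + k * b₁ ^ 2) =
              a₁ ^ 2 + (2 * k + 1) * b₁ ^ 2 := by ring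
          rw [h9]
          exact_mod_cast h6
        have h9 : (2 : ℤ) ∣ (a₁ - b₁) * (a₁ + b₁) :=
          (Int.dvd_add_left (Dvd.intro _ rfl)).1 h8
        rcases (Int.prime_two.dvd_mul).1 h9 with h10 | h10
        · exact h10
        · have h11 : a₁ - b₁ = (a₁ + b₁) - 2 * b₁ := by ring
          rw [h11]
          exact dvd_sub h10 (Dvd.intro _ rfl)
      obtain ⟨w, hw⟩ := hpar a₁ b₁ h7
      exact ⟨w, by rw [h2, hw]; norm_num⟩
    exact absurd h3 (by norm_num)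
  · -- `m` is odd
    have hm1 : m = 1 := by
      refine hle m fun x hx => ?_
      obtain ⟨a₁, b₁, h1, h2⟩ := hco' x hx
      have h3 : (2 : ℤ) ∣ a₁ - b₁ := by
        rcases (Int.prime_two.dvd_mul).1 h2 with h4 | h4
        · exfalso
          rw [h] at h4
          omega
        · exact h4
      obtain ⟨w, hw⟩ := hpar a₁ b₁ h3
      refine ⟨w, mul_left_cancel₀ h20 ?_⟩
      rw [h1, hw]
      ring
    rw [hm1, Nat.cast_one] at hma
    rw [Ideal.one_eq_top, Ideal.eq_top_iff_one]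
    exact hma

/-- powers of points of the unit disc -/
theorem norm_one_sub_pow (z : ℂ) (hz : ‖z‖ ≤ 1) (n : ℕ) : ‖1 - z ^ n‖ ≤ n * ‖1 - z‖ := by
  induction n with
  | zero => simp
  | succ n ih =>
    have h1 : 1 - z ^ (n + 1) = (1 - z) + z * (1 - z ^ n) := by ring
    rw [h1]
    refine (norm_add_le _ _).trans ?_
    rw [norm_mul]
    have h2 : ‖z‖ * ‖1 - z ^ n‖ ≤ n * ‖1 - z‖ :=
      (mul_le_of_le_one_left (norm_nonneg _) hz).trans ih
    push_cast
    linarith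

/-- the fourth power of a normalised number -/
theorem norm_fourth (w : ℂ) (h0 : w ≠ 0) (h1 : 1 ≤ ‖conj w - w‖) (h2 : 1 ≤ ‖conj w + w‖) :
    1 / Complex.normSq w ≤ ‖1 - (w / (‖w‖ : ℂ)) ^ 4‖ := by
  have h3 : 0 < ‖w‖ := norm_pos_iff.2 h0
  have h4 : ((‖w‖ : ℂ)) ^ 2 = w * conj w := by
    rw [Complex.mul_conj, Complex.normSq_eq_norm_sq]
    push_cast
    ring
  have h5 : ((‖w‖ : ℂ)) ≠ 0 := by exact_mod_cast h3.ne'
  have h6 : 1 - (w / (‖w‖ : ℂ)) ^ 4 = w ^ 2 * ((conj w - w) * (conj w + w)) / (‖w‖ : ℂ) ^ 4 := by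
    rw [div_pow]
    field_simp
    have h7 : ((‖w‖ : ℂ)) ^ 4 = (w * conj w) ^ 2 := by rw [← h4]; ring
    rw [h7]
    ring
  rw [h6, norm_div, norm_mul, norm_mul, norm_pow, norm_pow, Complex.norm_real, Real.norm_eq_abs,
    abs_of_pos h3, Complex.normSq_eq_norm_sq, div_le_div_iff₀ (by positivity) (by positivity)]
  have h8 : 1 ≤ ‖conj w - w‖ * ‖conj w + w‖ := by nlinarith
  nlinarith [pow_pos h3 4, mul_le_mul_of_nonneg_left h8 (pow_pos h3 4).le]

end LbAux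

open LbAux in
/-- (Lb) the values at primitive ideals are not close to 1 -/
theorem stLb (hU : StU) (hbas : StBas) : StLb := by
  intro q F _ _ s σ χ cj ψ D hψ
  obtain ⟨hu1, -, hu3, hu4, hu5, hu6⟩ := hU q F _ _ s σ χ cj ψ D hψ
  obtain ⟨hb1, hb2, hb3, -, hb5, hb6, hb7, -, -, hb10, hb11⟩ := hbas q F _ _ s σ χ cj D
  have hh0 : 0 < Fintype.card (ClassGroup (𝓞 F)) := Fintype.card_pos
  refine ⟨1 / Fintype.card (ClassGroup (𝓞 F)), Fintype.card (ClassGroup (𝓞 F)), by positivity,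
    fun a ha hco ha1 => ?_⟩
  generalize hh : Fintype.card (ClassGroup (𝓞 F)) = h at hh0
  have ha0 : a ∈ (Ideal (𝓞 F))⁰ := mem_nonZeroDivisors_iff_ne_zero.2 ha.1
  -- a generator of the power
  obtain ⟨t, ht⟩ : ∃ t : 𝓞 F, a ^ h = Ideal.span {t} := by
    have h1 : (ClassGroup.mk0 ⟨a, ha0⟩) ^ h = 1 := by
      rw [← hh]
      exact pow_card_eq_one
    rw [← map_pow] at h1
    have h2 := (ClassGroup.mk0_eq_one_iff (pow_mem ha0 h)).1 (by
      rw [← h1]
      rfl)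
    obtain ⟨t, ht⟩ := h2
    exact ⟨t, by rw [Ideal.span]; exact ht⟩
  have ht0 : t ≠ 0 := by
    rintro rfl
    rw [Ideal.span_singleton_eq_bot.2 rfl] at ht
    exact ha.1 ((pow_eq_zero_iff hh0.ne').1 ht)
  have hne : cj t ≠ t ∧ cj t ≠ -t := by
    have h1 : ∀ e : 𝓞 F, Ideal.span {cj t} = Ideal.span {t} → False := by
      intro _ h2
      have h3 : (a.map (cj : 𝓞 F →+* 𝓞 F)) ^ h = a ^ h := by
        rw [← Ideal.map_pow, ht, Ideal.map_span, Set.image_singleton]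
        exact h2
      refine ha1 (eq_one_of_stable hbas D ha hco (dvd_antisymm ?_ ?_))
      · exact (UniqueFactorizationMonoid.pow_dvd_pow_iff_dvd hh0.ne').1 h3.dvd
      · exact (UniqueFactorizationMonoid.pow_dvd_pow_iff_dvd hh0.ne').1 h3.symm.dvd
    constructor
    · intro h2
      exact h1 0 (by rw [h2])
    · intro h2
      exact h1 0 (by rw [h2, Ideal.span_singleton_neg])
  have hone : ∀ x : 𝓞 F, x ≠ 0 → 1 ≤ ‖σ x‖ := by
    intro x hx
    have h1 := hb6 x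
    have h2 : (1 : ℝ) ≤ Ideal.absNorm (Ideal.span {x}) := by
      have h3 : Ideal.absNorm (Ideal.span {x}) ≠ 0 := by
        rw [Ne, Ideal.absNorm_eq_zero_iff, Ideal.span_singleton_eq_bot]
        exact hx
      exact_mod_cast Nat.one_le_iff_ne_zero.2 h3
    rw [← h1, Complex.normSq_eq_norm_sq] at h2
    nlinarith [norm_nonneg (σ x)]
  have hw0 : σ t ≠ 0 := by
    intro h1
    have h2 := hone t ht0
    rw [h1, norm_zero] at h2
    linarith
  have h4 := norm_fourth (σ t) hw0 (by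
    rw [← D.conjσ, ← map_sub]
    exact hone (cj t - t) (sub_ne_zero.2 hne.1)) (by
    rw [← D.conjσ, ← map_add]
    exact hone (cj t + t) (fun h5 => hne.2 (eq_neg_of_add_eq_zero_left h5)))
  -- the values
  have hupow : ∀ n : ℕ, uu ψ (a ^ n) = uu ψ a ^ n := by
    intro n
    induction n with
    | zero =>
      have h5 := hu5 1 le_rfl
      rw [Nat.cast_one, Ideal.span_singleton_one, Nat.cast_one, jacobiSym.one_left,
        Int.cast_one] at h5
      rw [pow_zero, pow_zero, Ideal.one_eq_top, h5]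
    | succ n ih => rw [pow_succ, pow_succ, hu3, ih]
  have hua : ‖uu ψ a‖ = 1 := hu1 a ha.1 hco
  have hval : (uu ψ a ^ 4) ^ h = (σ t / (‖σ t‖ : ℂ)) ^ 4 := by
    obtain ⟨n, hn⟩ := hb10 t
    have h5 := hu6 t n ht0 hn
    rw [← ht, hupow] at h5
    have h6 : ‖uu ψ a ^ h‖ = 1 := by rw [norm_pow, hua, one_pow]
    have h7 : ‖σ t / (‖σ t‖ : ℂ)‖ = 1 := by
      rw [norm_div, Complex.norm_real, norm_norm, div_self (norm_ne_zero_iff.2 hw0)]
    rw [h5, norm_mul, h7, mul_one] at h6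
    have h8 : ((jacobiSym n q : ℤ) : ℂ) ^ 4 = 1 := by
      have h9 : |(jacobiSym n q : ℤ)| = 1 := by
        have h10 : ((|(jacobiSym n q : ℤ)| : ℤ) : ℝ) = 1 := by
          rw [Int.cast_abs, ← h6, ← Complex.norm_intCast]
        exact_mod_cast h10
      have h11 : (jacobiSym n q : ℤ) ^ 2 = 1 := by rw [← sq_abs, h9, one_pow]
      have h12 : (jacobiSym n q : ℤ) ^ 4 = 1 := by
        calc (jacobiSym n q : ℤ) ^ 4 = ((jacobiSym n q : ℤ) ^ 2) ^ 2 := by ring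
          _ = 1 := by rw [h11, one_pow]
      exact_mod_cast h12
    rw [← pow_mul, mul_comm, pow_mul, h5, mul_pow, h8, one_mul]
  have h9 := norm_one_sub_pow (uu ψ a ^ 4) (by rw [norm_pow, hua, one_pow]) h
  rw [hval] at h9
  have h10 : Complex.normSq (σ t) = (Ideal.absNorm a : ℝ) ^ h := by
    rw [hb6 t, ← ht, map_pow]
    push_cast
    ring
  rw [h10] at h4
  have hhr : (0 : ℝ) < h := by exact_mod_cast hh0
  have h11 : 1 / (Ideal.absNorm a : ℝ) ^ h ≤ h * ‖1 - uu ψ a ^ 4‖ := h4.trans h9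
  calc 1 / (h : ℝ) / (Ideal.absNorm a : ℝ) ^ h = (1 / (Ideal.absNorm a : ℝ) ^ h) / h := by ring
    _ ≤ (h * ‖1 - uu ψ a ^ 4‖) / h := by gcongr
    _ = ‖1 - uu ψ a ^ 4‖ := by field_simp

end Pool.Agent.Lib.MP_7c08ba_nt.CD
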