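import Pool.Agent.Lib.MP_7c08ba_nt.CD.StB

set_option autoImplicit false

/-!
Project CD, part B, module Ld: the series `∑ χ(m) / m` over the numbers prime to `D` (and 2).
-/

namespace Pool.Agent.Lib.MP_7c08ba_nt.CD

open Pool.Agent.Lib.MP_7c08ba_nt.CN.TW

namespace LdAux

open Finset Filter Topology

/-- Partial summation with bounded partial sums and decreasing weights. -/
theorem abel (f : ℕ → ℂ) (B : ℝ) (hB : ∀ N, ‖∑ m ∈ Icc 1 N, f m‖ ≤ B) (w : ℕ → ℝ)
    (hw0 : ∀ m, 1 ≤ m → 0 ≤ w m) (hw : ∀ m, 1 ≤ m → w (m + 1) ≤ w m) (M N : ℕ) (h : M + 1 ≤ N) :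
    ‖∑ m ∈ Icc 1 N, f m * (w m : ℂ) - ∑ m ∈ Icc 1 M, f m * (w m : ℂ)‖ ≤
      2 * B * w (M + 1) := by
  have hd : ∀ a b : ℕ, ‖∑ m ∈ Icc 1 a, f m - ∑ m ∈ Icc 1 b, f m‖ ≤ 2 * B := by
    intro a b
    have := norm_sub_le (∑ m ∈ Icc 1 a, f m) (∑ m ∈ Icc 1 b, f m)
    linarith [hB a, hB b]
  have key : ‖(∑ m ∈ Icc 1 N, f m * (w m : ℂ) - ∑ m ∈ Icc 1 M, f m * (w m : ℂ)) -
      (∑ m ∈ Icc 1 N, f m - ∑ m ∈ Icc 1 M, f m) * (w N : ℂ)‖ ≤ 2 * B * (w (M + 1) - w N) := by
    induction N, h using Nat.le_induction with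
    | base =>
      rw [sum_Icc_succ_top (by omega), sum_Icc_succ_top (by omega)]
      rw [show (∑ m ∈ Icc 1 M, f m * (w m : ℂ) + f (M + 1) * (w (M + 1) : ℂ) -
        ∑ m ∈ Icc 1 M, f m * (w m : ℂ)) - (∑ m ∈ Icc 1 M, f m + f (M + 1) -
        ∑ m ∈ Icc 1 M, f m) * (w (M + 1) : ℂ) = 0 by ring, norm_zero, sub_self, mul_zero]
    | succ N hN ih =>
      rw [sum_Icc_succ_top (by omega), sum_Icc_succ_top (by omega)]
      have e : (∑ m ∈ Icc 1 N, f m * (w m : ℂ) + f (N + 1) * (w (N + 1) : ℂ) -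
          ∑ m ∈ Icc 1 M, f m * (w m : ℂ)) - (∑ m ∈ Icc 1 N, f m + f (N + 1) -
          ∑ m ∈ Icc 1 M, f m) * (w (N + 1) : ℂ) =
          ((∑ m ∈ Icc 1 N, f m * (w m : ℂ) - ∑ m ∈ Icc 1 M, f m * (w m : ℂ)) -
      (∑ m ∈ Icc 1 N, f m - ∑ m ∈ Icc 1 M, f m) * (w N : ℂ)) +
          (∑ m ∈ Icc 1 N, f m - ∑ m ∈ Icc 1 M, f m) * ((w N - w (N + 1) : ℝ) : ℂ) := by
        push_cast
        ring
      rw [e]
      have h1 : 0 ≤ w N - w (N + 1) := by linarith [hw N (by omega)]
      have h2 : ‖(∑ m ∈ Icc 1 N, f m - ∑ m ∈ Icc 1 M, f m) * ((w N - w (N + 1) : ℝ) : ℂ)‖ ≤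
          2 * B * (w N - w (N + 1)) := by
        rw [norm_mul, Complex.norm_of_nonneg h1]
        exact mul_le_mul_of_nonneg_right (hd N M) h1
      have h3 := norm_add_le _ _ |>.trans (add_le_add ih h2)
      refine h3.trans (le_of_eq ?_)
      ring
  have h4 : ‖(∑ m ∈ Icc 1 N, f m - ∑ m ∈ Icc 1 M, f m) * (w N : ℂ)‖ ≤ 2 * B * w N := by
    have h0 := hw0 N (by omega)
    rw [norm_mul, Complex.norm_of_nonneg h0]
    exact mul_le_mul_of_nonneg_right (hd N M) h0
  have h5 := norm_add_le _ _ |>.trans (add_le_add key h4)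
  rw [sub_add_cancel] at h5
  linarith

/-- The partial sums of a nontrivial character are bounded. -/
theorem bdd {n : ℕ} [NeZero n] (χ : DirichletCharacter ℂ n) (hχ : χ ≠ 1) (N : ℕ) :
    ‖∑ m ∈ Icc 1 N, χ (m : ZMod n)‖ ≤ n + 1 := by
  have hn : 0 < n := Nat.pos_of_ne_zero (NeZero.ne n)
  have hper : ∑ m ∈ range n, χ ((m : ℕ) : ZMod n) = 0 := by
    rw [← MulChar.sum_eq_zero_of_ne_one hχ]
    refine (sum_bij' (fun (a : ZMod n) _ => a.val) (fun m _ => ((m : ℕ) : ZMod n))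
      ?_ ?_ ?_ ?_ ?_).symm
    · intro a _
      exact mem_range.2 (ZMod.val_lt a)
    · intro m _
      exact mem_univ _
    · intro a _
      exact ZMod.natCast_zmod_val a
    · intro m hm
      exact ZMod.val_cast_of_lt (mem_range.1 hm)
    · intro a _
      rw [ZMod.natCast_zmod_val]
  have hk : ∀ k r : ℕ, ∑ m ∈ range (k * n + r), χ ((m : ℕ) : ZMod n) =
      ∑ m ∈ range r, χ ((m : ℕ) : ZMod n) := by
    intro k
    induction k with
    | zero =>
      intro r
      rw [zero_mul, zero_add]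
    | succ k ih =>
      intro r
      rw [show (k + 1) * n + r = n + (k * n + r) by ring, sum_range_add, hper, zero_add, ← ih r]
      refine sum_congr rfl fun m _ => ?_
      push_cast
      rw [ZMod.natCast_self, zero_add]
  have hr : ∀ N : ℕ, ‖∑ m ∈ range N, χ ((m : ℕ) : ZMod n)‖ ≤ n := by
    intro N
    rw [← Nat.div_add_mod' N n, hk]
    refine (norm_sum_le _ _).trans ?_
    refine (sum_le_card_nsmul _ _ 1 fun m _ => DirichletCharacter.norm_le_one χ _).trans ?_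
    rw [card_range, nsmul_eq_mul, mul_one]
    exact_mod_cast (Nat.mod_lt N hn).le
  have h1 : ∑ m ∈ Icc 1 N, χ (m : ZMod n) =
      ∑ m ∈ range (N + 1), χ ((m : ℕ) : ZMod n) - χ ((0 : ℕ) : ZMod n) := by
    rw [range_eq_Ico, sum_eq_sum_Ico_succ_bot (by omega)]
    rw [add_sub_cancel_left]
    rfl
  rw [h1]
  refine (norm_sub_le _ _).trans ?_
  exact add_le_add (hr _) (DirichletCharacter.norm_le_one χ _)

/-- the weights `m ^ (-s)` -/
theorem tendsto_partial {n : ℕ} [NeZero n] (χ : DirichletCharacter ℂ n) (s : ℝ) (hs : 1 < s) :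
    Tendsto (fun N : ℕ => ∑ m ∈ Icc 1 N, χ (m : ZMod n) * (((m : ℝ) ^ (-s) : ℝ) : ℂ)) atTop
      (𝓝 (DirichletCharacter.LFunction χ s)) := by
  have hs' : 1 < (s : ℂ).re := by rwa [Complex.ofReal_re]
  have h1 := (DirichletCharacter.LSeriesSummable_of_one_lt_re χ hs').hasSum.tendsto_sum_nat
  have h2 : ∑' i, LSeries.term (fun m => χ ((m : ℕ) : ZMod n)) s i =
      DirichletCharacter.LFunction χ s := (DirichletCharacter.LFunction_eq_LSeries χ hs').symm
  rw [h2] at h1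
  have h3 := h1.comp (tendsto_add_atTop_nat 1)
  refine h3.congr fun N => ?_
  change ∑ i ∈ range (N + 1), LSeries.term (fun m => χ ((m : ℕ) : ZMod n)) s i = _
  rw [range_eq_Ico, sum_eq_sum_Ico_succ_bot (by omega), LSeries.term_def, if_pos rfl, zero_add]
  refine sum_congr rfl fun m hm => ?_
  have hm0 : m ≠ 0 := by
    have := (mem_Ico.1 hm).1
    omega
  rw [LSeries.term_def, if_neg hm0, Complex.ofReal_cpow (Nat.cast_nonneg m), div_eq_mul_inv,
    Complex.ofReal_neg, Complex.cpow_neg, Complex.ofReal_natCast]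

theorem tail {n : ℕ} [NeZero n] (χ : DirichletCharacter ℂ n) (hχ : χ ≠ 1) (M : ℕ) :
    ‖∑ m ∈ Icc 1 M, χ (m : ZMod n) * (((m : ℝ)⁻¹ : ℝ) : ℂ) -
      DirichletCharacter.LFunction χ 1‖ ≤ 2 * (n + 1) * ((M : ℝ) + 1)⁻¹ := by
  have h1 : ∀ s : ℝ, 1 < s → ‖∑ m ∈ Icc 1 M, χ (m : ZMod n) * (((m : ℝ) ^ (-s) : ℝ) : ℂ) -
      DirichletCharacter.LFunction χ s‖ ≤ 2 * (n + 1) * ((M : ℝ) + 1)⁻¹ := by
    intro s hs
    have h2 := (((tendsto_partial χ s hs).sub_const
      (∑ m ∈ Icc 1 M, χ (m : ZMod n) * (((m : ℝ) ^ (-s) : ℝ) : ℂ))).norm)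
    have h3 : ‖DirichletCharacter.LFunction χ s -
        ∑ m ∈ Icc 1 M, χ (m : ZMod n) * (((m : ℝ) ^ (-s) : ℝ) : ℂ)‖ ≤
        2 * (n + 1) * ((M : ℝ) + 1)⁻¹ := by
      refine le_of_tendsto h2 ?_
      filter_upwards [eventually_ge_atTop (M + 1)] with N hN
      have h4 := abel (fun m => χ (m : ZMod n)) (n + 1) (bdd χ hχ) (fun m => (m : ℝ) ^ (-s))
        (fun m _ => by positivity) (fun m hm => by
          apply Real.rpow_le_rpow_of_nonpos
          · exact_mod_cast hm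
          · push_cast
            linarith
          · linarith) M N hN
      refine h4.trans ?_
      apply mul_le_mul_of_nonneg_left _ (by positivity)
      rw [← Real.rpow_neg_one]
      push_cast
      apply Real.rpow_le_rpow_of_exponent_le
      · linarith [Nat.cast_nonneg (α := ℝ) M]
      · linarith
    rwa [norm_sub_rev]
  have hc : Tendsto (fun s : ℝ => ‖∑ m ∈ Icc 1 M, χ (m : ZMod n) * (((m : ℝ) ^ (-s) : ℝ) : ℂ) -
      DirichletCharacter.LFunction χ s‖) (𝓝[>] 1)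
      (𝓝 ‖∑ m ∈ Icc 1 M, χ (m : ZMod n) * (((m : ℝ)⁻¹ : ℝ) : ℂ) -
      DirichletCharacter.LFunction χ 1‖) := by
    apply Tendsto.norm
    apply Tendsto.sub
    · apply tendsto_finsetSum
      intro m hm
      have hm0 : (0 : ℝ) < m := by
        have := (mem_Icc.1 hm).1
        exact_mod_cast this
      apply Tendsto.const_mul
      apply (Complex.continuous_ofReal.tendsto _).comp
      have h5 : Continuous fun s : ℝ => (m : ℝ) ^ (-s) := by
        exact (Real.continuous_const_rpow hm0.ne').comp continuous_neg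
      have h6 := h5.tendsto 1
      rw [Real.rpow_neg_one] at h6
      exact h6.mono_left nhdsWithin_le_nhds
    · have h7 : Continuous fun s : ℝ => DirichletCharacter.LFunction χ s :=
        (DirichletCharacter.differentiable_LFunction hχ).continuous.comp
          Complex.continuous_ofReal
      have h8 := h7.tendsto 1
      rw [Complex.ofReal_one] at h8
      exact h8.mono_left nhdsWithin_le_nhds
  refine le_of_tendsto hc ?_
  filter_upwards [self_mem_nhdsWithin] with s hs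
  exact h1 s hs

/-- The character `m -> (m/q)` modulo `n`, `q` divides `n`. -/
theorem exists_char (q n : ℕ) [NeZero n] (hq : q.Prime) (hq4 : q % 4 = 3) (hqn : q ∣ n) :
    ∃ χ : DirichletCharacter ℂ n, χ ≠ 1 ∧ (∀ m : ℕ, m.Coprime n →
      χ (m : ZMod n) = (jacobiSym m q : ℂ)) ∧ ∀ m : ℕ, ¬ m.Coprime n → χ (m : ZMod n) = 0 := by
  have : Fact q.Prime := ⟨hq⟩
  obtain ⟨ψ, hψ⟩ : ∃ ψ : DirichletCharacter ℂ q, ∀ a : ℤ, ψ (a : ZMod q) = (jacobiSym a q : ℂ) := by
    refine ⟨(quadraticChar (ZMod q)).ringHomComp (Int.castRingHom ℂ), fun a => ?_⟩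
    rw [← jacobiSym.legendreSym.to_jacobiSym]
    rfl
  have hu : ∀ (a : ℤ) (u : (ZMod n)ˣ), (u : ZMod n) = (a : ZMod n) →
      DirichletCharacter.changeLevel hqn ψ (u : ZMod n) = (jacobiSym a q : ℂ) := by
    intro a u hu
    rw [DirichletCharacter.changeLevel_eq_cast_of_dvd, hu, ZMod.cast_intCast hqn, hψ]
  refine ⟨DirichletCharacter.changeLevel hqn ψ, ?_, ?_, ?_⟩
  · intro h
    have h1 := hu (-1) (-1) (by push_cast; rfl)
    rw [h, MulChar.one_apply_coe, jacobiSym.at_neg_one (Nat.odd_iff.2 (by omega)),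
      ZMod.χ₄_nat_three_mod_four hq4] at h1
    norm_num at h1
  · intro m hm
    obtain ⟨u, hu'⟩ := (ZMod.isUnit_iff_coprime m n).2 hm
    rw [← hu']
    exact hu m u (by rw [hu']; push_cast; rfl)
  · intro m hm
    apply MulChar.map_nonunit
    rwa [ZMod.isUnit_iff_coprime]

/-- The values of `tw` at squares. -/
theorem tw_sq (o : Bool) (D m : ℕ) (hD : D ≠ 0) :
    tw o D ((m : ℤ) ^ 2) = if m.Coprime (dl o D) then 1 else 0 := by
  have : NeZero D := ⟨hD⟩
  have h1 : jacobiSym ((m : ℤ) ^ 2) D = if m.Coprime D then 1 else 0 := by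
    split_ifs with h
    · apply jacobiSym.sq_one'
      exact_mod_cast h
    · rw [jacobiSym.pow_left]
      have h2 : jacobiSym m D = 0 := by
        rw [jacobiSym.eq_zero_iff_not_coprime]
        exact_mod_cast h
      rw [h2]
      norm_num
  have h2 : ZMod.χ₄ (((m : ℤ) ^ 2 : ℤ) : ZMod 4) = if m.Coprime 4 then 1 else 0 := by
    have h3 : (((m : ℤ) ^ 2 : ℤ) : ZMod 4) = (((m % 4 : ℕ) : ZMod 4)) ^ 2 := by
      push_cast
      rw [ZMod.natCast_mod]
    rw [h3]
    have h4 : m.Coprime 4 ↔ (m % 4).Coprime 4 := by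
      unfold Nat.Coprime
      rw [Nat.gcd_comm, Nat.gcd_rec 4 m]
    simp only [h4]
    have h5 : m % 4 < 4 := Nat.mod_lt _ (by norm_num)
    interval_cases m % 4 <;> decide
  unfold tw dl
  rw [h1]
  cases o
  · simp
  · rw [h2]
    simp only [if_true]
    have h5 : m.Coprime (4 * D) ↔ m.Coprime 4 ∧ m.Coprime D := Nat.coprime_mul_iff_right
    by_cases h3 : m.Coprime 4
    · by_cases h4 : m.Coprime D
      · rw [if_pos h3, if_pos h4, if_pos (h5.2 ⟨h3, h4⟩), mul_one]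
      · rw [if_pos h3, if_neg h4, if_neg fun h => h4 (h5.1 h).2, mul_one]
    · rw [if_neg h3, if_neg fun h => h3 (h5.1 h).1, mul_zero]

end LdAux

open LdAux Finset

/-- (Ld) the series `∑ χ(m) / m` over the numbers prime to `D` (and 2) -/
theorem stLd : StLd := by
  intro q D o hq hq16 hD
  have hD0 : D ≠ 0 := hD.sqf.ne_zero
  have hdl : dl o D ≠ 0 := by
    unfold dl
    split_ifs <;> simp [hD0]
  obtain ⟨n, hn⟩ : ∃ n, n = q * dl o D := ⟨_, rfl⟩
  have : NeZero n := ⟨by rw [hn]; exact mul_ne_zero hq.ne_zero hdl⟩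
  obtain ⟨χ, hχ, h1, h0⟩ := exists_char q n hq (by omega) (by rw [hn]; exact dvd_mul_right _ _)
  have hval : ∀ m : ℕ, (jacobiSym m q * tw o D ((m : ℤ) ^ 2) : ℤ) = χ (m : ZMod n) := by
    intro m
    rw [tw_sq o D m hD0]
    by_cases hm : m.Coprime n
    · rw [h1 m hm]
      have h2 : m.Coprime (dl o D) := by
        rw [hn] at hm
        exact hm.coprime_mul_left_right
      rw [if_pos h2, mul_one]
    · rw [h0 m hm]
      by_cases h2 : m.Coprime (dl o D)
      · have h3 : ¬ m.Coprime q := by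
          intro h3
          apply hm
          rw [hn]
          exact Nat.Coprime.mul_right h3 h2
        have : NeZero q := ⟨hq.ne_zero⟩
        have h4 : jacobiSym m q = 0 := by
          rw [jacobiSym.eq_zero_iff_not_coprime]
          exact_mod_cast h3
        rw [h4, zero_mul, Int.cast_zero]
      · rw [if_neg h2, mul_zero, Int.cast_zero]
  have hsum : ∀ N : ℕ, ((∑ m ∈ Icc 1 N, ((jacobiSym m q * tw o D ((m : ℤ) ^ 2) : ℤ) : ℝ) / m :
      ℝ) : ℂ) = ∑ m ∈ Icc 1 N, χ (m : ZMod n) * (((m : ℝ)⁻¹ : ℝ) : ℂ) := by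
    intro N
    push_cast
    refine sum_congr rfl fun m _ => ?_
    rw [← hval m, div_eq_mul_inv]
    push_cast
    rfl
  have htail := tail χ hχ
  have him : (DirichletCharacter.LFunction χ 1).im = 0 := by
    have h2 : ∀ M : ℕ, |(DirichletCharacter.LFunction χ 1).im| ≤
        2 * (n + 1) * ((M : ℝ) + 1)⁻¹ := by
      intro M
      have h3 := (Complex.abs_im_le_norm _).trans (htail M)
      rw [← hsum M, Complex.sub_im, Complex.ofReal_im, zero_sub, abs_neg] at h3
      exact h3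
    have h4 : Filter.Tendsto (fun M : ℕ => 2 * ((n : ℝ) + 1) * ((M : ℝ) + 1)⁻¹) Filter.atTop
        (nhds (2 * ((n : ℝ) + 1) * 0)) := by
      apply Filter.Tendsto.const_mul
      have := tendsto_one_div_add_atTop_nhds_zero_nat (𝕜 := ℝ)
      simpa using this
    have h5 := ge_of_tendsto' h4 h2
    rw [mul_zero] at h5
    exact abs_nonpos_iff.1 h5
  refine ⟨(DirichletCharacter.LFunction χ 1).re, 2 * (n + 1), ?_, ?_⟩
  · intro hre
    apply DirichletCharacter.LFunction_apply_one_ne_zero hχ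
    exact Complex.ext hre him
  · intro N hN
    have h3 := (Complex.abs_re_le_norm _).trans (htail N)
    rw [← hsum N, Complex.sub_re, Complex.ofReal_re] at h3
    refine h3.trans ?_
    rw [div_eq_mul_inv]
    apply mul_le_mul_of_nonneg_left _ (by positivity)
    have hN' : (0 : ℝ) < N := by exact_mod_cast hN
    apply inv_anti₀ hN'
    linarith

end Pool.Agent.Lib.MP_7c08ba_nt.CD
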