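import Pool.Agent.Lib.MP_7c08ba_nt.CD.StB

set_option autoImplicit false

/-!
Project CD, module M1: the first moment.
-/

namespace Pool.Agent.Lib.MP_7c08ba_nt.CD

open NumberField Filter Pool.Agent.Lib.MP_7c08ba_nt.RZ
  Pool.Agent.Lib.MP_7c08ba_nt.CN Pool.Agent.Lib.MP_7c08ba_nt.CN.TW
open scoped nonZeroDivisors ComplexConjugate

namespace M1Aux

/-- the exponentials are summable -/
theorem sum_exp {δ : ℝ} (hδ : 0 < δ) :
    Summable fun n : ℕ => Real.exp (-(δ * ((n + 1 : ℕ) : ℝ))) := by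
  have h1 : Summable fun n : ℕ => Real.exp (-(δ * (n : ℝ))) := by
    have h2 : ∀ n : ℕ, Real.exp (-(δ * (n : ℝ))) = Real.exp (-δ) ^ n := by
      intro n
      rw [← Real.exp_nat_mul]
      congr 1
      ring
    simp_rw [h2]
    exact summable_geometric_of_lt_one (Real.exp_pos _).le (Real.exp_lt_one_iff.2 (by linarith))
  exact (summable_nat_add_iff (f := fun n : ℕ => Real.exp (-(δ * (n : ℝ)))) 1).2 h1

theorem sum_exp_mul {δ : ℝ} (hδ : 0 < δ) (C : ℝ) :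
    Summable fun n : ℕ => Real.exp (-(δ * ((n + 1 : ℕ) : ℝ))) *
      (C * Real.sqrt ((n + 1 : ℕ) : ℝ)) := by
  have h1 : Summable fun n : ℕ => (n : ℝ) ^ 1 * Real.exp (-δ * (n : ℝ)) :=
    Real.summable_pow_mul_exp_neg_nat_mul 1 hδ
  have h2 := (summable_nat_add_iff (f := fun n : ℕ => (n : ℝ) ^ 1 * Real.exp (-δ * (n : ℝ)))
    1).2 h1
  refine Summable.of_norm_bounded (g := fun n : ℕ => |C| * ((((n + 1 : ℕ) : ℝ)) ^ 1 *
    Real.exp (-δ * ((n + 1 : ℕ) : ℝ)))) (h2.mul_left |C|) fun n => ?_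
  have h3 : (1:ℝ) ≤ ((n + 1 : ℕ) : ℝ) := by
    rw [Nat.cast_add, Nat.cast_one]
    have := Nat.cast_nonneg (α := ℝ) n
    linarith
  have h4 : Real.sqrt ((n + 1 : ℕ) : ℝ) ≤ ((n + 1 : ℕ) : ℝ) := by
    rw [Real.sqrt_le_left (by linarith)]
    nlinarith
  rw [norm_mul, norm_mul, Real.norm_eq_abs, Real.norm_eq_abs, Real.norm_eq_abs,
    abs_of_pos (Real.exp_pos _), abs_of_nonneg (Real.sqrt_nonneg _), pow_one]
  have h5 : Real.exp (-(δ * ((n + 1 : ℕ) : ℝ))) = Real.exp (-δ * ((n + 1 : ℕ) : ℝ)) := by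
    congr 1
    ring
  rw [h5]
  have h6 := mul_le_mul_of_nonneg_left h4 (abs_nonneg C)
  have h7 := mul_le_mul_of_nonneg_left h6 (Real.exp_pos (-δ * ((n + 1 : ℕ) : ℝ))).le
  linarith

/-- the series `∑ n ^ (-3/2)` -/
theorem sum_three_halves :
    Summable fun n : ℕ => (((n + 1 : ℕ) : ℝ))⁻¹ * (Real.sqrt ((n + 1 : ℕ) : ℝ))⁻¹ := by
  have h1 : Summable fun n : ℕ => 1 / (n : ℝ) ^ (3 / 2 : ℝ) :=
    Real.summable_one_div_nat_rpow.2 (by norm_num)
  have h2 := (summable_nat_add_iff (f := fun n : ℕ => 1 / (n : ℝ) ^ (3 / 2 : ℝ)) 1).2 h1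
  refine h2.congr fun n => ?_
  have h3 : (0:ℝ) < ((n + 1 : ℕ) : ℝ) := by positivity
  have h4 : ((n + 1 : ℕ) : ℝ) ^ (3 / 2 : ℝ) = ((n + 1 : ℕ) : ℝ) * Real.sqrt ((n + 1 : ℕ) : ℝ) := by
    rw [Real.sqrt_eq_rpow, show (3 / 2 : ℝ) = 1 + 1 / 2 by norm_num, Real.rpow_add h3,
      Real.rpow_one]
  rw [h4, one_div, mul_inv]

/-- harmonic sums -/
theorem sum_inv_le (N : ℕ) :
    ∑ i ∈ Finset.range N, (((i + 1 : ℕ) : ℝ))⁻¹ ≤ 1 + Real.log N := by
  have h1 := harmonic_le_one_add_log N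
  unfold harmonic at h1
  push_cast at h1 ⊢
  exact h1

/-- tails of a series dominated by a summable series beyond `N` -/
theorem tail_le {f : ℕ → ℂ} {g : ℕ → ℝ} {N : ℕ} (hg : Summable g) (hg0 : ∀ n, 0 ≤ g n)
    (h : ∀ n, N ≤ n → ‖f n‖ ≤ g n) :
    Summable (fun n => ‖f n‖) ∧ ‖∑' n, f n - ∑ n ∈ Finset.range N, f n‖ ≤ ∑' n, g n := by
  have hgN : Summable fun n => g (n + N) := (summable_nat_add_iff N).2 hg
  have h1 : Summable fun n => ‖f (n + N)‖ :=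
    Summable.of_nonneg_of_le (fun n => norm_nonneg _) (fun n => h _ (Nat.le_add_left N n)) hgN
  have h2 : Summable fun n => ‖f n‖ := (summable_nat_add_iff (f := fun n => ‖f n‖) N).1 h1
  refine ⟨h2, ?_⟩
  rw [← (h2.of_norm).sum_add_tsum_nat_add N, add_sub_cancel_left]
  refine (norm_tsum_le_tsum_norm h1).trans ((h1.tsum_le_tsum
    (fun n => h _ (Nat.le_add_left N n)) hgN).trans ?_)
  rw [← hg.sum_add_tsum_nat_add N]
  have h3 := Finset.sum_nonneg (s := Finset.range N) (f := g) fun n _ => hg0 n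
  linarith

/-- the core: abstract first moment -/
theorem core {v : ℕ → ℕ → ℝ} (hv : Wt v) (b : ℕ → ℕ → ℂ) (H : ℕ → ℝ) {ℓ Cb CH : ℝ}
    (hCb : 0 ≤ Cb) (hℓ : ℓ ≠ 0)
    (hb : ∀ k n, 1 ≤ n → ‖b k n‖ ≤ Cb * Real.sqrt n)
    (hH : ∀ n : ℕ, 1 ≤ n → |H n - ℓ| ≤ CH * (Real.sqrt n)⁻¹) (κ : ℕ)
    (hO : ∀ C : ℕ, ∃ (B : ℝ) (K₀ : ℕ), 0 < B ∧ 2 ≤ K₀ ∧
      ∀ K n : ℕ, K₀ ≤ K → 1 ≤ n → n ≤ C * K →
        ‖∑ k ∈ kk κ K, (v k n : ℂ) * (b k n - H n)‖ ≤ B * K / Real.log K * (n : ℝ)⁻¹)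
    (hk : ∀ K, 1 ≤ K → (kk κ K).card ≤ K ∧ K ≤ 2 * (kk κ K).card + 1) :
    (∀ k, 1 ≤ k → Summable fun n : ℕ => ‖(v k (n + 1) : ℂ) * b k (n + 1)‖) ∧
    ∃ (δ : ℝ) (K₀ : ℕ), 0 < δ ∧ 2 ≤ K₀ ∧ ∀ K, K₀ ≤ K →
      δ * K * Real.log K ≤ ‖∑ k ∈ kk κ K, ∑' n : ℕ, (v k (n + 1) : ℂ) * b k (n + 1)‖ := by
  obtain ⟨C, δ, hC, hδ, hdec⟩ := hv.dec
  obtain ⟨δ₁, k₀, hδ₁, hsum⟩ := hv.sum
  set g : ℕ → ℝ := fun n => Real.exp (-(δ * ((n + 1 : ℕ) : ℝ))) *
    (Cb * Real.sqrt ((n + 1 : ℕ) : ℝ)) with hgdef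
  have hg : Summable g := sum_exp_mul hδ Cb
  have hg0 : ∀ n, 0 ≤ g n := fun n => mul_nonneg (Real.exp_pos _).le
    (mul_nonneg hCb (Real.sqrt_nonneg _))
  set e : ℕ → ℝ := fun n => Real.exp (-(δ * ((n + 1 : ℕ) : ℝ))) with hedef
  have he : Summable e := sum_exp hδ
  have he0 : ∀ n, 0 ≤ e n := fun n => (Real.exp_pos _).le
  -- bounds of the terms far away
  have hfar : ∀ k N : ℕ, 1 ≤ k → C * k ≤ N → ∀ n, N ≤ n →
      ‖(v k (n + 1) : ℂ) * b k (n + 1)‖ ≤ g n := by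
    intro k N hk1 hkN n hn
    have h1 := hdec k (n + 1) hk1 (by omega)
    have h2 := hv.nn k (n + 1) (by omega)
    rw [norm_mul, Complex.norm_real, Real.norm_eq_abs, abs_of_nonneg h2]
    exact mul_le_mul h1 (hb k (n + 1) (by omega)) (norm_nonneg _) (Real.exp_pos _).le
  have hfar2 : ∀ k N : ℕ, 1 ≤ k → C * k ≤ N → ∀ n, N ≤ n →
      ‖(v k (n + 1) : ℂ)‖ ≤ e n := by
    intro k N hk1 hkN n hn
    have h1 := hdec k (n + 1) hk1 (by omega)
    have h2 := hv.nn k (n + 1) (by omega)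
    rw [Complex.norm_real, Real.norm_eq_abs, abs_of_nonneg h2]
    exact h1
  refine ⟨fun k hk1 => (tail_le hg hg0 (hfar k (C * k) hk1 le_rfl)).1, ?_⟩
  set T : ℝ := ∑' n, g n with hT
  set T2 : ℝ := ∑' n, e n with hT2
  have hT0 : 0 ≤ T := tsum_nonneg hg0
  have hT20 : 0 ≤ T2 := tsum_nonneg he0
  obtain ⟨B, K₁, hB, hK₁, hO⟩ := hO (2 * C)
  set z : ℕ → ℝ := fun n => (((n + 1 : ℕ) : ℝ))⁻¹ * (Real.sqrt ((n + 1 : ℕ) : ℝ))⁻¹ with hz
  have hzs : Summable z := sum_three_halves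
  have hz0 : ∀ n, 0 ≤ z n := fun n => by positivity
  set Z : ℝ := ∑' n, z n with hZ
  have hCH : 0 ≤ CH := by
    have h1 := (abs_nonneg _).trans (hH 1 le_rfl)
    simpa using h1
  -- the constants
  set B2 : ℝ := B * ((1 + Real.log (2 * C)) / Real.log 2 + 1) with hB2
  set E : ℝ := |ℓ| * T2 + T + B2 + CH * Z with hE
  set A : ℝ := |ℓ| * δ₁ / 4 with hA
  have hA0 : 0 < A := by
    have := abs_pos.2 hℓ
    positivity
  refine ⟨A / 2, max (max K₁ k₀) (⌈Real.exp (2 * E / A)⌉₊), by positivity,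
    hK₁.trans ((le_max_left _ _).trans (le_max_left _ _)), fun K hK => ?_⟩
  have hK1 : K₁ ≤ K := ((le_max_left _ _).trans (le_max_left _ _)).trans hK
  have hK2 : k₀ ≤ K := ((le_max_right _ _).trans (le_max_left _ _)).trans hK
  have hK3 : Real.exp (2 * E / A) ≤ K := (Nat.le_ceil _).trans (by
    exact_mod_cast (le_max_right _ _).trans hK)
  have hK4 : 2 ≤ K := hK₁.trans hK1
  have hKR : (2:ℝ) ≤ K := by exact_mod_cast hK4
  have hlogK : 2 * E / A ≤ Real.log K := by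
    rw [Real.le_log_iff_exp_le (by linarith)]
    exact hK3
  have hlog2 : 0 < Real.log 2 := Real.log_pos (by norm_num)
  have hlog2K : Real.log 2 ≤ Real.log K := Real.log_le_log (by norm_num) hKR
  obtain ⟨hc1, hc2⟩ := hk K (by omega)
  set N : ℕ := 2 * C * K with hN
  have hmem : ∀ k ∈ kk κ K, K < k ∧ k ≤ 2 * K := by
    intro k hk
    unfold kk at hk
    rw [Finset.mem_filter, Finset.mem_Ioc] at hk
    exact hk.1
  have hmemN : ∀ k ∈ kk κ K, C * k ≤ N := by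
    intro k hk
    have := (hmem k hk).2
    calc C * k ≤ C * (2 * K) := Nat.mul_le_mul_left C this
      _ = N := by rw [hN]; ring
  -- decomposition
  have hdecomp : ∑ k ∈ kk κ K, ∑' n : ℕ, (v k (n + 1) : ℂ) * b k (n + 1) =
      ((ℓ * ∑ k ∈ kk κ K, ∑ n ∈ Finset.range N, v k (n + 1) : ℝ) : ℂ) +
      (∑ k ∈ kk κ K, (∑' n : ℕ, (v k (n + 1) : ℂ) * b k (n + 1) -
        ∑ n ∈ Finset.range N, (v k (n + 1) : ℂ) * b k (n + 1)) +
      (∑ n ∈ Finset.range N, ∑ k ∈ kk κ K, (v k (n + 1) : ℂ) * (b k (n + 1) - H (n + 1)) +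
      ((∑ k ∈ kk κ K, ∑ n ∈ Finset.range N, v k (n + 1) * (H (n + 1) - ℓ) : ℝ) : ℂ))) := by
    rw [Finset.sum_comm (s := Finset.range N)]
    push_cast
    rw [Finset.mul_sum]
    simp_rw [Finset.mul_sum]
    rw [← Finset.sum_add_distrib, ← Finset.sum_add_distrib, ← Finset.sum_add_distrib]
    refine Finset.sum_congr rfl fun k _ => ?_
    have h1 : ∑ n ∈ Finset.range N, (v k (n + 1) : ℂ) * (b k (n + 1) - H (n + 1)) +
        ∑ n ∈ Finset.range N, (v k (n + 1) : ℂ) * ((H (n + 1) : ℂ) - ℓ) +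
        ∑ n ∈ Finset.range N, (ℓ : ℂ) * (v k (n + 1) : ℂ) =
        ∑ n ∈ Finset.range N, (v k (n + 1) : ℂ) * b k (n + 1) := by
      rw [← Finset.sum_add_distrib, ← Finset.sum_add_distrib]
      refine Finset.sum_congr rfl fun n _ => ?_
      ring
    rw [← h1]
    ring
  -- first error
  have hE1 : ‖∑ k ∈ kk κ K, (∑' n : ℕ, (v k (n + 1) : ℂ) * b k (n + 1) -
      ∑ n ∈ Finset.range N, (v k (n + 1) : ℂ) * b k (n + 1))‖ ≤ K * T := by
    refine (norm_sum_le _ _).trans ?_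
    refine (Finset.sum_le_card_nsmul _ _ T fun k hk => ?_).trans ?_
    · exact (tail_le hg hg0 (hfar k N (by have := (hmem k hk).1; omega) (hmemN k hk))).2
    · rw [nsmul_eq_mul]
      exact mul_le_mul_of_nonneg_right (by exact_mod_cast hc1) hT0
  -- second error
  have hE2 : ‖∑ n ∈ Finset.range N, ∑ k ∈ kk κ K,
      (v k (n + 1) : ℂ) * (b k (n + 1) - H (n + 1))‖ ≤ K * B2 := by
    refine (norm_sum_le _ _).trans ?_
    have h1 : ∀ n ∈ Finset.range N,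
        ‖∑ k ∈ kk κ K, (v k (n + 1) : ℂ) * (b k (n + 1) - H (n + 1))‖ ≤
        B * K / Real.log K * (((n + 1 : ℕ) : ℝ))⁻¹ := by
      intro n hn
      rw [Finset.mem_range] at hn
      exact hO K (n + 1) hK1 (by omega) (by rw [hN] at hn; omega)
    refine (Finset.sum_le_sum h1).trans ?_
    rw [← Finset.mul_sum]
    have h2 := sum_inv_le N
    have h3 : (0:ℝ) ≤ B * K / Real.log K := by
      have : 0 < Real.log K := hlog2.trans_le hlog2K
      positivity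
    refine (mul_le_mul_of_nonneg_left h2 h3).trans ?_
    have hCR : (1:ℝ) ≤ C := by exact_mod_cast hC
    have h4 : Real.log N = Real.log (2 * C) + Real.log K := by
      rw [hN]
      push_cast
      rw [Real.log_mul (by positivity) (by positivity)]
    rw [h4, hB2]
    have h5 : 0 < Real.log K := hlog2.trans_le hlog2K
    have h6 : 0 ≤ Real.log (2 * C) := Real.log_nonneg (by linarith)
    have h7 : (1 + (Real.log (2 * C) + Real.log K)) / Real.log K ≤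
        (1 + Real.log (2 * C)) / Real.log 2 + 1 := by
      have h8 : (1 + (Real.log (2 * C) + Real.log K)) / Real.log K =
          (1 + Real.log (2 * C)) / Real.log K + 1 := by
        field_simp
        ring
      rw [h8]
      have h9 : (1 + Real.log (2 * C)) / Real.log K ≤ (1 + Real.log (2 * C)) / Real.log 2 :=
        div_le_div_of_nonneg_left (by linarith) hlog2 hlog2K
      linarith
    calc B * K / Real.log K * (1 + (Real.log (2 * C) + Real.log K)) =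
        (K * B) * ((1 + (Real.log (2 * C) + Real.log K)) / Real.log K) := by ring
      _ ≤ (K * B) * ((1 + Real.log (2 * C)) / Real.log 2 + 1) :=
        mul_le_mul_of_nonneg_left h7 (by positivity)
      _ = K * (B * ((1 + Real.log (2 * C)) / Real.log 2 + 1)) := by ring
  -- third error
  have hE3 : ‖((∑ k ∈ kk κ K, ∑ n ∈ Finset.range N, v k (n + 1) * (H (n + 1) - ℓ) : ℝ) : ℂ)‖ ≤
      K * (CH * Z) := by
    rw [Complex.norm_real]
    refine (norm_sum_le _ _).trans ?_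
    refine (Finset.sum_le_card_nsmul _ _ (CH * Z) fun k hk => ?_).trans ?_
    · refine (norm_sum_le _ _).trans ?_
      have h1 : ∀ n ∈ Finset.range N, ‖v k (n + 1) * (H (n + 1) - ℓ)‖ ≤ CH * z n := by
        intro n _
        have h2 := hv.nn k (n + 1) (by omega)
        have h3 := hv.le k (n + 1) (by omega)
        have h4 := hH (n + 1) (by omega)
        rw [norm_mul, Real.norm_eq_abs, Real.norm_eq_abs, abs_of_nonneg h2]
        refine (mul_le_mul h3 h4 (abs_nonneg _) (by positivity)).trans (le_of_eq ?_)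
        rw [hz, one_div]
        ring
      refine (Finset.sum_le_sum h1).trans ?_
      rw [← Finset.mul_sum]
      exact mul_le_mul_of_nonneg_left (hzs.sum_le_tsum _ fun n _ => hz0 n) hCH
    · rw [nsmul_eq_mul]
      exact mul_le_mul_of_nonneg_right (by exact_mod_cast hc1)
        (mul_nonneg hCH (tsum_nonneg hz0))
  -- main term
  have hM : |ℓ| * (K / 4 * (δ₁ * Real.log K) - K * T2) ≤
      |ℓ * ∑ k ∈ kk κ K, ∑ n ∈ Finset.range N, v k (n + 1)| := by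
    rw [abs_mul]
    refine mul_le_mul_of_nonneg_left ?_ (abs_nonneg _)
    refine le_trans ?_ (le_abs_self _)
    have h1 : ∀ k ∈ kk κ K, δ₁ * Real.log K - T2 ≤ ∑ n ∈ Finset.range N, v k (n + 1) := by
      intro k hk
      obtain ⟨hk1, hk2⟩ := hmem k hk
      have h2 := hsum k (by omega)
      have h3 := (tail_le (f := fun n => (v k (n + 1) : ℂ)) he he0
        (hfar2 k N (by omega) (hmemN k hk))).2
      have h4 : ∑' n : ℕ, (v k (n + 1) : ℂ) - ∑ n ∈ Finset.range N, (v k (n + 1) : ℂ) =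
          ((∑' n : ℕ, v k (n + 1) - ∑ n ∈ Finset.range N, v k (n + 1) : ℝ) : ℂ) := by
        push_cast
        rfl
      rw [h4, Complex.norm_real, Real.norm_eq_abs] at h3
      have h5 := (le_abs_self _).trans h3
      have h6 : Real.log K ≤ Real.log k := Real.log_le_log (by linarith)
        (by exact_mod_cast hk1.le)
      have h7 := mul_le_mul_of_nonneg_left h6 hδ₁.le
      linarith
    have h8 := Finset.card_nsmul_le_sum _ _ _ h1
    rw [nsmul_eq_mul] at h8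
    refine le_trans ?_ h8
    have h9 : (K : ℝ) ≤ 2 * ((kk κ K).card : ℝ) + 1 := by exact_mod_cast hc2
    have h10 : ((kk κ K).card : ℝ) ≤ K := by exact_mod_cast hc1
    have h11 : 0 < Real.log K := hlog2.trans_le hlog2K
    have h12 : 0 < δ₁ * Real.log K := mul_pos hδ₁ h11
    have h13 : (K : ℝ) / 4 ≤ (kk κ K).card := by linarith
    have h14 := mul_le_mul_of_nonneg_right h13 h12.le
    have h15 := mul_le_mul_of_nonneg_right h10 hT20
    linarith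
  -- conclusion
  rw [hdecomp]
  have h1 := norm_sub_le_norm_add ((ℓ * ∑ k ∈ kk κ K, ∑ n ∈ Finset.range N, v k (n + 1) : ℝ) : ℂ)
      (∑ k ∈ kk κ K, (∑' n : ℕ, (v k (n + 1) : ℂ) * b k (n + 1) -
        ∑ n ∈ Finset.range N, (v k (n + 1) : ℂ) * b k (n + 1)) +
      (∑ n ∈ Finset.range N, ∑ k ∈ kk κ K, (v k (n + 1) : ℂ) * (b k (n + 1) - H (n + 1)) +
      ((∑ k ∈ kk κ K, ∑ n ∈ Finset.range N, v k (n + 1) * (H (n + 1) - ℓ) : ℝ) : ℂ)))
  have h2 := norm_add_le (∑ k ∈ kk κ K, (∑' n : ℕ, (v k (n + 1) : ℂ) * b k (n + 1) -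
        ∑ n ∈ Finset.range N, (v k (n + 1) : ℂ) * b k (n + 1)))
      (∑ n ∈ Finset.range N, ∑ k ∈ kk κ K, (v k (n + 1) : ℂ) * (b k (n + 1) - H (n + 1)) +
      ((∑ k ∈ kk κ K, ∑ n ∈ Finset.range N, v k (n + 1) * (H (n + 1) - ℓ) : ℝ) : ℂ))
  have h3 := norm_add_le (∑ n ∈ Finset.range N, ∑ k ∈ kk κ K,
      (v k (n + 1) : ℂ) * (b k (n + 1) - H (n + 1)))
      ((∑ k ∈ kk κ K, ∑ n ∈ Finset.range N, v k (n + 1) * (H (n + 1) - ℓ) : ℝ) : ℂ)
  rw [Complex.norm_real, Real.norm_eq_abs] at h1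
  have h4 : 2 * E ≤ A * Real.log K := by
    rw [div_le_iff₀ hA0] at hlogK
    linarith
  have h5 := mul_le_mul_of_nonneg_left h4 (show (0:ℝ) ≤ K by linarith)
  have h6 : A * 4 = |ℓ| * δ₁ := by
    rw [hA]
    ring
  have h7 : |ℓ| * (K / 4 * (δ₁ * Real.log K) - K * T2) =
      A * K * Real.log K - |ℓ| * T2 * K := by
    have : |ℓ| * (K / 4 * (δ₁ * Real.log K)) = A * K * Real.log K := by
      calc |ℓ| * (K / 4 * (δ₁ * Real.log K)) = (|ℓ| * δ₁) * (K * Real.log K / 4) := by ring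
        _ = (A * 4) * (K * Real.log K / 4) := by rw [h6]
        _ = A * K * Real.log K := by ring
    rw [mul_sub, this]
    ring
  rw [h7] at hM
  have h8 : E * K = |ℓ| * T2 * K + K * T + K * B2 + K * (CH * Z) := by
    rw [hE]
    ring
  nlinarith [h1, h2, h3, hE1, hE2, hE3, hM, h5, h8]

theorem abs_tw_le (o : Bool) (D : ℕ) (m : ℤ) : |(tw o D m : ℝ)| ≤ 1 := by
  unfold tw
  have h1 : |((jacobiSym m D : ℤ) : ℝ)| ≤ 1 := by
    rcases jacobiSym.trichotomy m D with h | h | h <;> rw [h] <;> norm_num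
  have h2 : |(((if o then ZMod.χ₄ (m : ZMod 4) else 1 : ℤ)) : ℝ)| ≤ 1 := by
    cases o
    · norm_num
    · have h3 : ∀ a : ZMod 4, ZMod.χ₄ a = 0 ∨ ZMod.χ₄ a = 1 ∨ ZMod.χ₄ a = -1 := by decide
      simp only [if_true]
      rcases h3 (m : ZMod 4) with h | h | h <;> rw [h] <;> norm_num
  push_cast at h1 h2 ⊢
  rw [abs_mul]
  exact mul_le_one₀ h1 (abs_nonneg _) h2

theorem norm_Bk_le (hU : StU) (hC : StCnt) (q : ℕ) (F : Type) [Field F] [NumberField F]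
    (s : 𝓞 F) (σ : F →+* ℂ) (χ : DirichletCharacter ℂ q) (cj : 𝓞 F ≃+* 𝓞 F) (o : Bool) (D : ℕ)
    (ψ : Ideal (𝓞 F) →*₀ ℂ) (hD : Dat q s σ χ cj) (hψ : IsCan q s σ 1 ψ) :
    ∃ C : ℝ, 0 ≤ C ∧ ∀ k n : ℕ, 1 ≤ n → ‖Bk o D ψ k n‖ ≤ C * Real.sqrt n := by
  obtain ⟨C, hC0, h⟩ := hC F inferInstance inferInstance
  obtain ⟨hU1, hU2, -⟩ := hU q F inferInstance inferInstance s σ χ cj ψ hD hψ
  refine ⟨C, hC0.le, fun k n hn => ?_⟩
  refine le_trans ?_ (h n hn).2.2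
  unfold Bk
  refine (norm_sum_le _ _).trans (Finset.sum_le_sum fun a ha => ?_)
  unfold tm
  have h1 : ‖uu ψ a‖ ≤ 1 := by
    by_cases hc : IsCoprime a (Ideal.span {s})
    · exact (hU1 a (mem_ids.1 ha).1 hc).le
    · rw [hU2 a hc, norm_zero]
      exact zero_le_one
  have h2 : ‖((tw o D (Ideal.absNorm a) : ℤ) : ℂ)‖ ≤ 1 := by
    have := abs_tw_le o D (Ideal.absNorm a : ℤ)
    rwa [Complex.norm_intCast]
  rw [norm_div, norm_mul, norm_pow, Complex.norm_real, Real.norm_eq_abs,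
    abs_of_nonneg (Real.sqrt_nonneg _), div_eq_mul_inv]
  refine mul_le_of_le_one_left (inv_nonneg.2 (Real.sqrt_nonneg _)) ?_
  exact mul_le_one₀ h2 (by positivity) (pow_le_one₀ (norm_nonneg _) h1)

theorem Hm_near {o : Bool} {q D : ℕ} {ℓ C : ℝ} (h : ∀ N : ℕ, 1 ≤ N →
    |∑ m ∈ Finset.Icc 1 N, ((jacobiSym m q * tw o D (m ^ 2) : ℤ) : ℝ) / m - ℓ| ≤ C / N)
    (n : ℕ) (hn : 1 ≤ n) : |Hm o q D n - ℓ| ≤ 2 * C * (Real.sqrt n)⁻¹ := by
  have hC : 0 ≤ C := by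
    have h1 := (abs_nonneg _).trans (h 1 le_rfl)
    simpa using h1
  have h1 : 1 ≤ Nat.sqrt n := Nat.le_sqrt'.2 (by simpa using hn)
  have h2 := h (Nat.sqrt n) h1
  unfold Hm
  refine h2.trans ?_
  have h3 : Real.sqrt n ≤ Nat.sqrt n + 1 := Real.real_sqrt_le_nat_sqrt_succ
  have h4 : (1:ℝ) ≤ Nat.sqrt n := by exact_mod_cast h1
  have h5 : 0 < Real.sqrt n := Real.sqrt_pos.2 (by exact_mod_cast hn)
  rw [← div_eq_mul_inv, div_le_div_iff₀ (by linarith) h5]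
  nlinarith

theorem card_kk (hK : StKk) {κ : ℕ} (hκ : κ < 2) (K : ℕ) (h : 1 ≤ K) :
    (kk κ K).card ≤ K ∧ K ≤ 2 * (kk κ K).card + 1 := by
  obtain ⟨k₀, N, h1, h2, h3, h4, h5, h6, h7⟩ := hK κ K hκ h
  have h8 := h7 fun _ => 1
  simp only [Finset.sum_const, nsmul_eq_mul, mul_one, Finset.card_range] at h8
  have h9 : (kk κ K).card = N := by exact_mod_cast h8
  rw [h9]
  exact ⟨h3, h4⟩

end M1Aux

/-- (M1) the first moment -/
theorem stM1 (hOf : StOf) (hLd : StLd) (hCnt : StCnt) (hKk : StKk) (hU : StU) : StM1 := by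
  intro q F _ _ s σ χ cj o D ψ v κ hD hT hψ hv hκ
  obtain ⟨ℓ, C, hℓ, hC⟩ := hLd q D o hD.prime hD.mod hT
  obtain ⟨Cb, hCb, hb⟩ := M1Aux.norm_Bk_le hU hCnt q F s σ χ cj o D ψ hD hψ
  exact M1Aux.core hv (fun k n => Bk o D ψ k n) (fun n => Hm o q D n) hCb hℓ hb
    (fun n hn => M1Aux.Hm_near hC n hn) κ
    (fun C' => hOf q F _ _ s σ χ cj o D ψ v C' κ hD hT hψ hv hκ)
    (fun K hK => M1Aux.card_kk hKk hκ K hK)

end Pool.Agent.Lib.MP_7c08ba_nt.CD
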