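import Mathlib
import Pool.Agent.Lib.MP_7c08ba_nt.CD.StB

set_option autoImplicit false

/-!
Project CD, part B, module M2: the second moment.
-/

namespace Pool.Agent.Lib.MP_7c08ba_nt.CD

open NumberField IsDedekindDomain MeasureTheory Set Pool.Agent.Lib.MP_7c08ba_nt.RZ
  Pool.Agent.Lib.MP_7c08ba_nt.CN Pool.Agent.Lib.MP_7c08ba_nt.CN.TW
open scoped nonZeroDivisors ComplexConjugate

namespace M2Aux

theorem tw_le (o : Bool) (D : ℕ) (m : ℤ) : ‖(tw o D m : ℂ)‖ ≤ 1 := by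
  have h2 : (if o then ZMod.χ₄ (m : ZMod 4) else 1) = 0 ∨
      (if o then ZMod.χ₄ (m : ZMod 4) else 1) = 1 ∨
      (if o then ZMod.χ₄ (m : ZMod 4) else 1) = -1 := by
    split
    · exact ZMod.isQuadratic_χ₄ _
    · exact Or.inr (Or.inl rfl)
  unfold tw
  rcases jacobiSym.trichotomy m D with h | h | h <;> rcases h2 with h' | h' | h' <;>
    rw [h, h'] <;> simp

section

variable {F : Type} [Field F] [NumberField F]

theorem tm_le (o : Bool) (D : ℕ) (ψ : Ideal (𝓞 F) →*₀ ℂ) (k : ℕ) (a : Ideal (𝓞 F))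
    (h : ‖uu ψ a‖ ≤ 1) : ‖tm o D ψ k a‖ ≤ (Real.sqrt (Ideal.absNorm a : ℝ))⁻¹ := by
  unfold tm
  rw [norm_div, norm_mul, norm_pow, Complex.norm_real, Real.norm_of_nonneg (Real.sqrt_nonneg _),
    div_eq_mul_inv]
  have h1 : ‖(tw o D (Ideal.absNorm a) : ℂ)‖ * ‖uu ψ a‖ ^ (2 * k - 1) ≤ 1 :=
    mul_le_one₀ (tw_le o D _) (by positivity) (pow_le_one₀ (norm_nonneg _) h)
  exact mul_le_of_le_one_left (by positivity) h1

theorem Bk_le (o : Bool) (D : ℕ) (ψ : Ideal (𝓞 F) →*₀ ℂ) (h : ∀ a, a ≠ ⊥ → ‖uu ψ a‖ ≤ 1)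
    {C : ℝ} (hC : ∀ n : ℕ, 1 ≤ n →
      ∑ a ∈ ids F n, (Real.sqrt (Ideal.absNorm a : ℝ))⁻¹ ≤ C * Real.sqrt n) (k n : ℕ)
    (hn : 1 ≤ n) : ‖Bk o D ψ k n‖ ≤ C * Real.sqrt n := by
  unfold Bk
  refine (norm_sum_le _ _).trans ((Finset.sum_le_sum fun a ha => ?_).trans (hC n hn))
  exact tm_le o D ψ k a (h a (mem_ids.1 ha).1)

end

theorem harm_le (N : ℕ) : ∑ n ∈ Finset.range N, (1 : ℝ) / (n + 1) ≤ 1 + Real.log N := by
  have h1 := harmonic_le_one_add_log N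
  rw [harmonic] at h1
  push_cast at h1
  simpa [one_div] using h1

theorem summ (δ C₀ : ℝ) (hδ : 0 < δ) (hC : 0 ≤ C₀) :
    Summable fun n : ℕ => Real.exp (-(δ * (n + 1))) * (C₀ * Real.sqrt (n + 1)) := by
  have h1 : ‖Real.exp (-δ)‖ < 1 := by
    rw [Real.norm_of_nonneg (Real.exp_nonneg _), Real.exp_lt_one_iff]
    linarith
  have h2 : Summable fun n : ℕ => (n : ℝ) ^ 1 * Real.exp (-δ) ^ n :=
    summable_pow_mul_geometric_of_norm_lt_one 1 h1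
  have h2' : Summable fun n : ℕ => ((n + 1 : ℕ) : ℝ) ^ 1 * Real.exp (-δ) ^ (n + 1) :=
    (summable_nat_add_iff 1).2 h2
  have h3 : ∀ n : ℕ, Real.exp (-(δ * (n + 1))) = Real.exp (-δ) ^ (n + 1) := by
    intro n
    rw [← Real.exp_nat_mul]
    congr 1
    push_cast
    ring
  have h4 : ∀ n : ℕ, Real.sqrt (n + 1) ≤ n + 1 := by
    intro n
    rw [Real.sqrt_le_left (by positivity)]
    nlinarith [(Nat.cast_nonneg n : (0 : ℝ) ≤ n)]
  refine Summable.of_nonneg_of_le (fun n => ?_) (fun n => ?_) (h2'.mul_left C₀)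
  · exact mul_nonneg (Real.exp_nonneg _) (mul_nonneg hC (Real.sqrt_nonneg _))
  · rw [h3, pow_one]
    push_cast
    calc Real.exp (-δ) ^ (n + 1) * (C₀ * Real.sqrt (n + 1))
        ≤ Real.exp (-δ) ^ (n + 1) * (C₀ * (n + 1)) := by gcongr; exact h4 n
      _ = _ := by ring

theorem core (S : Finset ℕ) (v : ℕ → ℕ → ℝ) (B : ℕ → ℕ → ℂ) (N : ℕ) (δ C₀ Q : ℝ)
    (hδ : 0 < δ) (hC : 0 ≤ C₀)
    (h0 : ∀ k ∈ S, ∀ n, 1 ≤ n → 0 ≤ v k n) (h1 : ∀ k ∈ S, ∀ n, 1 ≤ n → v k n ≤ 1 / n)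
    (h2 : ∀ k ∈ S, ∀ n, N ≤ n → v k n ≤ Real.exp (-(δ * n)))
    (hB : ∀ k ∈ S, ∀ n, 1 ≤ n → ‖B k n‖ ≤ C₀ * Real.sqrt n)
    (hQ : ∀ n, n ≤ N → ∑ k ∈ S, ‖B k n‖ ^ 2 ≤ Q) :
    ∑ k ∈ S, ‖∑' n : ℕ, (v k (n + 1) : ℂ) * B k (n + 1)‖ ^ 2 ≤
      2 * (1 + Real.log N) ^ 2 * Q +
        2 * (∑' n : ℕ, Real.exp (-(δ * (n + 1))) * (C₀ * Real.sqrt (n + 1))) ^ 2 * S.card := by
  set g : ℕ → ℝ := fun n => Real.exp (-(δ * (n + 1))) * (C₀ * Real.sqrt (n + 1)) with hg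
  have hgs : Summable g := summ δ C₀ hδ hC
  have hg0 : ∀ n, 0 ≤ g n := fun n => by positivity
  set T := ∑' n, g n with hT
  have hT0 : 0 ≤ T := tsum_nonneg hg0
  have hQ0 : 0 ≤ Q := le_trans (Finset.sum_nonneg fun k _ => by positivity) (hQ 0 (Nat.zero_le _))
  set H := ∑ n ∈ Finset.range N, (1 : ℝ) / (n + 1) with hH
  have hH0 : 0 ≤ H := Finset.sum_nonneg fun n _ => by positivity
  have hH1 : H ≤ 1 + Real.log N := harm_le N
  have hk : ∀ k ∈ S, ‖∑' n : ℕ, (v k (n + 1) : ℂ) * B k (n + 1)‖ ^ 2 ≤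
      2 * (H * ∑ n ∈ Finset.range N, 1 / ((n : ℝ) + 1) * ‖B k (n + 1)‖ ^ 2) + 2 * T ^ 2 := by
    intro k hk
    have h3 : ∀ n, N ≤ n → ‖(v k (n + 1) : ℂ) * B k (n + 1)‖ ≤ g n := by
      intro n hn
      rw [norm_mul, Complex.norm_real, Real.norm_of_nonneg (h0 k hk _ (Nat.succ_pos n))]
      have h4 := h2 k hk (n + 1) (hn.trans (Nat.le_succ n))
      have h5 := hB k hk (n + 1) (Nat.succ_pos n)
      push_cast at h4 h5
      exact mul_le_mul h4 h5 (norm_nonneg _) (Real.exp_nonneg _)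
    have h4 : Summable fun n : ℕ => (v k (n + N + 1) : ℂ) * B k (n + N + 1) :=
      Summable.of_norm_bounded ((summable_nat_add_iff N).2 hgs)
        fun n => h3 (n + N) (Nat.le_add_left _ _)
    have h5 : Summable fun n : ℕ => (v k (n + 1) : ℂ) * B k (n + 1) :=
      (summable_nat_add_iff N).1 h4
    rw [← h5.sum_add_tsum_nat_add N]
    have h6 : ‖∑' n : ℕ, (v k (n + N + 1) : ℂ) * B k (n + N + 1)‖ ≤ T := by
      have h7 : Summable fun n : ℕ => ‖(v k (n + N + 1) : ℂ) * B k (n + N + 1)‖ :=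
        Summable.of_nonneg_of_le (fun n => norm_nonneg _)
          (fun n => h3 (n + N) (Nat.le_add_left _ _)) ((summable_nat_add_iff N).2 hgs)
      refine (norm_tsum_le_tsum_norm h7).trans ?_
      refine (h7.tsum_le_tsum (fun n => h3 (n + N) (Nat.le_add_left _ _))
        ((summable_nat_add_iff N).2 hgs)).trans ?_
      rw [hT, ← hgs.sum_add_tsum_nat_add N]
      exact le_add_of_nonneg_left (Finset.sum_nonneg fun n _ => hg0 n)
    have h7 : ‖∑ n ∈ Finset.range N, (v k (n + 1) : ℂ) * B k (n + 1)‖ ≤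
        ∑ n ∈ Finset.range N, 1 / ((n : ℝ) + 1) * ‖B k (n + 1)‖ := by
      refine (norm_sum_le _ _).trans (Finset.sum_le_sum fun n _ => ?_)
      rw [norm_mul, Complex.norm_real, Real.norm_of_nonneg (h0 k hk _ (Nat.succ_pos n))]
      have h8 := h1 k hk (n + 1) (Nat.succ_pos n)
      push_cast at h8
      exact mul_le_mul_of_nonneg_right h8 (norm_nonneg _)
    have h8 : (∑ n ∈ Finset.range N, 1 / ((n : ℝ) + 1) * ‖B k (n + 1)‖) ^ 2 ≤
        H * ∑ n ∈ Finset.range N, 1 / ((n : ℝ) + 1) * ‖B k (n + 1)‖ ^ 2 := by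
      refine Finset.sum_sq_le_sum_mul_sum_of_sq_le_mul _ (fun n _ => by positivity)
        (fun n _ => by positivity) fun n _ => le_of_eq (by ring)
    have h9 : ‖∑ n ∈ Finset.range N, (v k (n + 1) : ℂ) * B k (n + 1) +
        ∑' n : ℕ, (v k (n + N + 1) : ℂ) * B k (n + N + 1)‖ ≤
        ∑ n ∈ Finset.range N, 1 / ((n : ℝ) + 1) * ‖B k (n + 1)‖ + T :=
      (norm_add_le _ _).trans (add_le_add h7 h6)
    refine (pow_le_pow_left₀ (norm_nonneg _) h9 2).trans ?_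
    nlinarith [sq_nonneg (∑ n ∈ Finset.range N, 1 / ((n : ℝ) + 1) * ‖B k (n + 1)‖ - T)]
  refine (Finset.sum_le_sum hk).trans ?_
  rw [Finset.sum_add_distrib, Finset.sum_const, nsmul_eq_mul, ← Finset.mul_sum, ← Finset.mul_sum,
    Finset.sum_comm]
  have h3 : ∑ n ∈ Finset.range N, ∑ k ∈ S, 1 / ((n : ℝ) + 1) * ‖B k (n + 1)‖ ^ 2 ≤ H * Q := by
    rw [hH, Finset.sum_mul]
    refine Finset.sum_le_sum fun n hn => ?_
    rw [← Finset.mul_sum]
    exact mul_le_mul_of_nonneg_left (hQ (n + 1) (Finset.mem_range.1 hn)) (by positivity)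
  have h4 : H * (H * Q) ≤ (1 + Real.log N) ^ 2 * Q := by
    rw [← mul_assoc, sq]
    gcongr
  have h5 := mul_le_mul_of_nonneg_left h3 hH0
  linarith

end M2Aux

theorem stM2 (hQ : StQ) (hC : StCnt) (hU : StU) : StM2 := by
  intro q F _ _ s σ χ cj o D ψ v κ hD hT hψ hv hκ
  obtain ⟨C, δ, hC1, hδ, hdec⟩ := hv.dec
  obtain ⟨B, K₀, hB, hK₀, hBQ⟩ := hQ q F _ _ s σ χ cj o D ψ (2 * C) κ hD hT hψ hκ
  obtain ⟨C₀, hC₀, hCn⟩ := hC F _ _
  obtain ⟨hu1, hu0, -⟩ := hU q F _ _ s σ χ cj ψ hD hψ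
  have hu : ∀ a : Ideal (𝓞 F), a ≠ ⊥ → ‖uu ψ a‖ ≤ 1 := by
    intro a ha
    by_cases h : IsCoprime a (Ideal.span {s})
    · exact (hu1 a ha h).le
    · rw [hu0 a h, norm_zero]
      exact zero_le_one
  set T := ∑' n : ℕ, Real.exp (-(δ * (n + 1))) * (C₀ * Real.sqrt (n + 1)) with hT'
  have hlC : 0 ≤ Real.log (2 * C) := Real.log_nonneg (by
    have : (1 : ℝ) ≤ C := by exact_mod_cast hC1
    linarith)
  refine ⟨2 * (2 + Real.log (2 * C)) ^ 2 * B + 2 * T ^ 2, max K₀ 3, by positivity,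
    hK₀.trans (le_max_left _ _), fun K hK => ?_⟩
  have hK0 : K₀ ≤ K := (le_max_left _ _).trans hK
  have hK3 : 3 ≤ K := (le_max_right _ _).trans hK
  have hK3' : (3 : ℝ) ≤ K := by exact_mod_cast hK3
  have hlog : 1 ≤ Real.log K := by
    rw [Real.le_log_iff_exp_le (by linarith)]
    exact (Real.exp_one_lt_d9.le.trans (by norm_num)).trans hK3'
  have h1 := M2Aux.core (kk κ K) v (Bk o D ψ) (2 * C * K) δ C₀ (B * K * Real.log K ^ 3) hδ hC₀.le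
    (fun k _ n hn => hv.nn k n hn) (fun k _ n hn => hv.le k n hn)
    (fun k hk n hn => by
      have h2 := Finset.mem_Ioc.1 (Finset.mem_filter.1 hk).1
      refine hdec k n (by omega) (le_trans ?_ hn)
      calc C * k ≤ C * (2 * K) := Nat.mul_le_mul_left _ h2.2
        _ = 2 * C * K := by ring)
    (fun k _ n hn => M2Aux.Bk_le o D ψ hu (fun n hn => (hCn n hn).2.2) k n hn)
    (fun n hn => hBQ K n hK0 hn)
  refine h1.trans ?_
  have h2 : ((kk κ K).card : ℝ) ≤ K := by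
    have h3 : (kk κ K).card ≤ K := by
      refine (Finset.card_filter_le _ _).trans ?_
      rw [Nat.card_Ioc]
      omega
    exact_mod_cast h3
  have h3 : Real.log ((2 * C * K : ℕ) : ℝ) = Real.log (2 * C) + Real.log K := by
    push_cast
    rw [Real.log_mul (by positivity) (by positivity)]
  have h4 : 1 + Real.log ((2 * C * K : ℕ) : ℝ) ≤ (2 + Real.log (2 * C)) * Real.log K := by
    rw [h3]
    nlinarith
  have h5 : 0 ≤ 1 + Real.log ((2 * C * K : ℕ) : ℝ) := by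
    rw [h3]
    linarith
  have h6 : (1 + Real.log ((2 * C * K : ℕ) : ℝ)) ^ 2 ≤
      ((2 + Real.log (2 * C)) * Real.log K) ^ 2 := pow_le_pow_left₀ h5 h4 2
  have h7 : (1 : ℝ) ≤ Real.log K ^ 5 := one_le_pow₀ hlog
  have h8 : 2 * (1 + Real.log ((2 * C * K : ℕ) : ℝ)) ^ 2 * (B * K * Real.log K ^ 3) ≤
      2 * ((2 + Real.log (2 * C)) * Real.log K) ^ 2 * (B * K * Real.log K ^ 3) := by
    have : 0 ≤ B * K * Real.log K ^ 3 := by positivity
    gcongr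
  have h9 : 2 * T ^ 2 * ((kk κ K).card : ℝ) ≤ 2 * T ^ 2 * K * Real.log K ^ 5 := by
    calc 2 * T ^ 2 * ((kk κ K).card : ℝ) ≤ 2 * T ^ 2 * K := by gcongr
      _ = 2 * T ^ 2 * K * 1 := by ring
      _ ≤ _ := by gcongr
  calc 2 * (1 + Real.log ((2 * C * K : ℕ) : ℝ)) ^ 2 * (B * K * Real.log K ^ 3) +
        2 * T ^ 2 * ((kk κ K).card : ℝ) ≤ _ := add_le_add h8 h9
    _ = _ := by ring

end Pool.Agent.Lib.MP_7c08ba_nt.CD
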