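import Mathlib
import Pool.Agent.Lib.MP_7c08ba_nt.CD.StB

set_option autoImplicit false

/-!
Project CD, module MB: many of the sums are not zero.
-/

namespace Pool.Agent.Lib.MP_7c08ba_nt.CD

open NumberField IsDedekindDomain Pool.Agent.Lib.MP_7c08ba_nt.RZ
  Pool.Agent.Lib.MP_7c08ba_nt.CN Pool.Agent.Lib.MP_7c08ba_nt.CN.TW
open scoped nonZeroDivisors ComplexConjugate

namespace MBAux

open Classical in
/-- Cauchy–Schwarz for the nonzero terms. -/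
theorem cs (T : Finset ℕ) (f : ℕ → ℂ) :
    ‖∑ k ∈ T, f k‖ ^ 2 ≤ ((T.filter fun k => f k ≠ 0).card : ℝ) * ∑ k ∈ T, ‖f k‖ ^ 2 := by
  have h1 : ∑ k ∈ T, f k = ∑ k ∈ T.filter fun k => f k ≠ 0, f k :=
    (Finset.sum_filter_ne_zero T).symm
  have h2 : ‖∑ k ∈ T, f k‖ ≤ ∑ k ∈ T.filter fun k => f k ≠ 0, ‖f k‖ := by
    rw [h1]
    exact norm_sum_le _ _
  have h3 : (∑ k ∈ T.filter fun k => f k ≠ 0, ‖f k‖) ^ 2 ≤
      ((T.filter fun k => f k ≠ 0).card : ℝ) * ∑ k ∈ T.filter fun k => f k ≠ 0, ‖f k‖ ^ 2 :=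
    sq_sum_le_card_mul_sum_sq
  have h4 : ∑ k ∈ T.filter fun k => f k ≠ 0, ‖f k‖ ^ 2 ≤ ∑ k ∈ T, ‖f k‖ ^ 2 :=
    Finset.sum_le_sum_of_subset_of_nonneg (Finset.filter_subset _ _) fun _ _ _ => sq_nonneg _
  calc ‖∑ k ∈ T, f k‖ ^ 2 ≤ (∑ k ∈ T.filter fun k => f k ≠ 0, ‖f k‖) ^ 2 :=
        pow_le_pow_left₀ (norm_nonneg _) h2 2
    _ ≤ _ := h3
    _ ≤ _ := mul_le_mul_of_nonneg_left h4 (Nat.cast_nonneg _)

end MBAux

/-- (MB) many of the sums are not zero -/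
theorem stMB (hM1 : StM1) (hM2 : StM2) : StMB := by
  classical
  intro q F _ _ s σ χ cj o D ψ v κ hDat hTw hCan hWt hκ
  obtain ⟨-, δ, K1, hδ, hK1, h1⟩ := hM1 q F _ _ s σ χ cj o D ψ v κ hDat hTw hCan hWt hκ
  obtain ⟨B, K2, hB, hK2, h2⟩ := hM2 q F _ _ s σ χ cj o D ψ v κ hDat hTw hCan hWt hκ
  refine ⟨δ ^ 2 / (3 * B), 2 * (K1 + K2), by positivity, by omega, ?_⟩
  intro K hK
  obtain ⟨K', hK'⟩ : ∃ K', K' = K / 2 := ⟨_, rfl⟩
  have e1 : K1 ≤ K' := by omega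
  have e2 : K2 ≤ K' := by omega
  have e3 : K ≤ 3 * K' := by omega
  have e4 : 2 * K' ≤ K := by omega
  have e5 : 2 ≤ K' := by omega
  have f1 := h1 K' e1
  have f2 := h2 K' e2
  have f3 := MBAux.cs (kk κ K') fun k => Sk v o D ψ k
  set S := (kk κ K').filter fun k => Sk v o D ψ k ≠ 0 with hS
  have hKr : (2 : ℝ) ≤ K' := by exact_mod_cast e5
  have hlog : 0 < Real.log K' := Real.log_pos (by linarith)
  have hlogK : Real.log K' ≤ Real.log K :=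
    Real.log_le_log (by linarith) (by exact_mod_cast (by omega : K' ≤ K))
  -- the number of the nonzero terms
  have g1 : (δ * K' * Real.log K') ^ 2 ≤ (S.card : ℝ) * (B * K' * Real.log K' ^ 5) :=
    calc (δ * K' * Real.log K') ^ 2 ≤ ‖∑ k ∈ kk κ K', Sk v o D ψ k‖ ^ 2 :=
          pow_le_pow_left₀ (by positivity) f1 2
      _ ≤ _ := f3
      _ ≤ _ := mul_le_mul_of_nonneg_left f2 (Nat.cast_nonneg _)
  have g2 : δ ^ 2 * K' ≤ (S.card : ℝ) * (B * Real.log K' ^ 3) := by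
    have hpos : 0 < (K' : ℝ) * Real.log K' ^ 2 := by positivity
    refine le_of_mul_le_mul_right ?_ hpos
    calc δ ^ 2 * K' * (K' * Real.log K' ^ 2) = (δ * K' * Real.log K') ^ 2 := by ring
      _ ≤ (S.card : ℝ) * (B * K' * Real.log K' ^ 5) := g1
      _ = (S.card : ℝ) * (B * Real.log K' ^ 3) * (K' * Real.log K' ^ 2) := by ring
  have g3 : δ ^ 2 / (3 * B) * K / Real.log K ^ 3 ≤ (S.card : ℝ) := by
    have hlK : 0 < Real.log K := lt_of_lt_of_le hlog hlogK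
    rw [div_mul_eq_mul_div, div_div, div_le_iff₀ (by positivity)]
    have a1 : δ ^ 2 * (K : ℝ) ≤ 3 * (δ ^ 2 * K') := by
      have : (K : ℝ) ≤ 3 * K' := by exact_mod_cast e3
      nlinarith [sq_nonneg δ]
    have a2 : (S.card : ℝ) * (B * Real.log K' ^ 3) ≤ (S.card : ℝ) * (B * Real.log K ^ 3) := by
      have := pow_le_pow_left₀ hlog.le hlogK 3
      exact mul_le_mul_of_nonneg_left (mul_le_mul_of_nonneg_left this hB.le) (Nat.cast_nonneg _)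
    linarith
  refine g3.trans ?_
  have hfin : {k : ℕ | 1 ≤ k ∧ k ≤ K ∧ k % 2 = κ ∧ Sk v o D ψ k ≠ 0}.Finite :=
    (Set.finite_le_nat K).subset fun k hk => hk.2.1
  have hsub : (S : Set ℕ) ⊆ {k : ℕ | 1 ≤ k ∧ k ≤ K ∧ k % 2 = κ ∧ Sk v o D ψ k ≠ 0} := by
    intro k hk
    rw [Finset.mem_coe, hS, Finset.mem_filter, kk, Finset.mem_filter, Finset.mem_Ioc] at hk
    exact ⟨by omega, by omega, hk.1.2, hk.2⟩
  have hle := Set.ncard_le_ncard hsub hfin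
  rw [Set.ncard_coe_finset] at hle
  exact_mod_cast hle

end Pool.Agent.Lib.MP_7c08ba_nt.CD
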