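import Mathlib
import Pool.Agent.Lib.MP_7c08ba_nt.CD.StB

set_option autoImplicit false

/-!
Project CD, module Q: mean squares of the sums over the ideals of bounded norm, by the large sieve.
-/

namespace Pool.Agent.Lib.MP_7c08ba_nt.CD

open NumberField IsDedekindDomain MeasureTheory Set Pool.Agent.Lib.MP_7c08ba_nt.RZ
  Pool.Agent.Lib.MP_7c08ba_nt.CN Pool.Agent.Lib.MP_7c08ba_nt.CN.TW
open scoped nonZeroDivisors ComplexConjugate

namespace QAux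

theorem norm_jac_le (m : ℤ) (q : ℕ) : ‖(jacobiSym m q : ℂ)‖ ≤ 1 := by
  rcases jacobiSym.trichotomy m q with h | h | h <;> rw [h] <;> simp

theorem norm_tw_le (o : Bool) (D : ℕ) (m : ℤ) : ‖(tw o D m : ℂ)‖ ≤ 1 := by
  have h4 : ∀ x : ZMod 4, ZMod.χ₄ x = 0 ∨ ZMod.χ₄ x = 1 ∨ ZMod.χ₄ x = -1 := by decide
  unfold tw
  push_cast
  rw [norm_mul]
  refine mul_le_one₀ (norm_jac_le m D) (norm_nonneg _) ?_
  cases o
  · simp
  · rcases h4 (m : ZMod 4) with h | h | h <;> simp [h]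

section

variable {F : Type} [Field F] [NumberField F]

open Classical in
/-- The class of an ideal. -/
noncomputable def cls (a : Ideal (𝓞 F)) : ClassGroup (𝓞 F) :=
  if h : a ∈ (Ideal (𝓞 F))⁰ then ClassGroup.mk0 ⟨a, h⟩ else 1

theorem cls_eq {a b : Ideal (𝓞 F)} (ha : a ≠ ⊥) (hb : b ≠ ⊥) (h : cls a = cls b) :
    ClassGroup.mk0 (⟨a, mem_nonZeroDivisors_of_ne_zero ha⟩ : (Ideal (𝓞 F))⁰) =
      ClassGroup.mk0 (⟨b, mem_nonZeroDivisors_of_ne_zero hb⟩ : (Ideal (𝓞 F))⁰) := by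
  unfold cls at h
  rwa [dif_pos (mem_nonZeroDivisors_of_ne_zero ha), dif_pos (mem_nonZeroDivisors_of_ne_zero hb)]
    at h

theorem mem_prs {s : 𝓞 F} {n : ℕ} {a : Ideal (𝓞 F)} :
    a ∈ prs s n ↔ (a ≠ ⊥ ∧ Ideal.absNorm a ≤ n) ∧ Prm a ∧ IsCoprime a (Ideal.span {s}) := by
  classical
  unfold prs
  simp only [Finset.mem_filter, mem_ids]

theorem absNorm_pos {a : Ideal (𝓞 F)} (ha : a ≠ ⊥) : 1 ≤ Ideal.absNorm a := by
  rw [Nat.one_le_iff_ne_zero, Ne, Ideal.absNorm_eq_zero_iff]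
  exact ha

/-- Mean squares of sums over the primitive ideals. -/
theorem sieve {s : 𝓞 F} {ψ : Ideal (𝓞 F) →*₀ ℂ}
    (hu : ∀ a : Ideal (𝓞 F), a ≠ ⊥ → IsCoprime a (Ideal.span {s}) → ‖uu ψ a‖ = 1)
    (hsp : ∀ a b : (Ideal (𝓞 F))⁰, Prm (a : Ideal (𝓞 F)) → Prm (b : Ideal (𝓞 F)) →
      IsCoprime (a : Ideal (𝓞 F)) (Ideal.span {s}) → IsCoprime (b : Ideal (𝓞 F)) (Ideal.span {s}) →
      ClassGroup.mk0 a = ClassGroup.mk0 b → a ≠ b →
      1 / Real.sqrt ((Ideal.absNorm (a : Ideal (𝓞 F)) : ℝ) * Ideal.absNorm (b : Ideal (𝓞 F))) ≤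
        ‖uu ψ a ^ 4 - uu ψ b ^ 4‖) {C₂ C₁ : ℝ} (hC₂ : 0 < C₂)
    (hL : ∀ (ι : Type) (S : Finset ι) (z b : ι → ℂ) (δ : ℝ) (N : ℕ), 0 < δ → 1 ≤ N →
      (∀ i ∈ S, ‖z i‖ = 1) → (∀ i ∈ S, ∀ j ∈ S, i ≠ j → δ ≤ ‖z i - z j‖) →
      ∑ m ∈ Finset.range N, ‖∑ i ∈ S, b i * z i ^ m‖ ^ 2 ≤
        C₂ * (N + 1 / δ) * ∑ i ∈ S, ‖b i‖ ^ 2)
    {n : ℕ} (hn : 1 ≤ n)
    (hC : ∑ a ∈ ids F n, (Ideal.absNorm a : ℝ)⁻¹ ≤ C₁ * (1 + Real.log n))
    (w : Ideal (𝓞 F) → ℂ) (hw : ∀ a, ‖w a‖ ≤ 1) {k₀ N Y : ℕ} (hk : 1 ≤ k₀) (hN : 1 ≤ N)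
    (hY : Y ≤ n) :
    ∑ j ∈ Finset.range N, ‖∑ a ∈ prs s Y, w a * uu ψ a ^ (2 * (k₀ + 2 * j) - 1) /
      (Real.sqrt (Ideal.absNorm a) : ℂ)‖ ^ 2 ≤
      (Fintype.card (ClassGroup (𝓞 F)) : ℝ) * (C₂ * (N + n) * (C₁ * (1 + Real.log n))) := by
  classical
  set b : Ideal (𝓞 F) → ℂ := fun a => w a * uu ψ a ^ (2 * k₀ - 1) /
    (Real.sqrt (Ideal.absNorm a) : ℂ) with hb
  have hterm : ∀ (j : ℕ) (a : Ideal (𝓞 F)), w a * uu ψ a ^ (2 * (k₀ + 2 * j) - 1) /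
      (Real.sqrt (Ideal.absNorm a) : ℂ) = b a * (uu ψ a ^ 4) ^ j := by
    intro j a
    have h1 : 2 * (k₀ + 2 * j) - 1 = (2 * k₀ - 1) + 4 * j := by omega
    rw [hb, h1, pow_add, pow_mul]
    ring
  have hn0 : (0 : ℝ) < n := by exact_mod_cast hn
  have hclass : ∀ c : ClassGroup (𝓞 F),
      ∑ j ∈ Finset.range N, ‖∑ a ∈ (prs s Y).filter (fun a => cls a = c),
        b a * (uu ψ a ^ 4) ^ j‖ ^ 2 ≤
      C₂ * (N + n) * ∑ a ∈ (prs s Y).filter (fun a => cls a = c), ‖b a‖ ^ 2 := by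
    intro c
    have h := hL (Ideal (𝓞 F)) ((prs s Y).filter (fun a => cls a = c)) (fun a => uu ψ a ^ 4) b
      (1 / n) N (by positivity) hN ?_ ?_
    · rwa [one_div_one_div] at h
    · intro a ha
      obtain ⟨⟨h0, -⟩, -, hco⟩ := mem_prs.1 (Finset.mem_filter.1 ha).1
      rw [norm_pow, hu a h0 hco, one_pow]
    · intro a ha a' ha' hne
      obtain ⟨ha1, ha2⟩ := Finset.mem_filter.1 ha
      obtain ⟨ha1', ha2'⟩ := Finset.mem_filter.1 ha'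
      obtain ⟨⟨h0, hle⟩, hp, hco⟩ := mem_prs.1 ha1
      obtain ⟨⟨h0', hle'⟩, hp', hco'⟩ := mem_prs.1 ha1'
      have h3 := hsp ⟨a, mem_nonZeroDivisors_of_ne_zero h0⟩ ⟨a', mem_nonZeroDivisors_of_ne_zero h0'⟩
        hp hp' hco hco' (cls_eq h0 h0' (ha2.trans ha2'.symm))
        (fun h => hne (congrArg Subtype.val h))
      refine le_trans ?_ h3
      have hpos : (0 : ℝ) < (Ideal.absNorm a : ℝ) * Ideal.absNorm a' := by
        have h4 := absNorm_pos h0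
        have h5 := absNorm_pos h0'
        positivity
      refine one_div_le_one_div_of_le (Real.sqrt_pos.2 hpos) ?_
      rw [Real.sqrt_le_left hn0.le, sq]
      have h6 : (Ideal.absNorm a : ℝ) ≤ n := by exact_mod_cast hle.trans hY
      have h7 : (Ideal.absNorm a' : ℝ) ≤ n := by exact_mod_cast hle'.trans hY
      exact mul_le_mul h6 h7 (Nat.cast_nonneg _) hn0.le
  have hbsum : ∑ a ∈ prs s Y, ‖b a‖ ^ 2 ≤ C₁ * (1 + Real.log n) := by
    refine le_trans ?_ hC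
    have hsub : prs s Y ⊆ ids F n := by
      intro a ha
      obtain ⟨⟨h0, hle⟩, -, -⟩ := mem_prs.1 ha
      exact mem_ids.2 ⟨h0, hle.trans hY⟩
    refine le_trans (Finset.sum_le_sum fun a ha => ?_)
      (Finset.sum_le_sum_of_subset_of_nonneg hsub fun a _ _ => by positivity)
    obtain ⟨⟨h0, hle⟩, hp, hco⟩ := mem_prs.1 ha
    have hpos : (0 : ℝ) < (Ideal.absNorm a : ℝ) := by exact_mod_cast absNorm_pos h0
    rw [hb]
    change ‖w a * uu ψ a ^ (2 * k₀ - 1) / (Real.sqrt (Ideal.absNorm a) : ℂ)‖ ^ 2 ≤ _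
    rw [norm_div, norm_mul, norm_pow, hu a h0 hco, one_pow, mul_one, Complex.norm_real,
      Real.norm_of_nonneg (Real.sqrt_nonneg _), div_pow, Real.sq_sqrt hpos.le, div_eq_mul_inv]
    have h8 : ‖w a‖ ^ 2 ≤ 1 := pow_le_one₀ (norm_nonneg _) (hw a)
    exact mul_le_of_le_one_left (by positivity) h8
  calc ∑ j ∈ Finset.range N, ‖∑ a ∈ prs s Y, w a * uu ψ a ^ (2 * (k₀ + 2 * j) - 1) /
        (Real.sqrt (Ideal.absNorm a) : ℂ)‖ ^ 2
      ≤ ∑ j ∈ Finset.range N, (Fintype.card (ClassGroup (𝓞 F)) : ℝ) *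
          ∑ c : ClassGroup (𝓞 F), ‖∑ a ∈ (prs s Y).filter (fun a => cls a = c),
            b a * (uu ψ a ^ 4) ^ j‖ ^ 2 := by
        refine Finset.sum_le_sum fun j _ => ?_
        rw [Finset.sum_congr rfl fun a _ => hterm j a,
          ← Finset.sum_fiberwise (prs s Y) cls fun a => b a * (uu ψ a ^ 4) ^ j]
        refine le_trans (pow_le_pow_left₀ (norm_nonneg _) (norm_sum_le _ _) 2) ?_
        exact sq_sum_le_card_mul_sum_sq
    _ = (Fintype.card (ClassGroup (𝓞 F)) : ℝ) * ∑ c : ClassGroup (𝓞 F),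
          ∑ j ∈ Finset.range N, ‖∑ a ∈ (prs s Y).filter (fun a => cls a = c),
            b a * (uu ψ a ^ 4) ^ j‖ ^ 2 := by
        rw [← Finset.mul_sum, Finset.sum_comm]
    _ ≤ (Fintype.card (ClassGroup (𝓞 F)) : ℝ) * ∑ c : ClassGroup (𝓞 F),
          C₂ * (N + n) * ∑ a ∈ (prs s Y).filter (fun a => cls a = c), ‖b a‖ ^ 2 := by
        gcongr with c
        exact hclass c
    _ = (Fintype.card (ClassGroup (𝓞 F)) : ℝ) * (C₂ * (N + n) * ∑ a ∈ prs s Y, ‖b a‖ ^ 2) := by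
        rw [← Finset.mul_sum, ← Finset.sum_fiberwise (prs s Y) cls fun a => ‖b a‖ ^ 2]
    _ ≤ _ := by gcongr

/-- The terms at `(m) a`. -/
theorem tm_mul (hfin : Module.finrank ℚ F = 2) (o : Bool) (D q : ℕ) {ψ : Ideal (𝓞 F) →*₀ ℂ}
    (hm : ∀ a b : Ideal (𝓞 F), uu ψ (a * b) = uu ψ a * uu ψ b)
    (hj : ∀ m : ℕ, 1 ≤ m → uu ψ (Ideal.span {(m : 𝓞 F)}) = (jacobiSym m q : ℂ))
    (k : ℕ) {m : ℕ} (h1 : 1 ≤ m) (a : Ideal (𝓞 F)) :
    tm o D ψ k (Ideal.span {(m : 𝓞 F)} * a) = (jacobiSym m q : ℂ) ^ (2 * k - 1) / m *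
      ((tw o D (Ideal.absNorm (Ideal.span {(m : 𝓞 F)} * a)) : ℂ) * uu ψ a ^ (2 * k - 1) /
        (Real.sqrt (Ideal.absNorm a) : ℂ)) := by
  have hr : Module.finrank ℤ (𝓞 F) = 2 := by rw [RingOfIntegers.rank, hfin]
  have hN : (Real.sqrt (Ideal.absNorm (Ideal.span {(m : 𝓞 F)} * a)) : ℝ) =
      m * Real.sqrt (Ideal.absNorm a) := by
    rw [map_mul, Ideal.absNorm_span_natCast, hr, Nat.cast_mul, Nat.cast_pow,
      Real.sqrt_mul (by positivity), Real.sqrt_sq (Nat.cast_nonneg _)]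
  unfold tm
  rw [hm, hj m h1, mul_pow, hN]
  push_cast
  have hm0 : (m : ℂ) ≠ 0 := by exact_mod_cast (by omega : m ≠ 0)
  rw [div_mul_div_comm]
  congr 1
  ring

end

end QAux

open QAux in
theorem stQ (hU : StU) (hDc : StDc) (hSp : StSp) (hL : StLsv) (hC : StCnt) (hKk : StKk) :
    StQ := by
  intro q F _ _ s σ χ cj o D ψ C κ hD hT hcan hκ
  obtain ⟨hu1, hu0, hum, -, huj, -⟩ := hU q F _ _ s σ χ cj ψ hD hcan
  have hsp := hSp q F _ _ s σ χ cj ψ hD hcan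
  obtain ⟨C₂, hC₂, hL⟩ := hL
  obtain ⟨C₁, hC₁, hC⟩ := hC F _ _
  set h : ℝ := (Fintype.card (ClassGroup (𝓞 F)) : ℝ) with hh
  have hh0 : 0 < h := by
    rw [hh]
    exact_mod_cast Fintype.card_pos
  set A : ℝ := 2 + Real.log (C + 1) with hA
  have hA0 : 2 ≤ A := by
    have : 0 ≤ Real.log ((C : ℝ) + 1) := Real.log_nonneg (by linarith [Nat.cast_nonneg (α := ℝ) C])
    rw [hA]
    linarith
  refine ⟨h * C₂ * (1 + C) * C₁ * A ^ 3, 3, by positivity, by norm_num, ?_⟩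
  intro K n hK hn
  have hK0 : (0 : ℝ) < K := by exact_mod_cast (by omega : 0 < K)
  have hlogK : 1 ≤ Real.log K := by
    rw [Real.le_log_iff_exp_le hK0]
    have h1 : Real.exp 1 < 3 := lt_trans Real.exp_one_lt_d9 (by norm_num)
    have h2 : (3 : ℝ) ≤ K := by exact_mod_cast hK
    linarith
  rcases Nat.eq_zero_or_pos n with rfl | hn1
  · -- `n = 0`
    have h0 : ∀ k, Bk o D ψ k 0 = 0 := by
      intro k
      unfold Bk
      refine Finset.sum_eq_zero fun a ha => ?_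
      obtain ⟨h1, h2⟩ := mem_ids.1 ha
      have := absNorm_pos h1
      omega
    rw [Finset.sum_eq_zero fun k _ => by rw [h0 k, norm_zero]; norm_num]
    positivity
  have hnR : (0 : ℝ) < n := by exact_mod_cast hn1
  obtain ⟨k₀, N, hk1, hk2, hNK, hKN, -, -, hsum⟩ := hKk κ K hκ (by omega)
  have hN1 : 1 ≤ N := by omega
  -- the sums over the primitive ideals
  set W : ℕ → Ideal (𝓞 F) → ℂ := fun m a =>
    (tw o D (Ideal.absNorm (Ideal.span {(m : 𝓞 F)} * a)) : ℂ) with hW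
  set P : ℕ → ℕ → ℂ := fun m k => ∑ a ∈ prs s (n / m ^ 2), W m a * uu ψ a ^ (2 * k - 1) /
    (Real.sqrt (Ideal.absNorm a) : ℂ) with hP
  have hBk : ∀ k, 1 ≤ k → Bk o D ψ k n =
      ∑ m ∈ Finset.Icc 1 n, (jacobiSym m q : ℂ) ^ (2 * k - 1) / m * P m k := by
    intro k hk
    unfold Bk
    rw [hDc q F _ _ s σ χ cj (tm o D ψ k) n hD]
    · refine Finset.sum_congr rfl fun m hm => ?_
      rw [hP]
      change _ = _ * ∑ a ∈ prs s (n / m ^ 2), W m a * uu ψ a ^ (2 * k - 1) /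
        (Real.sqrt (Ideal.absNorm a) : ℂ)
      rw [Finset.mul_sum]
      exact Finset.sum_congr rfl fun a _ =>
        tm_mul hD.fin o D q hum huj k (Finset.mem_Icc.1 hm).1 a
    · intro a ha
      unfold tm
      rw [hu0 a ha, zero_pow (by omega), mul_zero, zero_div]
  have hnorm : ∀ k, 1 ≤ k → ‖Bk o D ψ k n‖ ^ 2 ≤
      (1 + Real.log n) * ∑ m ∈ Finset.Icc 1 n, (m : ℝ)⁻¹ * ‖P m k‖ ^ 2 := by
    intro k hk
    have h1 : ‖Bk o D ψ k n‖ ≤ ∑ m ∈ Finset.Icc 1 n, (m : ℝ)⁻¹ * ‖P m k‖ := by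
      rw [hBk k hk]
      refine (norm_sum_le _ _).trans (Finset.sum_le_sum fun m _ => ?_)
      rw [norm_mul, norm_div, norm_pow, Complex.norm_natCast, div_eq_mul_inv]
      refine mul_le_mul_of_nonneg_right ?_ (norm_nonneg _)
      exact mul_le_of_le_one_left (by positivity) (pow_le_one₀ (norm_nonneg _) (norm_jac_le _ _))
    have h2 : (∑ m ∈ Finset.Icc 1 n, (m : ℝ)⁻¹ * ‖P m k‖) ^ 2 ≤
        (∑ m ∈ Finset.Icc 1 n, (m : ℝ)⁻¹) * ∑ m ∈ Finset.Icc 1 n, (m : ℝ)⁻¹ * ‖P m k‖ ^ 2 := by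
      refine Finset.sum_sq_le_sum_mul_sum_of_sq_le_mul _ (fun m _ => by positivity)
        (fun m _ => by positivity) fun m _ => le_of_eq ?_
      ring
    have h3 : ∑ m ∈ Finset.Icc 1 n, (m : ℝ)⁻¹ ≤ 1 + Real.log n := by
      have h4 := harmonic_le_one_add_log n
      rw [harmonic_eq_sum_Icc] at h4
      push_cast at h4
      exact h4
    refine (pow_le_pow_left₀ (norm_nonneg _) h1 2).trans (h2.trans ?_)
    exact mul_le_mul_of_nonneg_right h3 (Finset.sum_nonneg fun m _ => by positivity)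
  have hsieve : ∀ m, ∑ k ∈ kk κ K, ‖P m k‖ ^ 2 ≤
      h * (C₂ * (N + n) * (C₁ * (1 + Real.log n))) := by
    intro m
    rw [hsum fun k => ‖P m k‖ ^ 2]
    exact sieve hu1 hsp hC₂ hL hn1 (hC n hn1).2.1 (W m) (fun a => norm_tw_le _ _ _) (by omega) hN1
      (Nat.div_le_self _ _)
  have hlogn0 : 0 ≤ Real.log n := Real.log_nonneg (by exact_mod_cast hn1)
  have hlogn : 1 + Real.log n ≤ A * Real.log K := by
    have h1 : (n : ℝ) ≤ (C + 1) * K := by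
      have : (n : ℝ) ≤ C * K := by exact_mod_cast hn
      nlinarith
    have h2 := Real.log_le_log hnR h1
    rw [Real.log_mul (by positivity) hK0.ne'] at h2
    have h3 : 0 ≤ Real.log ((C : ℝ) + 1) :=
      Real.log_nonneg (by linarith [Nat.cast_nonneg (α := ℝ) C])
    rw [hA]
    nlinarith
  have hNn : ((N : ℝ) + n) ≤ (1 + C) * K := by
    have h1 : (N : ℝ) ≤ K := by exact_mod_cast hNK
    have h2 : (n : ℝ) ≤ C * K := by exact_mod_cast hn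
    linarith
  have h3 : ∑ m ∈ Finset.Icc 1 n, (m : ℝ)⁻¹ ≤ 1 + Real.log n := by
    have h4 := harmonic_le_one_add_log n
    rw [harmonic_eq_sum_Icc] at h4
    push_cast at h4
    exact h4
  calc ∑ k ∈ kk κ K, ‖Bk o D ψ k n‖ ^ 2
      ≤ ∑ k ∈ kk κ K, (1 + Real.log n) * ∑ m ∈ Finset.Icc 1 n, (m : ℝ)⁻¹ * ‖P m k‖ ^ 2 := by
        refine Finset.sum_le_sum fun k hk => hnorm k ?_
        have := (Finset.mem_Ioc.1 (Finset.mem_filter.1 hk).1).1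
        omega
    _ = (1 + Real.log n) * ∑ m ∈ Finset.Icc 1 n, (m : ℝ)⁻¹ * ∑ k ∈ kk κ K, ‖P m k‖ ^ 2 := by
        rw [← Finset.mul_sum, Finset.sum_comm]
        simp_rw [Finset.mul_sum]
    _ ≤ (1 + Real.log n) * ∑ m ∈ Finset.Icc 1 n, (m : ℝ)⁻¹ *
          (h * (C₂ * (N + n) * (C₁ * (1 + Real.log n)))) := by
        gcongr with m
        exact hsieve m
    _ = (1 + Real.log n) * ((∑ m ∈ Finset.Icc 1 n, (m : ℝ)⁻¹) *
          (h * (C₂ * (N + n) * (C₁ * (1 + Real.log n))))) := by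
        rw [Finset.sum_mul]
    _ ≤ (A * Real.log K) * ((A * Real.log K) *
          (h * (C₂ * ((1 + C) * K) * (C₁ * (A * Real.log K))))) := by
        gcongr
        exact h3.trans hlogn
    _ = h * C₂ * (1 + C) * C₁ * A ^ 3 * K * Real.log K ^ 3 := by ring

end Pool.Agent.Lib.MP_7c08ba_nt.CD
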