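import Mathlib
import Pool.Agent.Lib.MP_7c08ba_nt.CD.StB
import Pool.Agent.Lib.MP_7c08ba_nt.CD.BQ

set_option autoImplicit false

/-!
Project CD, module Of: the average over `k` of the sums over the ideals of norm at most `n`; all
the ideals except the ideals `(m)`.
-/

namespace Pool.Agent.Lib.MP_7c08ba_nt.CD

open NumberField IsDedekindDomain MeasureTheory Set Pool.Agent.Lib.MP_7c08ba_nt.RZ
  Pool.Agent.Lib.MP_7c08ba_nt.CN Pool.Agent.Lib.MP_7c08ba_nt.CN.TW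
open scoped nonZeroDivisors ComplexConjugate

namespace OfAux

theorem jac_pow (m : ℤ) (q k : ℕ) (hk : 1 ≤ k) :
    (jacobiSym m q : ℂ) ^ (2 * k - 1) = (jacobiSym m q : ℂ) := by
  obtain ⟨j, rfl⟩ : ∃ j, k = j + 1 := ⟨k - 1, by omega⟩
  have e : 2 * (j + 1) - 1 = 2 * j + 1 := by omega
  rw [e]
  rcases jacobiSym.trichotomy m q with h | h | h <;> rw [h]
  · push_cast
    rw [zero_pow (by omega)]
  · push_cast
    rw [one_pow]
  · push_cast
    rw [pow_succ, pow_mul]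
    norm_num

section

variable {F : Type} [Field F] [NumberField F]

theorem absNorm_nat (hfin : Module.finrank ℚ F = 2) (m : ℕ) :
    Ideal.absNorm (Ideal.span {(m : 𝓞 F)}) = m ^ 2 := by
  have hr : Module.finrank ℤ (𝓞 F) = 2 := by rw [RingOfIntegers.rank, hfin]
  rw [Ideal.absNorm_span_natCast, hr]

theorem prm_one (hfin : Module.finrank ℚ F = 2) : Prm (1 : Ideal (𝓞 F)) := by
  refine ⟨one_ne_zero, fun m hm => ?_⟩
  have h1 := map_dvd (Ideal.absNorm (S := 𝓞 F)) hm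
  rw [absNorm_nat hfin, map_one] at h1
  have h2 : m ^ 2 = 1 := Nat.dvd_one.1 h1
  have h3 : m ∣ 1 := by
    rw [← h2]
    exact dvd_pow_self m (by norm_num)
  exact Nat.dvd_one.1 h3

theorem one_mem_prs (hfin : Module.finrank ℚ F = 2) {s : 𝓞 F} {n : ℕ} (hn : 1 ≤ n) :
    (1 : Ideal (𝓞 F)) ∈ prs s n := by
  rw [QAux.mem_prs]
  refine ⟨⟨one_ne_zero, ?_⟩, prm_one hfin, isCoprime_one_left⟩
  rw [map_one]
  exact hn

theorem prs_zero {s : 𝓞 F} : prs s 0 = ∅ := by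
  refine Finset.eq_empty_of_forall_notMem fun a ha => ?_
  rw [QAux.mem_prs] at ha
  have := QAux.absNorm_pos ha.1.1
  omega

end

theorem filter_sq (n : ℕ) :
    (Finset.Icc 1 n).filter (fun m => m ^ 2 ≤ n) = Finset.Icc 1 (Nat.sqrt n) := by
  ext m
  rw [Finset.mem_filter, Finset.mem_Icc, Finset.mem_Icc, ← Nat.le_sqrt']
  constructor
  · rintro ⟨⟨h1, h2⟩, h3⟩
    exact ⟨h1, h3⟩
  · rintro ⟨h1, h2⟩
    exact ⟨⟨h1, h2.trans (Nat.sqrt_le_self n)⟩, h2⟩

end OfAux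

open OfAux in
/-- (Of) the average over `k` of the sums over the ideals of norm at most `n` -/
theorem stOf (hU : StU) (hDc : StDc) (hAb : StAb) (hKk : StKk) (hE0 : StE0) (hLb : StLb) :
    StOf := by
  classical
  intro q F _ _ s σ χ cj o D ψ v C κ hD hT hcan hW hκ
  obtain ⟨hu1, hu0, hum, -, huj, -⟩ := hU q F _ _ s σ χ cj ψ hD hcan
  obtain ⟨B, K₀, hB, hK₀2, hE⟩ := hE0 q F _ _ s σ χ cj ψ C hD hcan
  obtain ⟨δ, h, hδ, hL⟩ := hLb q F _ _ s σ χ cj ψ hD hcan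
  set A : ℝ := 2 + Real.log (C + 1) with hA
  have hA0 : 2 ≤ A := by
    have : 0 ≤ Real.log ((C : ℝ) + 1) := Real.log_nonneg (by linarith [Nat.cast_nonneg (α := ℝ) C])
    rw [hA]
    linarith
  refine ⟨A * B, max K₀ 3, by positivity, by omega, ?_⟩
  intro K n hK hn1 hn
  have hKK : K₀ ≤ K := le_trans (le_max_left _ _) hK
  have hK3 : 3 ≤ K := le_trans (le_max_right _ _) hK
  have hK0 : (0 : ℝ) < K := by exact_mod_cast (by omega : 0 < K)
  have hlogK : 1 ≤ Real.log K := by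
    rw [Real.le_log_iff_exp_le hK0]
    have h1 : Real.exp 1 < 3 := lt_trans Real.exp_one_lt_d9 (by norm_num)
    have h2 : (3 : ℝ) ≤ K := by exact_mod_cast hK3
    linarith
  have hnR : (0 : ℝ) < n := by exact_mod_cast hn1
  have hu_one : uu ψ (1 : Ideal (𝓞 F)) = 1 := by
    have h1 := huj 1 le_rfl
    rw [Nat.cast_one, Ideal.span_singleton_one, Nat.cast_one, jacobiSym.one_left, Int.cast_one]
      at h1
    rw [Ideal.one_eq_top]
    exact h1
  -- the terms at the ideals `(m)`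
  have hterm1 : ∀ k : ℕ, 1 ≤ k → ∀ m : ℕ, 1 ≤ m →
      tm o D ψ k (Ideal.span {(m : 𝓞 F)} * 1) =
      (((jacobiSym m q * tw o D (m ^ 2) : ℤ) : ℝ) / m : ℝ) := by
    intro k hk m hm
    rw [QAux.tm_mul hD.fin o D q hum huj k hm, mul_one, absNorm_nat hD.fin, jac_pow _ _ _ hk,
      hu_one, one_pow, map_one]
    push_cast
    rw [Real.sqrt_one]
    push_cast
    ring
  have hBk : ∀ k, 1 ≤ k → Bk o D ψ k n - Hm o q D n =
      ∑ m ∈ Finset.Icc 1 n, ∑ a ∈ (prs s (n / m ^ 2)).erase 1,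
        tm o D ψ k (Ideal.span {(m : 𝓞 F)} * a) := by
    intro k hk
    have e1 : Bk o D ψ k n = ∑ m ∈ Finset.Icc 1 n, ∑ a ∈ prs s (n / m ^ 2),
        tm o D ψ k (Ideal.span {(m : 𝓞 F)} * a) := by
      unfold Bk
      refine hDc q F _ _ s σ χ cj (tm o D ψ k) n hD fun a ha => ?_
      unfold tm
      rw [hu0 a ha, zero_pow (by omega), mul_zero, zero_div]
    have e2 : ∀ m ∈ Finset.Icc 1 n, ∑ a ∈ prs s (n / m ^ 2),
        tm o D ψ k (Ideal.span {(m : 𝓞 F)} * a) =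
        (if m ^ 2 ≤ n then ((((jacobiSym m q * tw o D (m ^ 2) : ℤ) : ℝ) / m : ℝ) : ℂ) else 0) +
          ∑ a ∈ (prs s (n / m ^ 2)).erase 1, tm o D ψ k (Ideal.span {(m : 𝓞 F)} * a) := by
      intro m hm
      have hm1 := (Finset.mem_Icc.1 hm).1
      have hm2 : 0 < m ^ 2 := by positivity
      split_ifs with hc
      · rw [← Finset.add_sum_erase _ _
          (one_mem_prs hD.fin (s := s) (Nat.div_pos hc hm2 : 1 ≤ n / m ^ 2)), hterm1 k hk m hm1]
      · rw [Nat.div_eq_of_lt (not_le.1 hc), prs_zero]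
        simp
    have e3 : ((Hm o q D n : ℝ) : ℂ) = ∑ m ∈ Finset.Icc 1 n,
        (if m ^ 2 ≤ n then ((((jacobiSym m q * tw o D (m ^ 2) : ℤ) : ℝ) / m : ℝ) : ℂ) else 0) := by
      unfold Hm
      rw [← Finset.sum_filter, filter_sq]
      push_cast
      rfl
    rw [e1, Finset.sum_congr rfl e2, Finset.sum_add_distrib, e3]
    ring
  obtain ⟨k₀, N, hk1, hk2, hNK, hKN, hkN, hsumC, -⟩ := hKk κ K hκ (by omega)
  -- one ideal
  have hone : ∀ m ∈ Finset.Icc 1 n, ∀ a ∈ (prs s (n / m ^ 2)).erase 1,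
      ‖∑ k ∈ kk κ K, (v k n : ℂ) * tm o D ψ k (Ideal.span {(m : 𝓞 F)} * a)‖ ≤
        (m : ℝ)⁻¹ * (n : ℝ)⁻¹ * ((Real.sqrt (Ideal.absNorm a : ℝ))⁻¹ *
          min (K : ℝ) (4 / ‖1 - uu ψ a ^ 4‖)) := by
    intro m hm a ha
    have hm1 := (Finset.mem_Icc.1 hm).1
    obtain ⟨ha1, ha2⟩ := Finset.mem_erase.1 ha
    obtain ⟨⟨h0, hle⟩, hp, hco⟩ := QAux.mem_prs.1 ha2
    have hua : ‖uu ψ a‖ = 1 := hu1 a h0 hco
    have hz1 : ‖uu ψ a ^ 4‖ = 1 := by rw [norm_pow, hua, one_pow]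
    have hna : (0 : ℝ) < Ideal.absNorm a := by exact_mod_cast QAux.absNorm_pos h0
    have hz2 : uu ψ a ^ 4 ≠ 1 := by
      intro hz
      have h1 := hL a hp hco ha1
      rw [hz, sub_self, norm_zero] at h1
      have h2 : 0 < δ / (Ideal.absNorm a : ℝ) ^ h := by positivity
      linarith
    have hmono : Monotone fun j : ℕ => v (k₀ + 2 * j) n := by
      refine monotone_nat_of_le_succ fun j => ?_
      have h1 := hW.mono (k₀ + 2 * j) n hn1
      have h2 := hW.mono (k₀ + 2 * j + 1) n hn1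
      exact h1.trans h2
    have hAb' := hAb (fun j : ℕ => v (k₀ + 2 * j) n) (uu ψ a ^ 4) N hz1 hz2
      (fun j => hW.nn _ n hn1) hmono
    have hterm : ∀ j : ℕ, (v (k₀ + 2 * j) n : ℂ) *
        tm o D ψ (k₀ + 2 * j) (Ideal.span {(m : 𝓞 F)} * a) =
        ((jacobiSym m q : ℂ) / m * (tw o D (Ideal.absNorm (Ideal.span {(m : 𝓞 F)} * a)) : ℂ) *
          uu ψ a ^ (2 * k₀ - 1) / (Real.sqrt (Ideal.absNorm a) : ℂ)) *
          ((v (k₀ + 2 * j) n : ℂ) * (uu ψ a ^ 4) ^ j) := by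
      intro j
      rw [QAux.tm_mul hD.fin o D q hum huj _ hm1, jac_pow _ _ _ (by omega)]
      have h1 : 2 * (k₀ + 2 * j) - 1 = (2 * k₀ - 1) + 4 * j := by omega
      rw [h1, pow_add, pow_mul]
      ring
    rw [hsumC, Finset.sum_congr rfl fun j _ => hterm j, ← Finset.mul_sum, norm_mul]
    have hc : ‖(jacobiSym m q : ℂ) / m *
        (tw o D (Ideal.absNorm (Ideal.span {(m : 𝓞 F)} * a)) : ℂ) *
          uu ψ a ^ (2 * k₀ - 1) / (Real.sqrt (Ideal.absNorm a) : ℂ)‖ ≤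
        (m : ℝ)⁻¹ * (Real.sqrt (Ideal.absNorm a : ℝ))⁻¹ := by
      rw [norm_div, norm_mul, norm_mul, norm_div, norm_pow, hua, one_pow, mul_one,
        Complex.norm_natCast, Complex.norm_real, Real.norm_of_nonneg (Real.sqrt_nonneg _),
        div_eq_mul_inv _ (Real.sqrt _), div_eq_mul_inv]
      refine mul_le_mul_of_nonneg_right ?_ (by positivity)
      have h1 := QAux.norm_jac_le m q
      have h2 := QAux.norm_tw_le o D (Ideal.absNorm (Ideal.span {(m : 𝓞 F)} * a))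
      calc ‖(jacobiSym m q : ℂ)‖ * (m : ℝ)⁻¹ *
            ‖(tw o D (Ideal.absNorm (Ideal.span {(m : 𝓞 F)} * a)) : ℂ)‖
          ≤ 1 * (m : ℝ)⁻¹ * 1 := by
            refine mul_le_mul (mul_le_mul_of_nonneg_right h1 (by positivity)) h2
              (norm_nonneg _) (by positivity)
        _ = _ := by ring
    have hv : v (k₀ + 2 * N) n ≤ (n : ℝ)⁻¹ := by
      have := hW.le (k₀ + 2 * N) n hn1
      rwa [one_div] at this
    have hS : ‖∑ j ∈ Finset.range N, (v (k₀ + 2 * j) n : ℂ) * (uu ψ a ^ 4) ^ j‖ ≤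
        (n : ℝ)⁻¹ * min (K : ℝ) (4 / ‖1 - uu ψ a ^ 4‖) := by
      refine hAb'.trans ?_
      refine mul_le_mul hv ?_ ?_ (by positivity)
      · exact min_le_min (by exact_mod_cast hNK) le_rfl
      · exact le_min (Nat.cast_nonneg _) (by positivity)
    calc _ ≤ ((m : ℝ)⁻¹ * (Real.sqrt (Ideal.absNorm a : ℝ))⁻¹) *
          ((n : ℝ)⁻¹ * min (K : ℝ) (4 / ‖1 - uu ψ a ^ 4‖)) :=
          mul_le_mul hc hS (norm_nonneg _) (by positivity)
      _ = _ := by ring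
  -- everything
  have hswap : ∑ k ∈ kk κ K, (v k n : ℂ) * (Bk o D ψ k n - Hm o q D n) =
      ∑ m ∈ Finset.Icc 1 n, ∑ a ∈ (prs s (n / m ^ 2)).erase 1,
        ∑ k ∈ kk κ K, (v k n : ℂ) * tm o D ψ k (Ideal.span {(m : 𝓞 F)} * a) := by
    have h1 : ∀ k ∈ kk κ K, (v k n : ℂ) * (Bk o D ψ k n - Hm o q D n) =
        ∑ m ∈ Finset.Icc 1 n, ∑ a ∈ (prs s (n / m ^ 2)).erase 1,
          (v k n : ℂ) * tm o D ψ k (Ideal.span {(m : 𝓞 F)} * a) := by
      intro k hk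
      have := (Finset.mem_Ioc.1 (Finset.mem_filter.1 hk).1).1
      rw [hBk k (by omega), Finset.mul_sum]
      exact Finset.sum_congr rfl fun m _ => Finset.mul_sum _ _ _
    rw [Finset.sum_congr rfl h1, Finset.sum_comm]
    exact Finset.sum_congr rfl fun m _ => Finset.sum_comm
  have hlogn : 1 + Real.log n ≤ A * Real.log K := by
    have h1 : (n : ℝ) ≤ (C + 1) * K := by
      have : (n : ℝ) ≤ C * K := by exact_mod_cast hn
      nlinarith
    have h2 := Real.log_le_log hnR h1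
    rw [Real.log_mul (by positivity) hK0.ne'] at h2
    have h3 : 0 ≤ Real.log ((C : ℝ) + 1) :=
      Real.log_nonneg (by linarith [Nat.cast_nonneg (α := ℝ) C])
    rw [hA]
    nlinarith
  have hharm : ∑ m ∈ Finset.Icc 1 n, (m : ℝ)⁻¹ ≤ 1 + Real.log n := by
    have h4 := harmonic_le_one_add_log n
    rw [harmonic_eq_sum_Icc] at h4
    push_cast at h4
    exact h4
  rw [hswap]
  calc ‖∑ m ∈ Finset.Icc 1 n, ∑ a ∈ (prs s (n / m ^ 2)).erase 1,
        ∑ k ∈ kk κ K, (v k n : ℂ) * tm o D ψ k (Ideal.span {(m : 𝓞 F)} * a)‖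
      ≤ ∑ m ∈ Finset.Icc 1 n, ∑ a ∈ (prs s (n / m ^ 2)).erase 1,
          (m : ℝ)⁻¹ * (n : ℝ)⁻¹ * ((Real.sqrt (Ideal.absNorm a : ℝ))⁻¹ *
            min (K : ℝ) (4 / ‖1 - uu ψ a ^ 4‖)) := by
        refine (norm_sum_le _ _).trans (Finset.sum_le_sum fun m hm => ?_)
        exact (norm_sum_le _ _).trans (Finset.sum_le_sum fun a ha => hone m hm a ha)
    _ ≤ ∑ m ∈ Finset.Icc 1 n, (m : ℝ)⁻¹ * ((n : ℝ)⁻¹ * (B * K / Real.log K ^ 2)) := by
        refine Finset.sum_le_sum fun m hm => ?_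
        rw [← Finset.mul_sum, mul_assoc]
        refine mul_le_mul_of_nonneg_left ?_ (by positivity)
        refine mul_le_mul_of_nonneg_left ?_ (by positivity)
        exact hE K (n / m ^ 2) hKK ((Nat.div_le_self _ _).trans hn)
    _ = (∑ m ∈ Finset.Icc 1 n, (m : ℝ)⁻¹) * ((n : ℝ)⁻¹ * (B * K / Real.log K ^ 2)) := by
        rw [Finset.sum_mul]
    _ ≤ (A * Real.log K) * ((n : ℝ)⁻¹ * (B * K / Real.log K ^ 2)) := by
        refine mul_le_mul_of_nonneg_right (hharm.trans hlogn) (by positivity)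
    _ = A * B * K / Real.log K * (n : ℝ)⁻¹ := by
        have : Real.log K ≠ 0 := by linarith
        field_simp

end Pool.Agent.Lib.MP_7c08ba_nt.CD
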