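import Pool.Agent.Lib.MP_7c08ba_nt.CD.StB

set_option autoImplicit false

/-!
Project CD, part B, module Sps: sums of `min M (1 / |1 - z|)` over spaced points of the circle.
-/

namespace Pool.Agent.Lib.MP_7c08ba_nt.CD

namespace SpsAux

/-- the distance of two points of the circle is at most the distance of the arguments -/
theorem norm_sub_le_arg {z w : ℂ} (hz : ‖z‖ = 1) (hw : ‖w‖ = 1) :
    ‖z - w‖ ≤ |z.arg - w.arg| := by
  have h1 : z = Complex.exp (z.arg * Complex.I) := by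
    have := Complex.norm_mul_exp_arg_mul_I z
    rw [hz, Complex.ofReal_one, one_mul] at this
    exact this.symm
  have h2 : w = Complex.exp (w.arg * Complex.I) := by
    have := Complex.norm_mul_exp_arg_mul_I w
    rw [hw, Complex.ofReal_one, one_mul] at this
    exact this.symm
  have h3 : z - w = w * (Complex.exp (Complex.I * ((z.arg - w.arg : ℝ) : ℂ)) - 1) := by
    have h4 : z = w * Complex.exp (Complex.I * ((z.arg - w.arg : ℝ) : ℂ)) := by
      conv_lhs => rw [h1]
      conv_rhs => rw [h2]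
      rw [← Complex.exp_add]
      congr 1
      rw [← h2]
      push_cast
      ring
    rw [mul_sub, mul_one, ← h4]
  rw [h3, norm_mul, hw, one_mul]
  exact Real.norm_exp_I_mul_ofReal_sub_one_le

theorem arg_le {z : ℂ} (hz : ‖z‖ = 1) : |z.arg| ≤ Real.pi / 2 * ‖1 - z‖ := by
  have h0 : z ≠ 0 := by
    intro h
    rw [h, norm_zero] at hz
    exact zero_ne_one hz
  rw [norm_sub_rev, ← Complex.angle_one_right h0]
  exact Complex.angle_le_mul_norm_sub hz norm_one

/-- the number of points close to 1 -/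
theorem count {ι : Type} (S : Finset ι) (z : ι → ℂ) (δ : ℝ) (hδ : 0 < δ)
    (h1 : ∀ i ∈ S, ‖z i‖ = 1) (h2 : ∀ i ∈ S, ∀ j ∈ S, i ≠ j → δ ≤ ‖z i - z j‖) (r : ℝ)
    (hr : 0 ≤ r) : ((S.filter fun i => ‖1 - z i‖ ≤ r).card : ℝ) ≤ 2 + Real.pi * r / δ := by
  obtain ⟨b, hb⟩ : ∃ b : ℝ, b = Real.pi / 2 * r / δ := ⟨_, rfl⟩
  have hb0 : 0 ≤ b := by
    rw [hb]
    have := Real.pi_pos
    positivity
  have h3 : ∀ i ∈ S.filter (fun i => ‖1 - z i‖ ≤ r),
      ⌊(z i).arg / δ⌋ ∈ Finset.Icc ⌊-b⌋ ⌊b⌋ := by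
    intro i hi
    rw [Finset.mem_filter] at hi
    have h4 := arg_le (h1 i hi.1)
    have h5 : |(z i).arg| ≤ Real.pi / 2 * r :=
      h4.trans (mul_le_mul_of_nonneg_left hi.2 (by have := Real.pi_pos; positivity))
    have h6 : |(z i).arg / δ| ≤ b := by
      rw [abs_div, abs_of_pos hδ, hb]
      exact div_le_div_of_nonneg_right h5 hδ.le
    rw [abs_le] at h6
    rw [Finset.mem_Icc]
    exact ⟨Int.floor_le_floor h6.1, Int.floor_le_floor h6.2⟩
  have h4 : Set.InjOn (fun i => ⌊(z i).arg / δ⌋) (S.filter fun i => ‖1 - z i‖ ≤ r : Finset ι) := by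
    intro i hi j hj hij
    rw [Finset.mem_coe, Finset.mem_filter] at hi hj
    by_contra hne
    have h5 := h2 i hi.1 j hj.1 hne
    have h6 := norm_sub_le_arg (h1 i hi.1) (h1 j hj.1)
    have h7 : |(z i).arg / δ - (z j).arg / δ| < 1 := Int.abs_sub_lt_one_of_floor_eq_floor hij
    rw [← sub_div, abs_div, abs_of_pos hδ, div_lt_one hδ] at h7
    linarith
  have h5 : (S.filter fun i => ‖1 - z i‖ ≤ r).card ≤ (Finset.Icc ⌊-b⌋ ⌊b⌋).card :=
    Finset.card_le_card_of_injOn _ h3 h4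
  rw [Int.card_Icc] at h5
  have h6 : (((⌊b⌋ + 1 - ⌊-b⌋).toNat : ℕ) : ℝ) ≤ 2 * b + 2 := by
    have h7 : 0 ≤ ⌊b⌋ + 1 - ⌊-b⌋ := by
      have := Int.floor_le_floor (show -b ≤ b by linarith)
      omega
    have h8 : (((⌊b⌋ + 1 - ⌊-b⌋).toNat : ℕ) : ℝ) = ((⌊b⌋ + 1 - ⌊-b⌋ : ℤ) : ℝ) := by
      exact_mod_cast Int.toNat_of_nonneg h7
    rw [h8]
    push_cast
    have h9 := Int.floor_le b
    have h10 := Int.lt_floor_add_one (-b)
    linarith
  have h7 : ((S.filter fun i => ‖1 - z i‖ ≤ r).card : ℝ) ≤ 2 * b + 2 :=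
    le_trans (by exact_mod_cast h5) h6
  have h8 : 2 * b = Real.pi * r / δ := by
    rw [hb]
    ring
  linarith

/-- dyadic decomposition of one term -/
theorem dyadic {x M : ℝ} (hx : 0 ≤ x) (hx2 : x ≤ 2) (hM : 1 ≤ M) {J : ℕ} (hJ : 2 * M ≤ 2 ^ J) :
    min M (1 / x) ≤ ∑ j ∈ Finset.range (J + 1), if x ≤ 2 ^ j / M then 2 * M / 2 ^ j else 0 := by
  have hM0 : 0 < M := by linarith
  have h0 : ∀ j ∈ Finset.range (J + 1), (0 : ℝ) ≤ if x ≤ 2 ^ j / M then 2 * M / 2 ^ j else 0 := by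
    intro j _
    split_ifs
    · positivity
    · exact le_rfl
  rcases hx.eq_or_lt with h | hx0
  · rw [← h, div_zero]
    exact (min_le_right _ _).trans (by
      have := Finset.sum_nonneg h0
      rwa [← h] at this)
  have hex : ∃ j : ℕ, x ≤ 2 ^ j / M := ⟨J, by
    rw [le_div_iff₀ hM0]
    calc x * M ≤ 2 * M := mul_le_mul_of_nonneg_right hx2 hM0.le
      _ ≤ 2 ^ J := hJ⟩
  classical
  obtain ⟨j, hj⟩ : ∃ j, j = Nat.find hex := ⟨_, rfl⟩
  have hj1 : x ≤ 2 ^ j / M := by
    rw [hj]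
    exact Nat.find_spec hex
  have hjJ : j ≤ J := by
    rw [hj]
    exact Nat.find_min' hex (by
      rw [le_div_iff₀ hM0]
      calc x * M ≤ 2 * M := mul_le_mul_of_nonneg_right hx2 hM0.le
        _ ≤ 2 ^ J := hJ)
  have hmin : min M (1 / x) ≤ 2 * M / 2 ^ j := by
    rcases Nat.eq_zero_or_pos j with h | h
    · rw [h, pow_zero, div_one]
      exact (min_le_left _ _).trans (by linarith)
    · have h1 : ¬ x ≤ 2 ^ (j - 1) / M := by
        apply Nat.find_min hex
        rw [← hj]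
        omega
      rw [not_le, div_lt_iff₀ hM0] at h1
      refine (min_le_right _ _).trans ?_
      rw [div_le_div_iff₀ hx0 (by positivity)]
      have h2 : (2 : ℝ) ^ j = 2 * 2 ^ (j - 1) := by
        conv_lhs => rw [show j = (j - 1) + 1 by omega, pow_succ]
        ring
      rw [h2]
      linarith
  refine hmin.trans ?_
  have h3 := Finset.single_le_sum h0 (Finset.mem_range.2 (Nat.lt_succ_of_le hjJ))
  rw [if_pos hj1] at h3
  exact h3

end SpsAux

open SpsAux in
/-- Module Sps. -/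
theorem stSps : StSps := by
  refine ⟨20, by norm_num, ?_⟩
  intro ι S z δ M hδ hM h1 h2
  have hM0 : 0 < M := by linarith
  obtain ⟨J, hJ⟩ : ∃ J, J = ⌈Real.logb 2 (2 * M)⌉₊ := ⟨_, rfl⟩
  have hJ1 : 2 * M ≤ 2 ^ J := by
    have h3 : Real.logb 2 (2 * M) ≤ (J : ℝ) := by
      rw [hJ]
      exact Nat.le_ceil _
    rw [Real.logb_le_iff_le_rpow (by norm_num) (by linarith), Real.rpow_natCast] at h3
    exact h3
  have hlog : 0 ≤ Real.log M := Real.log_nonneg hM
  have hJ2 : (J : ℝ) + 1 ≤ 3 * (1 + Real.log M) := by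
    have h3 : 0 ≤ Real.logb 2 (2 * M) := Real.logb_nonneg (by norm_num) (by linarith)
    have h4 : (J : ℝ) < Real.logb 2 (2 * M) + 1 := by
      rw [hJ]
      exact Nat.ceil_lt_add_one h3
    have h5 : Real.logb 2 (2 * M) = 1 + Real.log M / Real.log 2 := by
      rw [Real.logb, Real.log_mul (by norm_num) hM0.ne', add_div, div_self]
      exact (Real.log_pos (by norm_num)).ne'
    have h6 : Real.log M / Real.log 2 ≤ 3 * Real.log M := by
      rw [div_le_iff₀ (Real.log_pos (by norm_num))]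
      have h7 := Real.log_two_gt_d9
      nlinarith
    linarith
  calc ∑ i ∈ S, min M (1 / ‖1 - z i‖)
      ≤ ∑ i ∈ S, ∑ j ∈ Finset.range (J + 1),
          (if ‖1 - z i‖ ≤ 2 ^ j / M then 2 * M / 2 ^ j else 0) := by
        refine Finset.sum_le_sum fun i hi => dyadic (norm_nonneg _) ?_ hM hJ1
        calc ‖1 - z i‖ ≤ ‖(1 : ℂ)‖ + ‖z i‖ := norm_sub_le _ _
          _ = 2 := by
            rw [norm_one, h1 i hi]
            norm_num
    _ = ∑ j ∈ Finset.range (J + 1),
          ((S.filter fun i => ‖1 - z i‖ ≤ 2 ^ j / M).card : ℝ) * (2 * M / 2 ^ j) := by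
        rw [Finset.sum_comm]
        refine Finset.sum_congr rfl fun j _ => ?_
        rw [← Finset.sum_filter, Finset.sum_const, nsmul_eq_mul]
    _ ≤ ∑ j ∈ Finset.range (J + 1), (4 * M * (1 / 2) ^ j + 2 * Real.pi / δ) := by
        refine Finset.sum_le_sum fun j _ => ?_
        have h3 := count S z δ hδ h1 h2 (2 ^ j / M) (by positivity)
        have h4 : (0 : ℝ) ≤ 2 * M / 2 ^ j := by positivity
        refine (mul_le_mul_of_nonneg_right h3 h4).trans (le_of_eq ?_)
        have h5 : (2 : ℝ) ^ j ≠ 0 := by positivity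
        rw [one_div, inv_pow]
        field_simp
        ring
    _ = 4 * M * ∑ j ∈ Finset.range (J + 1), (1 / 2 : ℝ) ^ j +
          ((J : ℝ) + 1) * (2 * Real.pi / δ) := by
        rw [Finset.sum_add_distrib, ← Finset.mul_sum, Finset.sum_const, Finset.card_range,
          nsmul_eq_mul]
        push_cast
        ring
    _ ≤ 4 * M * 2 + (3 * (1 + Real.log M)) * (2 * Real.pi / δ) := by
        have h3 : ∑ j ∈ Finset.range (J + 1), (1 / 2 : ℝ) ^ j ≤ 2 := by
          rw [geom_sum_eq (by norm_num)]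
          have h4 : (0 : ℝ) < (1 / 2) ^ (J + 1) := by positivity
          rw [div_le_iff_of_neg (by norm_num)]
          linarith
        have h4 : 0 ≤ 2 * Real.pi / δ := by
          have := Real.pi_pos
          positivity
        have h5 := mul_le_mul_of_nonneg_left h3 (show 0 ≤ 4 * M by linarith)
        have h6 := mul_le_mul_of_nonneg_right hJ2 h4
        linarith
    _ ≤ 20 * (M + (1 + Real.log M) / δ) := by
        have h3 : 0 ≤ (1 + Real.log M) / δ := by positivity
        have h4 : (3 * (1 + Real.log M)) * (2 * Real.pi / δ) =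
            6 * Real.pi * ((1 + Real.log M) / δ) := by ring
        rw [h4]
        have h5 := Real.pi_lt_d2
        nlinarith

end Pool.Agent.Lib.MP_7c08ba_nt.CD
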