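import Mathlib
import Pool.Agent.Lib.MP_7c08ba_nt.CD.StB

set_option autoImplicit false

/-!
Project CD, module U: the normalised values of a canonical character.
-/

namespace Pool.Agent.Lib.MP_7c08ba_nt.CD

open NumberField IsDedekindDomain MeasureTheory Set Pool.Agent.Lib.MP_7c08ba_nt.RZ
  Pool.Agent.Lib.MP_7c08ba_nt.CN Pool.Agent.Lib.MP_7c08ba_nt.CN.TW
open scoped nonZeroDivisors ComplexConjugate

namespace UAux

variable {F : Type} [Field F] [NumberField F]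

/-- the norm of the image under an automorphism -/
theorem absNorm_map (cj : 𝓞 F ≃+* 𝓞 F) (a : Ideal (𝓞 F)) :
    Ideal.absNorm (a.map (cj : 𝓞 F →+* 𝓞 F)) = Ideal.absNorm a := by
  rw [Ideal.absNorm_apply, Ideal.absNorm_apply, Submodule.cardQuot_apply,
    Submodule.cardQuot_apply]
  exact (Nat.card_congr (Ideal.quotientEquiv a (a.map (cj : 𝓞 F →+* 𝓞 F)) cj rfl).toEquiv).symm

theorem uu_mul (ψ : Ideal (𝓞 F) →*₀ ℂ) (a b : Ideal (𝓞 F)) :
    uu ψ (a * b) = uu ψ a * uu ψ b := by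
  unfold uu
  rw [map_mul, map_mul, Nat.cast_mul, Real.sqrt_mul (Nat.cast_nonneg _), Complex.ofReal_mul,
    mul_div_mul_comm]

end UAux

theorem stU (h1 : StBas) (h2 : StCj) : StU := by
  intro q F _ _ s σ χ cj ψ hD hψ
  obtain ⟨-, hcc, hcs, hsub, hmul, hnsq, hN, -, hprime, hrep, hdvd⟩ := h1 q F _ _ s σ χ cj hD
  obtain ⟨-, hcj2, hcj3, hcj4⟩ := h2 q F _ _ s σ χ cj 0 ψ hD hψ
  have hprin : ∀ (t : 𝓞 F) (a : ℤ), t ≠ 0 → s ∣ t - a →
      uu ψ (Ideal.span {t}) = (jacobiSym a q : ℂ) * (σ t / (‖σ t‖ : ℂ)) := by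
    intro t a ht hst
    unfold uu
    have h3 : Real.sqrt (Ideal.absNorm (Ideal.span {t}) : ℝ) = ‖σ t‖ := by
      rw [← hnsq t, Complex.normSq_eq_norm_sq, Real.sqrt_sq (norm_nonneg _)]
    rw [hψ t a ht hst, h3, pow_one, mul_div_assoc]
  refine ⟨?_, ?_, UAux.uu_mul ψ, ?_, ?_, hprin⟩
  · intro a ha hs
    have h3 := (hcj3 a hs).2
    have h4 : (0 : ℝ) < (Ideal.absNorm a : ℝ) := by
      have : Ideal.absNorm a ≠ 0 := by
        rw [Ne, Ideal.absNorm_eq_zero_iff]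
        exact ha
      exact_mod_cast Nat.pos_of_ne_zero this
    have h5 : ‖ψ a‖ = Real.sqrt (Ideal.absNorm a : ℝ) := by
      rw [← Real.sqrt_sq (norm_nonneg (ψ a)), h3]
      norm_num
    unfold uu
    rw [norm_div, h5, Complex.norm_real, Real.norm_of_nonneg (Real.sqrt_nonneg _)]
    exact div_self (Real.sqrt_pos.2 h4).ne'
  · intro a ha
    unfold uu
    rw [hcj4 a ha, zero_div]
  · intro a
    unfold uu
    rw [hcj2 a, UAux.absNorm_map, map_div₀, Complex.conj_ofReal]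
  · intro m hm
    have hm0 : ((m : 𝓞 F)) ≠ 0 := by exact_mod_cast (by omega : m ≠ 0)
    have h3 := hprin (m : 𝓞 F) (m : ℤ) hm0 (by simp)
    rw [h3]
    have h4 : σ ((m : 𝓞 F) : F) = (m : ℂ) := by
      have h6 : ((m : 𝓞 F) : F) = (m : F) := map_natCast (algebraMap (𝓞 F) F) m
      rw [h6, map_natCast]
    have h5 : (m : ℂ) ≠ 0 := by exact_mod_cast (by omega : m ≠ 0)
    rw [h4, Complex.norm_natCast, Complex.ofReal_natCast, div_self h5, mul_one]

end Pool.Agent.Lib.MP_7c08ba_nt.CD
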