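import Pool.Agent.Lib.MP_7c08ba_nt.CN.AAll
import Pool.Agent.Lib.MP_7c08ba_nt.CN.T.All
import Pool.Agent.Lib.MP_7c08ba_nt.CN.Ex
import Pool.Agent.Lib.MP_7c08ba_nt.CN.RepM
import Pool.Agent.Lib.MP_7c08ba_nt.CD.ACb
import Pool.Agent.Lib.MP_7c08ba_nt.CD.ACnt
import Pool.Agent.Lib.MP_7c08ba_nt.CD.ACrs
import Pool.Agent.Lib.MP_7c08ba_nt.CD.AGF
import Pool.Agent.Lib.MP_7c08ba_nt.CD.AGb
import Pool.Agent.Lib.MP_7c08ba_nt.CD.AGth
import Pool.Agent.Lib.MP_7c08ba_nt.CD.ALA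
import Pool.Agent.Lib.MP_7c08ba_nt.CD.ALg
import Pool.Agent.Lib.MP_7c08ba_nt.CD.AMel
import Pool.Agent.Lib.MP_7c08ba_nt.CD.APhi
import Pool.Agent.Lib.MP_7c08ba_nt.CD.APrim
import Pool.Agent.Lib.MP_7c08ba_nt.CD.APv
import Pool.Agent.Lib.MP_7c08ba_nt.CD.ASg
import Pool.Agent.Lib.MP_7c08ba_nt.CD.AT
import Pool.Agent.Lib.MP_7c08ba_nt.CD.AThF
import Pool.Agent.Lib.MP_7c08ba_nt.CD.AWv
import Pool.Agent.Lib.MP_7c08ba_nt.CD.BAb
import Pool.Agent.Lib.MP_7c08ba_nt.CD.BDc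
import Pool.Agent.Lib.MP_7c08ba_nt.CD.BE0
import Pool.Agent.Lib.MP_7c08ba_nt.CD.BKk
import Pool.Agent.Lib.MP_7c08ba_nt.CD.BLb
import Pool.Agent.Lib.MP_7c08ba_nt.CD.BLd
import Pool.Agent.Lib.MP_7c08ba_nt.CD.BLsv
import Pool.Agent.Lib.MP_7c08ba_nt.CD.BM1
import Pool.Agent.Lib.MP_7c08ba_nt.CD.BM2
import Pool.Agent.Lib.MP_7c08ba_nt.CD.BMB
import Pool.Agent.Lib.MP_7c08ba_nt.CD.BOf
import Pool.Agent.Lib.MP_7c08ba_nt.CD.BQ
import Pool.Agent.Lib.MP_7c08ba_nt.CD.BSp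
import Pool.Agent.Lib.MP_7c08ba_nt.CD.BSps
import Pool.Agent.Lib.MP_7c08ba_nt.CD.BU

set_option autoImplicit false

/-!
Project CD: assembly.
-/

namespace Pool.Agent.Lib.MP_7c08ba_nt.CD

namespace All

theorem cb : StCb := stCb CN.A.bas CN.A.reps

theorem prim : StPrim := stPrim CN.A.bas (RZ.stSplit CN.A.bas)

theorem t : StT := stT CN.A.bas cb prim

theorem crs : StCrs := stCrs CN.A.bas CN.A.base

theorem thF : StThF := stThF t crs cb CN.A.base CN.A.thB CN.A.poisK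

theorem phi : StPhi := stPhi CN.A.bas cb

theorem gth : StGth := stGth CN.A.idSum phi cb CN.A.thB CN.A.bas

theorem gf : StGF := stGF thF gth cb CN.stRepM CN.A.base

theorem gb : StGb := stGb stCnt

theorem mel : StMel := stMel gb

theorem lg : StLg := stLg stPv stWv stCnt

theorem sg : StSg := stSg gf mel phi gb CN.stEulId CN.TW.aNVT CN.stEx

theorem la : StLA := stLA sg mel lg phi gb CN.stEulId

theorem u : StU := stU CN.A.bas CN.A.cj

theorem sp : StSp := stSp u CN.A.bas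

theorem lb : StLb := stLb u CN.A.bas

theorem e0 : StE0 := stE0 sp lb stCnt stSps u

theorem off : StOf := stOf u stDc stAb stKk e0 lb

theorem m1 : StM1 := stM1 off stLd stCnt stKk u

theorem q : StQ := stQ u stDc sp stLsv stCnt stKk

theorem m2 : StM2 := stM2 q stCnt u

theorem mb : StMB := stMB m1 m2

end All

end Pool.Agent.Lib.MP_7c08ba_nt.CD
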