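import Mathlib
import Pool.Agent.Lib.MP_7c08ba_nt.BK.Can
import Pool.Agent.Lib.MP_7c08ba_nt.CD.StB

set_option autoImplicit false

/-!
Project CD, final statement in terms of `BK/Can.lean`.
-/

noncomputable section

namespace BKS

section

variable {F : Type} [Field F] [NumberField F] {q : ℕ}

/-- The `L`-function has a simple zero at the centre. -/
def CentralSimple (φ : Hec F q) : Prop :=
  (∃ Λ : ℂ → ℂ, IsLHec φ Λ) ∧ ∀ Λ : ℂ → ℂ, IsLHec φ Λ → Λ 0 = 0 ∧ deriv Λ 0 ≠ 0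

end

/-- For given `D` and `ψ` the `L`-functions with root number `-1` have a simple zero at the centre
for many `k`. -/
def StDer : Prop :=
  ∀ (q : ℕ) (F : Type) [Field F] [NumberField F], q.Prime → q % 16 = 7 → IsQuad F q →
    ∀ φ : Hec F q, (∀ r : ℕ, r.Prime → (r : ℤ) ∣ φ.D → r % 4 = 1) → φ.D.natAbs % 8 = 1 →
    ∃ (δ : ℝ) (K₀ : ℕ), 0 < δ ∧ 2 ≤ K₀ ∧ ∀ K : ℕ, K₀ ≤ K →
      δ * K / Real.log K ^ 3 ≤ ({k : ℕ | k ≤ K ∧ ∃ h : 1 ≤ k,
        rootNo ({ φ with k := k, pos := h } : Hec F q) = -1 ∧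
        CentralSimple ({ φ with k := k, pos := h } : Hec F q)}.ncard : ℝ)

end BKS
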