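import Mathlib
import Pool.Agent.Lib.MP_7c08ba_nt.BK.Can
import Pool.Agent.Lib.MP_7c08ba_nt.CD.StC
import Pool.Agent.Lib.MP_7c08ba_nt.CN.NV

set_option autoImplicit false
set_option linter.unusedSectionVars false

/-!
Project CD, final assembly: many of the `L`-functions with root number `-1` have a simple zero at
the centre.
-/

noncomputable section

namespace BKS

open NumberField IsDedekindDomain Pool.Agent.Lib.MP_7c08ba_nt

namespace Der

/-! ### The quadratic symbols -/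

theorem kro_neg_one (n : ℕ) : (kro (-1) n : ℂ) = CN.c4 n := by
  unfold kro CN.c4
  rw [if_neg (by decide)]
  split_ifs with h
  · have h1 : ((n : ℤ) : ZMod 4) = 0 ∨ ((n : ℤ) : ZMod 4) = 2 := by
      have h2 : n % 4 = 0 ∨ n % 4 = 2 := by omega
      rcases h2 with h2 | h2
      · left
        have : ((n : ℕ) : ZMod 4) = ((0 : ℕ) : ZMod 4) := by
          rw [ZMod.natCast_eq_natCast_iff']
          omega
        simpa using this
      · right
        have : ((n : ℕ) : ZMod 4) = ((2 : ℕ) : ZMod 4) := by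
          rw [ZMod.natCast_eq_natCast_iff']
          omega
        simpa using this
    rcases h1 with h1 | h1 <;> rw [h1]
    · simp
    · have : ZMod.χ₄ 2 = 0 := by decide
      rw [this]
  · rw [jacobiSym.at_neg_one (Nat.odd_iff.2 (by omega))]
    simp

theorem kro_pos {D : ℕ} (n : ℕ) (h : D % 8 = 1) : kro D n = jacobiSym n D := by
  unfold kro
  rw [if_pos (by omega), Int.natAbs_natCast]

theorem kro_neg {D : ℕ} (n : ℕ) (h : D % 8 = 1) :
    (kro (-D) n : ℂ) = CN.c4 n * (jacobiSym n D : ℂ) := by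
  have h5 : ¬ (-(D : ℤ)) % 4 = 1 := by omega
  have h6 : ¬ (-1 : ℤ) % 4 = 1 := by decide
  rw [← kro_neg_one]
  unfold kro
  rw [if_neg h5, if_neg h6]
  split_ifs with h2
  · simp
  · have hn : Odd n := Nat.odd_iff.2 (by omega)
    rw [jacobiSym.neg _ hn, jacobiSym.at_neg_one hn,
      jacobiSym.quadratic_reciprocity_one_mod_four (by omega) hn]
    push_cast
    rfl

/-- The Kronecker symbol in terms of `tw`. -/
theorem kro_tw {D : ℤ} (n : ℕ) (h : D.natAbs % 8 = 1) :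
    (kro D n : ℂ) = (CD.tw (decide (D < 0)) D.natAbs n : ℂ) := by
  rcases lt_or_ge D 0 with h0 | h0
  · obtain ⟨d, hd⟩ : ∃ d : ℕ, D = -(d : ℤ) := ⟨D.natAbs, by omega⟩
    subst hd
    rw [Int.natAbs_neg, Int.natAbs_natCast] at h ⊢
    rw [kro_neg n h, decide_eq_true h0]
    unfold CD.tw CN.c4
    rw [if_pos rfl]
    push_cast
    ring
  · obtain ⟨d, hd⟩ : ∃ d : ℕ, D = (d : ℤ) := ⟨D.natAbs, by omega⟩
    subst hd
    rw [Int.natAbs_natCast] at h ⊢
    rw [kro_pos n h, decide_eq_false (by omega)]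
    unfold CD.tw
    simp

/-- inert primes -/
theorem jacobi_inert {q r : ℕ} (hq : q.Prime) (hq2 : q ≠ 2) (hr : r.Prime) (h4 : r % 4 = 1)
    (h : InertIn q r) : jacobiSym r q = -1 := by
  have hr2 : r ≠ 2 := by
    rintro rfl
    omega
  have : Fact r.Prime := ⟨hr⟩
  have h1 : legendreSym r (-q) = -1 := by
    rw [legendreSym.eq_neg_one_iff]
    exact h
  rw [jacobiSym.legendreSym.to_jacobiSym, jacobiSym.neg _ (hr.odd_of_ne_two hr2),
    ZMod.χ₄_nat_one_mod_four h4, one_mul] at h1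
  rw [jacobiSym.quadratic_reciprocity_one_mod_four h4 (hq.odd_of_ne_two hq2)]
  exact h1

/-! ### The characters -/

section

variable {F : Type} [Field F] [NumberField F] {q : ℕ}

theorem nv_ne (v : Pl F) : (nv v : ℂ) ≠ 0 := by
  have h : nv v ≠ 0 := by
    unfold nv nm
    rw [Ne, Ideal.absNorm_eq_zero_iff]
    exact v.ne_bot
  exact_mod_cast h

/-- the two forms of the Euler product -/
theorem isLHec_iff (φ : Hec F q) (Φ : Ideal (𝓞 F) →*₀ ℂ)
    (hΦ : ∀ v : Pl F, Φ v.asIdeal = kro φ.D (nv v) * φ.ψ v.asIdeal ^ (2 * φ.k - 1))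
    (Λ : ℂ → ℂ) : CN.IsLF Φ φ.k Λ ↔ IsLHec φ Λ := by
  have key : ∀ (z : ℂ) (v : Pl F),
      Φ v.asIdeal * (Ideal.absNorm v.asIdeal : ℂ) ^ (-((φ.k : ℂ) + z)) =
        val φ v * (nv v : ℂ) ^ (-z) := by
    intro z v
    have h1 : (Ideal.absNorm v.asIdeal : ℂ) = (nv v : ℂ) := rfl
    rw [h1, neg_add, Complex.cpow_add _ _ (nv_ne v), Complex.cpow_neg, Complex.cpow_natCast, hΦ]
    unfold val
    ring
  constructor
  · intro h
    refine ⟨h.differentiable, fun z hz => ?_⟩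
    have := h.euler z hz
    simp only [key] at this
    exact this
  · intro h
    refine ⟨h.diff, fun z hz => ?_⟩
    simp only [key]
    exact h.euler z hz

/-- Uniqueness, of the value and of the derivative at the centre. -/
theorem unique {φ : Hec F q} {Λ Λ' : ℂ → ℂ} (h : IsLHec φ Λ) (h' : IsLHec φ Λ') :
    Λ 0 = Λ' 0 ∧ deriv Λ 0 = deriv Λ' 0 := by
  have hop : IsOpen {z : ℂ | -1 / 2 < z.re} := isOpen_lt continuous_const Complex.continuous_re
  have hc : IsPreconnected {z : ℂ | -1 / 2 < z.re} :=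
    (convex_halfSpace_re_gt _).isPreconnected
  have h2 : Λ =ᶠ[nhds (2 : ℂ)] Λ' := by
    have h3 : {z : ℂ | 1 < z.re} ∈ nhds (2 : ℂ) :=
      (isOpen_lt continuous_const Complex.continuous_re).mem_nhds (by simp)
    filter_upwards [h3] with z hz
    exact (h.euler z hz).unique (h'.euler z hz)
  have h4 := (h.diff.analyticOnNhd hop).eqOn_of_preconnected_of_eventuallyEq
    (h'.diff.analyticOnNhd hop) hc (z₀ := 2) (by simp; norm_num) h2
  have h0 : (0 : ℂ) ∈ {z : ℂ | -1 / 2 < z.re} := by simp; norm_num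
  exact ⟨h4 h0, (h4.eventuallyEq_of_mem (hop.mem_nhds h0)).deriv_eq⟩

theorem tw_mul (o : Bool) (D : ℕ) (m n : ℤ) : CD.tw o D (m * n) = CD.tw o D m * CD.tw o D n := by
  unfold CD.tw
  rw [jacobiSym.mul_left]
  cases o
  · simp
  · simp only [if_true]
    push_cast
    rw [map_mul]
    ring

theorem tw_one (o : Bool) (D : ℕ) : CD.tw o D 1 = 1 := by
  unfold CD.tw
  rw [jacobiSym.one_left]
  cases o <;> simp

/-- The twist of a power of a character. -/
def twp (o : Bool) (D : ℕ) (ψ : Chr F) (m : ℕ) (hm : m ≠ 0) : Chr F where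
  toFun a := (CD.tw o D (Ideal.absNorm a) : ℂ) * ψ a ^ m
  map_zero' := by rw [map_zero ψ, zero_pow hm, mul_zero]
  map_one' := by
    rw [map_one, map_one, Nat.cast_one, tw_one]
    simp
  map_mul' a b := by
    rw [map_mul, map_mul, Nat.cast_mul, tw_mul]
    push_cast
    ring

theorem twp_apply (o : Bool) (D : ℕ) (ψ : Chr F) (m : ℕ) (hm : m ≠ 0) (a : Ideal (𝓞 F)) :
    twp o D ψ m hm a = (CD.tw o D (Ideal.absNorm a) : ℂ) * ψ a ^ m := rfl

/-! ### The field -/

/-- the field -/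
theorem exists_s (hq : q.Prime) (h16 : q % 16 = 7) (hF : IsQuad F q) :
    ∃ s : 𝓞 F, RZC.FieldC q F (s : F) := by
  obtain ⟨hfin, s₀, hs₀⟩ := hF
  obtain ⟨s, hs⟩ : ∃ s : 𝓞 F, (s : F) = s₀ := by
    have : IsIntegral ℤ s₀ := by
      refine ⟨Polynomial.X ^ 2 + Polynomial.C (q : ℤ), ?_, ?_⟩
      · exact Polynomial.monic_X_pow_add_C _ two_ne_zero
      · simp [hs₀]
    exact ⟨⟨s₀, this⟩, rfl⟩
  exact ⟨s, hq, h16, hfin, by rw [hs]; exact hs₀⟩

/-- The field data. -/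
theorem exists_dat (hq : q.Prime) (h16 : q % 16 = 7) (hF : IsQuad F q) (σ : F →+* ℂ) :
    ∃ (s : 𝓞 F) (χ : DirichletCharacter ℂ q) (cj : 𝓞 F ≃+* 𝓞 F), RZ.Dat q s σ χ cj := by
  obtain ⟨s, hC⟩ := exists_s hq h16 hF
  by_cases him : 0 < (σ s).im
  · exact ⟨s, CN.NVAux.exists_dat hC him⟩
  · refine ⟨-s, CN.NVAux.exists_dat (CN.NVAux.fieldC_neg hC) ?_⟩
    have h4 : ((-s : 𝓞 F) : F) = -(s : F) := map_neg _ _
    have h6 := Real.sqrt_pos.2 (show (0 : ℝ) < q by exact_mod_cast hC.1.pos)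
    rw [h4, map_neg, Complex.neg_im, neg_pos]
    rcases CN.NVAux.im_cases (σ := σ) hC with h5 | h5
    · exfalso
      apply him
      rw [h5]
      simp only [Complex.mul_im, Complex.I_re, Complex.I_im, Complex.ofReal_re,
        Complex.ofReal_im, zero_mul, one_mul, zero_add]
      exact h6
    · rw [h5]
      simp only [Complex.neg_im, Complex.mul_im, Complex.I_re, Complex.I_im, Complex.ofReal_re,
        Complex.ofReal_im, zero_mul, one_mul, zero_add]
      linarith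

theorem isCan (φ : Hec F q) {s : 𝓞 F} (hs : s ^ 2 = -(q : 𝓞 F)) :
    CN.IsCan q s φ.σ 1 φ.ψ := by
  intro t a ht hta
  rw [pow_one]
  exact φ.canon s t a hs ht hta

theorem twA (hq : q.Prime) (h16 : q % 16 = 7) (φ : Hec F q)
    (hr4 : ∀ r : ℕ, r.Prime → (r : ℤ) ∣ φ.D → r % 4 = 1) : CN.TW.TwA q φ.D.natAbs where
  sqf := Int.squarefree_natAbs.2 φ.sqf
  mod4 r hr hrD := hr4 r hr (Int.natCast_dvd.2 hrD)
  inert r hr hrD := by
    have h4 := hr4 r hr (Int.natCast_dvd.2 hrD)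
    refine jacobi_inert hq (by rintro rfl; omega) hr h4 (φ.inert r hr ?_ (Int.natCast_dvd.2 hrD))
    rintro rfl
    omega

end

theorem rr_pos {o : Bool} {q D : ℕ} (hq : 0 < q) (hD : 0 < D) : 0 < CD.rr o q D := by
  unfold CD.rr CD.dl
  cases o <;> simp [hq, hD]

end Der

open Der

/-- **Simple zeros at the centre.** -/
theorem stDer (h1 : CD.StLA) (h2 : CD.StMB) (h3 : CD.StWv) : StDer := by
  intro q F iF iN hq h16 hF φ hr4 h8
  obtain ⟨s, χ, cj, hDat⟩ := exists_dat hq h16 hF φ.σ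
  have hcan := isCan φ hDat.sq
  have hT := twA hq h16 φ hr4
  have hD0 : 0 < φ.D.natAbs := by omega
  have hr : (0 : ℝ) < (CD.rr (decide (φ.D < 0)) q φ.D.natAbs : ℝ) := by
    exact_mod_cast rr_pos hq.pos hD0
  have hc0 : 0 < 2 * Real.pi / (CD.rr (decide (φ.D < 0)) q φ.D.natAbs : ℝ) := by positivity
  obtain ⟨κ, hκ⟩ : ∃ κ : ℕ, κ = if φ.D < 0 then 1 else 0 := ⟨_, rfl⟩
  have hκ2 : κ < 2 := by
    rw [hκ]
    split_ifs <;> norm_num
  obtain ⟨δ, K₀, hδ, hK₀, H⟩ := h2 q F iF iN s φ.σ χ cj (decide (φ.D < 0)) φ.D.natAbs φ.ψ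
    (CD.vv (2 * Real.pi / (CD.rr (decide (φ.D < 0)) q φ.D.natAbs : ℝ))) κ hDat hT hcan
    (h3 _ hc0).1 hκ2
  refine ⟨δ, K₀, hδ, hK₀, fun K hK => (H K hK).trans ?_⟩
  rw [Nat.cast_le]
  refine Set.ncard_le_ncard ?_ ((Set.finite_Iic K).subset fun k hk => hk.1)
  rintro k ⟨hk1, hkK, hk2, hk⟩
  refine ⟨hkK, hk1, ?_, ?_⟩
  · -- the root number
    unfold rootNo
    show (-1) ^ (k - 1) * φ.D.sign = -1
    rcases lt_or_ge φ.D 0 with h | h
    · rw [if_pos h] at hκ
      have he : Even (k - 1) := Nat.even_iff.2 (by omega)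
      rw [Int.sign_eq_neg_one_of_neg h, he.neg_one_pow]
      norm_num
    · rw [if_neg (by omega)] at hκ
      have ho : Odd (k - 1) := Nat.odd_iff.2 (by omega)
      rw [Int.sign_eq_one_of_pos (by omega), ho.neg_one_pow]
      norm_num
  · -- the simple zero
    have hpar : ¬ (Odd k ↔ decide (φ.D < 0) = false) := by
      rw [decide_eq_false_iff_not, Nat.odd_iff]
      rcases lt_or_ge φ.D 0 with h | h
      · rw [if_pos h] at hκ
        intro h5
        exact (h5.1 (by omega)) h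
      · rw [if_neg (by omega)] at hκ
        intro h5
        have := h5.2 (by omega)
        omega
    obtain ⟨Λ, hΛ, hΛ0, hΛ1⟩ := h1 q F iF iN s φ.σ χ cj (decide (φ.D < 0)) φ.D.natAbs φ.ψ hDat hT
      h8 hcan k (twp (decide (φ.D < 0)) φ.D.natAbs φ.ψ (2 * k - 1) (by omega)) hk1 hpar
      (fun a => rfl)
    have hL : IsLHec ({ φ with k := k, pos := hk1 } : Hec F q) Λ := by
      refine (isLHec_iff ({ φ with k := k, pos := hk1 } : Hec F q) _ (fun v => ?_) Λ).1 hΛ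
      show (CD.tw (decide (φ.D < 0)) φ.D.natAbs (Ideal.absNorm v.asIdeal) : ℂ) *
        φ.ψ v.asIdeal ^ (2 * k - 1) = kro φ.D (nv v) * φ.ψ v.asIdeal ^ (2 * k - 1)
      rw [kro_tw _ h8]
      rfl
    refine ⟨⟨Λ, hL⟩, fun Λ' hL' => ?_⟩
    obtain ⟨e0, e1⟩ := unique hL hL'
    rw [← e0, ← e1]
    refine ⟨hΛ0, ?_⟩
    rw [hΛ1]
    exact mul_ne_zero two_ne_zero hk

end BKS
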