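import Pool.Agent.Lib.MP_7c08ba_nt.CD.All
import Pool.Agent.Lib.MP_7c08ba_nt.CD.Der

set_option autoImplicit false

/-!
Project CD: simple zeros at the centre, without hypotheses.
-/

namespace BKS

open Pool.Agent.Lib.MP_7c08ba_nt

theorem stDer' : StDer := stDer CD.All.la CD.All.mb CD.stWv

end BKS
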