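import Pool.Agent.Lib.MP_7c08ba_nt.CD.StB

set_option autoImplicit false

/-!
Project CD, module Dc: sums over the ideals and sums over the primitive ideals.
-/

namespace Pool.Agent.Lib.MP_7c08ba_nt.CD

open NumberField IsDedekindDomain MeasureTheory Set Pool.Agent.Lib.MP_7c08ba_nt.RZ
  Pool.Agent.Lib.MP_7c08ba_nt.CN Pool.Agent.Lib.MP_7c08ba_nt.CN.TW
open scoped nonZeroDivisors ComplexConjugate

namespace DcAux

variable {F : Type} [Field F] [NumberField F]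

theorem norm_nat (hF : Module.finrank ℚ F = 2) (m : ℕ) :
    Ideal.absNorm (Ideal.span {(m : 𝓞 F)}) = m ^ 2 := by
  rw [Ideal.absNorm_span_natCast, RingOfIntegers.rank, hF]

theorem span_ne {m : ℕ} (hm : m ≠ 0) : Ideal.span {(m : 𝓞 F)} ≠ (⊥ : Ideal (𝓞 F)) := by
  rw [Ne, Ideal.span_singleton_eq_bot]
  exact_mod_cast hm

omit [NumberField F] in
theorem span_mul (m k : ℕ) : Ideal.span {((m * k : ℕ) : 𝓞 F)} =
    Ideal.span {(m : 𝓞 F)} * Ideal.span {(k : 𝓞 F)} := by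
  rw [Ideal.span_singleton_mul_span_singleton, Nat.cast_mul]

/-- the content divides -/
theorem dvd_of_eq {m m' : ℕ} (hm : m ≠ 0) {a a' : Ideal (𝓞 F)} (ha' : Prm a')
    (h : Ideal.span {(m : 𝓞 F)} * a = Ideal.span {(m' : 𝓞 F)} * a') : m ∣ m' := by
  obtain ⟨g, u, u', hg, hu, h1, h2⟩ : ∃ g u u' : ℕ, g ≠ 0 ∧ Nat.Coprime u u' ∧ m = g * u ∧
      m' = g * u' := by
    have hpos : 0 < Nat.gcd m m' := Nat.gcd_pos_of_pos_left _ (Nat.pos_of_ne_zero hm)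
    refine ⟨Nat.gcd m m', m / Nat.gcd m m', m' / Nat.gcd m m', hpos.ne',
      Nat.coprime_div_gcd_div_gcd hpos, ?_, ?_⟩
    · exact (Nat.mul_div_cancel' (Nat.gcd_dvd_left m m')).symm
    · exact (Nat.mul_div_cancel' (Nat.gcd_dvd_right m m')).symm
  rw [h1, h2, span_mul, span_mul, mul_assoc, mul_assoc] at h
  have h3 := mul_left_cancel₀ (span_ne (F := F) hg) h
  have h4 : Ideal.span {(u : 𝓞 F)} ∣ a' := by
    have h5 : Ideal.span {(u : 𝓞 F)} ∣ Ideal.span {(u' : 𝓞 F)} * a' := ⟨a, h3.symm⟩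
    have h6 : IsCoprime (Ideal.span {(u : 𝓞 F)}) (Ideal.span {(u' : 𝓞 F)}) := by
      rw [Ideal.isCoprime_span_singleton_iff]
      exact Nat.Coprime.cast hu
    exact h6.dvd_of_dvd_mul_left h5
  have h7 := ha'.2 u h4
  rw [h1, h2, h7, mul_one]
  exact Dvd.intro u' rfl

theorem uniq {m m' : ℕ} (hm : m ≠ 0) (hm' : m' ≠ 0) {a a' : Ideal (𝓞 F)} (ha : Prm a)
    (ha' : Prm a') (h : Ideal.span {(m : 𝓞 F)} * a = Ideal.span {(m' : 𝓞 F)} * a') :
    m = m' ∧ a = a' := by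
  have h1 : m = m' := Nat.dvd_antisymm (dvd_of_eq hm ha' h) (dvd_of_eq hm' ha h.symm)
  subst h1
  exact ⟨rfl, mul_left_cancel₀ (span_ne hm) h⟩

theorem exi (hF : Module.finrank ℚ F = 2) {b : Ideal (𝓞 F)} (hb : b ≠ ⊥) :
    ∃ (m : ℕ) (a : Ideal (𝓞 F)), m ≠ 0 ∧ Prm a ∧ b = Ideal.span {(m : 𝓞 F)} * a := by
  classical
  have hN : Ideal.absNorm b ≠ 0 := by
    rwa [Ne, Ideal.absNorm_eq_zero_iff]
  have hbd : ∀ m : ℕ, Ideal.span {(m : 𝓞 F)} ∣ b → m ≤ Ideal.absNorm b := by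
    rintro m ⟨a, rfl⟩
    rw [map_mul, norm_nat hF] at hN ⊢
    have h1 : Ideal.absNorm a ≠ 0 := right_ne_zero_of_mul hN
    calc m ≤ m ^ 2 := Nat.le_self_pow two_ne_zero m
      _ ≤ m ^ 2 * Ideal.absNorm a := Nat.le_mul_of_pos_right _ (Nat.pos_of_ne_zero h1)
  have h1 : Ideal.span {((1 : ℕ) : 𝓞 F)} ∣ b := by
    rw [Nat.cast_one, Ideal.span_singleton_one, ← Ideal.one_eq_top]
    exact one_dvd b
  have hmem := Nat.findGreatest_spec (P := fun m => Ideal.span {(m : 𝓞 F)} ∣ b)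
    (hbd 1 h1) h1
  set m := Nat.findGreatest (fun m => Ideal.span {(m : 𝓞 F)} ∣ b) (Ideal.absNorm b) with hm
  obtain ⟨a, ha⟩ := hmem
  have hm0 : m ≠ 0 := by
    intro h
    apply hb
    rw [ha, h, Nat.cast_zero, Ideal.span_singleton_zero, Ideal.bot_mul]
  refine ⟨m, a, hm0, ⟨?_, ?_⟩, ha⟩
  · rintro rfl
    exact hb (by rw [ha, Ideal.mul_bot])
  · rintro k ⟨c, hc⟩
    have hk0 : k ≠ 0 := by
      rintro rfl
      apply hb
      rw [ha, hc, Nat.cast_zero, Ideal.span_singleton_zero, Ideal.bot_mul, Ideal.mul_bot]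
    have h3 : Ideal.span {((m * k : ℕ) : 𝓞 F)} ∣ b := ⟨c, by rw [span_mul, mul_assoc, ← hc, ha]⟩
    have h4 : m * k ≤ m := Nat.le_findGreatest (hbd _ h3) h3
    have h5 : k ≤ 1 := by
      by_contra hcon
      have h6 : m * 2 ≤ m * k := Nat.mul_le_mul_left m (by omega)
      omega
    omega

end DcAux

open DcAux in
theorem stDc : StDc := by
  classical
  intro q F _ _ s σ χ cj f n hD hf
  have hF := hD.fin
  have hpos : ∀ {a : Ideal (𝓞 F)}, a ≠ ⊥ → 1 ≤ Ideal.absNorm a := by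
    intro a ha
    have : Ideal.absNorm a ≠ 0 := by rwa [Ne, Ideal.absNorm_eq_zero_iff]
    omega
  -- restrict to the ideals prime to `s`
  have h1 : ∑ a ∈ ids F n, f a =
      ∑ a ∈ (ids F n).filter (fun a => IsCoprime a (Ideal.span {s})), f a := by
    rw [Finset.sum_filter]
    refine Finset.sum_congr rfl fun a _ => ?_
    by_cases h : IsCoprime a (Ideal.span {s})
    · rw [if_pos h]
    · rw [if_neg h, hf a h]
  have h2 : ∑ m ∈ Finset.Icc 1 n, ∑ a ∈ prs s (n / m ^ 2), f (Ideal.span {(m : 𝓞 F)} * a) =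
      ∑ p ∈ ((Finset.Icc 1 n).sigma fun m => prs s (n / m ^ 2)).filter
        (fun p => IsCoprime (Ideal.span {(p.1 : 𝓞 F)} * p.2) (Ideal.span {s})),
        f (Ideal.span {(p.1 : 𝓞 F)} * p.2) := by
    rw [Finset.sum_filter, Finset.sum_sigma]
    refine Finset.sum_congr rfl fun m _ => Finset.sum_congr rfl fun a _ => ?_
    by_cases h : IsCoprime (Ideal.span {(m : 𝓞 F)} * a) (Ideal.span {s})
    · rw [if_pos h]
    · rw [if_neg h, hf _ h]
  rw [h1, h2]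
  symm
  refine Finset.sum_bij (fun p _ => Ideal.span {(p.1 : 𝓞 F)} * p.2) ?_ ?_ ?_ ?_
  · rintro ⟨m, a⟩ hp
    rw [Finset.mem_filter, Finset.mem_sigma] at hp
    obtain ⟨⟨hm, ha⟩, hc⟩ := hp
    rw [Finset.mem_Icc] at hm
    unfold prs at ha
    rw [Finset.mem_filter, mem_ids] at ha
    rw [Finset.mem_filter, mem_ids]
    have hm1 : 1 ≤ m := hm.1
    refine ⟨⟨mul_ne_zero (span_ne (by change m ≠ 0; omega)) ha.1.1, ?_⟩, hc⟩
    change Ideal.absNorm (Ideal.span {(m : 𝓞 F)} * a) ≤ n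
    rw [map_mul, norm_nat hF]
    have h3 := ha.1.2
    rw [Nat.le_div_iff_mul_le (pow_pos hm.1 2)] at h3
    rwa [mul_comm] at h3
  · rintro ⟨m, a⟩ hp ⟨m', a'⟩ hp' heq
    rw [Finset.mem_filter, Finset.mem_sigma] at hp hp'
    obtain ⟨⟨hm, ha⟩, -⟩ := hp
    obtain ⟨⟨hm', ha'⟩, -⟩ := hp'
    rw [Finset.mem_Icc] at hm hm'
    unfold prs at ha ha'
    rw [Finset.mem_filter] at ha ha'
    have hm0 : m ≠ 0 := by
      have := hm.1
      change 1 ≤ m at this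
      omega
    have hm0' : m' ≠ 0 := by
      have := hm'.1
      change 1 ≤ m' at this
      omega
    obtain ⟨h3, h4⟩ := uniq hm0 hm0' ha.2.1 ha'.2.1 heq
    subst h3
    subst h4
    rfl
  · intro b hb
    rw [Finset.mem_filter, mem_ids] at hb
    obtain ⟨⟨hb0, hbn⟩, hbc⟩ := hb
    obtain ⟨m, a, hm0, ha, rfl⟩ := exi hF hb0
    rw [map_mul, norm_nat hF] at hbn
    have ha1 := hpos ha.1
    have hm2 : m ^ 2 ≤ n := le_trans (Nat.le_mul_of_pos_right _ ha1) hbn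
    refine ⟨⟨m, a⟩, ?_, rfl⟩
    rw [Finset.mem_filter, Finset.mem_sigma]
    refine ⟨⟨?_, ?_⟩, hbc⟩
    · rw [Finset.mem_Icc]
      exact ⟨Nat.one_le_iff_ne_zero.2 hm0, (Nat.le_self_pow two_ne_zero m).trans hm2⟩
    · unfold prs
      rw [Finset.mem_filter, mem_ids]
      refine ⟨⟨ha.1, ?_⟩, ha, ?_⟩
      · rw [Nat.le_div_iff_mul_le (pow_pos (Nat.pos_of_ne_zero hm0) 2), mul_comm]
        exact hbn
      · exact hbc.of_mul_left_right
  · intro p _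
    rfl

end Pool.Agent.Lib.MP_7c08ba_nt.CD
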