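import Mathlib
import Pool.Agent.Lib.MP_7c08ba_nt.RZ.Base
import Pool.Agent.Lib.MP_7c08ba_nt.CD.StB

set_option autoImplicit false

/-!
Project CD, module Sp: spacing of the normalised values at primitive ideals of the same class.
-/

namespace Pool.Agent.Lib.MP_7c08ba_nt.CD

open NumberField IsDedekindDomain MeasureTheory Set Pool.Agent.Lib.MP_7c08ba_nt.RZ
  Pool.Agent.Lib.MP_7c08ba_nt.CN Pool.Agent.Lib.MP_7c08ba_nt.CN.TW
open scoped nonZeroDivisors ComplexConjugate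

namespace SpAux

section

variable {q : ℕ} {F : Type} [Field F] [NumberField F] {s : 𝓞 F} {σ : F →+* ℂ}
  {χ : DirichletCharacter ℂ q} {cj : 𝓞 F ≃+* 𝓞 F}

/-- Primitive ideals prime to `s` and equal to their conjugates. -/
theorem self_conj (hB : StBas) (D : Dat q s σ χ cj) {a : Ideal (𝓞 F)} (ha : Prm a)
    (hs : IsCoprime a (Ideal.span {s})) (h : a.map (cj : 𝓞 F →+* 𝓞 F) = a) : a = 1 := by
  obtain ⟨ω, hω⟩ := BaseAux.exists_Om hB D
  have hcoord : ∀ x ∈ a, ∃ A B : ℤ, x = A + B * ω ∧ (A : 𝓞 F) ∈ a ∧ (B : 𝓞 F) ∈ a := by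
    intro x hx
    obtain ⟨A, B, hAB⟩ := hω.gen x
    have hcx : cj x ∈ a := by
      rw [← h]
      exact Ideal.mem_map_of_mem (cj : 𝓞 F →+* 𝓞 F) hx
    have h1 : (B : 𝓞 F) * s ∈ a := by
      have h2 : (B : 𝓞 F) * s = x - cj x := by
        rw [hAB, map_add, map_mul, map_intCast, map_intCast]
        linear_combination (-(B : 𝓞 F)) * hω.sub
      rw [h2]
      exact a.sub_mem hx hcx
    have hBm : (B : 𝓞 F) ∈ a := by
      rw [Ideal.isCoprime_iff_exists] at hs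
      obtain ⟨i, hi, j, hj, hij⟩ := hs
      rw [Ideal.mem_span_singleton] at hj
      obtain ⟨t, rfl⟩ := hj
      have h3 : (B : 𝓞 F) = B * i + t * (B * s) := by linear_combination (-(B : 𝓞 F)) * hij
      rw [h3]
      exact a.add_mem (a.mul_mem_left _ hi) (a.mul_mem_left _ h1)
    refine ⟨A, B, hAB, ?_, hBm⟩
    have h4 : (A : 𝓞 F) = x - ω * B := by rw [hAB]; ring
    rw [h4]
    exact a.sub_mem hx (a.mul_mem_left _ hBm)
  obtain ⟨m, hm⟩ := (IsPrincipalIdealRing.principal (a.comap (Int.castRingHom (𝓞 F)))).principal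
  have hmem : ∀ n : ℤ, (n : 𝓞 F) ∈ a ↔ m ∣ n := by
    intro n
    have h1 : n ∈ a.comap (Int.castRingHom (𝓞 F)) ↔ n ∈ Ideal.span {m} := by
      rw [hm]
    rw [Ideal.mem_span_singleton, Ideal.mem_comap] at h1
    simpa using h1
  have hle : a ≤ Ideal.span {((m.natAbs : ℕ) : 𝓞 F)} := by
    intro x hx
    obtain ⟨A, B, hAB, hA, hB'⟩ := hcoord x hx
    rw [hmem] at hA hB'
    rw [Ideal.mem_span_singleton]
    have hdv : ∀ n : ℤ, m ∣ n → ((m.natAbs : ℕ) : 𝓞 F) ∣ (n : 𝓞 F) := by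
      intro n hn
      have h2 : (m.natAbs : ℤ) ∣ n := Int.natAbs_dvd.2 hn
      obtain ⟨c, rfl⟩ := h2
      exact ⟨(c : 𝓞 F), by rw [Int.cast_mul, Int.cast_natCast]⟩
    rw [hAB]
    exact dvd_add (hdv A hA) ((hdv B hB').mul_right _)
  have h1 := ha.2 m.natAbs (Ideal.dvd_iff_le.2 hle)
  have h2 : ((1 : ℤ) : 𝓞 F) ∈ a := by
    rw [hmem]
    exact Int.natAbs_dvd.1 (by rw [h1]; exact dvd_rfl)
  rw [Int.cast_one] at h2
  rw [Ideal.one_eq_top]
  exact (Ideal.eq_top_iff_one a).2 h2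

theorem map_map_cj (hB : StBas) (D : Dat q s σ χ cj) (a : Ideal (𝓞 F)) :
    (a.map (cj : 𝓞 F →+* 𝓞 F)).map (cj : 𝓞 F →+* 𝓞 F) = a := by
  obtain ⟨-, hcc, -⟩ := hB q F _ _ s σ χ cj D
  rw [Ideal.map_map]
  have : (cj : 𝓞 F →+* 𝓞 F).comp (cj : 𝓞 F →+* 𝓞 F) = RingHom.id _ := by
    ext x
    exact congrArg _ (hcc x)
  rw [this, Ideal.map_id]

/-- If a primitive ideal divides its conjugate, it is trivial. -/
theorem dvd_conj (hB : StBas) (D : Dat q s σ χ cj) {a : Ideal (𝓞 F)} (ha : Prm a)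
    (hs : IsCoprime a (Ideal.span {s})) (h : a ∣ a.map (cj : 𝓞 F →+* 𝓞 F)) : a = 1 := by
  apply self_conj hB D ha hs
  have h1 := Ideal.dvd_iff_le.1 h
  refine le_antisymm h1 ?_
  have h2 := Ideal.map_mono (f := (cj : 𝓞 F →+* 𝓞 F)) h1
  rwa [map_map_cj hB D] at h2

omit [NumberField F] in
theorem prm_of_dvd {a b : Ideal (𝓞 F)} (ha : Prm a) (h : b ∣ a) : Prm b := by
  refine ⟨?_, fun m hm => ha.2 m (hm.trans h)⟩
  rintro rfl
  exact ha.1 (by rw [← Ideal.zero_eq_bot] at h; exact zero_dvd_iff.1 h)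

/-- Primitive ideals `a`, `b` with `a cj(b) = cj(a) b` are equal. -/
theorem eq_of (hB : StBas) (D : Dat q s σ χ cj) {a b : Ideal (𝓞 F)} (ha : Prm a) (hb : Prm b)
    (has : IsCoprime a (Ideal.span {s})) (hbs : IsCoprime b (Ideal.span {s}))
    (h : a * b.map (cj : 𝓞 F →+* 𝓞 F) = a.map (cj : 𝓞 F →+* 𝓞 F) * b) : a = b := by
  obtain ⟨a1, ha1⟩ : a ⊔ b ∣ a := Ideal.dvd_iff_le.2 le_sup_left
  obtain ⟨b1, hb1⟩ : a ⊔ b ∣ b := Ideal.dvd_iff_le.2 le_sup_right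
  have hg0 : a ⊔ b ≠ ⊥ := by
    intro h0
    apply ha.1
    rw [eq_bot_iff, ← h0]
    exact le_sup_left
  generalize hg : a ⊔ b = g at *
  have hcop : IsCoprime a1 b1 := by
    rw [Ideal.isCoprime_iff_sup_eq]
    have h1 : g * (a1 ⊔ b1) = g * ⊤ := by
      rw [Ideal.mul_sup, ← ha1, ← hb1, hg, Ideal.mul_top]
    exact mul_left_cancel₀ hg0 h1
  have hcg0 : g.map (cj : 𝓞 F →+* 𝓞 F) ≠ ⊥ := by
    intro h0
    apply hg0
    have := congrArg (Ideal.map (cj : 𝓞 F →+* 𝓞 F)) h0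
    rwa [map_map_cj hB D, Ideal.map_bot] at this
  have h2 : a1 * b1.map (cj : 𝓞 F →+* 𝓞 F) = a1.map (cj : 𝓞 F →+* 𝓞 F) * b1 := by
    have h3 : (g * g.map (cj : 𝓞 F →+* 𝓞 F)) * (a1 * b1.map (cj : 𝓞 F →+* 𝓞 F)) =
        (g * g.map (cj : 𝓞 F →+* 𝓞 F)) * (a1.map (cj : 𝓞 F →+* 𝓞 F) * b1) := by
      rw [ha1, hb1, Ideal.map_mul, Ideal.map_mul] at h
      calc (g * g.map (cj : 𝓞 F →+* 𝓞 F)) * (a1 * b1.map (cj : 𝓞 F →+* 𝓞 F))
          = g * a1 * (g.map (cj : 𝓞 F →+* 𝓞 F) * b1.map (cj : 𝓞 F →+* 𝓞 F)) := by ring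
        _ = g.map (cj : 𝓞 F →+* 𝓞 F) * a1.map (cj : 𝓞 F →+* 𝓞 F) * (g * b1) := h
        _ = _ := by ring
    exact mul_left_cancel₀ (mul_ne_zero hg0 hcg0) h3
  have e1 : a1 = 1 := by
    apply dvd_conj hB D (prm_of_dvd ha (by rw [ha1]; exact dvd_mul_left _ _))
    · rw [ha1] at has
      exact has.of_mul_left_right
    · have : a1 ∣ a1.map (cj : 𝓞 F →+* 𝓞 F) * b1 := by
        rw [← h2]
        exact dvd_mul_right _ _
      exact hcop.dvd_of_dvd_mul_right this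
  have e2 : b1 = 1 := by
    apply dvd_conj hB D (prm_of_dvd hb (by rw [hb1]; exact dvd_mul_left _ _))
    · rw [hb1] at hbs
      exact hbs.of_mul_left_right
    · have : b1 ∣ a1 * b1.map (cj : 𝓞 F →+* 𝓞 F) := by
        rw [h2]
        exact dvd_mul_left _ _
      exact hcop.symm.dvd_of_dvd_mul_left this
  rw [ha1, hb1, e1, e2]

/-- Ideals of the same class: `a cj(b)` is principal. -/
theorem exists_gen (hB : StBas) (D : Dat q s σ χ cj) (a b : (Ideal (𝓞 F))⁰)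
    (h : ClassGroup.mk0 a = ClassGroup.mk0 b) : ∃ t : 𝓞 F, t ≠ 0 ∧
    (a : Ideal (𝓞 F)) * (b : Ideal (𝓞 F)).map (cj : 𝓞 F →+* 𝓞 F) = Ideal.span {t} := by
  obtain ⟨-, -, -, -, -, -, hN, -⟩ := hB q F _ _ s σ χ cj D
  obtain ⟨x, y, hx, hy, hxy⟩ := ClassGroup.mk0_eq_mk0_iff.1 h
  have hb0 : (b : Ideal (𝓞 F)) ≠ ⊥ := nonZeroDivisors.coe_ne_zero b
  have ha0 : (a : Ideal (𝓞 F)) ≠ ⊥ := nonZeroDivisors.coe_ne_zero a
  have h1 : Ideal.span {x} * ((a : Ideal (𝓞 F)) * (b : Ideal (𝓞 F)).map (cj : 𝓞 F →+* 𝓞 F)) =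
      Ideal.span {y * (Ideal.absNorm (b : Ideal (𝓞 F)) : 𝓞 F)} := by
    rw [← Ideal.span_singleton_mul_span_singleton, ← hN, ← mul_assoc, hxy, mul_assoc]
  have hx0 : (Ideal.span {x} : Ideal (𝓞 F)) ≠ ⊥ := by
    rwa [Ne, Ideal.span_singleton_eq_bot]
  have h2 : (Ideal.span {x} : Ideal (𝓞 F)) ∣ Ideal.span {y * (Ideal.absNorm (b : Ideal (𝓞 F)) : 𝓞 F)} := by
    rw [← h1]
    exact dvd_mul_right _ _
  rw [Ideal.dvd_span_singleton, Ideal.mem_span_singleton] at h2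
  obtain ⟨t, ht⟩ := h2
  rw [ht, ← Ideal.span_singleton_mul_span_singleton] at h1
  have h3 := mul_left_cancel₀ hx0 h1
  refine ⟨t, ?_, h3⟩
  rintro rfl
  have hNb : (Ideal.absNorm (b : Ideal (𝓞 F)) : 𝓞 F) ≠ 0 := by
    rw [Nat.cast_ne_zero, Ne, Ideal.absNorm_eq_zero_iff]
    exact hb0
  rw [mul_zero] at ht
  exact (mul_ne_zero hy hNb) ht

/-- The elementary inequality. -/
theorem cplx {z : ℂ} {N r : ℝ} (hN : 1 ≤ N) (hz : Complex.normSq z = N) {A B : ℤ} (hr : 1 ≤ r)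
    (hA : 2 * z.re = A) (hB : 2 * z.im = B * Real.sqrt r) (hA0 : A ≠ 0) (hB0 : B ≠ 0) :
    1 / Real.sqrt N ≤ ‖z ^ 4 / (N : ℂ) ^ 2 - 1‖ := by
  have hN0 : 0 < N := by linarith
  have hr0 : 0 ≤ r := by linarith
  have hNC : (N : ℂ) ≠ 0 := by exact_mod_cast hN0.ne'
  have h1 : (N : ℂ) = z * conj z := by rw [Complex.mul_conj, hz]
  have h2 : z + conj z = (A : ℂ) := by
    rw [Complex.add_conj]
    exact_mod_cast congrArg (fun x : ℝ => (x : ℂ)) hA
  have h3 : z - conj z = ((B * Real.sqrt r : ℝ) : ℂ) * Complex.I := by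
    rw [Complex.sub_conj, hB]
  have h4 : z ^ 4 / (N : ℂ) ^ 2 - 1 = z ^ 2 * (A : ℂ) *
      (((B * Real.sqrt r : ℝ) : ℂ) * Complex.I) / (N : ℂ) ^ 2 := by
    rw [div_sub_one (pow_ne_zero 2 hNC), ← h2, ← h3]
    congr 1
    rw [h1]
    ring
  have hn : ‖z‖ ^ 2 = N := by rw [← hz, Complex.normSq_eq_norm_sq]
  have h5 : ‖z ^ 4 / (N : ℂ) ^ 2 - 1‖ = |(A : ℝ)| * |(B : ℝ)| * Real.sqrt r / N := by
    rw [h4, norm_div, norm_mul, norm_mul, norm_pow, norm_pow, hn, norm_mul, Complex.norm_I,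
      Complex.norm_real, Complex.norm_real, Complex.norm_intCast, Real.norm_eq_abs,
      Real.norm_eq_abs, abs_mul, abs_of_nonneg (Real.sqrt_nonneg r), abs_of_pos hN0]
    field_simp
  have hA1 : (1 : ℝ) ≤ (A : ℝ) ^ 2 := by
    have : (1 : ℤ) ≤ A ^ 2 := by
      have : 0 < A ^ 2 := by positivity
      omega
    exact_mod_cast this
  have hB1 : (1 : ℝ) ≤ (B : ℝ) ^ 2 := by
    have : (1 : ℤ) ≤ B ^ 2 := by
      have : 0 < B ^ 2 := by positivity
      omega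
    exact_mod_cast this
  have h6 : 4 * N = (A : ℝ) ^ 2 + (B : ℝ) ^ 2 * r := by
    rw [← hz, Complex.normSq_apply, ← hA]
    have h7 : (2 * z.im) ^ 2 = (B : ℝ) ^ 2 * r := by
      rw [hB, mul_pow, Real.sq_sqrt hr0]
    linear_combination h7
  have h8 : N ≤ (|(A : ℝ)| * |(B : ℝ)| * Real.sqrt r) ^ 2 := by
    rw [mul_pow, mul_pow, sq_abs, sq_abs, Real.sq_sqrt hr0]
    have h9 : 1 ≤ (B : ℝ) ^ 2 * r := by nlinarith
    nlinarith [mul_nonneg (sub_nonneg.2 hA1) (sub_nonneg.2 h9)]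
  have h10 : Real.sqrt N ≤ |(A : ℝ)| * |(B : ℝ)| * Real.sqrt r :=
    Real.sqrt_le_iff.2 ⟨by positivity, h8⟩
  rw [h5, div_le_div_iff₀ (Real.sqrt_pos.2 hN0) hN0]
  have h11 := Real.mul_self_sqrt hN0.le
  nlinarith [Real.sqrt_nonneg N, mul_le_mul_of_nonneg_right h10 (Real.sqrt_nonneg N)]

end

end SpAux

open SpAux in
/-- (Sp) -/
theorem stSp (hU : StU) (hB : StBas) : StSp := by
  intro q F _ _ s σ χ cj ψ D hψ a b ha hb has hbs hab hne
  obtain ⟨hcoord, hcc, hcs, -, hmul, hnsq, hN, -, -, hrep, -⟩ := hB q F _ _ s σ χ cj D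
  obtain ⟨u1, -, u3, u4, -, u6⟩ := hU q F _ _ s σ χ cj ψ D hψ
  obtain ⟨t, ht0, ht⟩ := exists_gen hB D a b hab
  have hq7 : 7 ≤ q := by
    have := D.mod
    omega
  -- the norm
  have hb0 : Ideal.absNorm (b : Ideal (𝓞 F)) ≠ 0 := by
    rw [Ne, Ideal.absNorm_eq_zero_iff]
    exact hb.1
  have ha0 : Ideal.absNorm (a : Ideal (𝓞 F)) ≠ 0 := by
    rw [Ne, Ideal.absNorm_eq_zero_iff]
    exact ha.1
  have hNb : Ideal.absNorm ((b : Ideal (𝓞 F)).map (cj : 𝓞 F →+* 𝓞 F)) =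
      Ideal.absNorm (b : Ideal (𝓞 F)) := by
    have h1 := congrArg Ideal.absNorm (hN b)
    rw [map_mul, Ideal.absNorm_span_natCast, RingOfIntegers.rank, D.fin, sq] at h1
    exact mul_left_cancel₀ hb0 h1
  have hNt : Ideal.absNorm (Ideal.span {t}) =
      Ideal.absNorm (a : Ideal (𝓞 F)) * Ideal.absNorm (b : Ideal (𝓞 F)) := by
    rw [← ht, map_mul, hNb]
  -- the coordinates
  obtain ⟨A, B, hAB, -⟩ := hcoord t
  have hcAB : 2 * cj t = A - B * s := by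
    have h1 := congrArg cj hAB
    rw [map_mul, map_ofNat, map_add, map_mul, map_intCast, map_intCast, hcs] at h1
    rw [h1]
    ring
  have h20 : (2 : 𝓞 F) ≠ 0 := two_ne_zero
  have hadd : t + cj t = A := by
    apply mul_left_cancel₀ h20
    linear_combination hAB + hcAB
  have hsub : t - cj t = B * s := by
    apply mul_left_cancel₀ h20
    linear_combination hAB - hcAB
  -- the conjugate ideal
  have hct : (a : Ideal (𝓞 F)).map (cj : 𝓞 F →+* 𝓞 F) * (b : Ideal (𝓞 F)) =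
      Ideal.span {cj t} := by
    have h1 := congrArg (Ideal.map (cj : 𝓞 F →+* 𝓞 F)) ht
    rw [Ideal.map_mul, map_map_cj hB D, Ideal.map_span, Set.image_singleton] at h1
    exact h1
  have hbad : ¬ (Ideal.span {t} : Ideal (𝓞 F)) = Ideal.span {cj t} := by
    intro h1
    rw [← ht, ← hct] at h1
    exact hne (Subtype.ext (eq_of hB D ha hb has hbs h1))
  have hA0 : A ≠ 0 := by
    rintro rfl
    apply hbad
    have h1 : cj t = -t := by
      rw [Int.cast_zero] at hadd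
      linear_combination hadd
    rw [h1, Ideal.span_singleton_neg]
  have hB0 : B ≠ 0 := by
    rintro rfl
    apply hbad
    have h1 : cj t = t := by
      rw [Int.cast_zero, zero_mul] at hsub
      linear_combination -hsub
    rw [h1]
  -- the complex number
  set z : ℂ := σ t with hz
  set N : ℝ := (Ideal.absNorm (a : Ideal (𝓞 F)) : ℝ) * Ideal.absNorm (b : Ideal (𝓞 F)) with hNN
  have hzN : Complex.normSq z = N := by
    rw [hz, hnsq, hNt, hNN]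
    push_cast
    rfl
  have hN1 : 1 ≤ N := by
    have : 1 ≤ Ideal.absNorm (a : Ideal (𝓞 F)) * Ideal.absNorm (b : Ideal (𝓞 F)) :=
      Nat.one_le_iff_ne_zero.2 (mul_ne_zero ha0 hb0)
    rw [hNN]
    exact_mod_cast this
  have hcz : σ (cj t) = conj z := D.conjσ t
  have hre : 2 * z.re = A := by
    have h1 := congrArg (fun x : 𝓞 F => σ (x : F)) hadd
    have h2 : σ ((t + cj t : 𝓞 F) : F) = z + conj z := by
      rw [BaseAux.sig_add, hcz]
    rw [← Complex.ofReal_inj, ← Complex.add_conj, ← h2, hadd, BaseAux.sig_int]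
    simp
  have him : 2 * z.im = B * Real.sqrt q := by
    have h2 : σ ((t - cj t : 𝓞 F) : F) = z - conj z := by
      have h3 : t - cj t = t + (-1 : ℤ) * cj t := by push_cast; ring
      rw [h3, BaseAux.sig_add, BaseAux.sig_mul, BaseAux.sig_int, hcz]
      push_cast
      ring
    rw [hsub, BaseAux.sig_mul, BaseAux.sig_int, D.im, Complex.sub_conj] at h2
    have h3 : (((2 * z.im : ℝ) : ℂ)) * Complex.I = ((B * Real.sqrt q : ℝ) : ℂ) * Complex.I := by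
      rw [← h2]
      push_cast
      ring
    exact_mod_cast mul_right_cancel₀ Complex.I_ne_zero h3
  have key := cplx hN1 hzN (A := A) (B := B) (r := q) (by exact_mod_cast (by omega : 1 ≤ q)) hre him
    hA0 hB0
  refine key.trans (le_of_eq ?_)
  -- the values of the character
  obtain ⟨n, hn⟩ := hrep t
  have hx := u1 a ha.1 has
  have hy := u1 b hb.1 hbs
  have hxy : uu ψ (a : Ideal (𝓞 F)) * conj (uu ψ (b : Ideal (𝓞 F))) =
      (jacobiSym n q : ℂ) * (z / (‖z‖ : ℂ)) := by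
    rw [← u4, ← u3, ht]
    exact u6 t n ht0 hn
  generalize uu ψ (a : Ideal (𝓞 F)) = x at *
  generalize uu ψ (b : Ideal (𝓞 F)) = y at *
  have hnz : ‖z‖ ^ 2 = N := by rw [← hzN, Complex.normSq_eq_norm_sq]
  have hnzC : ((‖z‖ : ℂ)) ^ 2 = (N : ℂ) := by exact_mod_cast congrArg (fun x : ℝ => (x : ℂ)) hnz
  have hz0 : ‖z‖ ≠ 0 := by
    intro h0
    rw [h0] at hnz
    linarith
  have hj : ((jacobiSym n q : ℤ) : ℂ) ^ 4 = 1 := by
    rcases jacobiSym.trichotomy n q with h1 | h1 | h1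
    · exfalso
      rw [h1, Int.cast_zero, zero_mul] at hxy
      have h2 := congrArg norm hxy
      rw [norm_mul, RCLike.norm_conj, hx, hy, norm_zero] at h2
      norm_num at h2
    · rw [h1]; norm_num
    · rw [h1]; norm_num
  have hyy : y * conj y = 1 := by
    rw [Complex.mul_conj, Complex.normSq_eq_norm_sq, hy]
    norm_num
  have h1 : z ^ 4 / (N : ℂ) ^ 2 - 1 = (x ^ 4 - y ^ 4) * conj y ^ 4 := by
    have h2 : (x ^ 4 - y ^ 4) * conj y ^ 4 = (x * conj y) ^ 4 - (y * conj y) ^ 4 := by ring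
    rw [h2, hxy, hyy, mul_pow, hj, div_pow, ← hnzC]
    ring
  rw [h1, norm_mul, norm_pow, RCLike.norm_conj, hy, one_pow, mul_one]

end Pool.Agent.Lib.MP_7c08ba_nt.CD
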