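import Pool.Agent.Lib.MP_7c08ba_nt.CD.AllDer

set_option autoImplicit false

/-!
The zeros at the centre for root number `-1`.
-/

noncomputable section

namespace BKS

open NumberField IsDedekindDomain Pool.Agent.Lib.MP_7c08ba_nt

open Der

/-- The `L`-function vanishes at the centre. -/
def CentralZero {F : Type} [Field F] [NumberField F] {q : ℕ} (φ : Hec F q) : Prop :=
  (∃ Λ : ℂ → ℂ, IsLHec φ Λ) ∧ ∀ Λ : ℂ → ℂ, IsLHec φ Λ → Λ 0 = 0

/-- **Zeros at the centre.** -/
theorem stZero (q : ℕ) (F : Type) [iF : Field F] [iN : NumberField F] (hq : q.Prime) (h16 : q % 16 = 7)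
    (hF : IsQuad F q) (φ : Hec F q)
    (hr4 : ∀ r : ℕ, r.Prime → (r : ℤ) ∣ φ.D → r % 4 = 1) (h8 : φ.D.natAbs % 8 = 1)
    (hroot : rootNo φ = -1) : CentralZero φ := by
  obtain ⟨s, χ, cj, hDat⟩ := exists_dat hq h16 hF φ.σ
  have hcan := isCan φ hDat.sq
  have hT := twA hq h16 φ hr4
  have hk1 := φ.pos
  unfold rootNo at hroot
  have hpar : ¬ (Odd φ.k ↔ decide (φ.D < 0) = false) := by
    rw [decide_eq_false_iff_not]
    rintro ⟨ha, hb⟩
    rcases lt_or_ge φ.D 0 with h | h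
    · rw [Int.sign_eq_neg_one_of_neg h] at hroot
      have he : Even (φ.k - 1) := by
        rcases Nat.even_or_odd (φ.k - 1) with he | ho
        · exact he
        · rw [ho.neg_one_pow] at hroot
          norm_num at hroot
      refine ha ?_ h
      rw [Nat.odd_iff]
      have := Nat.even_iff.1 he
      omega
    · have hD0 : 0 < φ.D := by omega
      rw [Int.sign_eq_one_of_pos hD0] at hroot
      have ho : Odd (φ.k - 1) := by
        rcases Nat.even_or_odd (φ.k - 1) with he | ho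
        · rw [he.neg_one_pow] at hroot
          norm_num at hroot
        · exact ho
      have h1 := Nat.odd_iff.1 (hb (by omega))
      have h2 := Nat.odd_iff.1 ho
      omega
  obtain ⟨Λ, hΛ, hΛ0, -⟩ := CD.All.la q F iF iN s φ.σ χ cj (decide (φ.D < 0)) φ.D.natAbs φ.ψ hDat hT
    h8 hcan φ.k (twp (decide (φ.D < 0)) φ.D.natAbs φ.ψ (2 * φ.k - 1) (by omega)) hk1 hpar
    (fun a => rfl)
  have hL : IsLHec φ Λ := by
    refine (isLHec_iff φ _ (fun v => ?_) Λ).1 hΛ
    show (CD.tw (decide (φ.D < 0)) φ.D.natAbs (Ideal.absNorm v.asIdeal) : ℂ) *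
      φ.ψ v.asIdeal ^ (2 * φ.k - 1) = kro φ.D (nv v) * φ.ψ v.asIdeal ^ (2 * φ.k - 1)
    rw [kro_tw _ h8]
    rfl
  refine ⟨⟨Λ, hL⟩, fun Λ' hL' => ?_⟩
  obtain ⟨e0, -⟩ := unique hL hL'
  rw [← e0]
  exact hΛ0

end BKS
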